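import Pool.Agent.Lib.MP_578f25_an.BdryC

/-!
# MP_578f25_an: boundary Harnack principle in NTA domains
-/

set_option autoImplicit false

namespace Pool.Agent.MP_578f25_an

open MeasureTheory Metric Set Filter Topology InnerProductSpace Laplacian

variable {d : ℕ}

/-- The difference `a u - b w` of two functions vanishing at the boundary, when nonnegative. -/
theorem Van.comb {Ω : Set (E d)} {ξ : E d} {R : ℝ} {u w : E d → ℝ} (hu : Van Ω ξ R u)
    (hw : Van Ω ξ R w) (a b : ℝ) (h : ∀ x ∈ ball ξ R, 0 ≤ a * u x - b * w x) :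
    Van Ω ξ R (a • u - b • w) where
  cont := (hu.cont.const_smul a).sub (hw.cont.const_smul b)
  zero := fun x hx hxΩ => by simp [hu.zero x hx hxΩ, hw.zero x hx hxΩ]
  harm := hu.harm.const_smul.sub hw.harm.const_smul
  nonneg := fun x hx => by simpa using h x hx

/-- Carleson estimate, boundary Harnack principle, Hölder continuity of quotients. -/
theorem bhp (hd : 2 ≤ d) {Ω : Set (E d)} {M r₀ : ℝ} (hN : IsNTA Ω M r₀) :
    ∃ C κ r₁ α : ℝ, 1 ≤ C ∧ 1 ≤ κ ∧ 0 < r₁ ∧ 0 < α ∧ α ≤ 1 ∧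
      ∀ ξ ∈ frontier Ω, ∀ r : ℝ, 0 < r → r ≤ r₁ →
      ∀ A ∈ Ω, dist A ξ < r → M⁻¹ * r < infDist A (frontier Ω) →
      ∀ u : E d → ℝ, Van Ω ξ (κ * r) u →
        (∀ x ∈ ball ξ r, u x ≤ C * u A) ∧
        ∀ w : E d → ℝ, Van Ω ξ (κ * r) w →
          (∀ x ∈ Ω ∩ ball ξ r, u x * w A ≤ C * (w x * u A)) ∧
          (0 < w A → (∀ x ∈ Ω ∩ ball ξ r, 0 < w x) ∧
            ∀ t : ℝ, ∀ x ∈ Ω ∩ ball ξ r, ∀ x' ∈ Ω ∩ ball ξ r, dist x ξ ≤ t → dist x' ξ ≤ t →
              |u x / w x - u x' / w x'| ≤ C * (t / r) ^ α * (u A / w A)) := by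
  have hM := hN.one_lt
  have hM0 : 0 < M := by linarith
  have hr₀ := hN.r₀_pos
  obtain ⟨CT, m, KT, rT, hCT, hm, hKT, hrT, hrT₀, htow⟩ := bdry_tower hd hN
  obtain ⟨CC, KC, rC, hCC, hKC, hrC, hcar⟩ := bdry_carleson hd hN
  obtain ⟨CB, KB, rB, hCB, hKB, hrB, hbhp⟩ := bdry_bhp_ineq hd hN
  set κ : ℝ := KT + KC + KB with hκ
  have hκ0 : 0 < κ := by linarith
  have hκ2 : 2 ≤ κ := by linarith
  set θ : ℝ := 1 - 1 / (2 * CB) with hθ
  have hθhalf : 1 / 2 ≤ θ := by
    have : 1 / (2 * CB) ≤ 1 / 2 := by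
      apply one_div_le_one_div_of_le (by norm_num); linarith
    linarith
  have hθ0 : 0 < θ := by linarith
  have hθ1 : θ < 1 := by
    have : 0 < 1 / (2 * CB) := by positivity
    linarith
  set b : ℝ := κ⁻¹ with hb
  have hb0 : 0 < b := by positivity
  have hb2 : b ≤ 1 / 2 := by
    rw [hb, inv_le_comm₀ hκ0 (by norm_num)]; linarith
  have hb1 : b < 1 := by linarith
  have hlogθ : Real.log θ < 0 := Real.log_neg hθ0 hθ1
  have hlogb : Real.log b < 0 := Real.log_neg hb0 hb1
  set α : ℝ := Real.log θ / Real.log b with hα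
  have hα0 : 0 < α := div_pos_of_neg_of_neg hlogθ hlogb
  have hα1 : α ≤ 1 := by
    rw [hα, div_le_one_of_neg hlogb]
    exact Real.log_le_log hb0 (by linarith)
  have hbα : b ^ α = θ := by
    rw [Real.rpow_def_of_pos hb0, hα, mul_div_cancel₀ _ hlogb.ne, Real.exp_log hθ0]
  refine ⟨CC + 2 * CB, κ, min rT (min rC (min rB (r₀ / 2))), α, by linarith, by linarith,
    by positivity, hα0, hα1, ?_⟩
  intro ξ hξ r hr hrr A hA hAξ hdA u hu
  have hr1 : r ≤ rT := hrr.trans (min_le_left _ _)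
  have hr2 : r ≤ rC := hrr.trans ((min_le_right _ _).trans (min_le_left _ _))
  have hr3 : r ≤ rB :=
    hrr.trans ((min_le_right _ _).trans ((min_le_right _ _).trans (min_le_left _ _)))
  have hr4 : r ≤ r₀ / 2 :=
    hrr.trans ((min_le_right _ _).trans ((min_le_right _ _).trans (min_le_right _ _)))
  have hKTκ : KT ≤ κ := by linarith
  have hKCκ : KC ≤ κ := by linarith
  have hKBκ : KB ≤ κ := by linarith
  have hsubT : ball ξ (KT * r) ⊆ ball ξ (κ * r) := ball_subset_ball (by gcongr)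
  have hsubC : ball ξ (KC * r) ⊆ ball ξ (κ * r) := ball_subset_ball (by gcongr)
  have hsubB : ball ξ (KB * r) ⊆ ball ξ (κ * r) := ball_subset_ball (by gcongr)
  have hκr : r ≤ κ * r := le_mul_of_one_le_left hr.le (by linarith)
  have hsub1 : ball ξ r ⊆ ball ξ (κ * r) := ball_subset_ball hκr
  have hAb : A ∈ ball ξ (κ * r) := hsub1 (mem_ball.mpr hAξ)
  have huA := hu.nonneg A hAb
  refine ⟨fun x hx => ?_, fun w hw => ⟨fun x hx => ?_, fun hwA => ?_⟩⟩
  · have h1 := hcar ξ hξ r hr hr2 A hA hAξ hdA u (hu.mono_ball hsubC) x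
      (ball_subset_ball (by linarith) hx)
    refine h1.trans ?_
    gcongr
    linarith
  · have h1 := hbhp ξ hξ r hr hr3 A hA hAξ hdA u (hu.mono_ball hsubB) w (hw.mono_ball hsubB) x hx
    have hwx := hw.nonneg x (hsub1 hx.2)
    refine h1.trans ?_
    gcongr
    linarith
  -- positivity of `w`
  have hwpos : ∀ x ∈ Ω ∩ ball ξ r, 0 < w x := by
    intro x hx
    have h1 := (htow ξ hξ r hr hr1 A hA hAξ hdA w (hw.mono_ball hsubT).harm
      (fun z hz => (hw.mono_ball hsubT).nonneg z hz.2) x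
      ⟨hx.1, ball_subset_ball (by linarith) hx.2⟩).2
    have hwx := hw.nonneg x (hsub1 hx.2)
    rcases hwx.eq_or_lt with h0 | h0
    · rw [← h0, mul_zero] at h1
      linarith
    · exact h0
  refine ⟨hwpos, ?_⟩
  set D : ℝ := CB * (u A / w A) with hD
  have hD0 : 0 ≤ D := by positivity
  -- oscillation at the scales `b ^ k r`
  have hosc : ∀ k : ℕ, ∃ p p' : ℝ, p' - p ≤ θ ^ k * D ∧
      ∀ x ∈ ball ξ (b ^ k * r), p * w x ≤ u x ∧ u x ≤ p' * w x := by
    intro k
    induction k with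
    | zero =>
      refine ⟨0, D, by simp, ?_⟩
      intro x hx
      rw [pow_zero, one_mul] at hx
      have hux := hu.nonneg x (hsub1 hx)
      refine ⟨by simpa using hux, ?_⟩
      by_cases hxΩ : x ∈ Ω
      · have h1 := hbhp ξ hξ r hr hr3 A hA hAξ hdA u (hu.mono_ball hsubB) w (hw.mono_ball hsubB) x
          ⟨hxΩ, hx⟩
        rw [hD, ← mul_div_assoc, div_mul_eq_mul_div, le_div_iff₀ hwA]
        linarith
      · rw [hu.zero x (hsub1 hx) hxΩ, hw.zero x (hsub1 hx) hxΩ, mul_zero]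
    | succ k ih =>
      obtain ⟨p, p', hpp, hb'⟩ := ih
      set ρ : ℝ := b ^ (k + 1) * r with hρ
      have hρ0 : 0 < ρ := by positivity
      have hκρ : κ * ρ = b ^ k * r := by
        rw [hρ, pow_succ, hb]; field_simp
      have hbk : b ^ k ≤ 1 := pow_le_one₀ hb0.le hb1.le
      have hκρr : κ * ρ ≤ r := by rw [hκρ]; nlinarith
      have hρr : ρ ≤ r := le_trans (le_mul_of_one_le_left hρ0.le (by linarith)) hκρr
      have hsubρ : ball ξ (KB * ρ) ⊆ ball ξ (b ^ k * r) := by
        rw [← hκρ]; exact ball_subset_ball (by gcongr)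
      have hsubρ' : ball ξ (KB * ρ) ⊆ ball ξ (κ * r) :=
        hsubρ.trans (by rw [← hκρ]; exact ball_subset_ball (by gcongr))
      have hsubρ1 : ball ξ ρ ⊆ ball ξ (KB * ρ) :=
        ball_subset_ball (le_mul_of_one_le_left hρ0.le (by linarith))
      obtain ⟨Aρ, hAρ, -, hAρξ, hdAρ⟩ := hN.interior ξ hξ ρ hρ0 (by linarith)
      have hwAρ : 0 < w Aρ := hwpos Aρ ⟨hAρ, ball_subset_ball hρr (mem_ball.mpr hAρξ)⟩
      have huV := hu.mono_ball hsubρ'
      have hwV := hw.mono_ball hsubρ'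
      have hCB0 : 0 < CB := by linarith
      by_cases hcase : (p + p') / 2 * w Aρ ≤ u Aρ
      · -- raise the lower bound
        refine ⟨p + (p' - p) / (2 * CB), p', ?_, ?_⟩
        · calc p' - (p + (p' - p) / (2 * CB)) = θ * (p' - p) := by rw [hθ]; field_simp; ring
            _ ≤ θ * (θ ^ k * D) := by gcongr
            _ = θ ^ (k + 1) * D := by ring
        · intro x hx
          refine ⟨?_, (hb' x (hsubρ (hsubρ1 hx))).2⟩
          by_cases hxΩ : x ∈ Ω
          · have hv : Van Ω ξ (KB * ρ) ((1 : ℝ) • u - p • w) := huV.comb hwV 1 p (fun y hy => by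
              have := (hb' y (hsubρ hy)).1
              linarith)
            have h1 := hbhp ξ hξ ρ hρ0 (hρr.trans hr3) Aρ hAρ hAρξ hdAρ w hwV _ hv x ⟨hxΩ, hx⟩
            simp only [Pi.sub_apply, Pi.smul_apply, smul_eq_mul, one_mul] at h1
            have hwx := hwV.nonneg x (hsubρ1 hx)
            have h2 : w x * ((p' - p) / 2) * w Aρ ≤ CB * (u x - p * w x) * w Aρ := by
              calc w x * ((p' - p) / 2) * w Aρ = w x * ((p + p') / 2 * w Aρ - p * w Aρ) := by ring
                _ ≤ w x * (u Aρ - p * w Aρ) := by gcongr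
                _ ≤ CB * ((u x - p * w x) * w Aρ) := h1
                _ = CB * (u x - p * w x) * w Aρ := by ring
            have h3 := le_of_mul_le_mul_right h2 hwAρ
            have h4 : (p + (p' - p) / (2 * CB)) * w x =
                p * w x + w x * ((p' - p) / 2) / CB := by field_simp
            have h5 : w x * ((p' - p) / 2) / CB ≤ u x - p * w x := by
              rw [div_le_iff₀ hCB0]; linarith
            rw [h4]; linarith
          · rw [huV.zero x (hsubρ1 hx) hxΩ, hwV.zero x (hsubρ1 hx) hxΩ, mul_zero]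
      · push Not at hcase
        refine ⟨p, p' - (p' - p) / (2 * CB), ?_, ?_⟩
        · calc p' - (p' - p) / (2 * CB) - p = θ * (p' - p) := by rw [hθ]; field_simp; ring
            _ ≤ θ * (θ ^ k * D) := by gcongr
            _ = θ ^ (k + 1) * D := by ring
        · intro x hx
          refine ⟨(hb' x (hsubρ (hsubρ1 hx))).1, ?_⟩
          by_cases hxΩ : x ∈ Ω
          · have hv : Van Ω ξ (KB * ρ) (p' • w - (1 : ℝ) • u) := hwV.comb huV p' 1 (fun y hy => by
              have := (hb' y (hsubρ hy)).2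
              linarith)
            have h1 := hbhp ξ hξ ρ hρ0 (hρr.trans hr3) Aρ hAρ hAρξ hdAρ w hwV _ hv x ⟨hxΩ, hx⟩
            simp only [Pi.sub_apply, Pi.smul_apply, smul_eq_mul, one_mul] at h1
            have hwx := hwV.nonneg x (hsubρ1 hx)
            have h2 : w x * ((p' - p) / 2) * w Aρ ≤ CB * (p' * w x - u x) * w Aρ := by
              calc w x * ((p' - p) / 2) * w Aρ = w x * (p' * w Aρ - (p + p') / 2 * w Aρ) := by ring
                _ ≤ w x * (p' * w Aρ - u Aρ) := by gcongr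
                _ ≤ CB * ((p' * w x - u x) * w Aρ) := h1
                _ = CB * (p' * w x - u x) * w Aρ := by ring
            have h3 := le_of_mul_le_mul_right h2 hwAρ
            have h4 : (p' - (p' - p) / (2 * CB)) * w x =
                p' * w x - w x * ((p' - p) / 2) / CB := by field_simp
            have h5 : w x * ((p' - p) / 2) / CB ≤ p' * w x - u x := by
              rw [div_le_iff₀ hCB0]; linarith
            rw [h4]; linarith
          · rw [huV.zero x (hsubρ1 hx) hxΩ, hwV.zero x (hsubρ1 hx) hxΩ, mul_zero]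
  intro t x hx x' hx' hxt hxt'
  have hξΩ : ξ ∉ Ω := fun h => (hN.isOpen.frontier_eq ▸ hξ).2 h
  have hxne : 0 < dist x ξ := by
    rw [dist_pos]
    rintro rfl
    exact hξΩ hx.1
  set s : ℝ := max (dist x ξ) (dist x' ξ) with hs
  have hs0 : 0 < s := lt_of_lt_of_le hxne (le_max_left _ _)
  have hsr : s < r := max_lt (mem_ball.mp hx.2) (mem_ball.mp hx'.2)
  have hst : s ≤ t := max_le hxt hxt'
  obtain ⟨k, hk1, hk2⟩ := bdry_exists_scale hb0 hb1 hs0 hsr
  obtain ⟨p, p', hpp, hb'⟩ := hosc k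
  have hwx := hwpos x hx
  have hwx' := hwpos x' hx'
  obtain ⟨h1, h2⟩ := hb' x (mem_ball.mpr (lt_of_le_of_lt (le_max_left _ _) hk1))
  obtain ⟨h3, h4⟩ := hb' x' (mem_ball.mpr (lt_of_le_of_lt (le_max_right _ _) hk1))
  rw [← le_div_iff₀ hwx] at h1
  rw [← le_div_iff₀ hwx'] at h3
  rw [← div_le_iff₀ hwx] at h2
  rw [← div_le_iff₀ hwx'] at h4
  have h5 : |u x / w x - u x' / w x'| ≤ p' - p := by
    rw [abs_le]; constructor <;> linarith
  have h6 : θ ^ (k + 1) ≤ (t / r) ^ α := by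
    calc θ ^ (k + 1) = (b ^ α) ^ (k + 1) := by rw [hbα]
      _ = (b ^ (k + 1)) ^ α := by
          rw [← Real.rpow_natCast, ← Real.rpow_mul hb0.le, mul_comm,
            Real.rpow_mul hb0.le, Real.rpow_natCast]
      _ ≤ (t / r) ^ α := by
          apply Real.rpow_le_rpow (by positivity) _ hα0.le
          rw [le_div_iff₀ hr]; exact hk2.trans hst
  calc |u x / w x - u x' / w x'| ≤ p' - p := h5
    _ ≤ θ ^ k * D := hpp
    _ = θ⁻¹ * θ ^ (k + 1) * D := by rw [pow_succ]; field_simp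
    _ ≤ 2 * (t / r) ^ α * D := by
        have : θ⁻¹ ≤ 2 := by rw [inv_le_comm₀ hθ0 (by norm_num)]; linarith
        gcongr
    _ = 2 * CB * (t / r) ^ α * (u A / w A) := by rw [hD]; ring
    _ ≤ (CC + 2 * CB) * (t / r) ^ α * (u A / w A) := by
        have : 0 ≤ t := hs0.le.trans hst
        gcongr
        linarith

end Pool.Agent.MP_578f25_an
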