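import Pool.Agent.Lib.MP_578f25_an.Defs

/-!
# MP_578f25_an: geometry of NTA domains

Nearest boundary points, exterior balls, Harnack chains as sequences of points.
-/

set_option autoImplicit false

namespace Pool.Agent.MP_578f25_an

open MeasureTheory Metric Set Filter Topology InnerProductSpace

variable {d : ℕ}

/-- A preconnected set which meets `u` but not its frontier lies in the interior of `u`. -/
theorem Chain.subset_of_frontier {X : Type*} [TopologicalSpace X] {s u : Set X}
    (hs : IsPreconnected s) (hsu : (s ∩ u).Nonempty) (hf : ∀ z ∈ s, z ∉ frontier u) :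
    s ⊆ interior u := by
  have h1 : s ⊆ interior u ∪ (closure u)ᶜ := by
    intro z hz
    by_cases h : z ∈ closure u
    · left
      by_contra h2
      exact hf z hz ⟨h, h2⟩
    · exact Or.inr h
  have h2 : (s ∩ interior u).Nonempty := by
    obtain ⟨z, hz, hzu⟩ := hsu
    rcases h1 hz with h | h
    · exact ⟨z, hz, h⟩
    · exact absurd (subset_closure hzu) h
  refine hs.subset_left_of_subset_union isOpen_interior isClosed_closure.isOpen_compl ?_ h1 h2
  rw [Set.disjoint_left]
  intro z hz hz'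
  exact hz' (subset_closure (interior_subset hz))

theorem Chain.nontrivial (hd : 2 ≤ d) : Nontrivial (E d) := by
  have : Nonempty (Fin d) := ⟨⟨0, by omega⟩⟩
  infer_instance

theorem Chain.frontier_nonempty (hd : 2 ≤ d) {Ω : Set (E d)} {M r₀ : ℝ} (hN : IsNTA Ω M r₀)
    {x : E d} (hx : x ∈ Ω) : (frontier Ω).Nonempty := by
  have := Chain.nontrivial hd
  rw [nonempty_frontier_iff]
  refine ⟨⟨x, hx⟩, ?_⟩
  intro h
  have := hN.isBounded
  rw [h] at this
  exact NormedSpace.unbounded_univ ℝ (E d) this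

/-- Nearest boundary points exist. -/
theorem exists_nearest (hd : 2 ≤ d) {Ω : Set (E d)} {M r₀ : ℝ} (hN : IsNTA Ω M r₀) {x : E d}
    (hx : x ∈ Ω) : ∃ ξ ∈ frontier Ω, dist x ξ = infDist x (frontier Ω) := by
  obtain ⟨ξ, hξ, h⟩ := (isClosed_frontier (s := Ω)).exists_infDist_eq_dist
    (Chain.frontier_nonempty hd hN hx) x
  exact ⟨ξ, hξ, h.symm⟩

theorem infDist_frontier_pos (hd : 2 ≤ d) {Ω : Set (E d)} {M r₀ : ℝ} (hN : IsNTA Ω M r₀)
    {x : E d} (hx : x ∈ Ω) : 0 < infDist x (frontier Ω) := by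
  rw [← (isClosed_frontier (s := Ω)).notMem_iff_infDist_pos (Chain.frontier_nonempty hd hN hx)]
  intro h
  have := hN.isOpen.inter_frontier_eq
  have h2 : x ∈ Ω ∩ frontier Ω := ⟨hx, h⟩
  rw [this] at h2
  exact h2

theorem ball_infDist_subset (hd : 2 ≤ d) {Ω : Set (E d)} {M r₀ : ℝ} (hN : IsNTA Ω M r₀)
    {x : E d} (hx : x ∈ Ω) : ball x (infDist x (frontier Ω)) ⊆ Ω := by
  refine (Chain.subset_of_frontier (convex_ball x _).isPreconnected
    ⟨x, mem_ball_self (infDist_frontier_pos hd hN hx), hx⟩ ?_).trans interior_subset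
  intro z hz hzF
  have h1 : infDist x (frontier Ω) ≤ dist x z := infDist_le_dist_of_mem hzF
  rw [mem_ball, dist_comm] at hz
  linarith

/-- Exterior balls: for `ξ ∈ ∂Ω` and `0 < r < r₀` there is a ball `B(z, M⁻¹ r)` outside `Ω` with
`|z - ξ| < r`. -/
theorem exists_exterior_ball (hd : 2 ≤ d) {Ω : Set (E d)} {M r₀ : ℝ} (hN : IsNTA Ω M r₀)
    {ξ : E d} (hξ : ξ ∈ frontier Ω) {r : ℝ} (hr : 0 < r) (hr₀ : r < r₀) :
    ∃ z, dist z ξ < r ∧ Disjoint (closedBall z (M⁻¹ * r)) (closure Ω) := by
  obtain ⟨A, hA, -, h2, h3⟩ := hN.exterior ξ hξ r hr hr₀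
  have _ := hd
  refine ⟨A, h2, ?_⟩
  rw [Set.disjoint_left]
  intro y hy hy'
  have hM : 0 ≤ M⁻¹ * r := mul_nonneg (inv_nonneg.2 (by linarith [hN.one_lt])) hr.le
  have hsub := Chain.subset_of_frontier (u := closure Ω) (convex_closedBall A (M⁻¹ * r)).isPreconnected
    ⟨y, hy, hy'⟩ ?_
  · exact hA (interior_subset (hsub (mem_closedBall_self hM)))
  · intro z hz hzF
    have h4 : infDist A (frontier Ω) ≤ dist A z :=
      infDist_le_dist_of_mem (frontier_closure_subset hzF)
    rw [mem_closedBall, dist_comm] at hz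
    linarith

/-! ### Sequences of points -/

/-- `y` is reached from `x` by `N` steps of length at most `e` inside `S`. -/
def Chain.Reach (S : Set (E d)) (e : ℝ) (N : ℕ) (x y : E d) : Prop :=
  ∃ p : ℕ → E d, p 0 = x ∧ p N = y ∧ (∀ i ≤ N, p i ∈ S) ∧ ∀ i < N, dist (p (i + 1)) (p i) ≤ e

theorem Chain.Reach.refl {S : Set (E d)} {e : ℝ} {x : E d} (hx : x ∈ S) :
    Chain.Reach S e 0 x x :=
  ⟨fun _ => x, rfl, rfl, fun _ _ => hx, fun i hi => absurd hi (Nat.not_lt_zero i)⟩

theorem Chain.Reach.trans {S : Set (E d)} {e : ℝ} {N N' : ℕ} {x y z : E d}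
    (h : Chain.Reach S e N x y) (h' : Chain.Reach S e N' y z) : Chain.Reach S e (N + N') x z := by
  obtain ⟨p, p0, pN, pS, pe⟩ := h
  obtain ⟨q, q0, qN, qS, qe⟩ := h'
  refine ⟨fun i => if i ≤ N then p i else q (i - N), ?_, ?_, ?_, ?_⟩
  · simp [p0]
  · by_cases hN' : N' = 0
    · subst hN'
      simp only [add_zero, le_refl, if_true]
      rw [pN, ← qN, q0]
    · have : ¬ (N + N' ≤ N) := by omega
      simp only [this, if_false]
      rw [Nat.add_sub_cancel_left, qN]
  · intro i hi
    by_cases h1 : i ≤ N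
    · simp only [h1, if_true]
      exact pS i h1
    · simp only [h1, if_false]
      exact qS _ (by omega)
  · intro i hi
    by_cases h1 : i + 1 ≤ N
    · have h2 : i ≤ N := by omega
      simp only [h1, h2, if_true]
      exact pe i (by omega)
    · by_cases h2 : i ≤ N
      · have h3 : i = N := by omega
        subst h3
        simp only [h1, if_false, le_refl, if_true]
        rw [pN, ← q0, Nat.add_sub_cancel_left]
        exact qe 0 (by omega)
      · simp only [h1, h2, if_false]
        rw [Nat.sub_add_comm (by omega)]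
        exact qe _ (by omega)

theorem Chain.Reach.stay {S : Set (E d)} {e : ℝ} (he : 0 ≤ e) (N : ℕ) {x : E d} (hx : x ∈ S) :
    Chain.Reach S e N x x :=
  ⟨fun _ => x, rfl, rfl, fun _ _ => hx, fun _ _ => by simpa using he⟩

theorem Chain.Reach.pad {S : Set (E d)} {e : ℝ} (he : 0 ≤ e) {N N' : ℕ} {x y : E d}
    (h : Chain.Reach S e N x y) (hN : N ≤ N') : Chain.Reach S e N' x y := by
  have hy : y ∈ S := by
    obtain ⟨p, p0, pN, pS, pe⟩ := h
    rw [← pN]
    exact pS N le_rfl
  have := h.trans (Chain.Reach.stay he (N' - N) hy)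
  rwa [Nat.add_sub_cancel' hN] at this

theorem Chain.Reach.mono {S S' : Set (E d)} {e : ℝ} {N : ℕ} {x y : E d} (hS : S ⊆ S')
    (h : Chain.Reach S e N x y) : Chain.Reach S' e N x y := by
  obtain ⟨p, p0, pN, pS, pe⟩ := h
  exact ⟨p, p0, pN, fun i hi => hS (pS i hi), pe⟩

theorem Chain.Reach.segment {S : Set (E d)} {e : ℝ} {L : ℕ} (hL : 0 < L) {x y : E d}
    (hS : _root_.segment ℝ x y ⊆ S) (hxy : dist x y ≤ L * e) : Chain.Reach S e L x y := by
  have hL' : (0 : ℝ) < L := by exact_mod_cast hL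
  refine ⟨fun i => x + ((i : ℝ) / L) • (y - x), ?_, ?_, ?_, ?_⟩
  · simp
  · have h1 : (L : ℝ) / L = 1 := div_self hL'.ne'
    simp [h1]
  · intro i hi
    apply hS
    rw [segment_eq_image']
    refine ⟨(i : ℝ) / L, ⟨by positivity, ?_⟩, rfl⟩
    rw [div_le_one hL']
    exact_mod_cast hi
  · intro i hi
    rw [dist_add_left, dist_eq_norm, ← sub_smul, norm_smul, ← dist_eq_norm y x, dist_comm y x]
    have h1 : (((i + 1 : ℕ) : ℝ) / L - (i : ℝ) / L) = 1 / L := by
      push_cast; ring
    rw [h1, Real.norm_eq_abs, abs_of_pos (by positivity), div_mul_eq_mul_div, one_mul,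
      div_le_iff₀ hL']
    linarith

/-- Concatenation. -/
theorem Chain.Reach.concat {S : Set (E d)} {e : ℝ} {L : ℕ} {n : ℕ} {z : ℕ → E d}
    (hz0 : z 0 ∈ S) (h : ∀ i < n, Chain.Reach S e L (z i) (z (i + 1))) :
    Chain.Reach S e (n * L) (z 0) (z n) := by
  induction n with
  | zero => rw [Nat.zero_mul]; exact Chain.Reach.refl hz0
  | succ n ih =>
    have h1 := (ih fun i hi => h i (by omega)).trans (h n (by omega))
    rwa [← Nat.succ_mul] at h1

/-- The bounds for one ball of a Harnack chain. -/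
theorem Chain.ball_bounds (hd : 2 ≤ d) {Ω : Set (E d)} {M r₀ : ℝ} (hN : IsNTA Ω M r₀) {c : E d}
    {r : ℝ} (hsub : ball c r ⊆ Ω)
    (h1 : M⁻¹ * diam (ball c r) < setDist (ball c r) (frontier Ω))
    (h2 : setDist (ball c r) (frontier Ω) < M * diam (ball c r)) {z : E d} (hz : z ∈ ball c r) :
    0 < r ∧ 2 * r < M * infDist z (frontier Ω) ∧ infDist z (frontier Ω) < 2 * (M + 1) * r := by
  have := Chain.nontrivial hd
  have hr : 0 < r := lt_of_le_of_lt dist_nonneg (mem_ball.1 hz)
  have hM : 0 < M := by linarith [hN.one_lt]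
  rw [diam_ball_eq c hr.le] at h1 h2
  obtain ⟨ξ, hξ, hξd⟩ := exists_nearest hd hN (hsub hz)
  have hbdd : BddBelow {t : ℝ | ∃ a ∈ ball c r, ∃ b ∈ frontier Ω, t = dist a b} :=
    ⟨0, by rintro _ ⟨a, _, b, _, rfl⟩; exact dist_nonneg⟩
  have h3 : setDist (ball c r) (frontier Ω) ≤ infDist z (frontier Ω) := by
    rw [← hξd]
    exact csInf_le hbdd ⟨z, hz, ξ, hξ, rfl⟩
  obtain ⟨s, ⟨a, ha, b, hb, rfl⟩, hs⟩ := exists_lt_of_csInf_lt
    (s := {t : ℝ | ∃ a ∈ ball c r, ∃ b ∈ frontier Ω, t = dist a b})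
    ⟨_, z, hz, ξ, hξ, rfl⟩ h2
  refine ⟨hr, ?_, ?_⟩
  · have h4 : M⁻¹ * (2 * r) < infDist z (frontier Ω) := lt_of_lt_of_le h1 h3
    rwa [inv_mul_lt_iff₀ hM] at h4
  · have h4 : infDist z (frontier Ω) ≤ dist z b := infDist_le_dist_of_mem hb
    have h5 := dist_triangle z a b
    have h6 : dist z a < r + r := by
      have h7 := dist_triangle z c a
      have h8 : dist c a < r := by rw [dist_comm]; exact ha
      linarith [mem_ball.1 hz]
    nlinarith

/-- Bounded Harnack chains as sequences of points: `x, y` at distance `≥ t / Λ` from the boundary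
and `≤ Λ t` from each other are joined by `N` steps of length `≤ t / (16 Λ')`, staying in
`B(x, Λ' t)` and at distance `≥ t / Λ'` from the boundary; `N`, `Λ'` depend only on `Ω`, `Λ`. -/
theorem chain_points (hd : 2 ≤ d) {Ω : Set (E d)} {M r₀ : ℝ} (hN : IsNTA Ω M r₀) {Λ : ℝ}
    (hΛ : 1 ≤ Λ) :
    ∃ (N : ℕ) (Λ' : ℝ), Λ ≤ Λ' ∧ ∀ (t : ℝ) (x y : E d), 0 < t → x ∈ Ω → y ∈ Ω →
      t / Λ ≤ infDist x (frontier Ω) → t / Λ ≤ infDist y (frontier Ω) → dist x y ≤ Λ * t →
      ∃ p : ℕ → E d, p 0 = x ∧ p N = y ∧ (∀ i ≤ N, p i ∈ Ω ∧ dist (p i) x ≤ Λ' * t ∧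
        t / Λ' ≤ infDist (p i) (frontier Ω)) ∧
        ∀ i < N, dist (p (i + 1)) (p i) ≤ t / (16 * Λ') := by
  have hM1 : 1 < M := hN.one_lt
  have hM0 : 0 < M := by linarith
  have hΛ0 : 0 < Λ := by linarith
  obtain ⟨k, hk1, hk⟩ : ∃ k : ℕ, 1 ≤ k ∧ 2 * Λ ^ 2 < 2 ^ k := by
    obtain ⟨k, hk⟩ := pow_unbounded_of_one_lt (2 * Λ ^ 2) (by norm_num : (1 : ℝ) < 2)
    refine ⟨k + 1, by omega, hk.trans ?_⟩
    rw [pow_succ]
    have : (0 : ℝ) < 2 ^ k := by positivity
    linarith
  set q : ℝ := M * (M + 1) with hq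
  have hq1 : 1 ≤ q := by rw [hq]; nlinarith
  set K : ℕ := ⌊M * k⌋₊ with hK
  have hK1 : 1 ≤ K := by
    rw [hK, Nat.one_le_floor_iff]
    have : (1 : ℝ) ≤ k := by exact_mod_cast hk1
    nlinarith
  have hK1' : (1 : ℝ) ≤ K := by exact_mod_cast hK1
  have hqK : 1 ≤ q ^ K := one_le_pow₀ hq1
  set A : ℝ := q ^ K * (2 * M * Λ) with hA
  have hAΛ : Λ ≤ A := by
    rw [hA]
    have h1 : Λ ≤ 2 * M * Λ := by nlinarith
    calc Λ ≤ 2 * M * Λ := h1
      _ = 1 * (2 * M * Λ) := (one_mul _).symm
      _ ≤ q ^ K * (2 * M * Λ) := mul_le_mul_of_nonneg_right hqK (by positivity)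
  have hA0 : 0 < A := lt_of_lt_of_le hΛ0 hAΛ
  set Λ' : ℝ := Λ + 2 * K * A + M * q ^ K * Λ * (M + 1) with hΛ'
  have hterm : 0 < M * q ^ K * Λ * (M + 1) := by positivity
  have hterm2 : 0 < 2 * K * A := by positivity
  have hΛΛ' : Λ ≤ Λ' := by rw [hΛ']; linarith
  have hΛ'0 : 0 < Λ' := by linarith
  set L : ℕ := ⌈2 * A * 16 * Λ'⌉₊ + 1 with hL
  have hLpos : 0 < L := Nat.succ_pos _
  have hL1 : 2 * A * 16 * Λ' ≤ L := by
    rw [hL]
    push_cast
    linarith [Nat.le_ceil (2 * A * 16 * Λ')]
  have hstep : ∀ t : ℝ, 0 < t → 2 * A * t ≤ L * (t / (16 * Λ')) := by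
    intro t ht
    rw [mul_div_assoc', le_div_iff₀ (by positivity)]
    nlinarith
  refine ⟨K * L, Λ', hΛΛ', ?_⟩
  intro t x y ht hx hy hxt hyt hxy
  set S : Set (E d) := {z | z ∈ Ω ∧ dist z x ≤ Λ' * t ∧ t / Λ' ≤ infDist z (frontier Ω)} with hS
  suffices hmain : Chain.Reach S (t / (16 * Λ')) (K * L) x y by
    obtain ⟨p, p0, pN, pS, pe⟩ := hmain
    exact ⟨p, p0, pN, fun i hi => pS i hi, pe⟩
  have he : 0 ≤ t / (16 * Λ') := by positivity
  rcases le_or_gt (4 * Λ * t) (infDist x (frontier Ω)) with hcase | hcase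
  · -- far from the boundary
    have hseg : _root_.segment ℝ x y ⊆ S := by
      intro z hz
      have h1 : z ∈ closedBall x (Λ * t) := by
        refine (convex_closedBall x (Λ * t)).segment_subset
          (mem_closedBall_self (by positivity)) ?_ hz
        rw [mem_closedBall, dist_comm]
        exact hxy
      rw [mem_closedBall] at h1
      refine ⟨?_, ?_, ?_⟩
      · apply ball_infDist_subset hd hN hx
        rw [mem_ball]
        have : 0 < Λ * t := by positivity
        linarith
      · exact h1.trans (mul_le_mul_of_nonneg_right hΛΛ' ht.le)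
      · have h2 : infDist x (frontier Ω) ≤ infDist z (frontier Ω) + dist x z :=
          infDist_le_infDist_add_dist
        rw [dist_comm] at h2
        have h3 : t / Λ' ≤ t := div_le_self ht.le (by linarith)
        nlinarith
    refine (Chain.Reach.segment hLpos hseg ?_).pad he ?_
    · refine hxy.trans (le_trans ?_ (hstep t ht))
      nlinarith
    · exact Nat.le_mul_of_pos_left L hK1
  · -- Harnack chains
    have hε1 : t / (2 * Λ) < t / Λ := div_lt_div_of_pos_left ht hΛ0 (by linarith)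
    obtain ⟨n, c, r, hn, hxc, hyc, hint, hballs⟩ := hN.chain (t / (2 * Λ)) k x y (by positivity) hk1
      hx hy (hε1.trans_le hxt) (hε1.trans_le hyt) (by
        refine hxy.trans_lt ?_
        rw [mul_div_assoc', lt_div_iff₀ (by positivity)]
        nlinarith)
    have hnK : n + 1 ≤ K := Nat.le_floor hn
    choose w hw using (fun i => show ∃ w, i < n → w ∈ ball (c i) (r i) ∩ ball (c (i + 1)) (r (i + 1))
      from by
        by_cases hi : i < n
        · obtain ⟨w, hw⟩ := hint i hi
          exact ⟨w, fun _ => hw⟩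
        · exact ⟨x, fun h => absurd h hi⟩)
    set z : ℕ → E d := fun j => if j = 0 then x else if j ≤ n then w (j - 1) else y with hz
    have z0 : z 0 = x := by simp [hz]
    have zn : z (n + 1) = y := by simp [hz]
    have zl : ∀ i ≤ n, z i ∈ ball (c i) (r i) := by
      intro i hi
      rcases Nat.eq_zero_or_pos i with rfl | hpos
      · rw [z0]; exact hxc
      · have h1 : z i = w (i - 1) := by simp [hz, hpos.ne', hi]
        have h2 := (hw (i - 1) (by omega)).2
        rw [Nat.sub_add_cancel hpos] at h2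
        rw [h1]; exact h2
    have zr : ∀ i ≤ n, z (i + 1) ∈ ball (c i) (r i) := by
      intro i hi
      rcases Nat.lt_or_ge i n with h | h
      · have h1 : z (i + 1) = w i := by
          simp only [hz, Nat.succ_ne_zero, if_false, Nat.add_sub_cancel]
          rw [if_pos (by omega)]
        rw [h1]
        exact (hw i h).1
      · have : i = n := by omega
        subst this
        rw [zn]; exact hyc
    have hb : ∀ i ≤ n, ∀ v ∈ ball (c i) (r i), 0 < r i ∧ 2 * r i < M * infDist v (frontier Ω) ∧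
        infDist v (frontier Ω) < 2 * (M + 1) * r i := by
      intro i hi v hv
      obtain ⟨h1, h2, h3⟩ := hballs i hi
      exact Chain.ball_bounds hd hN h1 h2 h3 hv
    have hup : ∀ i ≤ n, r i ≤ q ^ i * (2 * M * Λ * t) := by
      intro i
      induction i with
      | zero =>
        intro _
        obtain ⟨-, h1, -⟩ := hb 0 (Nat.zero_le _) x hxc
        rw [pow_zero, one_mul]
        nlinarith
      | succ i ih =>
        intro hi
        have h0 := ih (by omega)
        obtain ⟨-, -, h1⟩ := hb i (by omega) (w i) (hw i (by omega)).1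
        obtain ⟨-, h2, -⟩ := hb (i + 1) hi (w i) (hw i (by omega)).2
        have h3 : r (i + 1) ≤ q * r i := by
          rw [hq]; nlinarith
        calc r (i + 1) ≤ q * r i := h3
          _ ≤ q * (q ^ i * (2 * M * Λ * t)) := mul_le_mul_of_nonneg_left h0 (by linarith)
          _ = q ^ (i + 1) * (2 * M * Λ * t) := by ring
    have hlow : ∀ i ≤ n, t ≤ q ^ i * (2 * Λ * (M + 1)) * r i := by
      intro i
      induction i with
      | zero =>
        intro _
        obtain ⟨-, -, h1⟩ := hb 0 (Nat.zero_le _) x hxc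
        rw [pow_zero, one_mul]
        rw [div_le_iff₀ hΛ0] at hxt
        nlinarith
      | succ i ih =>
        intro hi
        have h0 := ih (by omega)
        obtain ⟨-, h1, -⟩ := hb i (by omega) (w i) (hw i (by omega)).1
        obtain ⟨-, -, h2⟩ := hb (i + 1) hi (w i) (hw i (by omega)).2
        have h3 : r i ≤ q * r (i + 1) := by
          rw [hq]; nlinarith
        calc t ≤ q ^ i * (2 * Λ * (M + 1)) * r i := h0
          _ ≤ q ^ i * (2 * Λ * (M + 1)) * (q * r (i + 1)) :=
            mul_le_mul_of_nonneg_left h3 (by positivity)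
          _ = q ^ (i + 1) * (2 * Λ * (M + 1)) * r (i + 1) := by ring
    have hqi : ∀ i ≤ n, q ^ i ≤ q ^ K := fun i hi => pow_le_pow_right₀ hq1 (by omega)
    have hrA : ∀ i ≤ n, r i ≤ A * t := by
      intro i hi
      refine (hup i hi).trans ?_
      rw [hA, mul_assoc (q ^ K)]
      exact mul_le_mul_of_nonneg_right (hqi i hi) (by positivity)
    have hrB : ∀ i ≤ n, t ≤ q ^ K * (2 * Λ * (M + 1)) * r i := by
      intro i hi
      have hri : 0 < r i := (hb i hi _ (zl i hi)).1
      refine (hlow i hi).trans ?_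
      exact mul_le_mul_of_nonneg_right (mul_le_mul_of_nonneg_right (hqi i hi) (by positivity)) hri.le
    have hdist : ∀ i ≤ n, ∀ u ∈ ball (c i) (r i), ∀ v ∈ ball (c i) (r i),
        dist u v ≤ 2 * A * t := by
      intro i hi u hu v hv
      have h1 := dist_triangle u (c i) v
      rw [dist_comm (c i) v] at h1
      have h2 := hrA i hi
      linarith [mem_ball.1 hu, mem_ball.1 hv]
    have hzx : ∀ i ≤ n + 1, dist (z i) x ≤ i * (2 * A * t) := by
      intro i
      induction i with
      | zero => intro _; rw [z0]; simp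
      | succ i ih =>
        intro hi
        have h0 := ih (by omega)
        have h1 := hdist i (by omega) _ (zr i (by omega)) _ (zl i (by omega))
        have h2 := dist_triangle (z (i + 1)) (z i) x
        push_cast
        linarith
    have hBS : ∀ i ≤ n, ball (c i) (r i) ⊆ S := by
      intro i hi v hv
      refine ⟨(hballs i hi).1 hv, ?_, ?_⟩
      · have h1 := hdist i hi _ hv _ (zl i hi)
        have h2 := dist_triangle v (z i) x
        have h3 := hzx i (by omega)
        have h4 : ((i : ℝ) + 1) ≤ K := by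
          have : i + 1 ≤ K := by omega
          exact_mod_cast this
        have h5 : ((i : ℝ) + 1) * (2 * A * t) ≤ K * (2 * A * t) :=
          mul_le_mul_of_nonneg_right h4 (by positivity)
        have h6 : K * (2 * A * t) ≤ Λ' * t := by
          rw [hΛ']
          nlinarith
        linarith
      · obtain ⟨hr, h1, -⟩ := hb i hi v hv
        have h2 := hrB i hi
        rw [div_le_iff₀ hΛ'0]
        have hδ : 0 ≤ infDist v (frontier Ω) := infDist_nonneg
        have h3 : q ^ K * (2 * Λ * (M + 1)) * r i ≤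
            q ^ K * (Λ * (M + 1)) * (M * infDist v (frontier Ω)) := by
          have : q ^ K * (2 * Λ * (M + 1)) * r i = q ^ K * (Λ * (M + 1)) * (2 * r i) := by ring
          rw [this]
          exact mul_le_mul_of_nonneg_left h1.le (by positivity)
        have h4 : q ^ K * (Λ * (M + 1)) * (M * infDist v (frontier Ω)) ≤
            infDist v (frontier Ω) * Λ' := by
          have : q ^ K * (Λ * (M + 1)) * (M * infDist v (frontier Ω)) =
            infDist v (frontier Ω) * (M * q ^ K * Λ * (M + 1)) := by ring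
          rw [this]
          apply mul_le_mul_of_nonneg_left _ hδ
          rw [hΛ']; linarith
        linarith
    have hreach := Chain.Reach.concat (S := S) (e := t / (16 * Λ')) (L := L) (n := n + 1) (z := z)
      (hBS 0 (Nat.zero_le _) (zl 0 (Nat.zero_le _))) (by
        intro i hi
        have hi' : i ≤ n := by omega
        refine Chain.Reach.segment hLpos ?_ ?_
        · exact ((convex_ball (c i) (r i)).segment_subset (zl i hi') (zr i hi')).trans (hBS i hi')
        · exact (hdist i hi' _ (zl i hi') _ (zr i hi')).trans (hstep t ht))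
    rw [z0, zn] at hreach
    exact hreach.pad he (Nat.mul_le_mul_right L hnK)

end Pool.Agent.MP_578f25_an
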