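import Pool.Agent.Lib.MP_578f25_an.Harm2

/-!
# Weak maximum principle
-/

set_option autoImplicit false

namespace Pool.Agent.MP_578f25_an

open MeasureTheory Metric Set Filter Topology InnerProductSpace Laplacian

variable {d : ℕ}

theorem second_deriv_nonpos {w : E d → ℝ} {x e : E d} (hw : ContDiffAt ℝ 2 w x)
    (hmax : IsLocalMax w x) : fderiv ℝ (fderiv ℝ w) x e e ≤ 0 := by
  by_contra hcon
  push Not at hcon
  let φ : ℝ → ℝ := fun t => w (x + t • e)
  have hl : ∀ t : ℝ, HasDerivAt (fun t : ℝ => x + t • e) e t := by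
    intro t
    have := ((hasDerivAt_id t).smul_const e).const_add x
    simpa using this
  have hcont : ContinuousAt (fun t : ℝ => x + t • e) 0 := (hl 0).continuousAt
  have h0 : x + (0 : ℝ) • e = x := by simp
  have htend : Tendsto (fun t : ℝ => x + t • e) (𝓝 0) (𝓝 x) := by
    have := hcont.tendsto
    simpa using this
  have hdiff : ∀ᶠ y in 𝓝 x, DifferentiableAt ℝ w y :=
    (hw.eventually (by simp)).mono fun y hy => hy.differentiableAt (by norm_num)
  have hd1 : ∀ᶠ t in 𝓝 (0 : ℝ), deriv φ t = fderiv ℝ w (x + t • e) e := by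
    have h1 : ∀ᶠ t in 𝓝 (0 : ℝ), DifferentiableAt ℝ w (x + t • e) := htend.eventually hdiff
    filter_upwards [h1] with t ht
    exact (ht.hasFDerivAt.comp_hasDerivAt t (hl t)).deriv
  have hff : DifferentiableAt ℝ (fderiv ℝ w) x :=
    (hw.fderiv_right (m := 1) (by norm_num)).differentiableAt (by norm_num)
  have hd2 : deriv (deriv φ) 0 = fderiv ℝ (fderiv ℝ w) x e e := by
    rw [Filter.EventuallyEq.deriv_eq hd1]
    have h1 : HasFDerivAt (fderiv ℝ w) (fderiv ℝ (fderiv ℝ w) x) (x + (0 : ℝ) • e) := by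
      rw [h0]; exact hff.hasFDerivAt
    have h2 := h1.comp_hasDerivAt (0 : ℝ) (hl 0)
    have h3 := h2.clm_apply (hasDerivAt_const (0 : ℝ) e)
    have h4 := h3.deriv
    simp at h4
    exact h4
  have hmaxφ : IsLocalMax φ 0 := by
    have : ∀ᶠ t in 𝓝 (0 : ℝ), w (x + t • e) ≤ w x := htend.eventually hmax
    filter_upwards [this] with t ht
    simpa [φ] using ht
  have hφc : ContinuousAt φ 0 := by
    have h1 : ContinuousAt w (x + (0 : ℝ) • e) := by rw [h0]; exact hw.continuousAt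
    exact ContinuousAt.comp h1 hcont
  have hmin : IsLocalMin φ 0 :=
    isLocalMin_of_deriv_deriv_pos (by rw [hd2]; exact hcon) hmaxφ.deriv_eq_zero hφc
  have hconst : φ =ᶠ[𝓝 0] fun _ => φ 0 := by
    filter_upwards [hmin, hmaxφ] with t h1 h2
    exact le_antisymm h2 h1
  have h5 : deriv φ =ᶠ[𝓝 0] fun _ => 0 := by
    filter_upwards [hconst.eventuallyEq_nhds] with t ht
    rw [ht.deriv_eq]
    simp
  rw [← hd2, h5.deriv_eq] at hcon
  simp at hcon

theorem laplacian_nonpos_of_isLocalMax {w : E d → ℝ} {x : E d} (hw : ContDiffAt ℝ 2 w x)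
    (hmax : IsLocalMax w x) : (Δ w) x ≤ 0 := by
  rw [laplacian_eq_sum]
  exact Finset.sum_nonpos fun i _ => second_deriv_nonpos hw hmax

/-- Weak maximum principle. -/
theorem weak_max (hd : 1 ≤ d) {U : Set (E d)} (hU : IsOpen U) (hb : Bornology.IsBounded U)
    {w : E d → ℝ} (hw : ContDiffOn ℝ 2 w U) (hΔ : ∀ x ∈ U, 0 ≤ (Δ w) x)
    (hbd : ∀ ξ ∈ frontier U, ∀ ε > 0, ∀ᶠ x in 𝓝[U] ξ, w x < ε) : ∀ x ∈ U, w x ≤ 0 := by
  intro x₁ hx₁
  by_contra hcon
  push Not at hcon
  have hwat : ∀ x ∈ U, ContDiffAt ℝ 2 w x := fun x hx => hw.contDiffAt (hU.mem_nhds hx)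
  obtain ⟨R, hR⟩ := hb.subset_ball (0 : E d)
  have hRpos : 0 < R := by
    have := hR hx₁
    exact lt_of_le_of_lt dist_nonneg this
  set m := w x₁ with hm
  set c := m / 2 with hc
  set η := m / (4 * R ^ 2) with hη
  have hηpos : 0 < η := by positivity
  have hcpos : 0 < c := by positivity
  let K : Set (E d) := {x | x ∈ U ∧ c ≤ w x}
  have hKclosed : IsClosed K := by
    rw [← isSeqClosed_iff_isClosed]
    intro u x hu hux
    have hxcl : x ∈ closure U := mem_closure_of_tendsto hux (Eventually.of_forall fun n => (hu n).1)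
    by_cases hxU : x ∈ U
    · refine ⟨hxU, ?_⟩
      have := (hwat x hxU).continuousAt.tendsto.comp hux
      exact ge_of_tendsto this (Eventually.of_forall fun n => (hu n).2)
    · exfalso
      have hfr : x ∈ frontier U := ⟨hxcl, fun h => hxU (interior_subset h)⟩
      have h1 : Tendsto u atTop (𝓝[U] x) :=
        tendsto_nhdsWithin_iff.2 ⟨hux, Eventually.of_forall fun n => (hu n).1⟩
      have h2 := h1.eventually (hbd x hfr c hcpos)
      obtain ⟨n, hn⟩ := h2.exists
      exact absurd (hu n).2 (not_le.2 hn)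
  have hKb : Bornology.IsBounded K := hb.subset fun x hx => hx.1
  have hKc : IsCompact K := Metric.isCompact_of_isClosed_isBounded hKclosed hKb
  have hx₁K : x₁ ∈ K := ⟨hx₁, by rw [hc]; linarith⟩
  let g : E d → ℝ := w + η • fun x => ‖x - 0‖ ^ 2
  have hgat : ∀ x ∈ U, ContDiffAt ℝ 2 g x := fun x hx =>
    (hwat x hx).add (((contDiff_normSq (0 : E d)).contDiffAt).const_smul η)
  have hgc : ContinuousOn g K := fun x hx => (hgat x hx.1).continuousAt.continuousWithinAt
  obtain ⟨x, hxK, hxmax⟩ := hKc.exists_isMaxOn ⟨x₁, hx₁K⟩ hgc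
  have hxU : x ∈ U := hxK.1
  have hg1 : m ≤ g x := by
    have h1 : g x₁ ≤ g x := hxmax hx₁K
    have h2 : m ≤ g x₁ := by
      simp only [g, Pi.add_apply, Pi.smul_apply, smul_eq_mul]
      have : 0 ≤ η * ‖x₁ - 0‖ ^ 2 := by positivity
      linarith
    linarith
  have hlm : IsLocalMax g x := by
    filter_upwards [hU.mem_nhds hxU] with y hy
    by_cases hyK : y ∈ K
    · exact hxmax hyK
    · have h1 : w y < c := by
        by_contra h
        exact hyK ⟨hy, not_lt.1 h⟩
      have h2 : ‖y - 0‖ ≤ R := by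
        have := hR hy
        rw [mem_ball, dist_eq_norm] at this
        exact this.le
      have h3 : η * ‖y - 0‖ ^ 2 ≤ η * R ^ 2 := by gcongr
      have h4 : η * R ^ 2 = m / 4 := by
        rw [hη]; field_simp
      have h5 : g y = w y + η * ‖y - 0‖ ^ 2 := rfl
      rw [h5]
      linarith
  have hΔg : (Δ g) x = (Δ w) x + η * (2 * d) := by
    have h1 := ContDiffAt.laplacian_add (hwat x hxU)
      (((contDiff_normSq (0 : E d)).contDiffAt (x := x) (n := 2)).const_smul η)
    have h2 : (Δ (η • fun x : E d => ‖x - 0‖ ^ 2)) x = η * (2 * d) := by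
      rw [laplacian_smul η ((contDiff_normSq (0 : E d)).contDiffAt (x := x) (n := 2)),
        laplacian_normSq]
      simp
    rw [← h2]
    exact h1
  have h6 := laplacian_nonpos_of_isLocalMax (hgat x hxU) hlm
  rw [hΔg] at h6
  have h7 := hΔ x hxU
  have h8 : (1 : ℝ) ≤ d := by exact_mod_cast hd
  have h9 : 0 < η * (2 * d) := by positivity
  linarith

/-- Weak maximum principle, continuous boundary values. -/
theorem weak_max_cont (hd : 1 ≤ d) {U : Set (E d)} (hU : IsOpen U) (hb : Bornology.IsBounded U)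
    {w : E d → ℝ} (hc : ContinuousOn w (closure U)) (hw : ContDiffOn ℝ 2 w U)
    (hΔ : ∀ x ∈ U, 0 ≤ (Δ w) x) (hbd : ∀ x ∈ frontier U, w x ≤ 0) : ∀ x ∈ U, w x ≤ 0 := by
  refine weak_max hd hU hb hw hΔ fun ξ hξ ε hε => ?_
  have h1 : Tendsto w (𝓝[closure U] ξ) (𝓝 (w ξ)) := hc ξ hξ.1
  have h2 : Tendsto w (𝓝[U] ξ) (𝓝 (w ξ)) := h1.mono_left (nhdsWithin_mono _ subset_closure)
  exact h2.eventually (gt_mem_nhds (lt_of_le_of_lt (hbd ξ hξ) hε))

end Pool.Agent.MP_578f25_an
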