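import Pool.Agent.Lib.MP_578f25_an.Harm5

/-!
# Harnack's inequality and gradient estimates
-/

set_option autoImplicit false

namespace Pool.Agent.MP_578f25_an

open MeasureTheory Metric Set Filter Topology InnerProductSpace Laplacian

variable {d : ℕ}

/-- The weight `max 0 (1 - t / ρ ^ 2)`. -/
noncomputable def hat (ρ t : ℝ) : ℝ := max 0 (1 - t / ρ ^ 2)

theorem hat_continuous (ρ : ℝ) : Continuous (hat ρ) := by
  unfold hat
  fun_prop

theorem hat_zero {ρ t : ℝ} (hρ : 0 < ρ) (h : ρ ^ 2 ≤ t) : hat ρ t = 0 := by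
  unfold hat
  have : 1 ≤ t / ρ ^ 2 := by rw [le_div_iff₀ (by positivity)]; linarith
  exact max_eq_left (by linarith)

theorem hat_nonneg (ρ t : ℝ) : 0 ≤ hat ρ t := le_max_left _ _

theorem hat_le_one {ρ t : ℝ} (ht : 0 ≤ t) : hat ρ t ≤ 1 := by
  unfold hat
  have : 0 ≤ t / ρ ^ 2 := by positivity
  exact max_le zero_le_one (by linarith)

theorem hat_lip {ρ s t : ℝ} : |hat ρ s - hat ρ t| ≤ |s - t| / ρ ^ 2 := by
  unfold hat
  have h1 := abs_max_sub_max_le_max (0 : ℝ) (1 - s / ρ ^ 2) 0 (1 - t / ρ ^ 2)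
  have h2 : |(1 - s / ρ ^ 2) - (1 - t / ρ ^ 2)| = |s - t| / ρ ^ 2 := by
    rw [show (1 - s / ρ ^ 2) - (1 - t / ρ ^ 2) = -((s - t) / ρ ^ 2) by ring, abs_neg, abs_div,
      abs_of_nonneg (by positivity : (0 : ℝ) ≤ ρ ^ 2)]
  rw [h2] at h1
  refine h1.trans ?_
  rw [sub_self, abs_zero]
  exact max_le (by positivity) le_rfl

/-- The integral of the unit weight. -/
noncomputable def hatInt (d : ℕ) : ℝ := ∫ y : E d, hat 1 (‖y‖ ^ 2)

theorem hatInt_pos (d : ℕ) : 0 < hatInt d := by
  unfold hatInt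
  have hc : Continuous fun y : E d => hat 1 (‖y‖ ^ 2) := (hat_continuous 1).comp (by fun_prop)
  have hcs : HasCompactSupport fun y : E d => hat 1 (‖y‖ ^ 2) := by
    apply HasCompactSupport.intro (isCompact_closedBall (0 : E d) 1)
    intro y hy
    rw [mem_closedBall, dist_zero_right, not_le] at hy
    apply hat_zero one_pos
    gcongr
  refine hc.integral_pos_of_hasCompactSupport_nonneg_nonzero hcs (fun y => hat_nonneg _ _)
    (x := 0) ?_
  simp [hat]

theorem hat_integral {ρ : ℝ} (hρ : 0 < ρ) :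
    ∫ y : E d, hat ρ (‖y‖ ^ 2) = ρ ^ d * hatInt d := by
  have h := Measure.integral_comp_inv_smul_of_nonneg (volume : Measure (E d))
    (fun y : E d => hat 1 (‖y‖ ^ 2)) hρ.le
  rw [finrank_euclideanSpace_fin] at h
  unfold hatInt
  rw [← smul_eq_mul, ← h]
  congr 1
  ext y
  unfold hat
  rw [norm_smul, norm_inv, Real.norm_eq_abs, abs_of_pos hρ]
  congr 2
  field_simp

theorem integrable_weight {u : E d → ℝ} {x : E d} {R ρ : ℝ} (huc : ContinuousOn u (ball x R))
    {ψ : ℝ → ℝ} (hψ : Continuous ψ) (hs : ∀ t, ρ ^ 2 ≤ t → ψ t = 0) (hρ : 0 < ρ) (hρR : ρ < R) :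
    Integrable fun y => u y * ψ (‖y - x‖ ^ 2) := by
  have h := integrable_scaled (ρ := ρ) (r := 1) huc (k := fun y : E d => ψ (‖y‖ ^ 2))
    (by fun_prop) (fun y hy => hs _ (by gcongr)) (by simpa using hρR)
  have h2 := h.comp_sub_right x
  refine h2.congr (Eventually.of_forall fun y => ?_)
  simp

theorem hat_mean {u : E d → ℝ} {x : E d} {R ρ : ℝ} (hu : HarmonicOnNhd u (ball x R))
    (hρ : 0 < ρ) (hρR : ρ < R) :
    ∫ y, u y * hat ρ (‖y - x‖ ^ 2) = u x * (ρ ^ d * hatInt d) := by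
  rw [mean_value hu hρ hρR (hat_continuous ρ) (fun t ht => hat_zero hρ ht), hat_integral hρ]

theorem harnack_half (d : ℕ) : ∃ C : ℝ, 1 ≤ C ∧ ∀ (u : E d → ℝ) (x : E d) (R : ℝ), 0 < R →
    HarmonicOnNhd u (ball x R) → (∀ y ∈ ball x R, 0 ≤ u y) →
    ∀ y ∈ ball x (R / 2), u y ≤ C * u x := by
  refine ⟨3 * 7 ^ d, ?_, ?_⟩
  · have : (1 : ℝ) ≤ 7 ^ d := one_le_pow₀ (by norm_num)
    linarith
  intro u x R hR hu h0 y hy
  rw [mem_ball, dist_eq_norm] at hy
  have hsub : ball y (R / 2) ⊆ ball x R := by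
    intro z hz
    rw [mem_ball] at hz ⊢
    calc dist z x ≤ dist z y + dist y x := dist_triangle _ _ _
      _ < R / 2 + R / 2 := by rw [dist_eq_norm y x]; gcongr
      _ = R := by ring
  have e1 := hat_mean (hu.mono hsub) (ρ := R / 8) (by positivity) (by linarith)
  have e2 := hat_mean hu (ρ := 7 * R / 8) (by positivity) (by linarith)
  have i1 : Integrable fun z => u z * hat (R / 8) (‖z - y‖ ^ 2) :=
    integrable_weight (ρ := R / 8) ((hu.mono hsub).continuousOn) (hat_continuous _)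
      (fun t ht => hat_zero (by positivity) ht) (by positivity) (by linarith)
  have i2 : Integrable fun z => u z * hat (7 * R / 8) (‖z - x‖ ^ 2) :=
    integrable_weight (ρ := 7 * R / 8) (hu.continuousOn) (hat_continuous _)
      (fun t ht => hat_zero (by positivity) ht) (by positivity) (by linarith)
  have hmono : ∫ z, u z * hat (R / 8) (‖z - y‖ ^ 2) ≤
      ∫ z, (49 / 24) * (u z * hat (7 * R / 8) (‖z - x‖ ^ 2)) := by
    apply integral_mono i1 (i2.const_mul _)
    intro z
    show u z * hat (R / 8) (‖z - y‖ ^ 2) ≤ (49 / 24) * (u z * hat (7 * R / 8) (‖z - x‖ ^ 2))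
    by_cases hz : ‖z - y‖ < R / 8
    · have h1 : ‖z - x‖ < 5 * R / 8 := by
        calc ‖z - x‖ = ‖(z - y) + (y - x)‖ := by congr 1; abel
          _ ≤ ‖z - y‖ + ‖y - x‖ := norm_add_le _ _
          _ < R / 8 + R / 2 := by gcongr
          _ = 5 * R / 8 := by ring
      have huz : 0 ≤ u z := h0 z (by rw [mem_ball, dist_eq_norm]; linarith)
      have h2 : 24 / 49 ≤ hat (7 * R / 8) (‖z - x‖ ^ 2) := by
        unfold hat
        apply le_max_of_le_right
        have : ‖z - x‖ ^ 2 / (7 * R / 8) ^ 2 ≤ 25 / 49 := by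
          rw [div_le_div_iff₀ (by positivity) (by norm_num)]
          have : ‖z - x‖ ^ 2 ≤ (5 * R / 8) ^ 2 := by gcongr
          nlinarith
        linarith
      have h3 : hat (R / 8) (‖z - y‖ ^ 2) ≤ 1 := hat_le_one (by positivity)
      calc u z * hat (R / 8) (‖z - y‖ ^ 2) ≤ u z * 1 := by gcongr
        _ = (49 / 24) * (u z * (24 / 49)) := by ring
        _ ≤ _ := by gcongr
    · have h1 : hat (R / 8) (‖z - y‖ ^ 2) = 0 := by
        apply hat_zero (by positivity)
        have := not_lt.1 hz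
        gcongr
      rw [h1, mul_zero]
      by_cases hzx : ‖z - x‖ < R
      · have huz : 0 ≤ u z := h0 z (by rwa [mem_ball, dist_eq_norm])
        have := hat_nonneg (7 * R / 8) (‖z - x‖ ^ 2)
        positivity
      · have h2 : hat (7 * R / 8) (‖z - x‖ ^ 2) = 0 := by
          apply hat_zero (by positivity)
          have h3 := not_lt.1 hzx
          have : 7 * R / 8 ≤ ‖z - x‖ := by linarith
          gcongr
        rw [h2]; simp
  rw [integral_const_mul, e1, e2] at hmono
  have hI := hatInt_pos d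
  have hux : 0 ≤ u x := h0 x (mem_ball_self hR)
  have h7 : (7 * R / 8) ^ d = 7 ^ d * (R / 8) ^ d := by
    rw [← mul_pow]; congr 1; ring
  rw [h7] at hmono
  have hp : 0 < (R / 8) ^ d * hatInt d := by positivity
  have h8 : u y * ((R / 8) ^ d * hatInt d) ≤
      (49 / 24 * 7 ^ d * u x) * ((R / 8) ^ d * hatInt d) := by
    calc _ ≤ _ := hmono
      _ = _ := by ring
  have h9 := le_of_mul_le_mul_right h8 hp
  calc u y ≤ 49 / 24 * 7 ^ d * u x := h9
    _ ≤ 3 * 7 ^ d * u x := by gcongr; norm_num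

/-- Harnack's inequality. -/
theorem harnack_ball (d : ℕ) : ∃ C : ℝ, 1 ≤ C ∧ ∀ (u : E d → ℝ) (x : E d) (R : ℝ), 0 < R →
    HarmonicOnNhd u (ball x R) → (∀ y ∈ ball x R, 0 ≤ u y) →
    ∀ y ∈ ball x (R / 4), u y ≤ C * u x ∧ u x ≤ C * u y := by
  obtain ⟨C, hC, h⟩ := harnack_half d
  refine ⟨C, hC, fun u x R hR hu h0 y hy => ⟨?_, ?_⟩⟩
  · exact h u x R hR hu h0 y (ball_subset_ball (by linarith) hy)
  · have hsub : ball y (3 * R / 4) ⊆ ball x R := by
      intro z hz
      rw [mem_ball] at hz hy ⊢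
      calc dist z x ≤ dist z y + dist y x := dist_triangle _ _ _
        _ < 3 * R / 4 + R / 4 := by gcongr
        _ = R := by ring
    refine h u y (3 * R / 4) (by positivity) (hu.mono hsub) (fun z hz => h0 z (hsub hz)) x ?_
    rw [mem_ball] at hy ⊢
    rw [dist_comm]
    linarith

/-- Interior Lipschitz and gradient estimates. -/
theorem gradient_bound (d : ℕ) : ∃ C : ℝ, 1 ≤ C ∧ ∀ (u : E d → ℝ) (x : E d) (R S : ℝ), 0 < R →
    HarmonicOnNhd u (ball x R) → (∀ y ∈ ball x R, |u y| ≤ S) →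
    ‖fderiv ℝ u x‖ ≤ C * S / R ∧ ∀ y ∈ ball x (R / 2), |u y - u x| ≤ C * S * dist y x / R := by
  set V : ℝ := (volume : Measure (E d)).real (ball 0 1) with hV
  have hI := hatInt_pos d
  set C : ℝ := 16 * 3 ^ d * V / hatInt d + 1 with hC
  have hV0 : 0 ≤ V := measureReal_nonneg
  have hC1 : 1 ≤ C := by
    have : 0 ≤ 16 * 3 ^ d * V / hatInt d := by positivity
    linarith
  refine ⟨C, hC1, fun u x R S hR hu hS => ?_⟩
  have hS0 : 0 ≤ S := (abs_nonneg _).trans (hS x (mem_ball_self hR))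
  have key : ∀ y ∈ ball x (R / 2), |u y - u x| ≤ C * S * dist y x / R := by
    intro y hy
    rw [mem_ball, dist_eq_norm] at hy
    set ρ := R / 4 with hρ
    have hρ0 : 0 < ρ := by positivity
    have hsub : ball y (R / 2) ⊆ ball x R := by
      intro z hz
      rw [mem_ball] at hz ⊢
      calc dist z x ≤ dist z y + dist y x := dist_triangle _ _ _
        _ < R / 2 + R / 2 := by rw [dist_eq_norm y x]; gcongr
        _ = R := by ring
    have e1 := hat_mean (hu.mono hsub) (ρ := ρ) (by positivity) (by linarith)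
    have e2 := hat_mean hu (ρ := ρ) (by positivity) (by linarith)
    have i1 : Integrable fun z => u z * hat ρ (‖z - y‖ ^ 2) :=
      integrable_weight (ρ := ρ) ((hu.mono hsub).continuousOn) (hat_continuous _)
        (fun t ht => hat_zero (by positivity) ht) (by positivity) (by linarith)
    have i2 : Integrable fun z => u z * hat ρ (‖z - x‖ ^ 2) :=
      integrable_weight (ρ := ρ) (hu.continuousOn) (hat_continuous _)
        (fun t ht => hat_zero (by positivity) ht) (by positivity) (by linarith)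
    have hdiff : (u y - u x) * (ρ ^ d * hatInt d) =
        ∫ z, (u z * hat ρ (‖z - y‖ ^ 2) - u z * hat ρ (‖z - x‖ ^ 2)) := by
      rw [integral_sub i1 i2, e1, e2]; ring
    have hbound : ∀ z, ‖u z * hat ρ (‖z - y‖ ^ 2) - u z * hat ρ (‖z - x‖ ^ 2)‖ ≤
        (ball x (3 * ρ)).indicator (fun _ => S * (4 * ‖y - x‖ / ρ)) z := by
      intro z
      rw [← mul_sub, norm_mul, Real.norm_eq_abs, Real.norm_eq_abs]
      have tri1 : ‖z - x‖ ≤ ‖z - y‖ + ‖y - x‖ := by
        calc ‖z - x‖ = ‖(z - y) + (y - x)‖ := by congr 1; abel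
          _ ≤ _ := norm_add_le _ _
      have tri2 : ‖z - y‖ ≤ ‖z - x‖ + ‖y - x‖ := by
        calc ‖z - y‖ = ‖(z - x) - (y - x)‖ := by congr 1; abel
          _ ≤ _ := norm_sub_le _ _
      by_cases hz : ‖z - y‖ < ρ ∨ ‖z - x‖ < ρ
      · have hzx : ‖z - x‖ < 3 * ρ := by
          rcases hz with hz | hz <;> linarith
        have hsum : ‖z - y‖ + ‖z - x‖ ≤ 4 * ρ := by
          rcases hz with hz | hz <;> linarith
        have hmem : z ∈ ball x (3 * ρ) := by rwa [mem_ball, dist_eq_norm]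
        rw [indicator_of_mem hmem]
        have h1 : |u z| ≤ S := hS z (by rw [mem_ball, dist_eq_norm]; linarith)
        have h2 : |hat ρ (‖z - y‖ ^ 2) - hat ρ (‖z - x‖ ^ 2)| ≤ 4 * ‖y - x‖ / ρ := by
          refine hat_lip.trans ?_
          have h3 : |‖z - y‖ ^ 2 - ‖z - x‖ ^ 2| ≤ ‖y - x‖ * (4 * ρ) := by
            rw [show ‖z - y‖ ^ 2 - ‖z - x‖ ^ 2 = (‖z - y‖ - ‖z - x‖) * (‖z - y‖ + ‖z - x‖) by ring,
              abs_mul]
            have h4 : |‖z - y‖ - ‖z - x‖| ≤ ‖y - x‖ := by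
              rw [abs_le]; constructor <;> linarith
            have h5 : |‖z - y‖ + ‖z - x‖| ≤ 4 * ρ := by
              rw [abs_of_nonneg (by positivity)]; exact hsum
            exact mul_le_mul h4 h5 (abs_nonneg _) (norm_nonneg _)
          calc |‖z - y‖ ^ 2 - ‖z - x‖ ^ 2| / ρ ^ 2 ≤ ‖y - x‖ * (4 * ρ) / ρ ^ 2 := by gcongr
            _ = 4 * ‖y - x‖ / ρ := by field_simp
        exact mul_le_mul h1 h2 (abs_nonneg _) hS0
      · push Not at hz
        have h1 : hat ρ (‖z - y‖ ^ 2) = 0 := hat_zero hρ0 (by gcongr; exact hz.1)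
        have h2 : hat ρ (‖z - x‖ ^ 2) = 0 := hat_zero hρ0 (by gcongr; exact hz.2)
        rw [h1, h2]
        simp only [sub_self, abs_zero, mul_zero]
        exact indicator_nonneg (fun _ _ => by positivity) _
    have hint : |(u y - u x) * (ρ ^ d * hatInt d)| ≤
        ∫ z, (ball x (3 * ρ)).indicator (fun _ => S * (4 * ‖y - x‖ / ρ)) z := by
      rw [hdiff, ← Real.norm_eq_abs]
      apply norm_integral_le_of_norm_le
      · exact (integrable_indicator_iff measurableSet_ball).2
          (integrableOn_const (by exact measure_ball_lt_top.ne))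
      · exact Eventually.of_forall hbound
    rw [integral_indicator measurableSet_ball, setIntegral_const, smul_eq_mul] at hint
    have hvol : (volume : Measure (E d)).real (ball x (3 * ρ)) = (3 * ρ) ^ d * V := by
      rw [Measure.real, Measure.addHaar_ball_of_pos _ _ (by positivity), finrank_euclideanSpace_fin,
        ENNReal.toReal_mul, ENNReal.toReal_ofReal (by positivity)]
      rfl
    rw [hvol, abs_mul, abs_of_pos (by positivity : 0 < ρ ^ d * hatInt d)] at hint
    have h10 : |u y - u x| ≤ ((3 * ρ) ^ d * V * (S * (4 * ‖y - x‖ / ρ))) / (ρ ^ d * hatInt d) := by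
      rw [le_div_iff₀ (by positivity)]
      exact hint
    have h11 : ((3 * ρ) ^ d * V * (S * (4 * ‖y - x‖ / ρ))) / (ρ ^ d * hatInt d) =
        (16 * 3 ^ d * V / hatInt d) * S * ‖y - x‖ / R := by
      rw [mul_pow, hρ]
      field_simp
      ring
    rw [h11] at h10
    rw [dist_eq_norm]
    refine h10.trans ?_
    gcongr
    linarith
  refine ⟨?_, key⟩
  apply norm_fderiv_le_of_lip'
  · positivity
  · filter_upwards [ball_mem_nhds x (by positivity : 0 < R / 2)] with y hy
    have := key y hy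
    rw [Real.norm_eq_abs, ← dist_eq_norm]
    calc _ ≤ _ := this
      _ = _ := by ring

end Pool.Agent.MP_578f25_an
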