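import Pool.Agent.Lib.MP_578f25_an.Harm3
import Pool.Agent.Lib.MP_578f25_an.Harm4
import Pool.Agent.Lib.MP_578f25_an.Harm6

/-!
# Harmonic functions: basic facts

`green_identity`, `mean_value`, `harnack_ball`, `gradient_bound`, `weak_max`, `weak_max_cont`,
`laplacian_comp`, `laplacian_radial`, `newton_contDiffAt`, `newton_harmonic`, `barrier_laplacian`.
-/
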