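import Pool.Agent.Lib.MP_578f25_an.Defs
import Pool.Agent.Lib.MP_578f25_an.Chain
import Pool.Agent.Lib.MP_578f25_an.Harm

/-!
# MP_578f25_an: local Harnack chains and Hölder decay at the boundary
-/

set_option autoImplicit false

namespace Pool.Agent.MP_578f25_an

open MeasureTheory Metric Set Filter Topology InnerProductSpace Laplacian

variable {d : ℕ}

/-- Local Harnack chains: `x, y` at distance `≥ t / Λ` from the boundary and `≤ Λ t` from each
other are comparable for nonnegative functions that are harmonic only in `Ω ∩ B(x, Λ' t)`. -/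
theorem chain_harnack (hd : 2 ≤ d) {Ω : Set (E d)} {M r₀ : ℝ} (hN : IsNTA Ω M r₀) {Λ : ℝ}
    (hΛ : 1 ≤ Λ) :
    ∃ C Λ' : ℝ, 1 ≤ C ∧ 1 ≤ Λ' ∧ ∀ (t : ℝ) (x y : E d), 0 < t → x ∈ Ω → y ∈ Ω →
      t / Λ ≤ infDist x (frontier Ω) → t / Λ ≤ infDist y (frontier Ω) → dist x y ≤ Λ * t →
      ∀ u : E d → ℝ, HarmonicOnNhd u (Ω ∩ ball x (Λ' * t)) →
        (∀ z ∈ Ω ∩ ball x (Λ' * t), 0 ≤ u z) → u x ≤ C * u y ∧ u y ≤ C * u x := by
  obtain ⟨N, K, hK, hch⟩ := chain_points hd hN hΛ
  obtain ⟨C, hC1, hC⟩ := harnack_ball d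
  have hK1 : 1 ≤ K := hΛ.trans hK
  refine ⟨C ^ N, K + 1, one_le_pow₀ hC1, by linarith, ?_⟩
  intro t x y ht hx hy hdx hdy hxy u hu hu0
  obtain ⟨p, hp0, hpN, hp, hstep⟩ := hch t x y ht hx hy hdx hdy hxy
  have hR : 0 < t / (3 * K) := by positivity
  -- one step
  have hone : ∀ i < N, u (p (i + 1)) ≤ C * u (p i) ∧ u (p i) ≤ C * u (p (i + 1)) := by
    intro i hi
    obtain ⟨hpΩ, hpx, hpd⟩ := hp i hi.le
    have hsub1 : ball (p i) (t / (3 * K)) ⊆ Ω := by
      refine (ball_subset_ball ?_).trans (ball_infDist_subset hd hN hpΩ)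
      refine le_trans ?_ hpd
      apply div_le_div_of_nonneg_left ht.le (by positivity)
      linarith
    have hsub2 : ball (p i) (t / (3 * K)) ⊆ ball x ((K + 1) * t) := by
      apply ball_subset_ball'
      have : t / (3 * K) ≤ t := div_le_self ht.le (by linarith)
      nlinarith
    have hsub : ball (p i) (t / (3 * K)) ⊆ Ω ∩ ball x ((K + 1) * t) :=
      subset_inter hsub1 hsub2
    have hmem : p (i + 1) ∈ ball (p i) (t / (3 * K) / 4) := by
      rw [mem_ball]
      refine lt_of_le_of_lt (hstep i hi) ?_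
      rw [div_div]
      apply div_lt_div_of_pos_left ht (by positivity)
      nlinarith
    exact hC u (p i) _ hR (hu.mono hsub) (fun z hz => hu0 z (hsub hz)) _ hmem
  have hC0 : 0 ≤ C := by linarith
  have hall : ∀ i ≤ N, u (p 0) ≤ C ^ i * u (p i) ∧ u (p i) ≤ C ^ i * u (p 0) := by
    intro i
    induction i with
    | zero => intro _; simp
    | succ i ih =>
      intro hi
      obtain ⟨h1, h2⟩ := ih (by omega)
      obtain ⟨h3, h4⟩ := hone i (by omega)
      constructor
      · calc u (p 0) ≤ C ^ i * u (p i) := h1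
          _ ≤ C ^ i * (C * u (p (i + 1))) := by
              apply mul_le_mul_of_nonneg_left h4 (by positivity)
          _ = C ^ (i + 1) * u (p (i + 1)) := by ring
      · calc u (p (i + 1)) ≤ C * u (p i) := h3
          _ ≤ C * (C ^ i * u (p 0)) := by
              apply mul_le_mul_of_nonneg_left h2 hC0
          _ = C ^ (i + 1) * u (p 0) := by ring
  have := hall N le_rfl
  rw [hp0, hpN] at this
  exact this

/-- One step of the decay at the boundary, for functions that need not be nonnegative. -/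
theorem bdry_decay_step (hd : 2 ≤ d) {Ω : Set (E d)} {M r₀ : ℝ} (hN : IsNTA Ω M r₀) :
    ∃ c : ℝ, 0 < c ∧ c ≤ 1 / 4 ∧ ∀ ξ ∈ frontier Ω, ∀ R : ℝ, 0 < R → R < r₀ →
      ∀ u : E d → ℝ, ContinuousOn u (ball ξ R) → (∀ x ∈ ball ξ R, x ∉ Ω → u x ≤ 0) →
        HarmonicOnNhd u (Ω ∩ ball ξ R) → ∀ S : ℝ, 0 ≤ S → (∀ x ∈ ball ξ R, u x ≤ S) →
        ∀ x ∈ ball ξ (R / 8), u x ≤ (1 - c) * S := by
  have hM := hN.one_lt
  have hM0 : 0 < M := by linarith
  set q : ℝ := M⁻¹ / 2 with hq
  have hq0 : 0 < q := by positivity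
  have hq1 : q ≤ 1 / 2 := by
    have : M⁻¹ ≤ 1 := inv_le_one_of_one_le₀ hM.le
    rw [hq]; linarith
  have hcle : q ^ d ≤ 1 / 4 := by
    calc q ^ d ≤ q ^ 2 := pow_le_pow_of_le_one hq0.le (by linarith) hd
      _ ≤ (1 / 2) ^ 2 := by gcongr
      _ = 1 / 4 := by norm_num
  have hclt : (q / 2) ^ d < q ^ d := by
    apply pow_lt_pow_left₀ (by linarith) (by positivity) (by omega)
  refine ⟨q ^ d - (q / 2) ^ d, by linarith, by
    have : 0 < (q / 2) ^ d := by positivity
    linarith, ?_⟩
  intro ξ hξ R hR hR₀ u hcont hoff hharm S hS huS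
  obtain ⟨z, hzξ, hdisj⟩ := exists_exterior_ball hd hN hξ (r := R / 8) (by positivity)
    (by linarith)
  set ρ : ℝ := M⁻¹ * (R / 8) with hρ
  have hρ0 : 0 < ρ := by positivity
  -- points of the closure of `Ω` are at distance `> ρ` from `z`
  have hfar : ∀ x ∈ closure Ω, ρ < ‖x - z‖ := by
    intro x hx
    by_contra hcon
    push Not at hcon
    have hmem : x ∈ closedBall z ρ := by rw [mem_closedBall, dist_eq_norm]; exact hcon
    exact (Set.disjoint_left.mp hdisj hmem) hx
  set U : Set (E d) := Ω ∩ ball z (R / 2) with hU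
  have hUo : IsOpen U := hN.isOpen.inter isOpen_ball
  have hUcl : closure U ⊆ closure Ω ∩ closedBall z (R / 2) := by
    refine subset_inter (closure_mono inter_subset_left) ?_
    exact (closure_mono inter_subset_right).trans closure_ball_subset_closedBall
  have hcb : closedBall z (R / 2) ⊆ ball ξ R := by
    intro y hy
    rw [mem_closedBall] at hy
    rw [mem_ball]
    calc dist y ξ ≤ dist y z + dist z ξ := dist_triangle _ _ _
      _ < R := by linarith
  have hUb : U ⊆ Ω ∩ ball ξ R := by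
    intro y hy
    exact ⟨hy.1, hcb (ball_subset_closedBall hy.2)⟩
  have hUne : ∀ x ∈ closure U, x ≠ z := by
    intro x hx hxz
    have := hfar x (hUcl hx).1
    rw [hxz, sub_self, norm_zero] at this
    linarith
  set b : E d → ℝ := fun y => (‖y - z‖ ^ d)⁻¹ with hb
  set w : E d → ℝ := fun y => u y + (S * ρ ^ d) • b y + (- S * ρ ^ d * ((R / 2) ^ d)⁻¹ - S) with hw
  have hbC : ∀ x ∈ closure U, ContDiffAt ℝ 2 b x ∧ 0 ≤ (Δ b) x := fun x hx =>
    barrier_laplacian (by omega) (hUne x hx)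
  have hmax : ∀ x ∈ U, w x ≤ 0 := by
    apply weak_max_cont (by omega) hUo
    · exact hN.isBounded.subset inter_subset_left
    · -- continuity
      have h1 : ContinuousOn u (closure U) := hcont.mono (hUcl.trans (inter_subset_right.trans hcb))
      have h2 : ContinuousOn b (closure U) := fun x hx => (hbC x hx).1.continuousAt.continuousWithinAt
      have h3 : ContinuousOn (fun y => (S * ρ ^ d) • b y) (closure U) :=
        h2.const_smul (S * ρ ^ d)
      have h4 : ContinuousOn (fun y => u y + (S * ρ ^ d) • b y) (closure U) := h1.add h3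
      exact h4.add continuousOn_const
    · intro x hx
      apply ContDiffAt.contDiffWithinAt
      exact ((hharm x (hUb hx)).1.add ((hbC x (subset_closure hx)).1.const_smul _)).add
        contDiffAt_const
    · intro x hx
      have hux := hharm x (hUb hx)
      have hbx := hbC x (subset_closure hx)
      have e1 : (Δ u) x = 0 := hux.2.self_of_nhds
      have hb2 : ContDiffAt ℝ 2 ((S * ρ ^ d) • b) x := ContDiffAt.const_smul (f := b) (S * ρ ^ d) hbx.1
      have e2 : (Δ w) x = (Δ u) x + (S * ρ ^ d) * (Δ b) x := by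
        have hwe : w = (u + (S * ρ ^ d) • b) +
            (fun _ => (- S * ρ ^ d * ((R / 2) ^ d)⁻¹ - S)) := by
          funext y; simp [hw]
        have hub : ContDiffAt ℝ 2 (u + (S * ρ ^ d) • b) x := ContDiffAt.add hux.1 hb2
        rw [hwe, ContDiffAt.laplacian_add hub contDiffAt_const,
          ContDiffAt.laplacian_add hux.1 hb2, laplacian_smul _ hbx.1]
        have : (Δ (fun _ : E d => (- S * ρ ^ d * ((R / 2) ^ d)⁻¹ - S))) x = 0 := by simp
        rw [this]; simp
      rw [e2, e1]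
      have := hbx.2
      positivity
    · intro x hx
      have hxcl : x ∈ closure U := frontier_subset_closure hx
      have hxU : x ∉ U := by
        rw [frontier, hUo.interior_eq] at hx
        exact hx.2
      have hxf := hfar x (hUcl hxcl).1
      have hxb := (hUcl hxcl).2
      have hn0 : 0 < ‖x - z‖ := by linarith
      by_cases hxΩ : x ∈ Ω
      · have hxz : ‖x - z‖ = R / 2 := by
          apply le_antisymm
          · rw [mem_closedBall, dist_eq_norm] at hxb; exact hxb
          · by_contra hcon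
            push Not at hcon
            exact hxU ⟨hxΩ, by rw [mem_ball, dist_eq_norm]; exact hcon⟩
        have := huS x (hcb hxb)
        simp only [hw, hb, hxz, smul_eq_mul]
        linarith
      · have h1 := hoff x (hcb hxb) hxΩ
        have h2 : ρ ^ d * (‖x - z‖ ^ d)⁻¹ ≤ 1 := by
          rw [← div_eq_mul_inv, div_le_one (by positivity)]
          gcongr
        have h3 : 0 ≤ S * ρ ^ d * ((R / 2) ^ d)⁻¹ := by positivity
        simp only [hw, hb, smul_eq_mul]
        nlinarith
  intro x hx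
  have hxR : x ∈ ball ξ R := ball_subset_ball (by linarith) hx
  have hcS : 0 ≤ (1 - (q ^ d - (q / 2) ^ d)) * S := by
    have : 0 < (q / 2) ^ d := by positivity
    apply mul_nonneg _ hS
    linarith
  by_cases hxΩ : x ∈ Ω
  · have hxz : ‖x - z‖ < R / 4 := by
      rw [← dist_eq_norm]
      rw [mem_ball] at hx
      calc dist x z ≤ dist x ξ + dist ξ z := dist_triangle _ _ _
        _ < R / 4 := by rw [dist_comm ξ z]; linarith
    have hxU : x ∈ U := ⟨hxΩ, by rw [mem_ball, dist_eq_norm]; linarith⟩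
    have h1 := hmax x hxU
    have hn0 : 0 < ‖x - z‖ := by
      have := hfar x (subset_closure hxΩ)
      linarith
    have h2 : q ^ d ≤ ρ ^ d * (‖x - z‖ ^ d)⁻¹ := by
      have : q ^ d = ρ ^ d * ((R / 4) ^ d)⁻¹ := by
        rw [← inv_pow, ← mul_pow]
        congr 1
        rw [hq, hρ]; field_simp; norm_num
      rw [this]
      gcongr
    have h3 : (q / 2) ^ d = ρ ^ d * ((R / 2) ^ d)⁻¹ := by
      rw [← inv_pow, ← mul_pow]
      congr 1
      rw [hq, hρ]; field_simp; norm_num
    simp only [hw, hb, smul_eq_mul] at h1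
    rw [h3]
    nlinarith
  · exact (hoff x hxR hxΩ).trans hcS

/-- Geometric scales. -/
theorem bdry_exists_scale {b s R : ℝ} (hb0 : 0 < b) (hb1 : b < 1) (hs : 0 < s) (hsR : s < R) :
    ∃ k : ℕ, s < b ^ k * R ∧ b ^ (k + 1) * R ≤ s := by
  classical
  have hR : 0 < R := hs.trans hsR
  have hex : ∃ k : ℕ, b ^ (k + 1) * R ≤ s := by
    obtain ⟨n, hn⟩ := exists_pow_lt_of_lt_one (div_pos hs hR) hb1
    refine ⟨n, ?_⟩
    rw [lt_div_iff₀ hR] at hn
    have h1 : b ^ (n + 1) ≤ b ^ n := pow_le_pow_of_le_one hb0.le hb1.le (by omega)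
    nlinarith
  refine ⟨Nat.find hex, ?_, Nat.find_spec hex⟩
  rcases Nat.eq_zero_or_pos (Nat.find hex) with h0 | h0
  · rw [h0]; simpa using hsR
  · obtain ⟨j, hj⟩ : ∃ j, Nat.find hex = j + 1 := ⟨Nat.find hex - 1, by omega⟩
    have := Nat.find_min hex (m := j) (by omega)
    push Not at this
    rw [hj]; exact this

theorem Van.mono_ball {Ω : Set (E d)} {ξ ξ' : E d} {R R' : ℝ} {u : E d → ℝ} (h : Van Ω ξ R u)
    (hs : ball ξ' R' ⊆ ball ξ R) : Van Ω ξ' R' u where
  cont := h.cont.mono hs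
  zero := fun x hx => h.zero x (hs hx)
  harm := h.harm.mono (inter_subset_inter_right _ hs)
  nonneg := fun x hx => h.nonneg x (hs hx)

/-- Hölder decay at the boundary. -/
theorem decay (hd : 2 ≤ d) {Ω : Set (E d)} {M r₀ : ℝ} (hN : IsNTA Ω M r₀) :
    ∃ C α : ℝ, 1 ≤ C ∧ 0 < α ∧ α ≤ 1 ∧ ∀ ξ ∈ frontier Ω, ∀ R : ℝ, 0 < R → R < r₀ →
      ∀ u : E d → ℝ, Van Ω ξ R u → ∀ S : ℝ, (∀ x ∈ ball ξ R, u x ≤ S) →
        ∀ x ∈ ball ξ R, u x ≤ C * (dist x ξ / R) ^ α * S := by
  obtain ⟨c, hc0, hc4, hstep⟩ := bdry_decay_step hd hN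
  have hc1 : 0 < 1 - c := by linarith
  have hlog : Real.log (1 - c) < 0 := Real.log_neg hc1 (by linarith)
  have hlog8 : 0 < Real.log 8 := Real.log_pos (by norm_num)
  have hinv : 1 ≤ (1 - c)⁻¹ := (one_le_inv₀ hc1).mpr (by linarith)
  refine ⟨(1 - c)⁻¹, - Real.log (1 - c) / Real.log 8, hinv, by
    apply div_pos (by linarith) hlog8, ?_, ?_⟩
  · rw [div_le_one hlog8, ← Real.log_inv]
    apply Real.log_le_log (by positivity)
    rw [inv_le_comm₀ hc1 (by norm_num)]
    linarith
  set α : ℝ := - Real.log (1 - c) / Real.log 8 with hα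
  have hα0 : 0 < α := div_pos (by linarith) hlog8
  have h8 : (1 / 8 : ℝ) ^ α = 1 - c := by
    rw [Real.rpow_def_of_pos (by norm_num)]
    rw [show Real.log (1 / 8 : ℝ) = - Real.log 8 by rw [one_div, Real.log_inv]]
    rw [hα, show -Real.log 8 * (-Real.log (1 - c) / Real.log 8) = Real.log (1 - c) by
      field_simp]
    exact Real.exp_log hc1
  intro ξ hξ R hR hR₀ u hu S huS
  have hξu : u ξ = 0 := by
    apply hu.zero ξ (mem_ball_self hR)
    intro h
    exact (hN.isOpen.frontier_eq ▸ hξ).2 h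
  have hS : 0 ≤ S := by
    have := huS ξ (mem_ball_self hR)
    rw [hξu] at this
    exact this
  have hit : ∀ k : ℕ, ∀ x ∈ ball ξ ((1 / 8) ^ k * R), u x ≤ (1 - c) ^ k * S := by
    intro k
    induction k with
    | zero => intro x hx; simp at hx ⊢; exact huS x hx
    | succ k ih =>
      intro x hx
      have hk : (1 / 8 : ℝ) ^ k ≤ 1 := pow_le_one₀ (by norm_num) (by norm_num)
      have hkR : (1 / 8 : ℝ) ^ k * R ≤ R := by nlinarith
      have hV : Van Ω ξ ((1 / 8) ^ k * R) u := hu.mono_ball (ball_subset_ball hkR)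
      have := hstep ξ hξ ((1 / 8) ^ k * R) (by positivity) (by linarith) u hV.cont
        (fun y hy hyΩ => (hV.zero y hy hyΩ).le) hV.harm ((1 - c) ^ k * S) (by positivity) ih x
        (by
          have : (1 / 8 : ℝ) ^ k * R / 8 = (1 / 8) ^ (k + 1) * R := by ring
          rw [this]; exact hx)
      calc u x ≤ (1 - c) * ((1 - c) ^ k * S) := this
        _ = (1 - c) ^ (k + 1) * S := by ring
  intro x hx
  rcases (dist_nonneg (x := x) (y := ξ)).eq_or_lt with h0 | h0
  · have hxξ : x = ξ := by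
      rw [eq_comm] at h0
      exact dist_eq_zero.mp h0
    rw [hxξ, hξu, dist_self, zero_div, Real.zero_rpow hα0.ne']
    simp
  · obtain ⟨k, hk1, hk2⟩ := bdry_exists_scale (b := 1 / 8) (by norm_num) (by norm_num) h0
      (mem_ball.mp hx)
    have h1 := hit k x (mem_ball.mpr hk1)
    have h2 : (1 - c) ^ (k + 1) ≤ (dist x ξ / R) ^ α := by
      calc (1 - c) ^ (k + 1) = ((1 / 8 : ℝ) ^ α) ^ (k + 1) := by rw [h8]
        _ = ((1 / 8 : ℝ) ^ (k + 1)) ^ α := by
            rw [← Real.rpow_natCast, ← Real.rpow_mul (by norm_num), mul_comm,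
              Real.rpow_mul (by norm_num), Real.rpow_natCast]
        _ ≤ (dist x ξ / R) ^ α := by
            apply Real.rpow_le_rpow (by positivity) _ hα0.le
            rw [le_div_iff₀ hR]; exact hk2
    calc u x ≤ (1 - c) ^ k * S := h1
      _ = (1 - c)⁻¹ * (1 - c) ^ (k + 1) * S := by
          rw [pow_succ]; field_simp
      _ ≤ (1 - c)⁻¹ * (dist x ξ / R) ^ α * S := by
          gcongr

end Pool.Agent.MP_578f25_an
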