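import Pool.Agent.Lib.MP_578f25_an.BdryA

/-!
# MP_578f25_an: the tower argument and the Carleson estimate
-/

set_option autoImplicit false

namespace Pool.Agent.MP_578f25_an

open MeasureTheory Metric Set Filter Topology InnerProductSpace Laplacian

variable {d : ℕ}

/-- Nonnegative harmonic functions near the boundary compare to the corkscrew value up to a power
of the distance to the boundary. -/
theorem bdry_tower (hd : 2 ≤ d) {Ω : Set (E d)} {M r₀ : ℝ} (hN : IsNTA Ω M r₀) :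
    ∃ (C : ℝ) (m : ℕ) (K r₂ : ℝ), 1 ≤ C ∧ 1 ≤ m ∧ 8 ≤ K ∧ 0 < r₂ ∧ 16 * r₂ ≤ r₀ ∧
      ∀ ξ ∈ frontier Ω, ∀ r : ℝ, 0 < r → r ≤ r₂ →
      ∀ A ∈ Ω, dist A ξ < r → M⁻¹ * r < infDist A (frontier Ω) →
      ∀ u : E d → ℝ, HarmonicOnNhd u (Ω ∩ ball ξ (K * r)) → (∀ z ∈ Ω ∩ ball ξ (K * r), 0 ≤ u z) →
      ∀ x ∈ Ω ∩ ball ξ (8 * r), u x ≤ C * (r / infDist x (frontier Ω)) ^ m * u A ∧
        u A ≤ C * (r / infDist x (frontier Ω)) ^ m * u x := by
  have hM := hN.one_lt
  have hM0 : 0 < M := by linarith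
  have hr₀ := hN.r₀_pos
  obtain ⟨C₀, L, hC₀, hL, hch⟩ := chain_harnack hd hN (Λ := 41 * M) (by linarith)
  obtain ⟨m, hm⟩ := pow_unbounded_of_one_lt C₀ (one_lt_two (α := ℝ))
  have hm1 : C₀ ≤ 2 ^ (m + 1) := by
    have : (2 : ℝ) ^ m ≤ 2 ^ (m + 1) := pow_le_pow_right₀ (by norm_num) (by omega)
    linarith
  clear hm
  generalize m + 1 = m at hm1
  have hm1' : C₀ ≤ 2 ^ (m + 1) := by
    have : (2 : ℝ) ^ m ≤ 2 ^ (m + 1) := pow_le_pow_right₀ (by norm_num) (by omega)
    linarith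
  set P : ℝ := 2 ^ (m + 1) with hP
  have hP1 : 1 ≤ P := one_le_pow₀ (by norm_num)
  refine ⟨32 ^ (m + 1), m + 1, 40 * M + 8 * L, r₀ / (16 * M), one_le_pow₀ (by norm_num), by omega,
    by linarith, by positivity, ?_, ?_⟩
  · rw [← mul_div_assoc, div_le_iff₀ (by positivity)]
    nlinarith
  intro ξ hξ r hr hrr A hA hAξ hdA u hu hu0
  have hrM : 16 * M * r ≤ r₀ := by
    rw [le_div_iff₀ (by positivity)] at hrr
    linarith
  have huA : 0 ≤ u A := hu0 A ⟨hA, by rw [mem_ball]; nlinarith⟩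
  have hux0 : ∀ x ∈ Ω, dist x ξ ≤ 40 * M * r → 0 ≤ u x := fun x hx hxξ =>
    hu0 x ⟨hx, by rw [mem_ball]; nlinarith⟩
  have key : ∀ k : ℕ, ∀ x ∈ Ω, 8 * r * (1 / 2) ^ k ≤ infDist x (frontier Ω) →
      dist x ξ ≤ 40 * M * r - 16 * (M + 1) * r * (1 - (1 / 2) ^ k) →
      u x ≤ P ^ (k + 1) * u A ∧ u A ≤ P ^ (k + 1) * u x := by
    intro k
    induction k with
    | zero =>
      intro x hx hdx hxξ
      simp only [pow_zero, mul_one, sub_self, mul_zero, sub_zero] at hdx hxξ
      have hux := hux0 x hx hxξ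
      have hsub : Ω ∩ ball x (L * r) ⊆ Ω ∩ ball ξ ((40 * M + 8 * L) * r) := by
        apply inter_subset_inter_right
        apply ball_subset_ball'
        nlinarith
      have h41 : r / (41 * M) ≤ M⁻¹ * r := by
        rw [div_eq_mul_inv, mul_comm, mul_inv]
        apply mul_le_mul_of_nonneg_right _ hr.le
        have : (0 : ℝ) < M⁻¹ := by positivity
        nlinarith
      have h42 : r / (41 * M) ≤ infDist x (frontier Ω) := by
        have : r / (41 * M) ≤ r := div_le_self hr.le (by linarith)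
        linarith
      obtain ⟨h1, h2⟩ := hch r x A hr hx hA h42 (h41.trans hdA.le)
        (by
          calc dist x A ≤ dist x ξ + dist ξ A := dist_triangle _ _ _
            _ ≤ 40 * M * r + r := by rw [dist_comm ξ A]; linarith
            _ ≤ 41 * M * r := by nlinarith) u (hu.mono hsub) (fun z hz => hu0 z (hsub hz))
      constructor
      · calc u x ≤ C₀ * u A := h1
          _ ≤ P ^ (0 + 1) * u A := by rw [zero_add, pow_one]; gcongr
      · calc u A ≤ C₀ * u x := h2
          _ ≤ P ^ (0 + 1) * u x := by rw [zero_add, pow_one]; gcongr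
    | succ k ih =>
      intro x hx hdx hxξ
      have hτ0 : (0 : ℝ) < (1 / 2) ^ k := by positivity
      have hτ1 : ((1 : ℝ) / 2) ^ k ≤ 1 := pow_le_one₀ (by norm_num) (by norm_num)
      have hτs : ((1 : ℝ) / 2) ^ (k + 1) = (1 / 2) ^ k / 2 := by ring
      rw [hτs] at hdx hxξ
      generalize ((1 : ℝ) / 2) ^ k = τ at *
      have hMr : 0 < M * r := by positivity
      have hMrτ : 0 < M * r * τ := by positivity
      have hrτ : 0 < r * τ := by positivity
      have hrτ1 : r * τ ≤ r := by nlinarith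
      have hMrτ1 : M * (r * τ) ≤ M * r := by gcongr
      have hxξ' : dist x ξ ≤ 40 * M * r := by nlinarith
      have hux := hux0 x hx hxξ'
      have hPk : 0 ≤ P ^ (k + 1) := by positivity
      have hPs : P ^ (k + 1) ≤ P ^ (k + 1 + 1) := pow_le_pow_right₀ hP1 (by omega)
      by_cases hcase : 8 * r * τ ≤ infDist x (frontier Ω)
      · obtain ⟨h1, h2⟩ := ih x hx hcase (by nlinarith)
        exact ⟨h1.trans (by gcongr), h2.trans (by gcongr)⟩
      · push Not at hcase
        obtain ⟨ξx, hξx, hnear⟩ := exists_nearest hd hN hx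
        obtain ⟨A', hA', -, hA'ξ, hdA'⟩ := hN.interior ξx hξx (2 * M * (4 * (r * τ)))
          (by positivity) (by nlinarith)
        have hdA2 : 8 * r * τ < infDist A' (frontier Ω) := by
          have : M⁻¹ * (2 * M * (4 * (r * τ))) = 8 * r * τ := by
            field_simp; norm_num
          linarith
        have hA'x : dist A' x ≤ 8 * (M + 1) * (r * τ) := by
          calc dist A' x ≤ dist A' ξx + dist ξx x := dist_triangle _ _ _
            _ ≤ 2 * M * (4 * (r * τ)) + 8 * r * τ := by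
                rw [dist_comm ξx x, hnear]; linarith
            _ = 8 * (M + 1) * (r * τ) := by ring
        have hA'ξ2 : dist A' ξ ≤ 40 * M * r - 16 * (M + 1) * r * (1 - τ) := by
          calc dist A' ξ ≤ dist A' x + dist x ξ := dist_triangle _ _ _
            _ ≤ 8 * (M + 1) * (r * τ) + (40 * M * r - 16 * (M + 1) * r * (1 - τ / 2)) :=
                add_le_add hA'x hxξ
            _ = 40 * M * r - 16 * (M + 1) * r * (1 - τ) := by ring
        obtain ⟨h1, h2⟩ := ih A' hA' hdA2.le hA'ξ2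
        have hsub : Ω ∩ ball x (L * (4 * (r * τ))) ⊆ Ω ∩ ball ξ ((40 * M + 8 * L) * r) := by
          apply inter_subset_inter_right
          apply ball_subset_ball'
          have : L * (r * τ) ≤ L * r := by gcongr
          nlinarith
        have ht : 4 * (r * τ) / (41 * M) ≤ 4 * (r * τ) := div_le_self (by positivity) (by linarith)
        obtain ⟨h3, h4⟩ := hch (4 * (r * τ)) x A' (by positivity) hx hA'
          (by linarith) (by linarith)
          (by
            rw [dist_comm]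
            have h41 : r * τ ≤ M * (r * τ) := le_mul_of_one_le_left hrτ.le hM.le
            linarith) u (hu.mono hsub) (fun z hz => hu0 z (hsub hz))
        have huA' : 0 ≤ u A' := hux0 A' hA' (by nlinarith)
        constructor
        · calc u x ≤ C₀ * u A' := h3
            _ ≤ P * (P ^ (k + 1) * u A) := by gcongr
            _ = P ^ (k + 1 + 1) * u A := by ring
        · calc u A ≤ P ^ (k + 1) * u A' := h2
            _ ≤ P ^ (k + 1) * (P * u x) := by
                gcongr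
                exact h4.trans (by gcongr)
            _ = P ^ (k + 1 + 1) * u x := by ring
  intro x hx
  obtain ⟨hxΩ, hx8⟩ := hx
  rw [mem_ball] at hx8
  have hs0 := infDist_frontier_pos hd hN hxΩ
  have hs8 : infDist x (frontier Ω) < 8 * r := (infDist_le_dist_of_mem hξ).trans_lt hx8
  obtain ⟨k, hk1, hk2⟩ := bdry_exists_scale (b := 1 / 2) (by norm_num) (by norm_num) hs0 hs8
  have hτ0 : (0 : ℝ) < (1 / 2) ^ (k + 1) := by positivity
  have hrM1 : r ≤ M * r := le_mul_of_one_le_left hr.le hM.le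
  have hτ2 : 16 * (M + 1) * r * (1 - (1 / 2) ^ (k + 1)) ≤ 16 * (M + 1) * r :=
    mul_le_of_le_one_right (by positivity) (by linarith)
  obtain ⟨h1, h2⟩ := key (k + 1) x hxΩ (by linarith) (by linarith)
  have hux : 0 ≤ u x := hux0 x hxΩ (by nlinarith)
  have hpow : P ^ (k + 1 + 1) ≤ 32 ^ (m + 1) * (r / infDist x (frontier Ω)) ^ (m + 1) := by
    rw [hP, ← pow_mul, mul_comm (m + 1), pow_mul, ← mul_pow]
    apply pow_le_pow_left₀ (by positivity)
    rw [← mul_div_assoc, le_div_iff₀ hs0]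
    have h22 : (2 : ℝ) ^ (k + 1 + 1) * (1 / 2) ^ k = 4 := by
      rw [pow_succ, pow_succ, one_div, inv_pow]
      field_simp; norm_num
    calc (2 : ℝ) ^ (k + 1 + 1) * infDist x (frontier Ω)
        ≤ (2 : ℝ) ^ (k + 1 + 1) * ((1 / 2) ^ k * (8 * r)) := by gcongr
      _ = (2 : ℝ) ^ (k + 1 + 1) * (1 / 2) ^ k * (8 * r) := by ring
      _ = 32 * r := by rw [h22]; ring
  exact ⟨h1.trans (by gcongr), h2.trans (by gcongr)⟩

/-- The Carleson estimate. -/
theorem bdry_carleson (hd : 2 ≤ d) {Ω : Set (E d)} {M r₀ : ℝ} (hN : IsNTA Ω M r₀) :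
    ∃ C K r₂ : ℝ, 1 ≤ C ∧ 9 ≤ K ∧ 0 < r₂ ∧
      ∀ ξ ∈ frontier Ω, ∀ r : ℝ, 0 < r → r ≤ r₂ →
      ∀ A ∈ Ω, dist A ξ < r → M⁻¹ * r < infDist A (frontier Ω) →
      ∀ u : E d → ℝ, Van Ω ξ (K * r) u → ∀ x ∈ ball ξ (4 * r), u x ≤ C * u A := by
  have hM := hN.one_lt
  have hM0 : 0 < M := by linarith
  have hr₀ := hN.r₀_pos
  obtain ⟨CT, m, KT, r₂, hCT, hm, hKT, hr₂, hr₂₀, htow⟩ := bdry_tower hd hN
  obtain ⟨CD, α, hCD, hα0, hα1, hdec⟩ := decay hd hN
  -- choice of the small parameter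
  obtain ⟨θ, hθ0, hθ8, hθ⟩ : ∃ θ : ℝ, 0 < θ ∧ θ ≤ 1 / 8 ∧ CD * (4 * θ) ^ α * 2 ^ m ≤ 1 / 2 := by
    set v : ℝ := 1 / (2 * CD * 2 ^ m) with hv
    have hv0 : 0 < v := by positivity
    refine ⟨min (1 / 8) (v ^ (1 / α) / 4), by positivity, min_le_left _ _, ?_⟩
    have h1 : (4 * min (1 / 8) (v ^ (1 / α) / 4)) ^ α ≤ v := by
      calc (4 * min (1 / 8) (v ^ (1 / α) / 4)) ^ α ≤ (v ^ (1 / α)) ^ α := by
            apply Real.rpow_le_rpow (by positivity) _ hα0.le
            have := min_le_right (1 / 8 : ℝ) (v ^ (1 / α) / 4)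
            linarith
        _ = v := by
            rw [← Real.rpow_mul hv0.le, one_div_mul_cancel hα0.ne', Real.rpow_one]
    calc CD * (4 * min (1 / 8) (v ^ (1 / α) / 4)) ^ α * 2 ^ m ≤ CD * v * 2 ^ m := by gcongr
      _ = 1 / 2 := by rw [hv]; field_simp
  refine ⟨CT * (1 / θ) ^ m, KT + 9, r₂, ?_, by linarith, hr₂, ?_⟩
  · have : 1 ≤ (1 / θ) ^ m := one_le_pow₀ (by rw [le_div_iff₀ hθ0]; linarith)
    nlinarith
  intro ξ hξ r hr hrr A hA hAξ hdA u hu
  have hV : Van Ω ξ (KT * r) u := hu.mono_ball (ball_subset_ball (by nlinarith))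
  have htw := htow ξ hξ r hr hrr A hA hAξ hdA u hV.harm (fun z hz => hV.nonneg z hz.2)
  have hcb : closedBall ξ (8 * r) ⊆ ball ξ ((KT + 9) * r) := closedBall_subset_ball (by nlinarith)
  have huA : 0 ≤ u A := hu.nonneg A (mem_ball.mpr (by nlinarith))
  obtain ⟨x₀, hx₀, hmax⟩ := (isCompact_closedBall ξ (8 * r)).exists_isMaxOn
    ⟨ξ, mem_closedBall_self (by positivity)⟩
    (f := fun x => u x * (8 * r - dist x ξ) ^ m)
    ((hu.cont.mono hcb).mul (by fun_prop))
  set S : ℝ := u x₀ * (8 * r - dist x₀ ξ) ^ m with hS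
  have hmax' : ∀ x ∈ closedBall ξ (8 * r), u x * (8 * r - dist x ξ) ^ m ≤ S := fun x hx => hmax hx
  rw [mem_closedBall] at hx₀
  have hux₀ : 0 ≤ u x₀ := hu.nonneg x₀ (hcb (mem_closedBall.mpr hx₀))
  have hS0 : 0 ≤ S := mul_nonneg hux₀ (by
    apply pow_nonneg; linarith)
  have hBnn : 0 ≤ CT * (r * (1 / θ)) ^ m * u A := by positivity
  have hSle : S ≤ CT * (r * (1 / θ)) ^ m * u A := by
    by_cases hΩ : x₀ ∈ Ω
    swap
    · have : u x₀ = 0 := hu.zero x₀ (hcb (mem_closedBall.mpr hx₀)) hΩ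
      rw [hS, this, zero_mul]; exact hBnn
    rcases hx₀.eq_or_lt with he | hlt
    · rw [hS, he, sub_self, zero_pow (by omega), mul_zero]; exact hBnn
    have hρ0 : 0 < 8 * r - dist x₀ ξ := by linarith
    have hρ8 : 8 * r - dist x₀ ξ ≤ 8 * r := by linarith [dist_nonneg (x := x₀) (y := ξ)]
    set ρ : ℝ := 8 * r - dist x₀ ξ with hρ
    have hs0 := infDist_frontier_pos hd hN hΩ
    obtain ⟨ξx, hξx, hnear⟩ := exists_nearest hd hN hΩ
    set s : ℝ := infDist x₀ (frontier Ω) with hs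
    by_cases hsθ : θ * ρ ≤ s
    · have h1 := (htw x₀ ⟨hΩ, mem_ball.mpr hlt⟩).1
      calc S = u x₀ * ρ ^ m := rfl
        _ ≤ CT * (r / s) ^ m * u A * ρ ^ m := by gcongr
        _ = CT * (r * (ρ / s)) ^ m * u A := by
            rw [show r * (ρ / s) = (r / s) * ρ by ring, mul_pow]; ring
        _ ≤ CT * (r * (1 / θ)) ^ m * u A := by
            have : ρ / s ≤ 1 / θ := by
              rw [div_le_div_iff₀ hs0 hθ0]; linarith
            gcongr
    · push Not at hsθ
      have hsub : ball ξx (ρ / 4) ⊆ ball ξ ((KT + 9) * r) := by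
        apply ball_subset_ball'
        have h1 : dist ξx ξ ≤ dist ξx x₀ + dist x₀ ξ := dist_triangle _ _ _
        rw [dist_comm ξx x₀, hnear] at h1
        have h2 : dist x₀ ξ = 8 * r - ρ := by rw [hρ]; ring
        nlinarith
      have hVx : Van Ω ξx (ρ / 4) u := hu.mono_ball hsub
      have hρ2 : 0 < (ρ / 2) ^ m := by positivity
      have hbd : ∀ y ∈ ball ξx (ρ / 4), u y ≤ S / (ρ / 2) ^ m := by
        intro y hy
        rw [mem_ball] at hy
        have h1 : dist y ξ ≤ dist y ξx + dist ξx x₀ + dist x₀ ξ := dist_triangle4 _ _ _ _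
        rw [dist_comm ξx x₀, hnear] at h1
        have h2 : dist x₀ ξ = 8 * r - ρ := by rw [hρ]; ring
        have h3 : dist y ξ ≤ 8 * r - ρ / 2 := by nlinarith
        have h4 := hmax' y (mem_closedBall.mpr (by linarith))
        rw [le_div_iff₀ hρ2]
        refine le_trans ?_ h4
        have huy : 0 ≤ u y := hVx.nonneg y (mem_ball.mpr hy)
        gcongr
        linarith
      have hx₀b : x₀ ∈ ball ξx (ρ / 4) := by
        rw [mem_ball, hnear]; nlinarith
      have h5 := hdec ξx hξx (ρ / 4) (by positivity) (by linarith) u hVx _ hbd x₀ hx₀b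
      rw [hnear] at h5
      have h6 : (s / (ρ / 4)) ^ α ≤ (4 * θ) ^ α := by
        apply Real.rpow_le_rpow (by positivity) _ hα0.le
        rw [div_le_iff₀ (by positivity)]
        linarith
      have h7 : S ≤ S / 2 := by
        calc S = u x₀ * ρ ^ m := rfl
          _ ≤ CD * (s / (ρ / 4)) ^ α * (S / (ρ / 2) ^ m) * ρ ^ m := by gcongr
          _ ≤ CD * (4 * θ) ^ α * (S / (ρ / 2) ^ m) * ρ ^ m := by gcongr
          _ = CD * (4 * θ) ^ α * 2 ^ m * S := by
              rw [div_pow]; field_simp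
          _ ≤ 1 / 2 * S := by gcongr
          _ = S / 2 := by ring
      linarith
  intro x hx
  rw [mem_ball] at hx
  have hux : 0 ≤ u x := hu.nonneg x (mem_ball.mpr (by nlinarith))
  have h1 := hmax' x (mem_closedBall.mpr (by linarith))
  have hrm : 0 < r ^ m := by positivity
  have h2 : u x * r ^ m ≤ CT * (1 / θ) ^ m * u A * r ^ m := by
    calc u x * r ^ m ≤ u x * (8 * r - dist x ξ) ^ m := by gcongr; linarith
      _ ≤ S := h1
      _ ≤ CT * (r * (1 / θ)) ^ m * u A := hSle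
      _ = CT * (1 / θ) ^ m * u A * r ^ m := by rw [mul_pow]; ring
  exact le_of_mul_le_mul_right h2 hrm

end Pool.Agent.MP_578f25_an
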