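import Pool.Agent.Lib.MP_578f25_an.BdryB

/-!
# MP_578f25_an: sign propagation (De Silva-Savin) and the boundary Harnack inequality
-/

set_option autoImplicit false

namespace Pool.Agent.MP_578f25_an

open MeasureTheory Metric Set Filter Topology InnerProductSpace Laplacian

variable {d : ℕ}

/-- The hypothesis that is propagated from scale to scale. -/
structure BdryP (Ω : Set (E d)) (η : ℝ) (ξ : E d) (R l : ℝ) (g : E d → ℝ) : Prop where
  cont : ContinuousOn g (ball ξ R)
  zero : ∀ x ∈ ball ξ R, x ∉ Ω → g x = 0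
  harm : HarmonicOnNhd g (Ω ∩ ball ξ R)
  lower : ∀ x ∈ ball ξ R, -l ≤ g x
  inner : ∀ x ∈ Ω ∩ ball ξ R, η * R ≤ infDist x (frontier Ω) → l ≤ g x

theorem bdry_sign_step (hd : 2 ≤ d) {Ω : Set (E d)} {M r₀ : ℝ} (hN : IsNTA Ω M r₀) :
    ∃ η a r₃ : ℝ, 0 < η ∧ η ≤ 1 / 2 ∧ 0 < a ∧ 0 < r₃ ∧ ∀ (ξ : E d) (R : ℝ), 0 < R → R ≤ r₃ →
      ∀ l : ℝ, 0 ≤ l → ∀ g : E d → ℝ, BdryP Ω η ξ R l g → BdryP Ω η ξ (R / 2) (a * l) g := by
  have hM := hN.one_lt
  have hM0 : 0 < M := by linarith
  have hr₀ := hN.r₀_pos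
  obtain ⟨c, hc0, hc4, hstep⟩ := bdry_decay_step hd hN
  have hc1 : 0 < 1 - c := by linarith
  obtain ⟨CH, L, hCH, hL, hch⟩ := chain_harnack hd hN (Λ := 2 * M + 2) (by linarith)
  obtain ⟨n, hn⟩ := exists_pow_lt_of_lt_one (show (0 : ℝ) < 1 / (2 * CH) by positivity)
    (show 1 - c < 1 by linarith)
  set Q : ℝ := 68 * (n + 1) + 4 * L + 16 * M with hQ
  have hQ0 : 0 < Q := by positivity
  set η : ℝ := 1 / Q with hη
  have hη0 : 0 < η := by positivity
  have hηQ : η * Q = 1 := by rw [hη]; field_simp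
  have hn0 : (0 : ℝ) ≤ n := Nat.cast_nonneg n
  have hb1 : 68 * (η * n) ≤ 1 := by
    have : 0 ≤ η * (68 + 4 * L + 16 * M) := by positivity
    nlinarith
  have hb2 : 4 * (η * L) ≤ 1 := by
    have : 0 ≤ η * (68 * (n + 1) + 16 * M) := by positivity
    nlinarith
  have hb3 : 16 * (η * M) ≤ 1 := by
    have : 0 ≤ η * (68 * (n + 1) + 4 * L) := by positivity
    nlinarith
  have hb4 : 68 * η ≤ 1 := by
    have : 0 ≤ η * (68 * n + 4 * L + 16 * M) := by positivity
    nlinarith
  refine ⟨η, 1 / (2 * CH), r₀ / 2, hη0, by linarith, by positivity, by positivity, ?_⟩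
  intro ξ R hR hRr l hl g hg
  have hηR : 0 < η * R := by positivity
  have hi : ∀ j : ℕ, j ≤ n → ∀ x ∈ ball ξ (R - 17 * j * (η * R)), -((1 - c) ^ j * l) ≤ g x := by
    intro j
    induction j with
    | zero =>
      intro _ x hx
      have := hg.lower x (by simpa using hx)
      simpa using this
    | succ j ih =>
      intro hj x hx
      have ihj := ih (by omega)
      have hj0 : (0 : ℝ) ≤ j := Nat.cast_nonneg j
      rw [mem_ball] at hx
      push_cast at hx
      have hS0 : 0 ≤ (1 - c) ^ j * l := by positivity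
      have hS1 : 0 ≤ (1 - c) ^ (j + 1) * l := by positivity
      have hjη : 0 ≤ j * (η * R) := by positivity
      have hxR : x ∈ ball ξ R := mem_ball.mpr (by nlinarith)
      by_contra hcon
      push Not at hcon
      have hxΩ : x ∈ Ω := by
        by_contra hno
        rw [hg.zero x hxR hno] at hcon
        linarith
      have hδ : infDist x (frontier Ω) < η * R := by
        by_contra hno
        push Not at hno
        have := hg.inner x ⟨hxΩ, hxR⟩ hno
        linarith
      obtain ⟨ξx, hξx, hnear⟩ := exists_nearest hd hN hxΩ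
      have hsub : ball ξx (16 * (η * R)) ⊆ ball ξ (R - 17 * j * (η * R)) := by
        apply ball_subset_ball'
        have h1 : dist ξx ξ ≤ dist ξx x + dist x ξ := dist_triangle _ _ _
        rw [dist_comm ξx x, hnear] at h1
        nlinarith
      have hsub' : ball ξx (16 * (η * R)) ⊆ ball ξ R :=
        hsub.trans (ball_subset_ball (by nlinarith))
      have h2 := hstep ξx hξx (16 * (η * R)) (by positivity) (by nlinarith) (-g)
        ((hg.cont.mono hsub').neg)
        (fun y hy hyΩ => by simp [hg.zero y (hsub' hy) hyΩ])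
        ((hg.harm.mono (inter_subset_inter_right _ hsub')).neg)
        ((1 - c) ^ j * l) hS0
        (fun y hy => by
          have := ihj y (hsub hy)
          simp only [Pi.neg_apply]
          linarith) x
        (by rw [mem_ball, hnear]; linarith)
      simp only [Pi.neg_apply] at h2
      have h3 : (1 - c) * ((1 - c) ^ j * l) = (1 - c) ^ (j + 1) * l := by ring
      rw [h3] at h2
      linarith
  -- the lower bound on `B(ξ, 3R/4)`
  set a₁ : ℝ := (1 - c) ^ n with ha₁
  have ha₁0 : 0 ≤ a₁ := by positivity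
  have hCa : CH * a₁ ≤ 1 / 2 := by
    have : CH * (1 / (2 * CH)) = 1 / 2 := by field_simp
    nlinarith
  have hlow : ∀ x ∈ ball ξ (3 * R / 4), -(a₁ * l) ≤ g x := by
    intro x hx
    apply hi n le_rfl x
    refine ball_subset_ball ?_ hx
    nlinarith
  have ha₁a : a₁ * l ≤ 1 / (2 * CH) * l := by
    apply mul_le_mul_of_nonneg_right hn.le hl
  have hhalf : ball ξ (R / 2) ⊆ ball ξ R := ball_subset_ball (by linarith)
  refine ⟨hg.cont.mono hhalf, fun x hx => hg.zero x (hhalf hx),
    hg.harm.mono (inter_subset_inter_right _ hhalf), ?_, ?_⟩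
  · intro x hx
    have := hlow x (ball_subset_ball (by linarith) hx)
    linarith
  · intro x hx hδ
    have hxR : dist x ξ < R / 2 := mem_ball.mp hx.2
    have hal : 1 / (2 * CH) * l ≤ l := by
      apply mul_le_of_le_one_left hl
      rw [div_le_one (by positivity)]
      linarith
    by_cases hcase : η * R ≤ infDist x (frontier Ω)
    · exact hal.trans (hg.inner x ⟨hx.1, hhalf hx.2⟩ hcase)
    · push Not at hcase
      obtain ⟨ξx, hξx, hnear⟩ := exists_nearest hd hN hx.1
      have hηMR : 16 * (η * M * R) ≤ R := by nlinarith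
      obtain ⟨A, hA, -, hAξ, hdA⟩ := hN.interior ξx hξx (2 * M * (η * R)) (by positivity)
        (by nlinarith)
      have hdA2 : 2 * (η * R) < infDist A (frontier Ω) := by
        have : M⁻¹ * (2 * M * (η * R)) = 2 * (η * R) := by field_simp
        linarith
      have hAx : dist x A ≤ 2 * M * (η * R) + η * R := by
        calc dist x A ≤ dist x ξx + dist ξx A := dist_triangle _ _ _
          _ ≤ 2 * M * (η * R) + η * R := by
              rw [dist_comm ξx A, hnear]; linarith
      have hAξ' : dist A ξ < R := by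
        calc dist A ξ ≤ dist A x + dist x ξ := dist_triangle _ _ _
          _ < R := by rw [dist_comm A x]; nlinarith
      have hgA : l ≤ g A := hg.inner A ⟨hA, mem_ball.mpr hAξ'⟩ (by linarith)
      have hsub : Ω ∩ ball x (L * (η * R)) ⊆ Ω ∩ ball ξ (3 * R / 4) := by
        apply inter_subset_inter_right
        apply ball_subset_ball'
        nlinarith
      have hsub' : Ω ∩ ball x (L * (η * R)) ⊆ Ω ∩ ball ξ R :=
        hsub.trans (inter_subset_inter_right _ (ball_subset_ball (by linarith)))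
      have ht : η * R / (2 * M + 2) ≤ η * R / 2 := by
        apply div_le_div_of_nonneg_left hηR.le (by norm_num)
        linarith
      obtain ⟨-, h2⟩ := hch (η * R) x A hηR hx.1 hA (by linarith) (by linarith)
        (by nlinarith) (g + fun _ => a₁ * l)
        ((hg.harm.mono hsub').add (harmonicOnNhd_const _))
        (fun z hz => by
          have := hlow z (hsub hz).2
          simp only [Pi.add_apply]
          linarith)
      simp only [Pi.add_apply] at h2
      have h3 : l / 2 ≤ CH * g x := by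
        have : CH * a₁ * l ≤ 1 / 2 * l := by gcongr
        have h4 : 0 ≤ a₁ * l := by positivity
        nlinarith
      have h5 : 1 / (2 * CH) * l = (l / 2) / CH := by field_simp
      rw [h5, div_le_iff₀ (by positivity)]
      linarith

theorem bdry_sign_pos (hd : 2 ≤ d) {Ω : Set (E d)} {M r₀ : ℝ} (hN : IsNTA Ω M r₀) :
    ∃ η r₃ : ℝ, 0 < η ∧ 0 < r₃ ∧ ∀ x ∈ Ω, ∀ ξ : E d, dist x ξ = infDist x (frontier Ω) →
      ∀ R : ℝ, R ≤ r₃ → infDist x (frontier Ω) < R → ∀ g : E d → ℝ, BdryP Ω η ξ R 1 g →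
        0 < g x := by
  obtain ⟨η, a, r₃, hη0, hη2, ha0, hr₃, hstep⟩ := bdry_sign_step hd hN
  refine ⟨η, r₃, hη0, hr₃, ?_⟩
  intro x hx ξ hξ R hR hδR g hg
  have hδ0 := infDist_frontier_pos hd hN hx
  have hR0 : 0 < R := hδ0.trans hδR
  have hit : ∀ k : ℕ, BdryP Ω η ξ ((1 / 2) ^ k * R) (a ^ k) g := by
    intro k
    induction k with
    | zero => simpa using hg
    | succ k ih =>
      have hk : ((1 : ℝ) / 2) ^ k ≤ 1 := pow_le_one₀ (by norm_num) (by norm_num)
      have := hstep ξ _ (by positivity) (show (1 / 2) ^ k * R ≤ r₃ by nlinarith) (a ^ k)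
        (by positivity) g ih
      have e1 : ((1 : ℝ) / 2) ^ (k + 1) * R = (1 / 2) ^ k * R / 2 := by ring
      have e2 : a ^ (k + 1) = a * a ^ k := by ring
      rw [e1, e2]; exact this
  obtain ⟨k, hk1, hk2⟩ := bdry_exists_scale (b := 1 / 2) (by norm_num) (by norm_num) hδ0 hδR
  have hP := (hit k).inner x ⟨hx, mem_ball.mpr (by rw [hξ]; exact hk1)⟩ (by
    have h1 : (1 / 2 : ℝ) ^ (k + 1) * R = 1 / 2 * ((1 / 2) ^ k * R) := by ring
    rw [h1] at hk2
    have h2 : 0 < (1 / 2 : ℝ) ^ k * R := by positivity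
    nlinarith)
  have : 0 < a ^ k := by positivity
  linarith

/-- Boundary Harnack inequality (product form). -/
theorem bdry_bhp_ineq (hd : 2 ≤ d) {Ω : Set (E d)} {M r₀ : ℝ} (hN : IsNTA Ω M r₀) :
    ∃ C K r₂ : ℝ, 1 ≤ C ∧ 9 ≤ K ∧ 0 < r₂ ∧
      ∀ ξ ∈ frontier Ω, ∀ r : ℝ, 0 < r → r ≤ r₂ →
      ∀ A ∈ Ω, dist A ξ < r → M⁻¹ * r < infDist A (frontier Ω) →
      ∀ u : E d → ℝ, Van Ω ξ (K * r) u → ∀ w : E d → ℝ, Van Ω ξ (K * r) w →
        ∀ x ∈ Ω ∩ ball ξ r, u x * w A ≤ C * (w x * u A) := by
  have hM := hN.one_lt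
  have hM0 : 0 < M := by linarith
  have hr₀ := hN.r₀_pos
  obtain ⟨CT, m, KT, rT, hCT, hm, hKT, hrT, hrT₀, htow⟩ := bdry_tower hd hN
  obtain ⟨CC, KC, rC, hCC, hKC, hrC, hcar⟩ := bdry_carleson hd hN
  obtain ⟨η, r₃, hη, hr₃, hsign⟩ := bdry_sign_pos hd hN
  set B : ℝ := CT * (1 / η) ^ m with hB
  have hB0 : 0 < B := by positivity
  refine ⟨2 * B * CC + 1, KT + KC, min rT (min rC r₃), ?_, by linarith, by positivity, ?_⟩
  · have : 0 < 2 * B * CC := by positivity
    linarith
  intro ξ hξ r hr hrr A hA hAξ hdA u hu w hw x hx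
  have hr1 : r ≤ rT := hrr.trans (min_le_left _ _)
  have hr2 : r ≤ rC := hrr.trans ((min_le_right _ _).trans (min_le_left _ _))
  have hr3 : r ≤ r₃ := hrr.trans ((min_le_right _ _).trans (min_le_right _ _))
  have hsubT : ball ξ (KT * r) ⊆ ball ξ ((KT + KC) * r) := ball_subset_ball (by nlinarith)
  have hsubC : ball ξ (KC * r) ⊆ ball ξ ((KT + KC) * r) := ball_subset_ball (by nlinarith)
  have hsub4 : ball ξ (4 * r) ⊆ ball ξ ((KT + KC) * r) := ball_subset_ball (by nlinarith)
  have hAb : A ∈ ball ξ ((KT + KC) * r) := mem_ball.mpr (by nlinarith)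
  have hxb : x ∈ ball ξ ((KT + KC) * r) :=
    ball_subset_ball (by nlinarith) hx.2
  have huA := hu.nonneg A hAb
  have hwA := hw.nonneg A hAb
  have hux := hu.nonneg x hxb
  have hwx := hw.nonneg x hxb
  have hcu := hcar ξ hξ r hr hr2 A hA hAξ hdA u (hu.mono_ball hsubC)
  have htw := htow ξ hξ r hr hr1 A hA hAξ hdA w (hw.mono_ball hsubT).harm
    (fun z hz => (hw.mono_ball hsubT).nonneg z hz.2)
  rcases hwA.eq_or_lt with h0 | hwA'
  · rw [← h0, mul_zero]; positivity
  rcases huA.eq_or_lt with h0 | huA'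
  · have h1 := hcu x (ball_subset_ball (by linarith) hx.2)
    rw [← h0, mul_zero] at h1
    have h2 : u x = 0 := le_antisymm h1 hux
    rw [h2, zero_mul]; positivity
  obtain ⟨ξx, hξx, hnear⟩ := exists_nearest hd hN hx.1
  have hxξ := mem_ball.mp hx.2
  have hδr : infDist x (frontier Ω) < r := (infDist_le_dist_of_mem hξ).trans_lt hxξ
  have hsubx : ball ξx r ⊆ ball ξ (4 * r) := by
    apply ball_subset_ball'
    have h1 : dist ξx ξ ≤ dist ξx x + dist x ξ := dist_triangle _ _ _
    rw [dist_comm ξx x, hnear] at h1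
    linarith
  have hsubx' : ball ξx r ⊆ ball ξ ((KT + KC) * r) := hsubx.trans hsub4
  set p : ℝ := 2 * B / w A with hp
  set q : ℝ := 1 / (CC * u A) with hq
  have hq0 : 0 < q := by positivity
  have hp0 : 0 < p := by positivity
  have hg : BdryP Ω η ξx r 1 (p • w - q • u) := by
    refine ⟨?_, ?_, ?_, ?_, ?_⟩
    · exact ((hw.cont.mono hsubx').const_smul p).sub ((hu.cont.mono hsubx').const_smul q)
    · intro y hy hyΩ
      simp [hw.zero y (hsubx' hy) hyΩ, hu.zero y (hsubx' hy) hyΩ]
    · exact ((hw.harm.mono (inter_subset_inter_right _ hsubx')).const_smul).sub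
        ((hu.harm.mono (inter_subset_inter_right _ hsubx')).const_smul)
    · intro y hy
      have h1 := hcu y (hsubx hy)
      have h2 := hw.nonneg y (hsubx' hy)
      have h3 : q * u y ≤ 1 := by
        calc q * u y ≤ q * (CC * u A) := by gcongr
          _ = 1 := by rw [hq]; field_simp
      have h4 : 0 ≤ p * w y := by positivity
      simp only [Pi.sub_apply, Pi.smul_apply, smul_eq_mul]
      linarith
    · intro y hy hδ
      have h1 := hcu y (hsubx hy.2)
      have h3 : q * u y ≤ 1 := by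
        calc q * u y ≤ q * (CC * u A) := by gcongr
          _ = 1 := by rw [hq]; field_simp
      have hwy := hw.nonneg y (hsubx' hy.2)
      have hδy := infDist_frontier_pos hd hN hy.1
      have h5 : w A ≤ B * w y := by
        have h6 := (htw y ⟨hy.1, ball_subset_ball (by linarith) (hsubx hy.2)⟩).2
        refine h6.trans ?_
        have h7 : r / infDist y (frontier Ω) ≤ 1 / η := by
          rw [div_le_div_iff₀ hδy hη]; linarith
        rw [hB]
        gcongr
      have h8 : 2 ≤ p * w y := by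
        rw [hp, div_mul_eq_mul_div, le_div_iff₀ hwA']
        nlinarith
      simp only [Pi.sub_apply, Pi.smul_apply, smul_eq_mul]
      linarith
  have hpos := hsign x hx.1 ξx hnear r hr3 hδr _ hg
  simp only [Pi.sub_apply, Pi.smul_apply, smul_eq_mul] at hpos
  have h9 : q * u x ≤ p * w x := by linarith
  have h10 : u x * w A ≤ 2 * B * CC * (w x * u A) := by
    have e1 : q * u x = u x / (CC * u A) := by rw [hq]; ring
    have e2 : p * w x = 2 * B * w x / w A := by rw [hp]; ring
    rw [e1, e2, div_le_div_iff₀ (by positivity) hwA'] at h9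
    linarith
  have h11 : 0 ≤ w x * u A := by positivity
  linarith

end Pool.Agent.MP_578f25_an
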