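import Mathlib

/-!
# Definitions for MP_578f25_an

NTA domains (Jerison-Kenig), the Newtonian kernel, Green's functions.
-/

set_option autoImplicit false

namespace Pool.Agent.MP_578f25_an

open MeasureTheory Metric Set Filter Topology InnerProductSpace

/-- `ℝ^d` with the Euclidean norm. -/
abbrev E (d : ℕ) := EuclideanSpace ℝ (Fin d)

/-- The distance `inf {|a - b| : a ∈ A, b ∈ B}` of two sets. -/
noncomputable def setDist {d : ℕ} (A B : Set (E d)) : ℝ :=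
  sInf {t : ℝ | ∃ a ∈ A, ∃ b ∈ B, t = dist a b}

/-- Corkscrew condition for the open set `U` at the points of `∂Ω`. -/
def Corkscrew {d : ℕ} (U Ω : Set (E d)) (M r₀ : ℝ) : Prop :=
  ∀ ξ ∈ frontier Ω, ∀ r : ℝ, 0 < r → r < r₀ →
    ∃ A ∈ U, M⁻¹ * r < dist A ξ ∧ dist A ξ < r ∧ M⁻¹ * r < infDist A (frontier Ω)

/-- Harnack chain condition. The chain consists of the `n + 1` balls `B (c i, r i)`,
`0 ≤ i ≤ n`. -/
def HarnackChain {d : ℕ} (Ω : Set (E d)) (M : ℝ) : Prop :=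
  ∀ (ε : ℝ) (k : ℕ) (x y : E d), 0 < ε → 1 ≤ k → x ∈ Ω → y ∈ Ω →
    ε < infDist x (frontier Ω) → ε < infDist y (frontier Ω) → dist x y < 2 ^ k * ε →
    ∃ (n : ℕ) (c : ℕ → E d) (r : ℕ → ℝ), ((n + 1 : ℕ) : ℝ) ≤ M * k ∧
      x ∈ ball (c 0) (r 0) ∧ y ∈ ball (c n) (r n) ∧
      (∀ i < n, (ball (c i) (r i) ∩ ball (c (i + 1)) (r (i + 1))).Nonempty) ∧
      ∀ i ≤ n, ball (c i) (r i) ⊆ Ω ∧
        M⁻¹ * diam (ball (c i) (r i)) < setDist (ball (c i) (r i)) (frontier Ω) ∧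
        setDist (ball (c i) (r i)) (frontier Ω) < M * diam (ball (c i) (r i))

/-- Bounded NTA domain with constants `M`, `r₀`. -/
structure IsNTA {d : ℕ} (Ω : Set (E d)) (M r₀ : ℝ) : Prop where
  isOpen : IsOpen Ω
  isPreconnected : IsPreconnected Ω
  isBounded : Bornology.IsBounded Ω
  one_lt : 1 < M
  r₀_pos : 0 < r₀
  interior : Corkscrew Ω Ω M r₀
  exterior : Corkscrew (closure Ω)ᶜ Ω M r₀
  chain : HarnackChain Ω M

/-- The Newtonian kernel (not normalised): `-log |x|` for `d = 2`, `|x|^(2-d)` otherwise. -/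
noncomputable def newton {d : ℕ} (x : E d) : ℝ :=
  if d = 2 then -Real.log ‖x‖ else ‖x‖ ^ (2 - (d : ℝ))

/-- `G` is the Green function of `Ω`, `G x y = G(x, y)` with pole `y`, normalised by `κ > 0`:
for every pole `y ∈ Ω` the function `G(·, y) - κ newton(· - y)` is harmonic in `Ω`, and
`G(·, y)` vanishes at `∂Ω`. -/
structure IsGreen {d : ℕ} (Ω : Set (E d)) (κ : ℝ) (G : E d → E d → ℝ) : Prop where
  κ_pos : 0 < κ
  corrector : ∀ y ∈ Ω, ∃ h : E d → ℝ, HarmonicOnNhd h Ω ∧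
    ∀ x ∈ Ω, x ≠ y → G x y = κ * newton (x - y) + h x
  boundary : ∀ y ∈ Ω, ∀ ζ ∈ frontier Ω, Tendsto (fun x => G x y) (𝓝[Ω] ζ) (𝓝 0)

/-- `u` is nonnegative, continuous in `B(ξ, R)`, zero in `B(ξ, R) \ Ω` and harmonic in
`B(ξ, R) ∩ Ω`. -/
structure Van {d : ℕ} (Ω : Set (E d)) (ξ : E d) (R : ℝ) (u : E d → ℝ) : Prop where
  cont : ContinuousOn u (ball ξ R)
  zero : ∀ x ∈ ball ξ R, x ∉ Ω → u x = 0
  harm : HarmonicOnNhd u (Ω ∩ ball ξ R)
  nonneg : ∀ x ∈ ball ξ R, 0 ≤ u x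

end Pool.Agent.MP_578f25_an
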