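import Pool.Agent.Lib.MP_578f25_an.Kern2

/-!
# Preparations for the final argument
-/

set_option autoImplicit false

namespace Pool.Agent.MP_578f25_an

open MeasureTheory Metric Set Filter Topology InnerProductSpace

variable {d : ℕ} {Ω : Set (E d)} {M r₀ κ : ℝ} {G : E d → E d → ℝ}
variable [HasBhp d]

/-- The Martin kernel exists. -/
theorem martin_limit (hd : 2 ≤ d) (hN : IsNTA Ω M r₀) (hG : IsGreen Ω κ G) {x₀ : E d}
    (hx₀ : x₀ ∈ Ω) {ζ : E d} (hζ : ζ ∈ frontier Ω) {x : E d} (hx : x ∈ Ω) :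
    ∃ K : ℝ, Tendsto (fun y => G x y / G x₀ y) (𝓝[Ω] ζ) (𝓝 K) := by
  obtain ⟨C, κ', r₁, α, hC, hκ', hr₁, hα, hα1, hk⟩ := kernel_bhp hd hN hG
  have hr₀ := hN.r₀_pos
  have hδx : 0 < infDist x (frontier Ω) := infDist_frontier_pos hd hN hx
  have hδx₀ : 0 < infDist x₀ (frontier Ω) := infDist_frontier_pos hd hN hx₀
  have hxζ : infDist x (frontier Ω) ≤ dist x ζ := infDist_le_of_mem_frontier hζ
  have hx₀ζ : infDist x₀ (frontier Ω) ≤ dist x₀ ζ := infDist_le_of_mem_frontier hζ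
  set r := min (min r₁ (r₀ / 2)) (min (dist x ζ / κ') (dist x₀ ζ / κ')) with hr
  have hκ0 : 0 < κ' := by linarith
  have hr0 : 0 < r := by
    simp only [hr, lt_min_iff]
    exact ⟨⟨hr₁, by positivity⟩, div_pos (by linarith) hκ0, div_pos (by linarith) hκ0⟩
  have h1 : r ≤ r₁ := (min_le_left _ _).trans (min_le_left _ _)
  have h2 : r ≤ r₀ / 2 := (min_le_left _ _).trans (min_le_right _ _)
  have h3 : r ≤ dist x ζ / κ' := (min_le_right _ _).trans (min_le_left _ _)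
  have h4 : r ≤ dist x₀ ζ / κ' := (min_le_right _ _).trans (min_le_right _ _)
  rw [le_div_iff₀ hκ0] at h3 h4
  obtain ⟨A, hA⟩ := exists_cork hN hζ hr0 (by linarith)
  obtain ⟨-, hh⟩ := hk ζ hζ r hr0 h1 A hA x hx x₀ hx₀ (by linarith) (by linarith)
  have hcl : ζ ∈ closure Ω := hζ.1
  have hne : NeBot (𝓝[Ω] ζ) := mem_closure_iff_nhdsWithin_neBot.1 hcl
  have hcauchy : Cauchy (map (fun y => G x y / G x₀ y) (𝓝[Ω] ζ)) := by
    rw [Metric.cauchy_iff]
    refine ⟨hne.map _, fun ε hε => ?_⟩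
    have hlim : Tendsto (fun t : ℝ => C * (t / r) ^ α * (G A x / G A x₀)) (𝓝 0) (𝓝 0) := by
      have h5 : ContinuousAt (fun t : ℝ => C * (t / r) ^ α * (G A x / G A x₀)) 0 := by
        apply ContinuousAt.mul _ continuousAt_const
        apply ContinuousAt.mul continuousAt_const
        exact ContinuousAt.rpow_const (by fun_prop) (Or.inr hα.le)
      have h6 := h5.tendsto
      simpa [Real.zero_rpow hα.ne'] using h6
    have hev := (hlim.eventually (gt_mem_nhds hε)).and (gt_mem_nhds hr0)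
    obtain ⟨t, ⟨ht1, ht2⟩, ht3⟩ :=
      ((hev.filter_mono nhdsWithin_le_nhds).and (self_mem_nhdsWithin : Ioi (0 : ℝ) ∈ 𝓝[>] 0)).exists
    have ht0 : 0 < t := ht3
    refine ⟨(fun y => G x y / G x₀ y) '' (Ω ∩ ball ζ t), image_mem_map ?_, ?_⟩
    · rw [inter_comm]
      exact inter_mem (mem_nhdsWithin_of_mem_nhds (ball_mem_nhds _ ht0)) self_mem_nhdsWithin
    · rintro _ ⟨y, hy, rfl⟩ _ ⟨y', hy', rfl⟩
      have hyt : dist y ζ < t := hy.2
      have hyt' : dist y' ζ < t := hy'.2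
      have := hh t y ⟨hy.1, by rw [mem_ball]; linarith⟩ y' ⟨hy'.1, by rw [mem_ball]; linarith⟩
        hyt.le hyt'.le
      rw [Real.dist_eq]
      exact lt_of_le_of_lt this ht1
  obtain ⟨K, hK⟩ := CompleteSpace.complete hcauchy
  exact ⟨K, hK⟩

theorem isCompact_deep (hN : IsNTA Ω M r₀) {a : ℝ} (ha : 0 < a) :
    IsCompact {x | x ∈ Ω ∧ a ≤ infDist x (frontier Ω)} := by
  apply Metric.isCompact_of_isClosed_isBounded
  · have h1 : {x | x ∈ Ω ∧ a ≤ infDist x (frontier Ω)} =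
        closure Ω ∩ {x | a ≤ infDist x (frontier Ω)} := by
      ext x
      constructor
      · rintro ⟨h1, h2⟩
        exact ⟨subset_closure h1, h2⟩
      · rintro ⟨h1, h2⟩
        refine ⟨?_, h2⟩
        by_contra hx
        have h3 : x ∈ frontier Ω := ⟨h1, fun h => hx (interior_subset h)⟩
        have h4 := infDist_zero_of_mem h3
        have h2' : a ≤ infDist x (frontier Ω) := h2
        linarith
    rw [h1]
    exact isClosed_closure.inter (isClosed_le continuous_const (continuous_infDist_pt _))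
  · exact hN.isBounded.subset fun x hx => hx.1

theorem ball_subset_of_le (hd : 2 ≤ d) (hN : IsNTA Ω M r₀) {x : E d} (hx : x ∈ Ω) {r : ℝ}
    (hr : r ≤ infDist x (frontier Ω)) : ball x r ⊆ Ω :=
  (ball_subset_ball hr).trans (ball_infDist_subset hd hN hx)

/-- Two points that see the largest gradient in a boundary region. -/
theorem exists_osc_pair (hd : 2 ≤ d) (hN : IsNTA Ω M r₀) :
    ∃ C : ℝ, 1 ≤ C ∧ ∀ v : E d → ℝ, HarmonicOnNhd v Ω → ∀ (z : E d) (ℓ : ℝ), 0 < ℓ →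
      (∃ x ∈ Ω, ℓ / 2 ≤ infDist x (frontier Ω) ∧ dist x z ≤ 3 * ℓ) →
      ∃ x x' : E d, (x ∈ Ω ∧ ℓ / 4 ≤ infDist x (frontier Ω) ∧ dist x z ≤ 4 * ℓ) ∧
        (x' ∈ Ω ∧ ℓ / 4 ≤ infDist x' (frontier Ω) ∧ dist x' z ≤ 4 * ℓ) ∧
        ∀ w ∈ Ω, ℓ / 2 ≤ infDist w (frontier Ω) → dist w z ≤ 3 * ℓ →
          ‖fderiv ℝ v w‖ ≤ C * |v x - v x'| / ℓ := by
  obtain ⟨C, hC, hg⟩ := gradient_bound d
  have hC0 : 0 < C := by linarith
  refine ⟨16 * C, by linarith, fun v hv z ℓ hℓ hex => ?_⟩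
  let T : Set (E d) := {x | x ∈ Ω ∧ ℓ / 2 ≤ infDist x (frontier Ω)} ∩ closedBall z (3 * ℓ)
  have hT : IsCompact T := (isCompact_deep hN (by positivity)).inter_right isClosed_closedBall
  have hTne : T.Nonempty := by
    obtain ⟨x, hx, h1, h2⟩ := hex
    exact ⟨x, ⟨hx, h1⟩, h2⟩
  have hcont : ContinuousOn (fun w => ‖fderiv ℝ v w‖) T := by
    intro w hw
    have h1 : ContDiffAt ℝ 1 (fderiv ℝ v) w := (hv w hw.1.1).1.fderiv_right (by norm_num)
    exact h1.continuousAt.norm.continuousWithinAt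
  obtain ⟨x, hxT, hxmax⟩ := hT.exists_isMaxOn hTne hcont
  have hxΩ : x ∈ Ω := hxT.1.1
  have hxδ : ℓ / 2 ≤ infDist x (frontier Ω) := hxT.1.2
  have hxz : dist x z ≤ 3 * ℓ := hxT.2
  have hsub : ball x (ℓ / 8) ⊆ Ω := ball_subset_of_le hd hN hxΩ (by linarith)
  set F := ‖fderiv ℝ v x‖ with hF
  have hmax : ∀ w ∈ Ω, ℓ / 2 ≤ infDist w (frontier Ω) → dist w z ≤ 3 * ℓ →
      ‖fderiv ℝ v w‖ ≤ F := fun w hw h1 h2 => hxmax ⟨⟨hw, h1⟩, h2⟩
  have hx4 : x ∈ Ω ∧ ℓ / 4 ≤ infDist x (frontier Ω) ∧ dist x z ≤ 4 * ℓ :=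
    ⟨hxΩ, by linarith, by linarith⟩
  rcases (norm_nonneg (fderiv ℝ v x)).eq_or_lt with h0 | h0
  · refine ⟨x, x, hx4, hx4, fun w hw h1 h2 => ?_⟩
    have := hmax w hw h1 h2
    rw [hF, ← h0] at this
    simpa using this
  · -- a point with large difference
    have hF0 : 0 < F := h0
    obtain ⟨x', hx', hlarge⟩ : ∃ x' ∈ ball x (ℓ / 8), F * ℓ / (16 * C) < |v x' - v x| := by
      by_contra hcon
      push Not at hcon
      have h1 : HarmonicOnNhd (fun y => v y - v x) (ball x (ℓ / 8)) := fun y hy =>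
        (hv y (hsub hy)).sub (harmonicAt_const (v x))
      have h2 := (hg (fun y => v y - v x) x (ℓ / 8) (F * ℓ / (16 * C)) (by positivity) h1 hcon).1
      rw [fderiv_sub_const] at h2
      have h3 : C * (F * ℓ / (16 * C)) / (ℓ / 8) = F / 2 := by field_simp; ring
      rw [h3] at h2
      linarith
    rw [mem_ball] at hx'
    have hx'Ω : x' ∈ Ω := hsub hx'
    refine ⟨x, x', hx4, ⟨hx'Ω, ?_, ?_⟩, fun w hw h1 h2 => ?_⟩
    · have h1 : infDist x (frontier Ω) ≤ infDist x' (frontier Ω) + dist x x' :=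
        infDist_le_infDist_add_dist
      rw [dist_comm] at h1
      linarith
    · have h1 : dist x' z ≤ dist x' x + dist x z := dist_triangle _ _ _
      linarith
    · refine (hmax w hw h1 h2).trans ?_
      rw [div_lt_iff₀ (by positivity)] at hlarge
      rw [le_div_iff₀ hℓ, abs_sub_comm]
      linarith

/-- Gradient of the Green function away from the pole. -/
theorem grad_green (hd : 2 ≤ d) (hN : IsNTA Ω M r₀) (hG : IsGreen Ω κ G) {x₀ : E d}
    (hx₀ : x₀ ∈ Ω) :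
    ∃ C : ℝ, 1 ≤ C ∧ ∀ x ∈ Ω, ∀ ℓ : ℝ, 0 < ℓ → ℓ / 2 ≤ infDist x (frontier Ω) →
      ℓ / 2 ≤ dist x x₀ → ‖fderiv ℝ (fun y => G y x₀) x‖ ≤ C * G x x₀ / ℓ := by
  obtain ⟨C, hC, hg⟩ := gradient_bound d
  obtain ⟨CH, hCH, hh⟩ := harnack_ball d
  have hC0 : 0 < C := by linarith
  have hCH0 : 0 < CH := by linarith
  refine ⟨8 * C * CH, by nlinarith, fun x hx ℓ hℓ hxδ hxx₀ => ?_⟩
  have hsub : ball x (ℓ / 2) ⊆ Ω := ball_subset_of_le hd hN hx hxδ
  have hne : ∀ y ∈ ball x (ℓ / 2), y ≠ x₀ := by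
    rintro y hy rfl
    rw [mem_ball, dist_comm] at hy
    linarith
  have hharm : HarmonicOnNhd (fun y => G y x₀) (ball x (ℓ / 2)) := fun y hy =>
    green_harmonic hd hN.isOpen hG (hsub hy) hx₀ (hne y hy)
  have hpos : ∀ y ∈ ball x (ℓ / 2), 0 ≤ G y x₀ := fun y hy =>
    (green_pos hd hN hG (hsub hy) hx₀ (hne y hy)).le
  have h8 : ball x (ℓ / 8) ⊆ ball x (ℓ / 2) := ball_subset_ball (by linarith)
  have hS : ∀ y ∈ ball x (ℓ / 8), |G y x₀| ≤ CH * G x x₀ := by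
    intro y hy
    rw [abs_of_nonneg (hpos y (h8 hy))]
    exact (hh _ x (ℓ / 2) (by positivity) hharm hpos y (by
      rw [show ℓ / 2 / 4 = ℓ / 8 by ring]; exact hy)).1
  have := (hg _ x (ℓ / 8) (CH * G x x₀) (by positivity) (hharm.mono h8) hS).1
  calc _ ≤ C * (CH * G x x₀) / (ℓ / 8) := this
    _ = _ := by field_simp

/-- Harnack's inequality in the first variable, uniformly in poles near the boundary. -/
theorem kernel_harnack (hd : 2 ≤ d) (hN : IsNTA Ω M r₀) (hG : IsGreen Ω κ G) :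
    ∃ C Cτ : ℝ, 1 ≤ C ∧ 1 ≤ Cτ ∧ ∀ ℓ τ : ℝ, 0 < τ → Cτ * τ ≤ ℓ → ∀ x ∈ Ω, ∀ x' ∈ Ω,
      ℓ / 4 ≤ infDist x (frontier Ω) → ℓ / 4 ≤ infDist x' (frontier Ω) → dist x x' ≤ 8 * ℓ →
      ∀ y ∈ Ω, infDist y (frontier Ω) < τ → G x y ≤ C * G x' y := by
  obtain ⟨N, Λ', hΛ', hch⟩ := chain_points hd hN (Λ := 8) (by norm_num)
  obtain ⟨CH, hCH, hh⟩ := harnack_ball d
  have hCH0 : 0 < CH := by linarith
  have hΛ0 : 0 < Λ' := by linarith
  refine ⟨CH ^ N, 2 * Λ', one_le_pow₀ hCH, by linarith, ?_⟩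
  intro ℓ τ hτ hτℓ x hx x' hx' hxδ hx'δ hxx' y hy hyδ
  have hℓ : 0 < ℓ := lt_of_lt_of_le (by positivity) hτℓ
  obtain ⟨p, hp0, hpN, hp, hstep⟩ := hch ℓ x x' hℓ hx hx' (by linarith) (by linarith) hxx'
  have hτΛ : τ ≤ ℓ / (2 * Λ') := by
    rw [le_div_iff₀ (by positivity)]; linarith
  have key : ∀ i, i ≤ N → G x y ≤ CH ^ i * G (p i) y := by
    intro i
    induction i with
    | zero => intro _; rw [hp0]; simp
    | succ i ih =>
      intro hi
      have hiN : i ≤ N := by omega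
      obtain ⟨hpi, -, hpδ⟩ := hp i hiN
      set R := ℓ / (3 * Λ') with hR
      have hR0 : 0 < R := by positivity
      have hRδ : R ≤ infDist (p i) (frontier Ω) := by
        refine le_trans ?_ hpδ
        exact div_le_div_of_nonneg_left hℓ.le hΛ0 (by linarith)
      have hsub : ball (p i) R ⊆ Ω := ball_subset_of_le hd hN hpi hRδ
      have hyd : R < dist (p i) y := by
        have h1 : infDist (p i) (frontier Ω) ≤ infDist y (frontier Ω) + dist (p i) y :=
          infDist_le_infDist_add_dist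
        have h2 : ℓ / Λ' = ℓ / (2 * Λ') + ℓ / (2 * Λ') := by field_simp; norm_num
        have h3 : R < ℓ / (2 * Λ') := by
          apply div_lt_div_of_pos_left hℓ (by positivity) (by linarith)
        linarith
      have hne : ∀ z ∈ ball (p i) R, z ≠ y := by
        rintro z hz rfl
        rw [mem_ball, dist_comm] at hz
        linarith
      have h1 := hh (fun z => G z y) (p i) R hR0
        (fun z hz => green_harmonic hd hN.isOpen hG (hsub hz) hy (hne z hz))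
        (fun z hz => (green_pos hd hN hG (hsub hz) hy (hne z hz)).le) (p (i + 1)) (by
          rw [mem_ball]
          refine lt_of_le_of_lt (hstep i (by omega)) ?_
          rw [hR, div_div]
          apply div_lt_div_of_pos_left hℓ (by positivity) (by linarith))
      calc G x y ≤ CH ^ i * G (p i) y := ih hiN
        _ ≤ CH ^ i * (CH * G (p (i + 1)) y) := by gcongr; exact h1.2
        _ = CH ^ (i + 1) * G (p (i + 1)) y := by ring
  have := key N le_rfl
  rwa [hpN] at this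

/-- Gradient of a positive harmonic function away from the boundary. -/
theorem grad_deep (hd : 2 ≤ d) (hN : IsNTA Ω M r₀) {x₀ : E d} (hx₀ : x₀ ∈ Ω) {a : ℝ}
    (ha : 0 < a) :
    ∃ C : ℝ, 1 ≤ C ∧ ∀ v : E d → ℝ, HarmonicOnNhd v Ω → (∀ x ∈ Ω, 0 < v x) →
      ∀ x ∈ Ω, a ≤ infDist x (frontier Ω) → ‖fderiv ℝ v x‖ ≤ C * v x₀ := by
  obtain ⟨L, hL⟩ := hN.isBounded.subset_closedBall x₀
  have hδ : 0 < infDist x₀ (frontier Ω) := infDist_frontier_pos hd hN hx₀
  set Λ := max 1 (max (1 / a) (max (1 / infDist x₀ (frontier Ω)) L)) with hΛ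
  have h1 : 1 ≤ Λ := le_max_left _ _
  have h2 : 1 / a ≤ Λ := (le_max_left _ _).trans (le_max_right _ _)
  have h3 : 1 / infDist x₀ (frontier Ω) ≤ Λ :=
    (le_max_left _ _).trans ((le_max_right _ _).trans (le_max_right _ _))
  have h4 : L ≤ Λ := (le_max_right _ _).trans ((le_max_right _ _).trans (le_max_right _ _))
  have h5 : 1 / Λ ≤ a := by
    rw [div_le_iff₀ (by positivity)]
    rw [div_le_iff₀ ha] at h2
    linarith
  have h6 : 1 / Λ ≤ infDist x₀ (frontier Ω) := by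
    rw [div_le_iff₀ (by positivity)]
    rw [div_le_iff₀ hδ] at h3
    linarith
  obtain ⟨Cc, Λ', hCc, hΛ', hcc⟩ := chain_harnack hd hN h1
  obtain ⟨C, hC, hg⟩ := gradient_bound d
  obtain ⟨CH, hCH, hh⟩ := harnack_ball d
  have hC0 : 0 < C := by linarith
  have hCH0 : 0 < CH := by linarith
  have hCc0 : 0 < Cc := by linarith
  refine ⟨max 1 (C * (CH * Cc) / (a / 4)), le_max_left _ _, ?_⟩
  intro v hv hvpos x hx hxa
  have hsub : ball x a ⊆ Ω := ball_subset_of_le hd hN hx hxa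
  have hvx₀ : 0 < v x₀ := hvpos x₀ hx₀
  have hvx : v x ≤ Cc * v x₀ := by
    refine (hcc 1 x x₀ one_pos hx hx₀ (by linarith) h6 ?_ v (fun z hz => hv z hz.1)
      (fun z hz => (hvpos z hz.1).le)).1
    have := hL hx
    rw [mem_closedBall] at this
    linarith
  have h8 : ball x (a / 4) ⊆ ball x a := ball_subset_ball (by linarith)
  have hS : ∀ y ∈ ball x (a / 4), |v y| ≤ CH * (Cc * v x₀) := by
    intro y hy
    rw [abs_of_pos (hvpos y (hsub (h8 hy)))]
    have := (hh v x a ha (hv.mono hsub) (fun z hz => (hvpos z (hsub hz)).le) y hy).1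
    calc v y ≤ CH * v x := this
      _ ≤ _ := by gcongr
  have := (hg v x (a / 4) _ (by positivity) (hv.mono (h8.trans hsub)) hS).1
  calc _ ≤ _ := this
    _ = C * (CH * Cc) / (a / 4) * v x₀ := by ring
    _ ≤ _ := by
        gcongr
        exact le_max_right _ _

theorem norm_fderiv_newton_le (hd : 2 ≤ d) (x₀ : E d) {x : E d} (h : x ≠ x₀) :
    ‖fderiv ℝ (fun y => newton (y - x₀)) x‖ ≤ d * ‖x - x₀‖ ^ (-((d : ℝ) - 1)) := by
  have hn : 0 < ‖x - x₀‖ := norm_pos_iff.2 (sub_ne_zero.2 h)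
  have ht : 0 < ‖x - x₀‖ ^ 2 := by positivity
  have hq := hasFDerivAt_normSq x₀ x
  have hqn : ‖(2 • (innerSL ℝ (x - x₀)) : E d →L[ℝ] ℝ)‖ = 2 * ‖x - x₀‖ := by
    rw [← Nat.cast_smul_eq_nsmul ℝ, norm_smul, innerSL_apply_norm]
    simp
  have h1 : (fun y : E d => newton (y - x₀)) = fun y => nprof d (‖y - x₀‖ ^ 2) := by
    ext y; exact newton_eq_nprof _
  rw [h1]
  by_cases hd2 : d = 2
  · have h2 : HasDerivAt (nprof d) (-(1 / 2) * (‖x - x₀‖ ^ 2)⁻¹) (‖x - x₀‖ ^ 2) := by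
      have h3 : nprof d = fun t => -(1 / 2) * Real.log t := by
        ext t; simp [nprof, hd2]
      rw [h3]
      exact (Real.hasDerivAt_log ht.ne').const_mul _
    have h4 := (h2.comp_hasFDerivAt x hq).fderiv
    have h5 : fderiv ℝ (fun y => nprof d (‖y - x₀‖ ^ 2)) x = _ := h4
    rw [h5, norm_smul, hqn]
    have h6 : (-((d : ℝ) - 1)) = -1 := by rw [show (d : ℝ) = 2 by exact_mod_cast hd2]; norm_num
    rw [h6, Real.rpow_neg_one]
    have h7 : ‖-(1 / 2 : ℝ) * (‖x - x₀‖ ^ 2)⁻¹‖ = 1 / 2 * (‖x - x₀‖ ^ 2)⁻¹ := by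
      rw [norm_mul, norm_neg, norm_inv]
      simp
    rw [h7]
    have h8 : (1 : ℝ) ≤ d := by exact_mod_cast (by omega : 1 ≤ d)
    calc 1 / 2 * (‖x - x₀‖ ^ 2)⁻¹ * (2 * ‖x - x₀‖) = 1 * ‖x - x₀‖⁻¹ := by field_simp
      _ ≤ d * ‖x - x₀‖⁻¹ := by gcongr
  · have h2 : HasDerivAt (nprof d)
        ((2 - (d : ℝ)) / 2 * (‖x - x₀‖ ^ 2) ^ ((2 - (d : ℝ)) / 2 - 1)) (‖x - x₀‖ ^ 2) := by
      have h3 : nprof d = fun t => t ^ ((2 - (d : ℝ)) / 2) := by
        ext t; simp [nprof, hd2]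
      rw [h3]
      exact Real.hasDerivAt_rpow_const (Or.inl ht.ne')
    have h4 := (h2.comp_hasFDerivAt x hq).fderiv
    have h5 : fderiv ℝ (fun y => nprof d (‖y - x₀‖ ^ 2)) x = _ := h4
    rw [h5, norm_smul, hqn]
    have hd2' : (2 : ℝ) ≤ d := by exact_mod_cast hd
    have h6 : (‖x - x₀‖ ^ 2) ^ ((2 - (d : ℝ)) / 2 - 1) = ‖x - x₀‖ ^ (-(d : ℝ)) := by
      rw [← Real.rpow_natCast, ← Real.rpow_mul hn.le]
      congr 1
      push_cast
      ring
    have h7 : ‖(2 - (d : ℝ)) / 2 * (‖x - x₀‖ ^ 2) ^ ((2 - (d : ℝ)) / 2 - 1)‖ =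
        ((d : ℝ) - 2) / 2 * ‖x - x₀‖ ^ (-(d : ℝ)) := by
      rw [norm_mul, h6, Real.norm_eq_abs, Real.norm_eq_abs, abs_of_nonneg (by positivity :
        0 ≤ ‖x - x₀‖ ^ (-(d : ℝ))), abs_of_nonpos (by linarith)]
      ring
    rw [h7]
    have h8 : ‖x - x₀‖ ^ (-((d : ℝ) - 1)) = ‖x - x₀‖ ^ (-(d : ℝ)) * ‖x - x₀‖ := by
      rw [show -((d : ℝ) - 1) = -(d : ℝ) + 1 by ring, Real.rpow_add hn, Real.rpow_one]
    rw [h8]
    have h9 : 0 < ‖x - x₀‖ ^ (-(d : ℝ)) * ‖x - x₀‖ := by positivity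
    calc ((d : ℝ) - 2) / 2 * ‖x - x₀‖ ^ (-(d : ℝ)) * (2 * ‖x - x₀‖)
        = ((d : ℝ) - 2) * (‖x - x₀‖ ^ (-(d : ℝ)) * ‖x - x₀‖) := by ring
      _ ≤ d * (‖x - x₀‖ ^ (-(d : ℝ)) * ‖x - x₀‖) := by gcongr; linarith

/-- The gradient of the Green function is integrable away from the boundary. -/
theorem grad_green_core (hd : 2 ≤ d) (hN : IsNTA Ω M r₀) (hG : IsGreen Ω κ G) {x₀ : E d}
    (hx₀ : x₀ ∈ Ω) {a : ℝ} (ha : 0 < a) :
    ∃ B : ℝ, 0 ≤ B ∧ ∫⁻ x in {x | x ∈ Ω ∧ a ≤ infDist x (frontier Ω)},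
      ENNReal.ofReal ‖fderiv ℝ (fun y => G y x₀) x‖ ≤ ENNReal.ofReal B := by
  obtain ⟨h, hh, heq⟩ := hG.corrector x₀ hx₀
  have hκ := hG.κ_pos
  set Ka : Set (E d) := {x | x ∈ Ω ∧ a ≤ infDist x (frontier Ω)} with hKa
  have hKc : IsCompact Ka := isCompact_deep hN ha
  have hcont : ContinuousOn (fun w => ‖fderiv ℝ h w‖) Ka := by
    intro w hw
    have h1 : ContDiffAt ℝ 1 (fderiv ℝ h) w := (hh w hw.1).1.fderiv_right (by norm_num)
    exact h1.continuousAt.norm.continuousWithinAt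
  obtain ⟨B₁, hB₁⟩ := hKc.exists_bound_of_continuousOn hcont
  obtain ⟨L, hL⟩ := hN.isBounded.subset_ball x₀
  have hfr : Module.finrank ℝ (E d) = d := finrank_euclideanSpace_fin
  -- the singular part
  have hint : IntegrableOn (fun w : E d => κ * (d * ‖w‖ ^ (-((d : ℝ) - 1)))) (ball 0 L) := by
    apply integrableOn_ball_of_norm_le_rpow (C := κ * d) (α := (d : ℝ) - 1)
    · rw [hfr]; linarith
    · refine Eventually.of_forall fun w => ?_
      rw [Real.norm_eq_abs, abs_of_nonneg (by positivity)]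
      exact le_of_eq (by ring)
    · apply Measurable.aestronglyMeasurable
      fun_prop
    · rw [hfr]; omega
  have hint2 : IntegrableOn (fun w : E d => κ * (d * ‖w - x₀‖ ^ (-((d : ℝ) - 1))))
      (ball x₀ L) := by
    have h1 := (integrable_indicator_iff measurableSet_ball).2 hint
    have h2 := h1.comp_sub_right x₀
    rw [← integrable_indicator_iff measurableSet_ball]
    refine h2.congr (Eventually.of_forall fun w => ?_)
    by_cases hw : w ∈ ball x₀ L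
    · have hw' : w - x₀ ∈ ball (0 : E d) L := by
        rw [mem_ball, dist_eq_norm] at hw ⊢
        simpa using hw
      show (ball (0 : E d) L).indicator _ (w - x₀) = _
      rw [indicator_of_mem hw, indicator_of_mem hw']
    · have hw' : w - x₀ ∉ ball (0 : E d) L := by
        rw [mem_ball, dist_eq_norm] at hw ⊢
        simpa using hw
      show (ball (0 : E d) L).indicator _ (w - x₀) = _
      rw [indicator_of_notMem hw, indicator_of_notMem hw']
  have hKb : Ka ⊆ ball x₀ L := fun x hx => hL hx.1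
  have hint3 : IntegrableOn (fun w : E d => κ * (d * ‖w - x₀‖ ^ (-((d : ℝ) - 1))) + |B₁|) Ka :=
    (hint2.mono_set hKb).add (integrableOn_const hKc.measure_lt_top.ne)
  have hbound : ∀ w ∈ Ka, w ≠ x₀ → ‖fderiv ℝ (fun y => G y x₀) w‖ ≤
      κ * (d * ‖w - x₀‖ ^ (-((d : ℝ) - 1))) + |B₁| := by
    intro w hw hne
    have h1 : (fun y => G y x₀) =ᶠ[𝓝 w] fun y => κ * newton (y - x₀) + h y := by
      filter_upwards [hN.isOpen.mem_nhds hw.1, isOpen_ne.mem_nhds hne] with z hz hzy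
      exact heq z hz hzy
    rw [h1.fderiv_eq]
    have d1 : DifferentiableAt ℝ (fun y : E d => newton (y - x₀)) w :=
      (newton_contDiffAt hne).differentiableAt (by norm_num)
    have d2 : DifferentiableAt ℝ h w := (hh w hw.1).1.differentiableAt (by norm_num)
    have h2 : fderiv ℝ (fun y => κ * newton (y - x₀) + h y) w =
        κ • fderiv ℝ (fun y => newton (y - x₀)) w + fderiv ℝ h w := by
      have := ((d1.hasFDerivAt.const_mul κ).add d2.hasFDerivAt).fderiv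
      exact this
    rw [h2]
    refine (norm_add_le _ _).trans ?_
    rw [norm_smul, Real.norm_eq_abs, abs_of_pos hκ]
    have h3 := norm_fderiv_newton_le hd x₀ hne
    have h4 := hB₁ w hw
    rw [norm_norm] at h4
    have h5 := le_abs_self B₁
    gcongr
    linarith
  refine ⟨∫ w in Ka, (κ * (d * ‖w - x₀‖ ^ (-((d : ℝ) - 1))) + |B₁|), ?_, ?_⟩
  · apply integral_nonneg
    intro w
    positivity
  · rw [ofReal_integral_eq_lintegral_ofReal hint3
      (Eventually.of_forall fun w => by positivity)]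
    apply lintegral_mono_ae
    rw [ae_restrict_iff' hKc.measurableSet]
    have hne : ∀ᵐ w : E d, w ≠ x₀ := by
      have : Nontrivial (E d) := by
        apply Module.nontrivial_of_finrank_pos (R := ℝ)
        rw [hfr]; omega
      exact Measure.ae_ne volume x₀
    filter_upwards [hne] with w hw hwK
    exact ENNReal.ofReal_le_ofReal (hbound w hwK hw)

end Pool.Agent.MP_578f25_an
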