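import Pool.Agent.Lib.MP_578f25_an.Green2d

/-!
# The positivity principle
-/

set_option autoImplicit false

namespace Pool.Agent.MP_578f25_an

open MeasureTheory Metric Set Filter Topology InnerProductSpace Laplacian

variable {d : ℕ} {Ω : Set (E d)} {M r₀ κ : ℝ} {G : E d → E d → ℝ}

namespace Green2

theorem exists_pos_le {ι : Type*} (I : Finset ι) (f : ι → ℝ) (h : ∀ i ∈ I, 0 < f i) :
    ∃ ε : ℝ, 0 < ε ∧ ∀ i ∈ I, ε ≤ f i := by
  classical
  induction I using Finset.induction_on with
  | empty => exact ⟨1, one_pos, by simp⟩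
  | insert i I hi ih =>
    obtain ⟨ε, hε, h1⟩ := ih fun j hj => h j (Finset.mem_insert_of_mem hj)
    refine ⟨min ε (f i), lt_min hε (h i (Finset.mem_insert_self _ _)), fun j hj => ?_⟩
    rcases Finset.mem_insert.1 hj with rfl | hj
    · exact min_le_right _ _
    · exact (min_le_left _ _).trans (h1 j hj)

theorem laplacian_sum {ι : Type*} (I : Finset ι) (w : ι → ℝ) (T : ι → E d → ℝ) {x : E d}
    (h : ∀ i ∈ I, ContDiffAt ℝ 2 (T i) x) :
    ContDiffAt ℝ 2 (fun y => ∑ i ∈ I, w i * T i y) x ∧
      (Δ (fun y => ∑ i ∈ I, w i * T i y)) x = ∑ i ∈ I, w i * (Δ (T i)) x := by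
  classical
  induction I using Finset.induction_on with
  | empty =>
    refine ⟨by simpa using contDiffAt_const, ?_⟩
    rw [laplacian_eq_sum]
    simp
  | insert i I hi ih =>
    obtain ⟨h1, h2⟩ := ih fun j hj => h j (Finset.mem_insert_of_mem hj)
    have h3 := h i (Finset.mem_insert_self _ _)
    have e1 : (fun y => ∑ j ∈ insert i I, w j * T j y) =
        (w i • T i) + fun y => ∑ j ∈ I, w j * T j y := by
      ext y
      rw [Finset.sum_insert hi]
      simp
    have h4 : ContDiffAt ℝ 2 (w i • T i) x := h3.const_smul (w i)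
    rw [e1, Finset.sum_insert hi]
    refine ⟨h4.add h1, ?_⟩
    rw [h4.laplacian_add h1, laplacian_smul _ h3, h2]
    simp

end Green2

open Green2

/-- Positivity principle. -/
theorem green_positivity (hd : 2 ≤ d) (hN : IsNTA Ω M r₀) (hG : IsGreen Ω κ G)
    {ι : Type} (I : Finset ι) (z : ι → E d) (w : ι → ℝ) (hz : ∀ i ∈ I, z i ∈ Ω)
    (hpos : ∃ τ : ℝ, 0 < τ ∧ ∀ y ∈ Ω, infDist y (frontier Ω) < τ → 0 < ∑ i ∈ I, w i * G (z i) y)
    {v : E d → ℝ} (hv : HarmonicOnNhd v Ω) (hv0 : ∀ x ∈ Ω, 0 ≤ v x) :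
    0 ≤ ∑ i ∈ I, w i * v (z i) := by
  classical
  have hκ := hG.κ_pos
  have hmm := mm_pos hd
  obtain ⟨τ, hτ, hτpos⟩ := hpos
  obtain ⟨τ₂, hτ₂, hτ₂le⟩ := exists_pos_le I (fun i => infDist (z i) (frontier Ω))
    (fun i hi => infDist_frontier_pos hd hN (hz i hi))
  set t := min τ (τ₂ / 2) with ht
  have ht0 : 0 < t := by positivity
  have htτ : t ≤ τ := min_le_left _ _
  have htz : ∀ i ∈ I, 2 * t ≤ infDist (z i) (frontier Ω) := fun i hi => by
    have h1 : t ≤ τ₂ / 2 := min_le_right _ _
    have := hτ₂le i hi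
    linarith
  -- truncations
  have htr : ∀ i : ι, ∃ α : ℝ, 0 < α ∧ (i ∈ I → ball (z i) α ⊆ Ω ∧
      ∀ ε : ℝ, 0 < ε → ε < α → ∃ T : E d → ℝ, IsTrunc Ω κ G (z i) 0 ε T) := by
    intro i
    by_cases hi : i ∈ I
    · obtain ⟨α, hα, hαb, -, hαt⟩ := exists_trunc hd hN hG (hz i hi) 0
      exact ⟨α, hα, fun _ => ⟨hαb, hαt⟩⟩
    · exact ⟨1, one_pos, fun h => absurd h hi⟩
  choose α hα0 hα using htr
  obtain ⟨α₀, hα₀, hα₀le⟩ := exists_pos_le I α (fun i _ => hα0 i)
  set ε := min α₀ t / 2 with hε
  have hε0 : 0 < ε := by positivity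
  have hεα : ∀ i ∈ I, ε < α i := fun i hi => by
    have h1 : min α₀ t ≤ α₀ := min_le_left _ _
    have := hα₀le i hi
    linarith
  have hεt : ε < t := by
    have h1 : min α₀ t ≤ t := min_le_right _ _
    linarith
  have hTex : ∀ i : ι, ∃ T : E d → ℝ, i ∈ I → IsTrunc Ω κ G (z i) 0 ε T := by
    intro i
    by_cases hi : i ∈ I
    · obtain ⟨T, hT⟩ := (hα i hi).2 ε hε0 (hεα i hi)
      exact ⟨T, fun _ => hT⟩
    · exact ⟨0, fun h => absurd h hi⟩
  choose T hT using hTex
  set g : E d → ℝ := fun x => ∑ i ∈ I, w i * T i x with hg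
  have hfar : ∀ x, infDist x (frontier Ω) < t → ∀ i ∈ I, ε < dist x (z i) := by
    intro x hx i hi
    have h1 : infDist (z i) (frontier Ω) ≤ infDist x (frontier Ω) + dist (z i) x :=
      infDist_le_infDist_add_dist
    rw [dist_comm] at h1
    have := htz i hi
    linarith
  have hgG : ∀ x ∈ Ω, infDist x (frontier Ω) < t → 0 < g x := by
    intro x hx hxt
    have h1 : g x = ∑ i ∈ I, w i * G (z i) x := by
      refine Finset.sum_congr rfl fun i hi => ?_
      have h2 := hfar x hxt i hi
      have hne : z i ≠ x := by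
        intro h
        rw [← h, dist_self] at h2
        linarith
      rw [(hT i hi).eq x hx h2.le, green_symm hd hN hG (hz i hi) hx hne]
    rw [h1]
    exact hτpos x hx (by linarith)
  have hgsm : ∀ x ∈ Ω, ContDiffAt ℝ 2 g x ∧
      (Δ g) x = -(κ * ∑ i ∈ I, w i * rho ε (z i) x) := by
    intro x hx
    obtain ⟨h1, h2⟩ := laplacian_sum I w T (fun i hi => (hT i hi).smooth x hx)
    refine ⟨h1, ?_⟩
    rw [hg, h2, Finset.mul_sum, ← Finset.sum_neg_distrib]
    refine Finset.sum_congr rfl fun i hi => ?_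
    rw [(hT i hi).lap x hx]
    ring
  -- lower bound in the middle layer
  obtain ⟨s, hs, hsK⟩ : ∃ s : ℝ, 0 < s ∧ ∀ x ∈ Ω, t / 2 ≤ infDist x (frontier Ω) →
      infDist x (frontier Ω) ≤ 3 * t / 4 → s ≤ g x := by
    let K : Set (E d) := {x | x ∈ Ω ∧ t / 2 ≤ infDist x (frontier Ω)} ∩
      {x | infDist x (frontier Ω) ≤ 3 * t / 4}
    have hK1 : IsCompact {x | x ∈ Ω ∧ t / 2 ≤ infDist x (frontier Ω)} := by
      apply Metric.isCompact_of_isClosed_isBounded
      · have h1 : {x | x ∈ Ω ∧ t / 2 ≤ infDist x (frontier Ω)} =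
            closure Ω ∩ {x | t / 2 ≤ infDist x (frontier Ω)} := by
          ext x
          constructor
          · rintro ⟨h1, h2⟩
            exact ⟨subset_closure h1, h2⟩
          · rintro ⟨h1, h2⟩
            refine ⟨?_, h2⟩
            by_contra hx
            have h3 : x ∈ frontier Ω := ⟨h1, fun h => hx (interior_subset h)⟩
            have h4 := infDist_zero_of_mem h3
            have h2' : t / 2 ≤ infDist x (frontier Ω) := h2
            linarith
        rw [h1]
        exact isClosed_closure.inter (isClosed_le continuous_const (continuous_infDist_pt _))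
      · exact hN.isBounded.subset fun x hx => hx.1
    have hK : IsCompact K :=
      hK1.inter_right (isClosed_le (continuous_infDist_pt _) continuous_const)
    rcases K.eq_empty_or_nonempty with h0 | hne
    · refine ⟨1, one_pos, fun x hx h1 h2 => ?_⟩
      exfalso
      have : x ∈ K := ⟨⟨hx, h1⟩, h2⟩
      rw [h0] at this
      exact this
    · have hgc : ContinuousOn g K := fun x hx =>
        (hgsm x hx.1.1).1.continuousAt.continuousWithinAt
      obtain ⟨x₁, hx₁, hmin⟩ := hK.exists_isMinOn hne hgc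
      refine ⟨g x₁, hgG x₁ hx₁.1.1 ?_, fun x hx h1 h2 => hmin ⟨⟨hx, h1⟩, h2⟩⟩
      have : infDist x₁ (frontier Ω) ≤ 3 * t / 4 := hx₁.2
      linarith
  obtain ⟨Ψ, Θ, q, c, a', hΨ, hΘ, hqc, hq, hΨw, hΘw, hlow, hhigh, hcs⟩ := exists_ramps hs
  set φ : E d → ℝ := fun x => if x ∈ Ω then
    (if infDist x (frontier Ω) < 2 * t / 3 then Ψ (g x) else g x - c) else 0 with hφ
  have hcδ := continuous_infDist_pt (frontier Ω)
  have hA : ∀ x ∈ Ω, infDist x (frontier Ω) < 3 * t / 4 → φ =ᶠ[𝓝 x] fun y => Ψ (g y) := by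
    intro x hx hxt
    filter_upwards [hN.isOpen.mem_nhds hx, hcδ.continuousAt.eventually (gt_mem_nhds hxt)]
      with y hy hyt
    simp only [hφ, if_pos hy]
    split_ifs with h
    · rfl
    · push Not at h
      have h1 := hsK y hy (by linarith) hyt.le
      rw [(hhigh _ h1).2.2.2.1]
  have hB : ∀ x ∈ Ω, t / 2 < infDist x (frontier Ω) → φ =ᶠ[𝓝 x] fun y => g y - c := by
    intro x hx hxt
    filter_upwards [hN.isOpen.mem_nhds hx, hcδ.continuousAt.eventually (lt_mem_nhds hxt)]
      with y hy hyt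
    simp only [hφ, if_pos hy]
    split_ifs with h
    · have h1 := hsK y hy hyt.le (by linarith)
      rw [(hhigh _ h1).2.2.2.1]
    · rfl
  have hcase : ∀ x : E d, infDist x (frontier Ω) < 3 * t / 4 ∨ t / 2 < infDist x (frontier Ω) := by
    intro x
    rcases lt_or_ge (infDist x (frontier Ω)) (3 * t / 4) with h | h
    · exact Or.inl h
    · exact Or.inr (by linarith)
  obtain ⟨p1, p2, p3⟩ := support_facts hN (φ := φ)
    (fun x hx => by
      rcases hcase x with h | h
      · exact ((hΨ.contDiffAt).comp x (hgsm x hx).1).congr_of_eventuallyEq (hA x hx h)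
      · exact ((hgsm x hx).1.sub contDiffAt_const).congr_of_eventuallyEq (hB x hx h))
    (fun x hx => by simp only [hφ, if_neg hx])
    (fun ζ hζ => by
      have h1 : Tendsto g (𝓝[Ω] ζ) (𝓝 0) := by
        have h2 : Tendsto (fun x => ∑ i ∈ I, w i * G x (z i)) (𝓝[Ω] ζ) (𝓝 0) := by
          have h3 : Tendsto (fun x => ∑ i ∈ I, w i * G x (z i)) (𝓝[Ω] ζ)
              (𝓝 (∑ i ∈ I, w i * 0)) :=
            tendsto_finsetSum _ fun i hi => (hG.boundary (z i) (hz i hi) ζ hζ).const_mul _
          simpa using h3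
        refine h2.congr' ?_
        have h4 : ∀ᶠ x in 𝓝[Ω] ζ, ∀ i ∈ I, T i x = G x (z i) := by
          rw [Finset.eventually_all]
          intro i hi
          exact ((hT i hi).eventually_lt hN hG (hz i hi) (hεα i hi) (hα i hi).1 one_pos hζ).mono
            fun x hx => hx.2
        filter_upwards [h4] with x hx
        simp only [hg]
        exact Finset.sum_congr rfl fun i hi => by rw [hx i hi]
      have h2 : ∀ᶠ x in 𝓝[Ω] ζ, infDist x (frontier Ω) < 2 * t / 3 := by
        have h3 : infDist ζ (frontier Ω) < 2 * t / 3 := by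
          rw [infDist_zero_of_mem hζ]; positivity
        exact mem_nhdsWithin_of_mem_nhds (hcδ.continuousAt.eventually (gt_mem_nhds h3))
      filter_upwards [h1.eventually (gt_mem_nhds (half_pos hs)), h2, self_mem_nhdsWithin]
        with x hx1 hx2 hx3
      simp only [hφ, if_pos hx3, if_pos hx2]
      exact (hlow _ hx1.le).1)
  have hlap : ∀ x ∈ Ω, -(κ * ∑ i ∈ I, w i * rho ε (z i) x) ≤ (Δ φ) x := by
    intro x hx
    obtain ⟨h1, h2⟩ := hgsm x hx
    rcases hcase x with h | h
    · have h3 : ∑ i ∈ I, w i * rho ε (z i) x = 0 := by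
        apply Finset.sum_eq_zero
        intro i hi
        rw [rho_zero hε0 (hfar x (by linarith) i hi).le, mul_zero]
      rw [laplacian_congr (hA x hx h), laplacian_comp h1 hΨ.contDiffAt, h2, h3, hΨw]
      have := hq (g x)
      have h4 : 0 ≤ q (g x) * ‖fderiv ℝ g x‖ ^ 2 := by positivity
      linarith
    · have h3 : (Δ (fun y => g y - c)) x = (Δ g) x := by
        have e1 : (fun y => g y - c) = g + fun _ => -c := by
          ext y; simp [sub_eq_add_neg]
        rw [e1, h1.laplacian_add contDiffAt_const]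
        have e2 : (Δ (fun _ : E d => -c)) x = 0 := by
          rw [laplacian_eq_sum]
          simp
        rw [e2, add_zero]
      rw [laplacian_congr (hB x hx h), h3, h2]
  -- Green's identity
  have hvc : ContDiffOn ℝ 2 v Ω := fun x hx => (hv x hx).1.contDiffWithinAt
  have key := green_identity hN.isOpen hvc p1 p2 p3
  have hzero : ∫ x, φ x * (Δ v) x = 0 := by
    rw [← integral_zero (E d) ℝ]
    congr 1
    ext x
    by_cases hx : x ∈ Ω
    · rw [Green1.laplacian_zero (hv x hx), mul_zero]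
    · simp only [hφ, if_neg hx, zero_mul]
  rw [hzero] at key
  have hri : ∀ i ∈ I, Integrable (fun x => v x * rho ε (z i) x) := fun i hi =>
    rho_integrable (R := α i) (fun x hx =>
      (hv x ((hα i hi).1 hx)).1.continuousAt.continuousWithinAt) hε0 (hεα i hi)
  have hle : -(κ * ∑ i ∈ I, w i * (mm d * v (z i))) ≤ ∫ x, v x * (Δ φ) x := by
    have h1 : -(κ * ∑ i ∈ I, w i * (mm d * v (z i))) =
        ∫ x, -(κ * ∑ i ∈ I, w i * (v x * rho ε (z i) x)) := by
      rw [integral_neg, integral_const_mul, integral_finsetSum]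
      · congr 2
        refine Finset.sum_congr rfl fun i hi => ?_
        rw [integral_const_mul, rho_mean (hv.mono (hα i hi).1) hε0 (hεα i hi)]
      · intro i hi
        exact (hri i hi).const_mul _
    rw [h1]
    apply integral_mono _ (integrable_mul_laplacian hN.isOpen hvc.continuousOn p1 p2 p3)
    · intro x
      show -(κ * ∑ i ∈ I, w i * (v x * rho ε (z i) x)) ≤ v x * (Δ φ) x
      by_cases hx : x ∈ Ω
      · have h2 := mul_le_mul_of_nonneg_left (hlap x hx) (hv0 x hx)
        refine le_trans (le_of_eq ?_) h2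
        have h7 : ∑ i ∈ I, w i * (v x * rho ε (z i) x) = v x * ∑ i ∈ I, w i * rho ε (z i) x := by
          rw [Finset.mul_sum]
          refine Finset.sum_congr rfl fun i _ => ?_
          ring
        rw [h7]
        ring
      · rw [laplacian_notMem (fun h => hx (p3 h)), mul_zero]
        have h3 : ∑ i ∈ I, w i * (v x * rho ε (z i) x) = 0 := by
          apply Finset.sum_eq_zero
          intro i hi
          have h4 : ε ≤ dist x (z i) := by
            by_contra hcon
            push Not at hcon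
            exact hx ((hα i hi).1 (by rw [mem_ball]; linarith [hεα i hi]))
          rw [rho_zero hε0 h4]
          ring
        rw [h3]
        simp
    · apply Integrable.neg
      apply Integrable.const_mul
      apply integrable_finsetSum
      intro i hi
      exact (hri i hi).const_mul _
  rw [key] at hle
  have h5 : ∑ i ∈ I, w i * (mm d * v (z i)) = mm d * ∑ i ∈ I, w i * v (z i) := by
    rw [Finset.mul_sum]
    refine Finset.sum_congr rfl fun i _ => ?_
    ring
  rw [h5] at hle
  by_contra hcon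
  push Not at hcon
  have h6 : κ * (mm d * ∑ i ∈ I, w i * v (z i)) < 0 :=
    mul_neg_of_pos_of_neg hκ (mul_neg_of_pos_of_neg hmm hcon)
  linarith

end Pool.Agent.MP_578f25_an
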