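import Mathlib

/-!
# The perturbed densities (definitions)

Abstract part of the multi-scale argument for MP_578f25_an.
-/

set_option autoImplicit false

namespace Pool.Agent.MP_578f25_an

open MeasureTheory Metric

/-- The kernel `(ℓ / D) ^ α / ω (B (z, D))` with `D = ℓ + dist y z`. -/
noncomputable def Theta {X : Type*} [PseudoMetricSpace X] [MeasurableSpace X] (ω : Measure X)
    (α ℓ : ℝ) (z y : X) : ℝ :=
  (ℓ / (ℓ + dist y z)) ^ α / ω.real (ball z (ℓ + dist y z))

/-- The perturbed densities: `h₀ = 1`,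
`h_{i+1} y = h_i y + ε * ∑_{z ∈ Z_i} σ_i z * h_i z * b_i z y`. -/
noncomputable def hfun {X : Type*} (ε : ℝ) (Z : ℕ → Finset X) (σ : ℕ → X → ℝ)
    (b : ℕ → X → X → ℝ) : ℕ → X → ℝ
  | 0 => fun _ => 1
  | i + 1 => fun y => hfun ε Z σ b i y + ε * ∑ z ∈ Z i, σ i z * hfun ε Z σ b i z * b i z y

end Pool.Agent.MP_578f25_an
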