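import Pool.Agent.Lib.MP_578f25_an.Kern3
import Pool.Agent.Lib.MP_578f25_an.Green2f
import Pool.Agent.Lib.MP_578f25_an.MultiDefs

/-!
# Nets, sums and transfer to the subtype
-/

set_option autoImplicit false

namespace Pool.Agent.MP_578f25_an

open MeasureTheory Metric Set Filter Topology InnerProductSpace

variable {d : ℕ} {Ω : Set (E d)} {M r₀ κ : ℝ} {G : E d → E d → ℝ}

/-- Separated nets. -/
theorem exists_net {X : Type*} [PseudoMetricSpace X] (hX : TotallyBounded (univ : Set X))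
    {ℓ : ℝ} (hℓ : 0 < ℓ) :
    ∃ Z : Finset X, (∀ z ∈ Z, ∀ z' ∈ Z, z ≠ z' → ℓ ≤ dist z z') ∧ ∀ y, ∃ z ∈ Z, dist y z < ℓ := by
  classical
  obtain ⟨t, htf, ht⟩ := Metric.totallyBounded_iff.1 hX (ℓ / 2) (by positivity)
  have hcen : ∀ z : X, ∃ c ∈ t, dist z c < ℓ / 2 := by
    intro z
    have h1 := ht (mem_univ z)
    simp only [mem_iUnion, mem_ball, exists_prop] at h1
    exact h1
  choose c hc1 hc2 using hcen
  have hcard : ∀ Z : Finset X, (∀ z ∈ Z, ∀ z' ∈ Z, z ≠ z' → ℓ ≤ dist z z') →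
      Z.card ≤ htf.toFinset.card := by
    intro Z hZ
    apply Finset.card_le_card_of_injOn c (fun z _ => htf.mem_toFinset.2 (hc1 z))
    intro z hz z' hz' h
    by_contra hne
    have h1 := hZ z hz z' hz' hne
    have h2 : dist z z' ≤ dist z (c z) + dist z' (c z) := dist_triangle_right _ _ _
    have h3 := hc2 z
    have h4 := hc2 z'
    rw [← h] at h4
    linarith
  by_contra hcon
  push Not at hcon
  have key : ∀ n : ℕ, ∃ Z : Finset X, (∀ z ∈ Z, ∀ z' ∈ Z, z ≠ z' → ℓ ≤ dist z z') ∧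
      Z.card = n := by
    intro n
    induction n with
    | zero => exact ⟨∅, by simp, by simp⟩
    | succ n ih =>
      obtain ⟨Z, hZ, hZn⟩ := ih
      obtain ⟨y, hy⟩ := hcon Z hZ
      have hyZ : y ∉ Z := by
        intro h
        have := hy y h
        rw [dist_self] at this
        linarith
      refine ⟨insert y Z, ?_, by rw [Finset.card_insert_of_notMem hyZ, hZn]⟩
      intro z hz z' hz' hne
      rw [Finset.mem_insert] at hz hz'
      rcases hz with rfl | hz <;> rcases hz' with rfl | hz'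
      · exact absurd rfl hne
      · exact hy z' hz'
      · rw [dist_comm]; exact hy z hz
      · exact hZ z hz z' hz' hne
  obtain ⟨Z, hZ, hZn⟩ := key (htf.toFinset.card + 1)
  have := hcard Z hZ
  omega

theorem hfun_expand {X : Type*} (ε : ℝ) (Z : ℕ → Finset X) (σ : ℕ → X → ℝ)
    (b : ℕ → X → X → ℝ) (J : ℕ) (y : X) :
    hfun ε Z σ b J y = 1 + ε * ∑ i ∈ Finset.range J, ∑ z ∈ Z i,
      σ i z * hfun ε Z σ b i z * b i z y := by
  induction J with
  | zero => simp [hfun]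
  | succ J ih =>
    show hfun ε Z σ b J y + ε * ∑ z ∈ Z J, σ J z * hfun ε Z σ b J z * b J z y = _
    rw [ih, Finset.sum_range_succ]
    ring

theorem lintegral_finset_iUnion_le {α β : Type*} [MeasurableSpace α] (μ : Measure α)
    (s : Finset β) (t : β → Set α) (f : α → ENNReal) :
    ∫⁻ a in ⋃ b ∈ s, t b, f a ∂μ ≤ ∑ b ∈ s, ∫⁻ a in t b, f a ∂μ := by
  classical
  induction s using Finset.induction_on with
  | empty => simp
  | insert b s hb ih =>
    rw [Finset.set_biUnion_insert, Finset.sum_insert hb]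
    exact (lintegral_union_le _ _ _).trans (by gcongr)

/-- Summing over the scales. -/
theorem lintegral_scales {α β : Type*} [MeasurableSpace α] (μ : Measure α) (S : ℕ → Set α)
    (Z : ℕ → Finset β) (T : ℕ → β → Set α) (f : α → ENNReal) (J : ℕ)
    (hS : ∀ i < J, S (i + 1) ⊆ S i ∪ ⋃ z ∈ Z i, T i z) :
    ∫⁻ a in S J, f a ∂μ ≤ ∫⁻ a in S 0, f a ∂μ +
      ∑ i ∈ Finset.range J, ∑ z ∈ Z i, ∫⁻ a in T i z, f a ∂μ := by
  induction J with
  | zero => simp
  | succ J ih =>
    rw [Finset.sum_range_succ, ← add_assoc]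
    calc ∫⁻ a in S (J + 1), f a ∂μ ≤ ∫⁻ a in S J ∪ ⋃ z ∈ Z J, T J z, f a ∂μ :=
          lintegral_mono_set (hS J (Nat.lt_succ_self J))
      _ ≤ ∫⁻ a in S J, f a ∂μ + ∫⁻ a in ⋃ z ∈ Z J, T J z, f a ∂μ := lintegral_union_le _ _ _
      _ ≤ _ := by
          gcongr
          · exact ih fun i hi => hS i (Nat.lt_succ_of_lt hi)
          · exact lintegral_finset_iUnion_le _ _ _ _

/-- Integral over a patch of size `ℓ`. -/
theorem patch_bound (hd : 2 ≤ d) {T : Set (E d)} {z : E d} {ℓ c : ℝ} (hℓ : 0 < ℓ) (hc : 0 ≤ c)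
    (hT : MeasurableSet T) (hTz : T ⊆ closedBall z (3 * ℓ)) {F : E d → ℝ}
    (hF : ∀ x ∈ T, F x ≤ c * (ℓ ^ d)⁻¹) :
    ∫⁻ x in T, ENNReal.ofReal (F x) ≤
      ENNReal.ofReal (c * (3 ^ d * volume.real (ball (0 : E d) 1))) := by
  have hfr : Module.finrank ℝ (E d) = d := finrank_euclideanSpace_fin
  have hnt : Nontrivial (E d) := by
    apply Module.nontrivial_of_finrank_pos (R := ℝ)
    rw [hfr]; omega
  have hV : volume (closedBall z (3 * ℓ)) =
      ENNReal.ofReal ((3 * ℓ) ^ d * volume.real (ball (0 : E d) 1)) := by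
    rw [Measure.addHaar_closedBall _ _ (by positivity), hfr, ENNReal.ofReal_mul (by positivity)]
    rw [Measure.real, ENNReal.ofReal_toReal measure_ball_lt_top.ne]
  calc ∫⁻ x in T, ENNReal.ofReal (F x) ≤ ∫⁻ x in T, ENNReal.ofReal (c * (ℓ ^ d)⁻¹) :=
        setLIntegral_mono' hT fun x hx => ENNReal.ofReal_le_ofReal (hF x hx)
    _ = ENNReal.ofReal (c * (ℓ ^ d)⁻¹) * volume T := by rw [setLIntegral_const]
    _ ≤ ENNReal.ofReal (c * (ℓ ^ d)⁻¹) * volume (closedBall z (3 * ℓ)) := by gcongr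
    _ = _ := by
        rw [hV, ← ENNReal.ofReal_mul (by positivity)]
        congr 1
        rw [mul_pow]
        field_simp

/-- A point where the weighted sum is small. -/
theorem exists_good_point {X : Type*} [MeasurableSpace X] (μ : Measure X)
    [IsProbabilityMeasure μ] (J : ℕ) (Z : ℕ → Finset X) (h : ℕ → X → ℝ) (a : ℕ → X → ℝ)
    (k : ℕ → X → X → ℝ) {C' ε V : ℝ} (hε : 0 < ε) (hC' : 0 < C')
    (hpos : ∀ y, 0 < h J y) (hmeas : Measurable (h J)) (hbdd : ∃ B, ∀ y, h J y ≤ B)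
    (hint : ∫ y, h J y ∂μ = 1) (ha : ∀ i < J, ∀ z ∈ Z i, 0 ≤ a i z)
    (hk : ∀ i < J, ∀ z ∈ Z i, Integrable (k i z) μ)
    (hkh : ∀ i < J, ∀ z ∈ Z i, ∫ y, k i z y * h J y ∂μ ≤ C' * h i z)
    (hsum : ε * ∑ i ∈ Finset.range J, ∑ z ∈ Z i, a i z * h i z ≤ V) :
    ∃ y, ∑ i ∈ Finset.range J, ∑ z ∈ Z i, a i z * k i z y ≤ C' * (V / ε) := by
  obtain ⟨B, hB⟩ := hbdd
  have hbd : ∀ y, ‖h J y‖ ≤ B := fun y => by
    rw [Real.norm_eq_abs, abs_of_pos (hpos y)]; exact hB y
  have hkhint : ∀ i < J, ∀ z ∈ Z i, Integrable (fun y => k i z y * h J y) μ := by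
    intro i hi z hz
    exact (hk i hi z hz).mul_bdd hmeas.aestronglyMeasurable (Eventually.of_forall hbd)
  have hhint : Integrable (h J) μ :=
    Integrable.of_bound hmeas.aestronglyMeasurable B (Eventually.of_forall hbd)
  set S : X → ℝ := fun y => ∑ i ∈ Finset.range J, ∑ z ∈ Z i, a i z * (k i z y * h J y) with hS
  have hSint : Integrable S μ := by
    apply integrable_finsetSum
    intro i hi
    apply integrable_finsetSum
    intro z hz
    exact (hkhint i (Finset.mem_range.1 hi) z hz).const_mul _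
  have hSeq : ∫ y, S y ∂μ = ∑ i ∈ Finset.range J, ∑ z ∈ Z i,
      a i z * ∫ y, k i z y * h J y ∂μ := by
    rw [hS, integral_finsetSum]
    · refine Finset.sum_congr rfl fun i hi => ?_
      rw [integral_finsetSum]
      · refine Finset.sum_congr rfl fun z hz => ?_
        rw [integral_const_mul]
      · intro z hz
        exact (hkhint i (Finset.mem_range.1 hi) z hz).const_mul _
    · intro i hi
      apply integrable_finsetSum
      intro z hz
      exact (hkhint i (Finset.mem_range.1 hi) z hz).const_mul _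
  have hSle : ∫ y, S y ∂μ ≤ C' * (V / ε) := by
    rw [hSeq]
    calc ∑ i ∈ Finset.range J, ∑ z ∈ Z i, a i z * ∫ y, k i z y * h J y ∂μ
        ≤ ∑ i ∈ Finset.range J, ∑ z ∈ Z i, a i z * (C' * h i z) := by
          refine Finset.sum_le_sum fun i hi => Finset.sum_le_sum fun z hz => ?_
          have hi' := Finset.mem_range.1 hi
          exact mul_le_mul_of_nonneg_left (hkh i hi' z hz) (ha i hi' z hz)
      _ = C' * ∑ i ∈ Finset.range J, ∑ z ∈ Z i, a i z * h i z := by
          rw [Finset.mul_sum]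
          refine Finset.sum_congr rfl fun i _ => ?_
          rw [Finset.mul_sum]
          refine Finset.sum_congr rfl fun z _ => ?_
          ring
      _ ≤ C' * (V / ε) := by
          gcongr
          rw [le_div_iff₀ hε, mul_comm]
          exact hsum
  have hfint : Integrable (fun y => S y - C' * (V / ε) * h J y) μ := hSint.sub (hhint.const_mul _)
  obtain ⟨y, hy⟩ := exists_le_integral hfint
  have h1 : ∫ y, S y - C' * (V / ε) * h J y ∂μ ≤ 0 := by
    rw [integral_sub hSint (hhint.const_mul _), integral_const_mul, hint]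
    linarith
  refine ⟨y, ?_⟩
  have h2 : S y = (∑ i ∈ Finset.range J, ∑ z ∈ Z i, a i z * k i z y) * h J y := by
    rw [hS, Finset.sum_mul]
    refine Finset.sum_congr rfl fun i _ => ?_
    rw [Finset.sum_mul]
    refine Finset.sum_congr rfl fun z _ => ?_
    ring
  have h3 : (∑ i ∈ Finset.range J, ∑ z ∈ Z i, a i z * k i z y) * h J y ≤
      C' * (V / ε) * h J y := by
    rw [← h2]; linarith
  exact le_of_mul_le_mul_right h3 (hpos y)

/-- The positivity principle for double sums. -/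
theorem green_positivity_sum (hd : 2 ≤ d) (hN : IsNTA Ω M r₀) (hG : IsGreen Ω κ G) {x₀ : E d}
    (hx₀ : x₀ ∈ Ω) {X : Type} (J : ℕ) (Z : ℕ → Finset X) (w : ℕ → X → ℝ) (p p' : ℕ → X → E d)
    (hp : ∀ i < J, ∀ z ∈ Z i, p i z ∈ Ω ∧ p' i z ∈ Ω)
    (hpos : ∃ τ : ℝ, 0 < τ ∧ ∀ y ∈ Ω, infDist y (frontier Ω) < τ →
      0 < G x₀ y + ∑ i ∈ Finset.range J, ∑ z ∈ Z i, w i z * (G (p i z) y - G (p' i z) y))
    {v : E d → ℝ} (hv : HarmonicOnNhd v Ω) (hv0 : ∀ x ∈ Ω, 0 ≤ v x) :
    0 ≤ v x₀ + ∑ i ∈ Finset.range J, ∑ z ∈ Z i, w i z * (v (p i z) - v (p' i z)) := by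
  classical
  let F : Finset (Σ _ : ℕ, X) := (Finset.range J).sigma Z
  let I : Finset (Unit ⊕ ((Σ _ : ℕ, X) ⊕ (Σ _ : ℕ, X))) :=
    (Finset.univ : Finset Unit).disjSum (F.disjSum F)
  let zz : Unit ⊕ ((Σ _ : ℕ, X) ⊕ (Σ _ : ℕ, X)) → E d :=
    Sum.elim (fun _ => x₀) (Sum.elim (fun q => p q.1 q.2) (fun q => p' q.1 q.2))
  let ww : Unit ⊕ ((Σ _ : ℕ, X) ⊕ (Σ _ : ℕ, X)) → ℝ :=
    Sum.elim (fun _ => 1) (Sum.elim (fun q => w q.1 q.2) (fun q => -w q.1 q.2))
  have hsum : ∀ f : E d → ℝ, ∑ i ∈ I, ww i * f (zz i) =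
      f x₀ + ∑ i ∈ Finset.range J, ∑ z ∈ Z i, w i z * (f (p i z) - f (p' i z)) := by
    intro f
    rw [Finset.sum_disjSum, Finset.sum_disjSum, Finset.sum_sigma, Finset.sum_sigma,
      ← Finset.sum_add_distrib]
    simp only [ww, zz, Sum.elim_inl, Sum.elim_inr, Finset.univ_unique, Finset.sum_singleton,
      one_mul]
    congr 1
    refine Finset.sum_congr rfl fun i _ => ?_
    rw [← Finset.sum_add_distrib]
    refine Finset.sum_congr rfl fun z _ => ?_
    ring
  have hz : ∀ i ∈ I, zz i ∈ Ω := by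
    rintro (i | i | i) hi
    · exact hx₀
    · have h1 : i ∈ F := by
        rw [Finset.inr_mem_disjSum, Finset.inl_mem_disjSum] at hi
        exact hi
      rw [Finset.mem_sigma] at h1
      exact (hp i.1 (Finset.mem_range.1 h1.1) i.2 h1.2).1
    · have h1 : i ∈ F := by
        rw [Finset.inr_mem_disjSum, Finset.inr_mem_disjSum] at hi
        exact hi
      rw [Finset.mem_sigma] at h1
      exact (hp i.1 (Finset.mem_range.1 h1.1) i.2 h1.2).2
  have key := green_positivity hd hN hG I zz ww hz (by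
    obtain ⟨τ, hτ, h⟩ := hpos
    refine ⟨τ, hτ, fun y hy hyτ => ?_⟩
    rw [hsum (fun x => G x y)]
    exact h y hy hyτ) hv hv0
  rwa [hsum v] at key

/-! ### Transfer to the subtype -/

/-- The points of `Ω` near the boundary. -/
def nearSet (Ω : Set (E d)) (τ : ℝ) : Set (E d) := {y | y ∈ Ω ∧ infDist y (frontier Ω) < τ}

theorem nearSet_isOpen (hN : IsNTA Ω M r₀) (τ : ℝ) : IsOpen (nearSet Ω τ) :=
  hN.isOpen.inter (isOpen_lt (continuous_infDist_pt _) continuous_const)

theorem comap_prob (hN : IsNTA Ω M r₀) {x₀ : E d} {τ : ℝ} {ω : Measure (E d)}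
    (hω : IsLayer Ω G x₀ τ ω) :
    IsProbabilityMeasure (ω.comap (Subtype.val : nearSet Ω τ → E d)) := by
  have := hω.prob
  refine ⟨?_⟩
  rw [(MeasurableEmbedding.subtype_coe (nearSet_isOpen hN τ).measurableSet).comap_apply,
    image_univ, Subtype.range_coe, prob_compl_eq_zero_iff (nearSet_isOpen hN τ).measurableSet |>.1]
  exact hω.ae

theorem comap_ball (hN : IsNTA Ω M r₀) {x₀ : E d} {τ : ℝ} {ω : Measure (E d)}
    (hω : IsLayer Ω G x₀ τ ω) (y : nearSet Ω τ) (r : ℝ) :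
    (ω.comap (Subtype.val : nearSet Ω τ → E d)).real (ball y r) = ω.real (ball (y : E d) r) := by
  unfold Measure.real
  congr 1
  rw [(MeasurableEmbedding.subtype_coe (nearSet_isOpen hN τ).measurableSet).comap_apply]
  have h1 : (Subtype.val : nearSet Ω τ → E d) '' (ball y r) = ball (y : E d) r ∩ nearSet Ω τ := by
    ext x
    constructor
    · rintro ⟨x, hx, rfl⟩
      exact ⟨hx, x.2⟩
    · rintro ⟨hx, hx2⟩
      exact ⟨⟨x, hx2⟩, hx, rfl⟩
  rw [h1]
  exact measure_inter_conull' (by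
    have : ω (nearSet Ω τ)ᶜ = 0 := hω.ae
    exact measure_mono_null (fun x hx => hx.2) this)

theorem comap_theta (hN : IsNTA Ω M r₀) {x₀ : E d} {τ : ℝ} {ω : Measure (E d)}
    (hω : IsLayer Ω G x₀ τ ω) (α ℓ : ℝ) (z y : nearSet Ω τ) :
    Theta (ω.comap (Subtype.val : nearSet Ω τ → E d)) α ℓ z y = Theta ω α ℓ (z : E d) y := by
  unfold Theta
  rw [comap_ball hN hω]
  rfl

theorem comap_map (hN : IsNTA Ω M r₀) {x₀ : E d} {τ : ℝ} {ω : Measure (E d)}
    (hω : IsLayer Ω G x₀ τ ω) :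
    (ω.comap (Subtype.val : nearSet Ω τ → E d)).map Subtype.val = ω := by
  rw [(MeasurableEmbedding.subtype_coe (nearSet_isOpen hN τ).measurableSet).map_comap,
    Subtype.range_coe]
  exact Measure.restrict_eq_self_of_ae_mem hω.ae

theorem comap_integrable (hN : IsNTA Ω M r₀) {x₀ : E d} {τ : ℝ} {ω : Measure (E d)}
    (hω : IsLayer Ω G x₀ τ ω) {f : E d → ℝ} (hf : Integrable f ω) :
    Integrable (fun y : nearSet Ω τ => f y) (ω.comap (Subtype.val : nearSet Ω τ → E d)) := by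
  have h1 := (MeasurableEmbedding.subtype_coe (nearSet_isOpen hN τ).measurableSet).integrable_map_iff
    (μ := ω.comap (Subtype.val : nearSet Ω τ → E d)) (g := f)
  rw [comap_map hN hω] at h1
  exact h1.1 hf

theorem comap_integral (hN : IsNTA Ω M r₀) {x₀ : E d} {τ : ℝ} {ω : Measure (E d)}
    (hω : IsLayer Ω G x₀ τ ω) (f : E d → ℝ) :
    ∫ y : nearSet Ω τ, f y ∂(ω.comap (Subtype.val : nearSet Ω τ → E d)) = ∫ y, f y ∂ω := by
  have h1 := (MeasurableEmbedding.subtype_coe (nearSet_isOpen hN τ).measurableSet).integral_map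
    (μ := ω.comap (Subtype.val : nearSet Ω τ → E d)) f
  rw [comap_map hN hω] at h1
  exact h1.symm

theorem continuous_green_near (hd : 2 ≤ d) (hN : IsNTA Ω M r₀) (hG : IsGreen Ω κ G) {x : E d}
    {τ : ℝ} (hx : x ∈ Ω) (hτ : τ ≤ infDist x (frontier Ω)) :
    Continuous (fun y : nearSet Ω τ => G x y) := by
  have h1 : ContinuousOn (fun y => G x y) (nearSet Ω τ) := by
    have h2 : ContinuousOn (fun y => G y x) (nearSet Ω τ) := by
      intro y hy
      have hne : y ≠ x := by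
        rintro rfl
        exact absurd hy.2 (not_lt.2 hτ)
      exact (green_harmonic hd hN.isOpen hG hy.1 hx hne).1.continuousAt.continuousWithinAt
    refine h2.congr fun y hy => ?_
    have hne : x ≠ y := by
      rintro rfl
      exact absurd hy.2 (not_lt.2 hτ)
    exact green_symm hd hN hG hx hy.1 hne
  exact continuousOn_iff_continuous_domRestrict.1 h1

theorem nearSet_totallyBounded (hN : IsNTA Ω M r₀) (τ : ℝ) :
    TotallyBounded (univ : Set (nearSet Ω τ)) := by
  have h1 : TotallyBounded Ω :=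
    hN.isBounded.isCompact_closure.totallyBounded.subset subset_closure
  have h2 : TotallyBounded ((Subtype.val : nearSet Ω τ → E d) ⁻¹' Ω) :=
    totallyBounded_preimage isUniformEmbedding_subtype_val.isUniformInducing h1
  exact h2.subset fun x _ => x.2.1

end Pool.Agent.MP_578f25_an
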