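import Pool.Agent.Lib.MP_578f25_an.Kern3
import Pool.Agent.Lib.MP_578f25_an.MultiDefs

/-!
# The kernel estimates as a hypothesis
-/

set_option autoImplicit false

namespace Pool.Agent.MP_578f25_an

open MeasureTheory Metric Set Filter Topology InnerProductSpace

/-- The summary of the kernel estimates (proved in `Kern5.lean`), as a hypothesis. -/
class HasKernelData (d : ℕ) : Prop where
  out : 2 ≤ d → ∀ {Ω : Set (E d)} {M r₀ κ : ℝ} {G : E d → E d → ℝ}, IsNTA Ω M r₀ →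
    IsGreen Ω κ G → ∀ {x₀ : E d}, x₀ ∈ Ω →
    ∃ α Cd Ck ck t₁ Cτ : ℝ, 0 < α ∧ α ≤ 1 ∧ 1 ≤ Cd ∧ 1 ≤ Ck ∧ 0 < ck ∧ ck ≤ 1 ∧ 0 < t₁ ∧
      1 ≤ Cτ ∧ 8 * t₁ ≤ infDist x₀ (frontier Ω) ∧
      ∀ (τ : ℝ) (ω : Measure (E d)), 0 < τ → Cτ * τ ≤ t₁ → IsLayer Ω G x₀ τ ω →
      (∀ y ∈ Ω, infDist y (frontier Ω) < τ → ∀ r : ℝ, Cτ * τ ≤ r →
        0 < ω.real (ball y r) ∧ ω.real (ball y (2 * r)) ≤ Cd * ω.real (ball y r)) ∧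
      (∀ ℓ : ℝ, ℓ ≤ t₁ → Cτ * τ ≤ ℓ → ∀ z ∈ Ω, infDist z (frontier Ω) < τ → ∀ x ∈ Ω,
        ℓ / 4 ≤ infDist x (frontier Ω) → dist x z ≤ 4 * ℓ →
        x ≠ x₀ ∧ Integrable (fun y => G x y / G x₀ y) ω ∧ ∫ y, G x y / G x₀ y ∂ω = 1 ∧
        (∀ y ∈ Ω, infDist y (frontier Ω) < τ → 0 < G x y / G x₀ y ∧
          G x y / G x₀ y ≤ Ck * Theta ω α ℓ z y) ∧
        (∀ y ∈ Ω, infDist y (frontier Ω) < τ → ∀ y' ∈ Ω, infDist y' (frontier Ω) < τ →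
          dist y y' + τ ≤ ck * ℓ → |G x y / G x₀ y - G x y' / G x₀ y'| ≤
            Ck * ((dist y y' + τ) / ℓ) ^ α * Theta ω α ℓ z y) ∧
        G x x₀ ≤ Ck * (ℓ ^ (2 - (d : ℝ)) * ω.real (ball z ℓ))) ∧
      (∀ x ∈ Ω, t₁ ≤ infDist x (frontier Ω) → ∀ y ∈ Ω, infDist y (frontier Ω) < τ →
        G x y / G x₀ y ≤ Ck)

end Pool.Agent.MP_578f25_an
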