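import Pool.Agent.Lib.MP_578f25_an.MultiGrowth

/-!
# The multi-scale lemma
-/

set_option autoImplicit false
set_option linter.unusedSectionVars false

namespace Pool.Agent.MP_578f25_an

open MeasureTheory Metric

/-- The constant of LEMMA A. -/
noncomputable def cI (Cd β : ℝ) : ℝ := Cd / (1 - (2 : ℝ) ^ (-β))

/-- The constant of LEMMA B. -/
noncomputable def cB (Cd β : ℝ) : ℝ := Cd ^ 3 / (1 - (2 : ℝ) ^ (-β))

/-- The constant `A₂`. -/
noncomputable def cA2 (α Cd Ck ck : ℝ) : ℝ :=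
  2 * Ck ^ 2 * ck ^ (-(α / 2)) * (Cd * cB Cd (α / 2 - α / 4) * cI Cd (α - α / 4) +
    cI Cd (α / 2) * cB Cd (α - α / 4))

theorem cI_nonneg {Cd β : ℝ} (hCd : 1 ≤ Cd) (hβ : 0 < β) : 0 ≤ cI Cd β := by
  have := sub_pos.2 (two_rpow_neg_lt_one hβ)
  unfold cI
  positivity

theorem cB_nonneg {Cd β : ℝ} (hCd : 1 ≤ Cd) (hβ : 0 < β) : 0 ≤ cB Cd β := by
  have := sub_pos.2 (two_rpow_neg_lt_one hβ)
  unfold cB
  positivity

section

variable {X : Type} [MetricSpace X] [MeasurableSpace X] [BorelSpace X] {ω : Measure X}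
  [IsProbabilityMeasure ω]

namespace MS

variable {α Cd Ck ck ε : ℝ} {J : ℕ} {ℓ₀ τ L : ℝ} {Z : ℕ → Finset X} {b : ℕ → X → X → ℝ}
  {σ : ℕ → X → ℝ}

/-- The test functions `k`. -/
structure Test (ω : Measure X) (α Ck ck : ℝ) (ℓ τ : ℝ) (z : X) (k : X → ℝ) : Prop where
  meas : Measurable k
  nonneg : ∀ y, 0 ≤ k y
  size : ∀ y, k y ≤ Ck * Theta ω α ℓ z y
  holder : ∀ y y', dist y y' + τ ≤ ck * ℓ →
    |k y - k y'| ≤ Ck * ((dist y y' + τ) / ℓ) ^ α * Theta ω α ℓ z y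

theorem k_diff (H : MS ω α Cd Ck ck ε J ℓ₀ τ L Z b σ) {i : ℕ} {z : X} {k : X → ℝ}
    (hk : Test ω α Ck ck (ℓ₀ / 2 ^ i) τ z k) (y y' : X) :
    |k y - k y'| ≤ Ck * ck ^ (-(α / 2)) * ((dist y y' + τ) / (ℓ₀ / 2 ^ i)) ^ (α / 2) *
      (Theta ω α (ℓ₀ / 2 ^ i) z y + Theta ω α (ℓ₀ / 2 ^ i) z y') := by
  have hl := H.lpos i
  have hd : 0 ≤ dist y y' := dist_nonneg
  have hτ := H.hτ
  have hα := H.hα
  have hCk := H.hCk
  have hck := H.hck
  have hck1 := H.hck1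
  set t : ℝ := dist y y' + τ with ht
  have ht0 : 0 ≤ t := by linarith
  have hs0 : 0 ≤ t / (ℓ₀ / 2 ^ i) := div_nonneg ht0 hl.le
  have hT1 := Theta_nonneg (ω := ω) (β := α) hl z y
  have hT2 := Theta_nonneg (ω := ω) (β := α) hl z y'
  have hckα : 1 ≤ ck ^ (-(α / 2)) := by
    rw [Real.rpow_neg hck.le]
    exact (one_le_inv₀ (Real.rpow_pos_of_pos hck _)).2
      (Real.rpow_le_one hck.le hck1 (by linarith))
  have hs2 : 0 ≤ (t / (ℓ₀ / 2 ^ i)) ^ (α / 2) := Real.rpow_nonneg hs0 _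
  by_cases hcase : t ≤ ck * (ℓ₀ / 2 ^ i)
  · have hs1 : t / (ℓ₀ / 2 ^ i) ≤ 1 := by
      rw [div_le_one hl]
      nlinarith
    have h1 : (t / (ℓ₀ / 2 ^ i)) ^ α ≤ (t / (ℓ₀ / 2 ^ i)) ^ (α / 2) :=
      Real.rpow_le_rpow_of_exponent_ge' hs0 hs1 (by linarith) (by linarith)
    calc |k y - k y'| ≤ Ck * (t / (ℓ₀ / 2 ^ i)) ^ α * Theta ω α (ℓ₀ / 2 ^ i) z y :=
          hk.holder y y' hcase
      _ ≤ Ck * 1 * (t / (ℓ₀ / 2 ^ i)) ^ (α / 2) * (Theta ω α (ℓ₀ / 2 ^ i) z y) := by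
          rw [mul_one]
          exact mul_le_mul_of_nonneg_right (mul_le_mul_of_nonneg_left h1 (by linarith)) hT1
      _ ≤ Ck * ck ^ (-(α / 2)) * (t / (ℓ₀ / 2 ^ i)) ^ (α / 2) *
            (Theta ω α (ℓ₀ / 2 ^ i) z y + Theta ω α (ℓ₀ / 2 ^ i) z y') := by
          refine mul_le_mul ?_ (by linarith) hT1 (by positivity)
          exact mul_le_mul_of_nonneg_right (mul_le_mul_of_nonneg_left hckα (by linarith)) hs2
  · rw [not_le] at hcase
    have h6 : ck ≤ t / (ℓ₀ / 2 ^ i) := (le_div_iff₀ hl).2 hcase.le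
    have h7 : ck ^ (α / 2) ≤ (t / (ℓ₀ / 2 ^ i)) ^ (α / 2) :=
      Real.rpow_le_rpow hck.le h6 (by linarith)
    have h8 : ck ^ (-(α / 2)) * ck ^ (α / 2) = 1 := by
      rw [← Real.rpow_add hck, neg_add_cancel, Real.rpow_zero]
    have h9 : 1 ≤ ck ^ (-(α / 2)) * (t / (ℓ₀ / 2 ^ i)) ^ (α / 2) := by
      rw [← h8]
      exact mul_le_mul_of_nonneg_left h7 (by linarith)
    have h10 : |k y - k y'| ≤ Ck * (Theta ω α (ℓ₀ / 2 ^ i) z y +
        Theta ω α (ℓ₀ / 2 ^ i) z y') := by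
      rw [abs_le]
      have a1 := hk.nonneg y
      have a2 := hk.nonneg y'
      have a3 := hk.size y
      have a4 := hk.size y'
      rw [mul_add]
      have a5 : 0 ≤ Ck * Theta ω α (ℓ₀ / 2 ^ i) z y := by positivity
      have a6 : 0 ≤ Ck * Theta ω α (ℓ₀ / 2 ^ i) z y' := by positivity
      constructor <;> linarith
    calc |k y - k y'| ≤ 1 * (Ck * (Theta ω α (ℓ₀ / 2 ^ i) z y +
          Theta ω α (ℓ₀ / 2 ^ i) z y')) := by rwa [one_mul]
      _ ≤ (ck ^ (-(α / 2)) * (t / (ℓ₀ / 2 ^ i)) ^ (α / 2)) *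
          (Ck * (Theta ω α (ℓ₀ / 2 ^ i) z y + Theta ω α (ℓ₀ / 2 ^ i) z y')) :=
          mul_le_mul_of_nonneg_right h9 (by positivity)
      _ = _ := by ring

theorem k_bdd (H : MS ω α Cd Ck ck ε J ℓ₀ τ L Z b σ) {i : ℕ} (hi : i ≤ J) {z : X} {k : X → ℝ}
    (hk : Test ω α Ck ck (ℓ₀ / 2 ^ i) τ z k) (y : X) :
    |k y| ≤ Ck * (1 / ω.real (ball z (ℓ₀ / 2 ^ i))) := by
  rw [abs_of_nonneg (hk.nonneg y)]
  refine (hk.size y).trans (mul_le_mul_of_nonneg_left ?_ (zero_le_one.trans H.hCk))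
  exact H.dbl.Theta_le H.hα.le (H.lmono hi) z y

/-- Bounded measurable functions are integrable. -/
theorem int_of_bdd {f : X → ℝ} (hf : Measurable f) {C : ℝ} (hC : ∀ y, |f y| ≤ C) :
    Integrable f ω :=
  Integrable.of_bound hf.aestronglyMeasurable C (Filter.Eventually.of_forall fun y => by
    rw [Real.norm_eq_abs]
    exact hC y)

theorem abs_mul_le_mul {p q P Q : ℝ} (hp : |p| ≤ P) (hq : |q| ≤ Q) : |p * q| ≤ P * Q := by
  rw [abs_mul]
  exact mul_le_mul hp hq (abs_nonneg _) ((abs_nonneg _).trans hp)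

theorem first_term (H : MS ω α Cd Ck ck ε J ℓ₀ τ L Z b σ) {i : ℕ} (hi : i ≤ J) {z : X}
    {k : X → ℝ} (hk : Test ω α Ck ck (ℓ₀ / 2 ^ i) τ z k) :
    ∫ y, k y * hfun ε Z σ b i y ∂ω ≤ 2 * Ck * cI Cd (α - α / 4) * hfun ε Z σ b i z := by
  have hα := H.hα
  have hCk : 0 ≤ Ck := zero_le_one.trans H.hCk
  have hhz := H.hpos hi z
  have hint := H.dbl.Theta_integrable (β := α - α / 4) (by linarith) (H.lmono hi) z
  calc ∫ y, k y * hfun ε Z σ b i y ∂ω
      ≤ ∫ y, 2 * Ck * hfun ε Z σ b i z * Theta ω (α - α / 4) (ℓ₀ / 2 ^ i) z y ∂ω := by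
        refine integral_mono_of_nonneg (Filter.Eventually.of_forall fun y => ?_)
          (hint.const_mul _) (Filter.Eventually.of_forall fun y => ?_)
        · exact mul_nonneg (hk.nonneg y) (H.hpos hi y).le
        · simp only
          rw [← Theta_shift (H.lpos i) z y]
          have h1 := hk.size y
          have h2 := H.hg hi y z
          have h3 := Theta_nonneg (ω := ω) (β := α) (H.lpos i) z y
          calc k y * hfun ε Z σ b i y
              ≤ (Ck * Theta ω α (ℓ₀ / 2 ^ i) z y) *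
                (2 * ((ℓ₀ / 2 ^ i + dist y z) / (ℓ₀ / 2 ^ i)) ^ (α / 4) *
                  hfun ε Z σ b i z) :=
                mul_le_mul h1 h2 (H.hpos hi y).le (by positivity)
            _ = _ := by ring
    _ = 2 * Ck * hfun ε Z σ b i z * ∫ y, Theta ω (α - α / 4) (ℓ₀ / 2 ^ i) z y ∂ω :=
        integral_const_mul _ _
    _ ≤ 2 * Ck * hfun ε Z σ b i z * cI Cd (α - α / 4) :=
        mul_le_mul_of_nonneg_left (H.dbl.integral_Theta_le (by linarith) (H.lmono hi) z)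
          (by positivity)
    _ = _ := by ring

/-- The pointwise bound of one term. -/
theorem term_bound (H : MS ω α Cd Ck ck ε J ℓ₀ τ L Z b σ) {i l : ℕ} (hil : i + l < J) {z : X}
    {k : X → ℝ} (hk : Test ω α Ck ck (ℓ₀ / 2 ^ i) τ z k) {z' : X} (hz' : z' ∈ Z (i + l)) (y : X) :
    hfun ε Z σ b (i + l) z' * (|k y - k z'| * |b (i + l) z' y|) ≤
      2 * Ck ^ 2 * ck ^ (-(α / 2)) * ((1 + ε * cA α Cd Ck) * (2 : ℝ) ^ (-(α / 2))) ^ l *
        hfun ε Z σ b i z *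
      (Theta ω (α - α / 4) (ℓ₀ / 2 ^ i) z y * (ω.real (ball z' (ℓ₀ / 2 ^ (i + l))) *
          Theta ω (α / 2 - α / 4) (ℓ₀ / 2 ^ (i + l)) z' y) +
        ω.real (ball z' (ℓ₀ / 2 ^ (i + l))) * Theta ω (α - α / 4) (ℓ₀ / 2 ^ i) z z' *
          Theta ω (α / 2) (ℓ₀ / 2 ^ (i + l)) z' y) := by
  have hα := H.hα
  have hCk := H.hCk
  have hck := H.hck
  have hε := H.hε
  have hA := H.cA_nonneg
  have hτ := H.hτ
  have hli := H.lpos i
  have hlj := H.lpos (i + l)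
  have hlij := H.lmono (Nat.le_add_right i l)
  have hhz := H.hpos (i := i) (by omega) z
  have hm : 0 ≤ ω.real (ball z' (ℓ₀ / 2 ^ (i + l))) := measureReal_nonneg
  have hTi : 0 ≤ Theta ω α (ℓ₀ / 2 ^ i) z y := Theta_nonneg hli z y
  have hTi' : 0 ≤ Theta ω α (ℓ₀ / 2 ^ i) z z' := Theta_nonneg hli z z'
  have hTj : 0 ≤ Theta ω α (ℓ₀ / 2 ^ (i + l)) z' y := Theta_nonneg hlj z' y
  have hd1 : 0 ≤ dist y z' := dist_nonneg
  have hd2 : 0 ≤ dist y z := dist_nonneg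
  have hd3 : 0 ≤ dist z' z := dist_nonneg
  set P : ℝ := (ℓ₀ / 2 ^ i + dist z' z) / (ℓ₀ / 2 ^ i) with hP
  set W : ℝ := (ℓ₀ / 2 ^ i + dist y z) / (ℓ₀ / 2 ^ i) with hW
  set Q : ℝ := (ℓ₀ / 2 ^ (i + l) + dist y z') / (ℓ₀ / 2 ^ (i + l)) with hQ
  have hP0 : 0 ≤ P := by positivity
  have hW0 : 0 ≤ W := by positivity
  have hQ0 : 0 ≤ Q := by positivity
  have hPWQ : P ≤ W * Q := by
    have e1 : P = 1 + dist z' z / (ℓ₀ / 2 ^ i) := by
      rw [hP, add_div, div_self hli.ne']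
    have e2 : W = 1 + dist y z / (ℓ₀ / 2 ^ i) := by
      rw [hW, add_div, div_self hli.ne']
    have e3 : Q = 1 + dist y z' / (ℓ₀ / 2 ^ (i + l)) := by
      rw [hQ, add_div, div_self hlj.ne']
    have h1 : dist z' z / (ℓ₀ / 2 ^ i) ≤ dist y z / (ℓ₀ / 2 ^ i) + dist y z' / (ℓ₀ / 2 ^ i) := by
      rw [← add_div]
      refine div_le_div_of_nonneg_right ?_ hli.le
      have := dist_triangle z' y z
      rw [dist_comm z' y] at this
      linarith
    have h2 : dist y z' / (ℓ₀ / 2 ^ i) ≤ dist y z' / (ℓ₀ / 2 ^ (i + l)) :=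
      div_le_div_of_nonneg_left hd1 hlj hlij
    have h3 : 0 ≤ dist y z / (ℓ₀ / 2 ^ i) * (dist y z' / (ℓ₀ / 2 ^ (i + l))) := by positivity
    rw [e1, e2, e3]
    nlinarith
  -- the density
  have hh : hfun ε Z σ b (i + l) z' ≤
      (1 + ε * cA α Cd Ck) ^ l * (2 * P ^ (α / 4) * hfun ε Z σ b i z) := by
    refine (H.h_add_le l (by omega) z').trans ?_
    exact mul_le_mul_of_nonneg_left (H.hg (by omega) z' z) (by positivity)
  -- the increment of `k`
  have hkd := H.k_diff hk y z'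
  have ht : (dist y z' + τ) / (ℓ₀ / 2 ^ i) ≤ Q * ((2 : ℝ) ^ l)⁻¹ := by
    have e1 : Q * ((2 : ℝ) ^ l)⁻¹ = (ℓ₀ / 2 ^ (i + l) + dist y z') / (ℓ₀ / 2 ^ i) := by
      rw [hQ, pow_add]
      have := H.hℓ
      field_simp
    rw [e1]
    refine div_le_div_of_nonneg_right ?_ hli.le
    have h1 := H.hτ'
    have h2 := H.lmono (i := i + l) (j := J) (by omega)
    linarith
  have ht2 : ((dist y z' + τ) / (ℓ₀ / 2 ^ i)) ^ (α / 2) ≤
      Q ^ (α / 2) * ((2 : ℝ) ^ (-(α / 2))) ^ l := by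
    rw [← rpow_two_pow_inv, ← Real.mul_rpow hQ0 (by positivity)]
    exact Real.rpow_le_rpow (by positivity) ht (by linarith)
  have hkd2 : |k y - k z'| ≤ Ck * ck ^ (-(α / 2)) * (Q ^ (α / 2) * ((2 : ℝ) ^ (-(α / 2))) ^ l) *
      (Theta ω α (ℓ₀ / 2 ^ i) z y + Theta ω α (ℓ₀ / 2 ^ i) z z') := by
    refine hkd.trans ?_
    refine mul_le_mul_of_nonneg_right ?_ (by positivity)
    exact mul_le_mul_of_nonneg_left ht2 (by positivity)
  have hb := H.size (i + l) hil z' hz' y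
  have hP4 : 0 ≤ P ^ (α / 4) := Real.rpow_nonneg hP0 _
  have hQ2 : 0 ≤ Q ^ (α / 2) := Real.rpow_nonneg hQ0 _
  have hr : 0 ≤ ((2 : ℝ) ^ (-(α / 2))) ^ l := by positivity
  have hckp : 0 ≤ ck ^ (-(α / 2)) := Real.rpow_nonneg hck.le _
  -- the product
  have hprod : hfun ε Z σ b (i + l) z' * (|k y - k z'| * |b (i + l) z' y|) ≤
      ((1 + ε * cA α Cd Ck) ^ l * (2 * P ^ (α / 4) * hfun ε Z σ b i z)) *
      ((Ck * ck ^ (-(α / 2)) * (Q ^ (α / 2) * ((2 : ℝ) ^ (-(α / 2))) ^ l) *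
      (Theta ω α (ℓ₀ / 2 ^ i) z y + Theta ω α (ℓ₀ / 2 ^ i) z z')) *
      (Ck * ω.real (ball z' (ℓ₀ / 2 ^ (i + l))) * Theta ω α (ℓ₀ / 2 ^ (i + l)) z' y)) := by
    refine mul_le_mul hh ?_ (by positivity) (by positivity)
    exact mul_le_mul hkd2 hb (abs_nonneg _) (by positivity)
  refine hprod.trans ?_
  have s1 : Q ^ (α / 2) * Theta ω α (ℓ₀ / 2 ^ (i + l)) z' y =
      Theta ω (α / 2) (ℓ₀ / 2 ^ (i + l)) z' y := by
    rw [hQ, Theta_shift hlj z' y]
    congr 1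
    ring
  have s2 : P ^ (α / 4) * Theta ω α (ℓ₀ / 2 ^ i) z z' =
      Theta ω (α - α / 4) (ℓ₀ / 2 ^ i) z z' := Theta_shift hli z z'
  have s3 : P ^ (α / 4) * Theta ω α (ℓ₀ / 2 ^ i) z y * Theta ω (α / 2) (ℓ₀ / 2 ^ (i + l)) z' y ≤
      Theta ω (α - α / 4) (ℓ₀ / 2 ^ i) z y *
        Theta ω (α / 2 - α / 4) (ℓ₀ / 2 ^ (i + l)) z' y := by
    rw [← Theta_shift (γ := α / 4) hli z y, ← Theta_shift (γ := α / 4) hlj z' y, ← hW, ← hQ]
    have h1 : P ^ (α / 4) ≤ W ^ (α / 4) * Q ^ (α / 4) := by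
      rw [← Real.mul_rpow hW0 hQ0]
      exact Real.rpow_le_rpow hP0 hPWQ (by linarith)
    have h2 : 0 ≤ Theta ω α (ℓ₀ / 2 ^ i) z y * Theta ω (α / 2) (ℓ₀ / 2 ^ (i + l)) z' y :=
      mul_nonneg hTi (Theta_nonneg hlj z' y)
    calc P ^ (α / 4) * Theta ω α (ℓ₀ / 2 ^ i) z y * Theta ω (α / 2) (ℓ₀ / 2 ^ (i + l)) z' y
        = P ^ (α / 4) * (Theta ω α (ℓ₀ / 2 ^ i) z y *
            Theta ω (α / 2) (ℓ₀ / 2 ^ (i + l)) z' y) := by ring
      _ ≤ (W ^ (α / 4) * Q ^ (α / 4)) * (Theta ω α (ℓ₀ / 2 ^ i) z y *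
            Theta ω (α / 2) (ℓ₀ / 2 ^ (i + l)) z' y) := mul_le_mul_of_nonneg_right h1 h2
      _ = _ := by ring
  set M : ℝ := 2 * Ck ^ 2 * ck ^ (-(α / 2)) *
    ((1 + ε * cA α Cd Ck) * (2 : ℝ) ^ (-(α / 2))) ^ l * hfun ε Z σ b i z with hM
  have hM0 : 0 ≤ M := by positivity
  have e : ((1 + ε * cA α Cd Ck) ^ l * (2 * P ^ (α / 4) * hfun ε Z σ b i z)) *
      ((Ck * ck ^ (-(α / 2)) * (Q ^ (α / 2) * ((2 : ℝ) ^ (-(α / 2))) ^ l) *
      (Theta ω α (ℓ₀ / 2 ^ i) z y + Theta ω α (ℓ₀ / 2 ^ i) z z')) *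
      (Ck * ω.real (ball z' (ℓ₀ / 2 ^ (i + l))) * Theta ω α (ℓ₀ / 2 ^ (i + l)) z' y)) =
      M * (ω.real (ball z' (ℓ₀ / 2 ^ (i + l))) * (P ^ (α / 4) * Theta ω α (ℓ₀ / 2 ^ i) z y *
        (Q ^ (α / 2) * Theta ω α (ℓ₀ / 2 ^ (i + l)) z' y)) +
        ω.real (ball z' (ℓ₀ / 2 ^ (i + l))) * (P ^ (α / 4) * Theta ω α (ℓ₀ / 2 ^ i) z z') *
        (Q ^ (α / 2) * Theta ω α (ℓ₀ / 2 ^ (i + l)) z' y)) := by
    rw [hM, mul_pow]
    ring
  rw [e, s1, s2]
  refine mul_le_mul_of_nonneg_left ?_ hM0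
  have h5 := mul_le_mul_of_nonneg_left s3 hm
  linarith

/-- The contribution of one scale. -/
theorem scale_term (H : MS ω α Cd Ck ck ε J ℓ₀ τ L Z b σ) {i l : ℕ} (hil : i + l < J) {z : X}
    {k : X → ℝ} (hk : Test ω α Ck ck (ℓ₀ / 2 ^ i) τ z k) :
    ∫ y, k y * (ε * ∑ z' ∈ Z (i + l), σ (i + l) z' * hfun ε Z σ b (i + l) z' *
        b (i + l) z' y) ∂ω ≤
      ε * cA2 α Cd Ck ck * ((1 + ε * cA α Cd Ck) * (2 : ℝ) ^ (-(α / 2))) ^ l *
        hfun ε Z σ b i z := by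
  have hα := H.hα
  have hCk := H.hCk
  have hck := H.hck
  have hε := H.hε
  have hA := H.cA_nonneg
  have hCd := H.dbl.one_le
  have hhz := H.hpos (i := i) (by omega) z
  have hbnd := H.k_bdd (i := i) (by omega) hk
  set B : ℝ := Ck * (1 / ω.real (ball z (ℓ₀ / 2 ^ i))) with hB
  have hkb : ∀ z' ∈ Z (i + l), Integrable (fun y => k y * b (i + l) z' y) ω := fun z' hz' =>
    int_of_bdd (hk.meas.mul (H.meas _ hil z' hz'))
      fun y => abs_mul_le_mul (hbnd y) (H.b_bdd hil hz' y)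
  have hdm : ∀ z', Measurable fun y => |k y - k z'| := fun z' =>
    (hk.meas.sub measurable_const).abs
  have hdb : ∀ z' y, |(|k y - k z'|)| ≤ B + B := fun z' y => by
    rw [abs_abs]
    exact (abs_sub _ _).trans (add_le_add (hbnd y) (hbnd z'))
  have hint2 : ∀ z' ∈ Z (i + l), Integrable (fun y => hfun ε Z σ b (i + l) z' *
      (|k y - k z'| * |b (i + l) z' y|)) ω := fun z' hz' =>
    (int_of_bdd ((hdm z').mul (H.meas _ hil z' hz').abs) fun y =>
      abs_mul_le_mul (hdb z' y) (by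
        rw [abs_abs]
        exact H.b_bdd hil hz' y)).const_mul _
  -- each integral
  have hone : ∀ z' ∈ Z (i + l), σ (i + l) z' * hfun ε Z σ b (i + l) z' *
      ∫ y, k y * b (i + l) z' y ∂ω ≤
      ∫ y, hfun ε Z σ b (i + l) z' * (|k y - k z'| * |b (i + l) z' y|) ∂ω := by
    intro z' hz'
    have h1 : ∫ y, k y * b (i + l) z' y ∂ω = ∫ y, (k y - k z') * b (i + l) z' y ∂ω := by
      have h2 : ∀ y, (k y - k z') * b (i + l) z' y =
          k y * b (i + l) z' y - k z' * b (i + l) z' y := fun y => by ring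
      simp_rw [h2]
      rw [integral_sub (hkb z' hz') ((H.b_int hil hz').const_mul _), integral_const_mul,
        H.int0 _ hil z' hz', mul_zero, sub_zero]
    have h3 : |∫ y, (k y - k z') * b (i + l) z' y ∂ω| ≤
        ∫ y, |k y - k z'| * |b (i + l) z' y| ∂ω := by
      refine (abs_integral_le_integral_abs).trans (le_of_eq ?_)
      refine integral_congr_ae (Filter.Eventually.of_forall fun y => ?_)
      exact abs_mul _ _
    have h4 := H.sigma (i + l) z'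
    have h5 := H.hpos (i := i + l) hil.le z'
    rw [integral_const_mul, h1]
    calc σ (i + l) z' * hfun ε Z σ b (i + l) z' * ∫ y, (k y - k z') * b (i + l) z' y ∂ω
        ≤ |σ (i + l) z' * hfun ε Z σ b (i + l) z' * ∫ y, (k y - k z') * b (i + l) z' y ∂ω| :=
          le_abs_self _
      _ = |σ (i + l) z'| * (hfun ε Z σ b (i + l) z' *
            |∫ y, (k y - k z') * b (i + l) z' y ∂ω|) := by
          rw [abs_mul, abs_mul, abs_of_pos h5, mul_assoc]
      _ ≤ 1 * (hfun ε Z σ b (i + l) z' * |∫ y, (k y - k z') * b (i + l) z' y ∂ω|) :=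
          mul_le_mul_of_nonneg_right h4 (by positivity)
      _ ≤ _ := by
          rw [one_mul]
          exact mul_le_mul_of_nonneg_left h3 h5.le
  -- constants
  set M : ℝ := 2 * Ck ^ 2 * ck ^ (-(α / 2)) *
    ((1 + ε * cA α Cd Ck) * (2 : ℝ) ^ (-(α / 2))) ^ l * hfun ε Z σ b i z with hM
  have hckp : 0 ≤ ck ^ (-(α / 2)) := Real.rpow_nonneg hck.le _
  have hM0 : 0 ≤ M := by positivity
  have hli := H.lmono (i := i) (j := J) (by omega)
  have hlj := H.lmono (i := i + l) (j := J) hil.le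
  -- integrability of the bound
  have hi1 : Integrable (fun y => Theta ω (α - α / 4) (ℓ₀ / 2 ^ i) z y) ω :=
    H.dbl.Theta_integrable (by linarith) hli z
  have hi2 : ∀ z' ∈ Z (i + l), Integrable (fun y => ω.real (ball z' (ℓ₀ / 2 ^ (i + l))) *
      Theta ω (α - α / 4) (ℓ₀ / 2 ^ i) z z' * Theta ω (α / 2) (ℓ₀ / 2 ^ (i + l)) z' y) ω :=
    fun z' _ => (H.dbl.Theta_integrable (by linarith) hlj z').const_mul _
  have hsumm : Integrable (fun y => ∑ z' ∈ Z (i + l), ω.real (ball z' (ℓ₀ / 2 ^ (i + l))) *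
      Theta ω (α - α / 4) (ℓ₀ / 2 ^ i) z z' * Theta ω (α / 2) (ℓ₀ / 2 ^ (i + l)) z' y) ω :=
    integrable_finsetSum _ hi2
  calc ∫ y, k y * (ε * ∑ z' ∈ Z (i + l), σ (i + l) z' * hfun ε Z σ b (i + l) z' *
        b (i + l) z' y) ∂ω
      = ∫ y, ε * ∑ z' ∈ Z (i + l), σ (i + l) z' * hfun ε Z σ b (i + l) z' *
          (k y * b (i + l) z' y) ∂ω := by
        refine integral_congr_ae (Filter.Eventually.of_forall fun y => ?_)
        simp only
        rw [mul_left_comm, Finset.mul_sum]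
        congr 1
        refine Finset.sum_congr rfl fun z' _ => ?_
        ring
    _ = ε * ∑ z' ∈ Z (i + l), σ (i + l) z' * hfun ε Z σ b (i + l) z' *
          ∫ y, k y * b (i + l) z' y ∂ω := by
        rw [integral_const_mul, integral_finsetSum _ fun z' hz' => (hkb z' hz').const_mul _]
        congr 1
        refine Finset.sum_congr rfl fun z' _ => ?_
        rw [integral_const_mul]
    _ ≤ ε * ∑ z' ∈ Z (i + l), ∫ y, hfun ε Z σ b (i + l) z' *
          (|k y - k z'| * |b (i + l) z' y|) ∂ω :=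
        mul_le_mul_of_nonneg_left (Finset.sum_le_sum hone) hε.le
    _ = ε * ∫ y, ∑ z' ∈ Z (i + l), hfun ε Z σ b (i + l) z' *
          (|k y - k z'| * |b (i + l) z' y|) ∂ω := by
        rw [integral_finsetSum _ hint2]
    _ ≤ ε * ∫ y, M * (Theta ω (α - α / 4) (ℓ₀ / 2 ^ i) z y * (Cd * cB Cd (α / 2 - α / 4)) +
          ∑ z' ∈ Z (i + l), ω.real (ball z' (ℓ₀ / 2 ^ (i + l))) *
            Theta ω (α - α / 4) (ℓ₀ / 2 ^ i) z z' *
            Theta ω (α / 2) (ℓ₀ / 2 ^ (i + l)) z' y) ∂ω := by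
        refine mul_le_mul_of_nonneg_left ?_ hε.le
        refine integral_mono (integrable_finsetSum _ hint2)
          (((hi1.mul_const _).add hsumm).const_mul _) fun y => ?_
        simp only
        refine (Finset.sum_le_sum fun z' hz' => H.term_bound hil hk hz' y).trans ?_
        rw [← Finset.mul_sum, ← hM]
        refine mul_le_mul_of_nonneg_left ?_ hM0
        rw [Finset.sum_add_distrib, ← Finset.mul_sum]
        refine add_le_add ?_ le_rfl
        refine mul_le_mul_of_nonneg_left ?_ (Theta_nonneg (H.lpos i) z y)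
        exact H.dbl.sum_Theta_le' (by linarith) (H.two_le hil) (H.sep _ hil) y
    _ = ε * (M * ((∫ y, Theta ω (α - α / 4) (ℓ₀ / 2 ^ i) z y ∂ω) *
          (Cd * cB Cd (α / 2 - α / 4)) +
          ∑ z' ∈ Z (i + l), ω.real (ball z' (ℓ₀ / 2 ^ (i + l))) *
            Theta ω (α - α / 4) (ℓ₀ / 2 ^ i) z z' *
            ∫ y, Theta ω (α / 2) (ℓ₀ / 2 ^ (i + l)) z' y ∂ω)) := by
        rw [integral_const_mul, integral_add (hi1.mul_const _) hsumm, integral_mul_const,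
          integral_finsetSum _ hi2]
        congr 3
        refine Finset.sum_congr rfl fun z' _ => ?_
        rw [integral_const_mul]
    _ ≤ ε * (M * (cI Cd (α - α / 4) * (Cd * cB Cd (α / 2 - α / 4)) +
          cB Cd (α - α / 4) * cI Cd (α / 2))) := by
        refine mul_le_mul_of_nonneg_left (mul_le_mul_of_nonneg_left ?_ hM0) hε.le
        have hcB1 := cB_nonneg hCd (β := α / 2 - α / 4) (by linarith)
        have hcI2 := cI_nonneg hCd (β := α / 2) (by linarith)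
        refine add_le_add ?_ ?_
        · refine mul_le_mul_of_nonneg_right ?_ (by positivity)
          exact H.dbl.integral_Theta_le (by linarith) hli z
        · calc ∑ z' ∈ Z (i + l), ω.real (ball z' (ℓ₀ / 2 ^ (i + l))) *
                Theta ω (α - α / 4) (ℓ₀ / 2 ^ i) z z' *
                ∫ y, Theta ω (α / 2) (ℓ₀ / 2 ^ (i + l)) z' y ∂ω
              ≤ ∑ z' ∈ Z (i + l), ω.real (ball z' (ℓ₀ / 2 ^ (i + l))) *
                Theta ω (α - α / 4) (ℓ₀ / 2 ^ i) z z' * cI Cd (α / 2) := by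
                refine Finset.sum_le_sum fun z' _ => ?_
                refine mul_le_mul_of_nonneg_left
                  (H.dbl.integral_Theta_le (by linarith) hlj z') ?_
                exact mul_nonneg measureReal_nonneg (Theta_nonneg (H.lpos i) z z')
            _ = (∑ z' ∈ Z (i + l), ω.real (ball z' (ℓ₀ / 2 ^ (i + l))) *
                Theta ω (α - α / 4) (ℓ₀ / 2 ^ i) z z') * cI Cd (α / 2) := by
                rw [Finset.sum_mul]
            _ ≤ cB Cd (α - α / 4) * cI Cd (α / 2) := by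
                refine mul_le_mul_of_nonneg_right ?_ hcI2
                exact H.dbl.sum_Theta_le (by linarith) (H.two_le hil)
                  (H.lmono (Nat.le_add_right i l)) (H.sep _ hil) z
    _ = _ := by
        rw [hM]
        unfold cA2
        ring

theorem partial_claim (H : MS ω α Cd Ck ck ε J ℓ₀ τ L Z b σ) {i : ℕ} {z : X}
    {k : X → ℝ} (hk : Test ω α Ck ck (ℓ₀ / 2 ^ i) τ z k) (l : ℕ) (hil : i + l ≤ J) :
    ∫ y, k y * hfun ε Z σ b (i + l) y ∂ω ≤ (2 * Ck * cI Cd (α - α / 4) +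
      ε * cA2 α Cd Ck ck * ∑ n ∈ Finset.range l, ((2 : ℝ) ^ (-(α / 4))) ^ n) *
        hfun ε Z σ b i z := by
  have hα := H.hα
  have hCk := H.hCk
  have hck := H.hck
  have hε := H.hε
  have hCd := H.dbl.one_le
  have hA := H.cA_nonneg
  induction l with
  | zero => simpa using H.first_term (by omega) hk
  | succ l ih =>
    have hhz := H.hpos (i := i) (by omega) z
    have hbnd := H.k_bdd (i := i) (by omega) hk
    have h1 : ∀ y, hfun ε Z σ b (i + (l + 1)) y = hfun ε Z σ b (i + l) y +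
      ε * ∑ z' ∈ Z (i + l), σ (i + l) z' * hfun ε Z σ b (i + l) z' * b (i + l) z' y :=
      fun y => rfl
    have hi1 : Integrable (fun y => k y * hfun ε Z σ b (i + l) y) ω :=
      int_of_bdd (hk.meas.mul (H.h_meas (by omega))) fun y =>
        abs_mul_le_mul (hbnd y) (Q := (1 + ε * cA α Cd Ck) ^ (i + l)) (by
          rw [abs_of_pos (H.hpos (by omega) y)]
          exact H.h_bdd (by omega) y)
    have hi2 : Integrable (fun y => k y * hfun ε Z σ b (i + (l + 1)) y) ω :=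
      int_of_bdd (hk.meas.mul (H.h_meas (by omega))) fun y =>
        abs_mul_le_mul (hbnd y) (Q := (1 + ε * cA α Cd Ck) ^ (i + (l + 1))) (by
          rw [abs_of_pos (H.hpos (by omega) y)]
          exact H.h_bdd (by omega) y)
    have hsub : ∀ y, k y * (ε * ∑ z' ∈ Z (i + l), σ (i + l) z' * hfun ε Z σ b (i + l) z' *
        b (i + l) z' y) = k y * hfun ε Z σ b (i + (l + 1)) y - k y * hfun ε Z σ b (i + l) y :=
      fun y => by
        rw [h1 y]
        ring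
    have h2 := H.scale_term (i := i) (l := l) (by omega) hk
    simp_rw [hsub] at h2
    rw [integral_sub hi2 hi1] at h2
    have h3 := ih (by omega)
    have hA2 : 0 ≤ cA2 α Cd Ck ck := by
      have a1 := cB_nonneg hCd (β := α / 2 - α / 4) (by linarith)
      have a2 := cI_nonneg hCd (β := α - α / 4) (by linarith)
      have a3 := cI_nonneg hCd (β := α / 2) (by linarith)
      have a4 := cB_nonneg hCd (β := α - α / 4) (by linarith)
      unfold cA2
      positivity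
    have h4 : ((1 + ε * cA α Cd Ck) * (2 : ℝ) ^ (-(α / 2))) ^ l ≤
        ((2 : ℝ) ^ (-(α / 4))) ^ l := by
      refine pow_le_pow_left₀ (by positivity) ?_ l
      calc (1 + ε * cA α Cd Ck) * (2 : ℝ) ^ (-(α / 2))
          ≤ (2 : ℝ) ^ (α / 4) * (2 : ℝ) ^ (-(α / 2)) :=
            mul_le_mul_of_nonneg_right H.e5 (Real.rpow_nonneg two_pos.le _)
        _ = (2 : ℝ) ^ (-(α / 4)) := by
            rw [← Real.rpow_add two_pos]
            congr 1
            ring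
    have h5 : ε * cA2 α Cd Ck ck * ((1 + ε * cA α Cd Ck) * (2 : ℝ) ^ (-(α / 2))) ^ l *
        hfun ε Z σ b i z ≤ ε * cA2 α Cd Ck ck * ((2 : ℝ) ^ (-(α / 4))) ^ l *
        hfun ε Z σ b i z :=
      mul_le_mul_of_nonneg_right (mul_le_mul_of_nonneg_left h4 (by positivity)) hhz.le
    rw [Finset.sum_range_succ]
    linarith

end MS

end

/-- **The multi-scale lemma.** -/
theorem multiscale {α Cd Ck ck : ℝ} (hα : 0 < α) (hα1 : α ≤ 1) (hCd : 1 ≤ Cd) (hCk : 1 ≤ Ck)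
    (hck : 0 < ck) (hck1 : ck ≤ 1) :
    ∃ ε : ℝ, 0 < ε ∧ ∃ C' : ℝ, 0 < C' ∧
      ∀ (X : Type) [MetricSpace X] [MeasurableSpace X] [BorelSpace X] (ω : Measure X)
        [IsProbabilityMeasure ω] (J : ℕ) (ℓ₀ τ : ℝ), 0 < ℓ₀ → 0 ≤ τ → τ ≤ ℓ₀ / 2 ^ J →
      (∃ L : ℝ, ∀ y y' : X, dist y y' ≤ L) →
      (∀ (y : X) (r : ℝ), ℓ₀ / 2 ^ J ≤ r →
        0 < ω.real (ball y r) ∧ ω.real (ball y (2 * r)) ≤ Cd * ω.real (ball y r)) →
      ∀ (Z : ℕ → Finset X) (b : ℕ → X → X → ℝ) (σ : ℕ → X → ℝ),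
      (∀ i < J, ∀ z ∈ Z i, ∀ z' ∈ Z i, z ≠ z' → ℓ₀ / 2 ^ i ≤ dist z z') →
      (∀ i < J, ∀ z ∈ Z i, Measurable (b i z)) →
      (∀ i < J, ∀ z ∈ Z i, ∫ y, b i z y ∂ω = 0) →
      (∀ i < J, ∀ z ∈ Z i, ∀ y, |b i z y| ≤
        Ck * ω.real (ball z (ℓ₀ / 2 ^ i)) * Theta ω α (ℓ₀ / 2 ^ i) z y) →
      (∀ i < J, ∀ z ∈ Z i, ∀ y y', dist y y' + τ ≤ ck * (ℓ₀ / 2 ^ i) →
        |b i z y - b i z y'| ≤ Ck * ω.real (ball z (ℓ₀ / 2 ^ i)) *
          ((dist y y' + τ) / (ℓ₀ / 2 ^ i)) ^ α * Theta ω α (ℓ₀ / 2 ^ i) z y) →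
      (∀ i z, |σ i z| ≤ 1) →
      (∀ i ≤ J, ∀ y, 0 < hfun ε Z σ b i y) ∧
      (∀ i ≤ J, Measurable (hfun ε Z σ b i)) ∧
      (∀ i ≤ J, ∃ B, ∀ y, hfun ε Z σ b i y ≤ B) ∧
      (∀ i ≤ J, ∫ y, hfun ε Z σ b i y ∂ω = 1) ∧
      ∀ i < J, ∀ z : X, ∀ k : X → ℝ, Measurable k →
        (∀ y, 0 ≤ k y ∧ k y ≤ Ck * Theta ω α (ℓ₀ / 2 ^ i) z y) →
        (∀ y y', dist y y' + τ ≤ ck * (ℓ₀ / 2 ^ i) →
          |k y - k y'| ≤ Ck * ((dist y y' + τ) / (ℓ₀ / 2 ^ i)) ^ α *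
            Theta ω α (ℓ₀ / 2 ^ i) z y) →
        ∫ y, k y * hfun ε Z σ b J y ∂ω ≤ C' * hfun ε Z σ b i z := by
  have hd1 : 0 < 1 - (2 : ℝ) ^ (-α) := sub_pos.2 (two_rpow_neg_lt_one hα)
  have hd2 : 0 < 1 - (2 : ℝ) ^ (-(α - α / 4)) := sub_pos.2 (two_rpow_neg_lt_one (by linarith))
  have hd3 : 0 < 1 - (2 : ℝ) ^ (-(α / 4)) := sub_pos.2 (two_rpow_neg_lt_one (by linarith))
  set S : ℝ := 1 / (1 - (2 : ℝ) ^ (-α)) with hS
  have hS0 : 0 < S := by positivity
  have hA : 0 < cA α Cd Ck := by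
    unfold cA
    positivity
  have hckα : 1 ≤ ck ^ (-α) := by
    rw [Real.rpow_neg hck.le]
    exact (one_le_inv₀ (Real.rpow_pos_of_pos hck _)).2 (Real.rpow_le_one hck.le hck1 hα.le)
  have hlog2 : 0 < Real.log 2 := Real.log_pos one_lt_two
  have hlog21 : Real.log 2 ≤ 1 := by
    have := Real.log_le_sub_one_of_pos (two_pos (α := ℝ))
    linarith
  set B : ℝ := 6 * cA α Cd Ck * ck ^ (-α) with hB
  have hB0 : 0 < B := by positivity
  set ε : ℝ := α / 4 * Real.log 2 / (2 * (S + 1) * B) with hε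
  have hε0 : 0 < ε := by positivity
  have hkap : kap α Cd Ck ck ε = α / 4 * Real.log 2 / (2 * (S + 1)) := by
    unfold kap
    have : 6 * ε * cA α Cd Ck * ck ^ (-α) = ε * B := by
      rw [hB]
      ring
    rw [this, hε]
    field_simp
  have hkap0 : 0 ≤ kap α Cd Ck ck ε := by
    rw [hkap]
    positivity
  have hkS : kap α Cd Ck ck ε * (S + 1) = α / 8 * Real.log 2 := by
    rw [hkap]
    field_simp
    ring
  have hk1 : kap α Cd Ck ck ε ≤ α / 8 * Real.log 2 := by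
    rw [← hkS]
    nlinarith
  have hk2 : kap α Cd Ck ck ε * S ≤ α / 8 * Real.log 2 := by
    rw [← hkS]
    nlinarith
  have hαl : α / 8 * Real.log 2 ≤ 1 / 8 := by
    nlinarith [mul_le_mul hα1 hlog21 hlog2.le zero_le_one]
  have hεA : ε * cA α Cd Ck ≤ kap α Cd Ck ck ε := by
    have e : kap α Cd Ck ck ε = ε * cA α Cd Ck * (6 * ck ^ (-α)) := by
      unfold kap
      ring
    rw [e]
    have : 1 ≤ 6 * ck ^ (-α) := by linarith
    have h0 : 0 ≤ ε * cA α Cd Ck := by positivity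
    nlinarith
  have hI : 0 < cI Cd (α - α / 4) := by
    unfold cI
    positivity
  have hA2 : 0 ≤ cA2 α Cd Ck ck := by
    have a1 := cB_nonneg hCd (β := α / 2 - α / 4) (by linarith)
    have a2 := cI_nonneg hCd (β := α - α / 4) (by linarith)
    have a3 := cI_nonneg hCd (β := α / 2) (by linarith)
    have a4 := cB_nonneg hCd (β := α - α / 4) (by linarith)
    unfold cA2
    positivity
  refine ⟨ε, hε0, 2 * Ck * cI Cd (α - α / 4) +
    ε * cA2 α Cd Ck ck * (1 / (1 - (2 : ℝ) ^ (-(α / 4)))), by positivity, ?_⟩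
  intro X _ _ _ ω _ J ℓ₀ τ hℓ hτ hτ' hL hdbl Z b σ hsep hmeas hint0 hsize hhold hsig
  obtain ⟨L, hL⟩ := hL
  have H : MS ω α Cd Ck ck ε J ℓ₀ τ L Z b σ :=
    { dbl := ⟨hCd, by positivity, hL, fun y r hr => (hdbl y r hr).1,
        fun y r hr => (hdbl y r hr).2⟩
      hα := hα
      hCk := hCk
      hck := hck
      hck1 := hck1
      hℓ := hℓ
      hτ := hτ
      hτ' := hτ'
      sep := hsep
      meas := hmeas
      int0 := hint0
      size := hsize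
      holder := hhold
      sigma := hsig
      hε := hε0
      e1 := by linarith
      e2 := by
        calc Real.exp (kap α Cd Ck ck ε * S) ≤ Real.exp (Real.log 2) := by
              refine Real.exp_le_exp.2 (hk2.trans ?_)
              nlinarith
          _ = 2 := Real.exp_log two_pos
      e3 := by
        refine hk1.trans ?_
        nlinarith
      e4 := by linarith
      e5 := by
        have h1 := Real.add_one_le_exp (α / 4 * Real.log 2)
        have h2 : (2 : ℝ) ^ (α / 4) = Real.exp (α / 4 * Real.log 2) := by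
          rw [Real.rpow_def_of_pos two_pos, mul_comm]
        rw [h2]
        nlinarith }
  refine ⟨fun i hi y => H.hpos hi y, fun i hi => H.h_meas hi,
    fun i hi => ⟨_, fun y => H.h_bdd hi y⟩, fun i hi => H.h_integral hi, ?_⟩
  intro i hi z k hk hk1' hk2'
  have hT : MS.Test ω α Ck ck (ℓ₀ / 2 ^ i) τ z k :=
    ⟨hk, fun y => (hk1' y).1, fun y => (hk1' y).2, hk2'⟩
  have hfin := H.partial_claim hT (J - i) (by omega)
  rw [Nat.add_sub_cancel' hi.le] at hfin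
  refine hfin.trans (mul_le_mul_of_nonneg_right ?_ (H.hpos hi.le z).le)
  refine add_le_add le_rfl (mul_le_mul_of_nonneg_left ?_ (by positivity))
  exact geom_sum_le (two_rpow_neg_pos _).le (two_rpow_neg_lt_one (by linarith)) _

end Pool.Agent.MP_578f25_an
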