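import Pool.Agent.Lib.MP_578f25_an.Fin1
import Pool.Agent.Lib.MP_578f25_an.Fin2
import Pool.Agent.Lib.MP_578f25_an.Multi
import Pool.Agent.Lib.MP_578f25_an.KData

/-!
# The estimate down to a finite scale
-/

set_option autoImplicit false

namespace Pool.Agent.MP_578f25_an

open MeasureTheory Metric Set Filter Topology InnerProductSpace

variable {d : ℕ} {Ω : Set (E d)} {M r₀ κ : ℝ} {G : E d → E d → ℝ}

/-- The patches. -/
def patch (Ω : Set (E d)) (ℓ : ℝ) (z : E d) : Set (E d) :=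
  {x | x ∈ Ω ∧ ℓ / 2 ≤ infDist x (frontier Ω)} ∩ closedBall z (3 * ℓ)

variable [HasBhp d] [HasKernelData d]

theorem measurableSet_patch (hN : IsNTA Ω M r₀) {ℓ : ℝ} (hℓ : 0 < ℓ) (z : E d) :
    MeasurableSet (patch Ω ℓ z) :=
  (isCompact_deep hN (half_pos hℓ)).measurableSet.inter measurableSet_closedBall

theorem rpow_two_sub {ℓ : ℝ} (hℓ : 0 < ℓ) : ℓ ^ (2 - (d : ℝ)) / ℓ / ℓ = (ℓ ^ d)⁻¹ := by
  rw [Real.rpow_sub hℓ, Real.rpow_natCast]
  have : ℓ ^ (2 : ℝ) = ℓ ^ 2 := by exact_mod_cast Real.rpow_natCast ℓ 2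
  rw [this]
  field_simp

theorem sign_mul_self' (x : ℝ) : ((SignType.sign x : SignType) : ℝ) * x = |x| := by
  rcases lt_trichotomy x 0 with h | h | h
  · rw [sign_neg h, abs_of_neg h]; simp
  · rw [h]; simp
  · rw [sign_pos h, abs_of_pos h]; simp

theorem abs_sign_le (x : ℝ) : |((SignType.sign x : SignType) : ℝ)| ≤ 1 := by
  rcases lt_trichotomy x 0 with h | h | h
  · rw [sign_neg h]; simp
  · rw [h]; simp
  · rw [sign_pos h]; simp

/-- The gradient estimate down to scale `t₁ / 2 ^ J`. -/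
theorem finite_scale (hd : 2 ≤ d) (hN : IsNTA Ω M r₀) (hG : IsGreen Ω κ G) {x₀ : E d}
    (hx₀ : x₀ ∈ Ω) :
    ∃ C t₁ : ℝ, 0 ≤ C ∧ 0 < t₁ ∧
      ∀ v : E d → ℝ, HarmonicOnNhd v Ω → (∀ x ∈ Ω, 0 < v x) → ∀ (J : ℕ) (η : ℝ), 0 < η →
      ∃ y ∈ Ω, infDist y (frontier Ω) < η ∧
        ∫⁻ x in {x | x ∈ Ω ∧ t₁ / 2 ^ J ≤ infDist x (frontier Ω)},
          ENNReal.ofReal (‖fderiv ℝ v x‖ * (G x y / G x₀ y) * ‖fderiv ℝ (fun y => G y x₀) x‖) ≤
        ENNReal.ofReal (C * v x₀) := by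
  classical
  obtain ⟨α, Cd, Ck, ck, t₁, Cτ, hα, hα1, hCd, hCk, hck, hck1, ht₁, hCτ, ht₁δ, hdata⟩ :=
    HasKernelData.out hd hN hG hx₀
  obtain ⟨ε, hε, C', hC', hms⟩ := multiscale (α := α) (Cd := Cd) (Ck := 2 * Ck) (ck := ck)
    hα hα1 hCd (by linarith) hck hck1
  obtain ⟨CH, Cτ', hCH, hCτ', hharn⟩ := kernel_harnack hd hN hG
  obtain ⟨Co, hCo, hosc⟩ := exists_osc_pair hd hN
  obtain ⟨Cg, hCg, hgreen⟩ := grad_green hd hN hG hx₀
  obtain ⟨CD, hCD, hdeep⟩ := grad_deep hd hN hx₀ ht₁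
  obtain ⟨B, hB, hcore⟩ := grad_green_core hd hN hG hx₀ ht₁
  have hCk0 : 0 < Ck := by linarith
  have hCH0 : 0 < CH := by linarith
  have hCo0 : 0 < Co := by linarith
  have hCg0 : 0 < Cg := by linarith
  have hCD0 : 0 < CD := by linarith
  set V₁ := volume.real (ball (0 : E d) 1) with hV₁
  have hV₁0 : 0 ≤ V₁ := measureReal_nonneg
  set C₁ := CD * Ck * B with hC₁
  set C₂ := Co * CH * Cg * Ck * (3 ^ d * V₁) with hC₂
  have hC₁0 : 0 ≤ C₁ := by positivity
  have hC₂0 : 0 ≤ C₂ := by positivity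
  refine ⟨C₁ + C₂ * (C' / ε), t₁, by positivity, ht₁, ?_⟩
  intro v hv hvpos J η hη
  have hvx₀ : 0 < v x₀ := hvpos x₀ hx₀
  -- the thickness of the layer
  set τ := min η (t₁ / 2 ^ J / (4 * (Cτ + Cτ'))) with hτdef
  have hτ : 0 < τ := by
    rw [hτdef, lt_min_iff]
    exact ⟨hη, by positivity⟩
  have hτη : τ ≤ η := min_le_left _ _
  have hτJ : 4 * (Cτ * τ) + 4 * (Cτ' * τ) ≤ t₁ / 2 ^ J := by
    have h1 : τ ≤ t₁ / 2 ^ J / (4 * (Cτ + Cτ')) := min_le_right _ _
    rw [le_div_iff₀ (by linarith)] at h1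
    linarith
  have hq1 : 0 < Cτ * τ := by positivity
  have hq2 : 0 < Cτ' * τ := by positivity
  have hτle : τ ≤ Cτ * τ := le_mul_of_one_le_left hτ.le hCτ
  have hℓJ : ∀ i ≤ J, t₁ / 2 ^ J ≤ t₁ / 2 ^ i := fun i hi =>
    div_le_div_of_nonneg_left ht₁.le (by positivity) (pow_le_pow_right₀ (by norm_num) hi)
  have hℓ1 : ∀ i : ℕ, t₁ / 2 ^ i ≤ t₁ := fun i => div_le_self ht₁.le (one_le_pow₀ (by norm_num))
  have hℓ0 : ∀ i : ℕ, 0 < t₁ / 2 ^ i := fun i => by positivity
  obtain ⟨ω, hω⟩ := exists_layer hd hN hG hx₀ hτ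
  have hωp := hω.prob
  obtain ⟨hdoub, hker, hkcore⟩ := hdata τ ω hτ (by linarith [hℓ1 J]) hω
  set μ : Measure (nearSet Ω τ) := ω.comap (Subtype.val : nearSet Ω τ → E d) with hμ
  have hμp : IsProbabilityMeasure μ := comap_prob hN hω
  -- nets
  choose Z₀ hZsep hZcov using fun i : ℕ =>
    exists_net (nearSet_totallyBounded hN τ) (hℓ0 i)
  set Z : ℕ → Finset (nearSet Ω τ) := fun i =>
    (Z₀ i).filter (fun z => (patch Ω (t₁ / 2 ^ i) z).Nonempty) with hZdef
  have hZmem : ∀ i, ∀ z ∈ Z i, z ∈ Z₀ i ∧ (patch Ω (t₁ / 2 ^ i) z).Nonempty := fun i z hz =>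
    Finset.mem_filter.1 hz
  have hpair : ∀ (i : ℕ) (z : nearSet Ω τ), ∃ q : E d × E d,
      (patch Ω (t₁ / 2 ^ i) z).Nonempty →
        (q.1 ∈ Ω ∧ t₁ / 2 ^ i / 4 ≤ infDist q.1 (frontier Ω) ∧ dist q.1 z ≤ 4 * (t₁ / 2 ^ i)) ∧
        (q.2 ∈ Ω ∧ t₁ / 2 ^ i / 4 ≤ infDist q.2 (frontier Ω) ∧ dist q.2 z ≤ 4 * (t₁ / 2 ^ i)) ∧
        ∀ w ∈ Ω, t₁ / 2 ^ i / 2 ≤ infDist w (frontier Ω) → dist w z ≤ 3 * (t₁ / 2 ^ i) →
          ‖fderiv ℝ v w‖ ≤ Co * |v q.1 - v q.2| / (t₁ / 2 ^ i) := by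
    intro i z
    by_cases h : (patch Ω (t₁ / 2 ^ i) z).Nonempty
    · obtain ⟨w, hw⟩ := h
      obtain ⟨x, x', h1, h2, h3⟩ := hosc v hv z (t₁ / 2 ^ i) (hℓ0 i) ⟨w, hw.1.1, hw.1.2, hw.2⟩
      exact ⟨(x, x'), fun _ => ⟨h1, h2, h3⟩⟩
    · exact ⟨(0, 0), fun h' => absurd h' h⟩
  choose q hq using hpair
  set p : ℕ → nearSet Ω τ → E d := fun i z => (q i z).1 with hp
  set p' : ℕ → nearSet Ω τ → E d := fun i z => (q i z).2 with hp'
  have hpp : ∀ i, ∀ z ∈ Z i, p i z ∈ Ω ∧ t₁ / 2 ^ i / 4 ≤ infDist (p i z) (frontier Ω) ∧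
      dist (p i z) z ≤ 4 * (t₁ / 2 ^ i) := fun i z hz => (hq i z (hZmem i z hz).2).1
  have hpp' : ∀ i, ∀ z ∈ Z i, p' i z ∈ Ω ∧ t₁ / 2 ^ i / 4 ≤ infDist (p' i z) (frontier Ω) ∧
      dist (p' i z) z ≤ 4 * (t₁ / 2 ^ i) := fun i z hz => (hq i z (hZmem i z hz).2).2.1
  set m : ℕ → nearSet Ω τ → ℝ := fun i z => ω.real (ball (z : E d) (t₁ / 2 ^ i)) with hm
  have hm0 : ∀ i z, 0 ≤ m i z := fun i z => measureReal_nonneg
  set σ : ℕ → nearSet Ω τ → ℝ := fun i z =>
    -((SignType.sign (v (p i z) - v (p' i z)) : SignType) : ℝ) with hσ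
  set b : ℕ → nearSet Ω τ → nearSet Ω τ → ℝ := fun i z y =>
    m i z * (G (p i z) y / G x₀ y - G (p' i z) y / G x₀ y) with hb
  -- facts about a kernel
  have hkern : ∀ i < J, ∀ (z : nearSet Ω τ) (x : E d), x ∈ Ω →
      t₁ / 2 ^ i / 4 ≤ infDist x (frontier Ω) → dist x z ≤ 4 * (t₁ / 2 ^ i) →
      Measurable (fun y : nearSet Ω τ => G x y / G x₀ y) ∧
      Integrable (fun y : nearSet Ω τ => G x y / G x₀ y) μ ∧
      ∫ y : nearSet Ω τ, G x y / G x₀ y ∂μ = 1 ∧
      (∀ y : nearSet Ω τ, 0 < G x y / G x₀ y ∧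
        G x y / G x₀ y ≤ Ck * Theta μ α (t₁ / 2 ^ i) z y) ∧
      (∀ y y' : nearSet Ω τ, dist y y' + τ ≤ ck * (t₁ / 2 ^ i) →
        |G x y / G x₀ y - G x y' / G x₀ y'| ≤
          Ck * ((dist y y' + τ) / (t₁ / 2 ^ i)) ^ α * Theta μ α (t₁ / 2 ^ i) z y) ∧
      G x x₀ ≤ Ck * ((t₁ / 2 ^ i) ^ (2 - (d : ℝ)) * m i z) := by
    intro i hi z x hx hxδ hxz
    have hi1 := hℓJ i hi.le
    obtain ⟨-, k1, k2, k3, k4, k5⟩ := hker (t₁ / 2 ^ i) (hℓ1 i) (by linarith) z z.2.1 z.2.2 x hx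
      hxδ hxz
    refine ⟨?_, comap_integrable hN hω k1, ?_, fun y => ?_, fun y y' hyy' => ?_, k5⟩
    · exact ((continuous_green_near hd hN hG hx (by linarith)).measurable).div
        ((continuous_green_near hd hN hG hx₀ (by linarith [hℓ1 i])).measurable)
    · rw [hμ, comap_integral hN hω (fun y => G x y / G x₀ y)]
      exact k2
    · rw [hμ, comap_theta hN hω]
      exact k3 y y.2.1 y.2.2
    · rw [hμ, comap_theta hN hω]
      exact k4 y y.2.1 y.2.2 y' y'.2.1 y'.2.2 hyy'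
  have hTh0 : ∀ (i : ℕ) (z y : nearSet Ω τ), 0 ≤ Theta μ α (t₁ / 2 ^ i) z y := by
    intro i z y
    unfold Theta
    have h1 := hℓ0 i
    have h2 := dist_nonneg (x := y) (y := z)
    positivity
  have hmμ : ∀ i z, μ.real (ball z (t₁ / 2 ^ i)) = m i z := fun i z => by
    rw [hμ, comap_ball hN hω]
  -- the multi-scale lemma
  obtain ⟨hpos, hmeas, hbdd, hint, hlast⟩ := hms (nearSet Ω τ) μ J t₁ τ ht₁ hτ.le (by linarith)
    (by
      obtain ⟨L, hL⟩ := hN.isBounded.subset_closedBall x₀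
      refine ⟨L + L, fun y y' => ?_⟩
      have h1 := hL y.2.1
      have h2 := hL y'.2.1
      rw [mem_closedBall] at h1 h2
      have h3 : dist (y : E d) y' ≤ dist (y : E d) x₀ + dist (y' : E d) x₀ :=
        dist_triangle_right _ _ _
      rw [Subtype.dist_eq]
      linarith)
    (by
      intro y r hr
      rw [hμ, comap_ball hN hω, comap_ball hN hω]
      exact hdoub y y.2.1 y.2.2 r (by linarith))
    Z b σ
    (fun i _ z hz z' hz' hne => hZsep i z (hZmem i z hz).1 z' (hZmem i z' hz').1 hne)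
    (by
      intro i hi z hz
      obtain ⟨h1, h2, h3⟩ := hpp i z hz
      obtain ⟨h1', h2', h3'⟩ := hpp' i z hz
      exact ((hkern i hi z _ h1 h2 h3).1.sub (hkern i hi z _ h1' h2' h3').1).const_mul _)
    (by
      intro i hi z hz
      obtain ⟨h1, h2, h3⟩ := hpp i z hz
      obtain ⟨h1', h2', h3'⟩ := hpp' i z hz
      obtain ⟨-, e1, e2, -⟩ := hkern i hi z _ h1 h2 h3
      obtain ⟨-, e1', e2', -⟩ := hkern i hi z _ h1' h2' h3'
      rw [hb, integral_const_mul, integral_sub e1 e1', e2, e2']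
      ring)
    (by
      intro i hi z hz y
      obtain ⟨h1, h2, h3⟩ := hpp i z hz
      obtain ⟨h1', h2', h3'⟩ := hpp' i z hz
      obtain ⟨-, -, -, e1, -⟩ := hkern i hi z _ h1 h2 h3
      obtain ⟨-, -, -, e1', -⟩ := hkern i hi z _ h1' h2' h3'
      have hT := hTh0 i z y
      have hm' := hm0 i z
      rw [hmμ, hb, abs_mul, abs_of_nonneg hm']
      have h5 : |G (p i z) y / G x₀ y - G (p' i z) y / G x₀ y| ≤
          2 * Ck * Theta μ α (t₁ / 2 ^ i) z y := by
        rw [abs_le]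
        have f1 := e1 y
        have f2 := e1' y
        constructor <;> linarith
      calc m i z * |G (p i z) y / G x₀ y - G (p' i z) y / G x₀ y| ≤
          m i z * (2 * Ck * Theta μ α (t₁ / 2 ^ i) z y) := by gcongr
        _ = _ := by ring)
    (by
      intro i hi z hz y y' hyy'
      obtain ⟨h1, h2, h3⟩ := hpp i z hz
      obtain ⟨h1', h2', h3'⟩ := hpp' i z hz
      obtain ⟨-, -, -, -, e1, -⟩ := hkern i hi z _ h1 h2 h3
      obtain ⟨-, -, -, -, e1', -⟩ := hkern i hi z _ h1' h2' h3'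
      have hT := hTh0 i z y
      have hm' := hm0 i z
      have f1 := e1 y y' hyy'
      have f2 := e1' y y' hyy'
      have h4 : b i z y - b i z y' = m i z * ((G (p i z) y / G x₀ y - G (p i z) y' / G x₀ y') -
          (G (p' i z) y / G x₀ y - G (p' i z) y' / G x₀ y')) := by rw [hb]; ring
      rw [hmμ, h4, abs_mul, abs_of_nonneg hm']
      have h5 := abs_sub (G (p i z) y / G x₀ y - G (p i z) y' / G x₀ y')
          (G (p' i z) y / G x₀ y - G (p' i z) y' / G x₀ y')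
      calc _ ≤ m i z * (Ck * ((dist y y' + τ) / (t₁ / 2 ^ i)) ^ α * Theta μ α (t₁ / 2 ^ i) z y +
            Ck * ((dist y y' + τ) / (t₁ / 2 ^ i)) ^ α * Theta μ α (t₁ / 2 ^ i) z y) := by
            gcongr
            linarith
        _ = _ := by ring)
    (fun i z => by rw [hσ, abs_neg]; exact abs_sign_le _)
  -- the weighted sum of the oscillations
  set h : ℕ → nearSet Ω τ → ℝ := hfun ε Z σ b with hh
  set a : ℕ → nearSet Ω τ → ℝ := fun i z => |v (p i z) - v (p' i z)| * m i z with ha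
  have ha0 : ∀ i z, 0 ≤ a i z := fun i z => mul_nonneg (abs_nonneg _) (hm0 i z)
  have hG₀ : ∀ y : nearSet Ω τ, 0 < G x₀ y := by
    intro y
    refine green_pos hd hN hG hx₀ y.2.1 ?_
    intro heq
    have := y.2.2
    rw [← heq] at this
    linarith [hℓ1 J]
  have hosum : ε * ∑ i ∈ Finset.range J, ∑ z ∈ Z i, a i z * h i z ≤ v x₀ := by
    have key := green_positivity_sum hd hN hG hx₀ J Z
      (fun i z => ε * (σ i z * h i z * m i z)) p p'
      (fun i _ z hz => ⟨(hpp i z hz).1, (hpp' i z hz).1⟩)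
      (by
        refine ⟨τ, hτ, fun y hy hyτ => ?_⟩
        have h1 := hpos J le_rfl ⟨y, hy, hyτ⟩
        have h2 := hG₀ ⟨y, hy, hyτ⟩
        have h3 := mul_pos h2 h1
        rw [hh, hfun_expand] at h3
        refine lt_of_lt_of_eq h3 ?_
        rw [mul_add, mul_one, ← mul_assoc, Finset.mul_sum]
        congr 1
        refine Finset.sum_congr rfl fun i _ => ?_
        rw [Finset.mul_sum]
        refine Finset.sum_congr rfl fun z _ => ?_
        have h4 : G x₀ y ≠ 0 := h2.ne'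
        simp only [hb, hh]
        field_simp)
      hv (fun x hx => (hvpos x hx).le)
    have h1 : ∑ i ∈ Finset.range J, ∑ z ∈ Z i,
        ε * (σ i z * h i z * m i z) * (v (p i z) - v (p' i z)) =
        -(ε * ∑ i ∈ Finset.range J, ∑ z ∈ Z i, a i z * h i z) := by
      rw [Finset.mul_sum, ← Finset.sum_neg_distrib]
      refine Finset.sum_congr rfl fun i _ => ?_
      rw [Finset.mul_sum, ← Finset.sum_neg_distrib]
      refine Finset.sum_congr rfl fun z _ => ?_
      have h2 := sign_mul_self' (v (p i z) - v (p' i z))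
      simp only [ha, hσ]
      rw [← h2]
      ring
    rw [h1] at key
    linarith
  -- the good point
  obtain ⟨y, hy⟩ := exists_good_point μ J Z h a
    (fun i z y => G (p i z) y / G x₀ y) hε hC'
    (hpos J le_rfl) (hmeas J le_rfl) (hbdd J le_rfl) (hint J le_rfl)
    (fun i _ z _ => ha0 i z)
    (by
      intro i hi z hz
      obtain ⟨h1, h2, h3⟩ := hpp i z hz
      exact (hkern i hi z _ h1 h2 h3).2.1)
    (by
      intro i hi z hz
      obtain ⟨h1, h2, h3⟩ := hpp i z hz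
      obtain ⟨e0, -, -, e1, e2, -⟩ := hkern i hi z _ h1 h2 h3
      refine hlast i hi z (fun y => G (p i z) y / G x₀ y) e0 ?_ ?_
      · intro y
        have hT := hTh0 i z y
        have f1 := e1 y
        have hCT : 0 ≤ Ck * Theta μ α (t₁ / 2 ^ i) z y := by positivity
        exact ⟨f1.1.le, by linarith⟩
      · intro y y' hyy'
        have hT := hTh0 i z y
        have f2 := e2 y y' hyy'
        have h5 : 0 ≤ (dist y y' + τ) / (t₁ / 2 ^ i) :=
          div_nonneg (add_nonneg dist_nonneg hτ.le) (hℓ0 i).le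
        have hCT : 0 ≤ Ck * ((dist y y' + τ) / (t₁ / 2 ^ i)) ^ α *
          Theta μ α (t₁ / 2 ^ i) z y := by positivity
        linarith)
    hosum
  refine ⟨y, y.2.1, lt_of_lt_of_le y.2.2 hτη, ?_⟩
  set k : E d → ℝ := fun x => G x y / G x₀ y with hk
  set F : E d → ℝ := fun x => ‖fderiv ℝ v x‖ * k x * ‖fderiv ℝ (fun y => G y x₀) x‖ with hF
  -- covering
  have hcov := lintegral_scales (volume : Measure (E d))
    (fun i => {x | x ∈ Ω ∧ t₁ / 2 ^ i ≤ infDist x (frontier Ω)}) Z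
    (fun i z => patch Ω (t₁ / 2 ^ i) z) (fun x => ENNReal.ofReal (F x)) J (by
      intro i hi x hx
      by_cases hxi : t₁ / 2 ^ i ≤ infDist x (frontier Ω)
      · exact Or.inl ⟨hx.1, hxi⟩
      right
      push Not at hxi
      obtain ⟨ξ, hξ, hξd⟩ := exists_nearest hd hN hx.1
      obtain ⟨w, hw, hwξ⟩ := Metric.mem_closure_iff.1 hξ.1 (min τ (t₁ / 2 ^ i))
        (lt_min hτ (hℓ0 i))
      rw [lt_min_iff, dist_comm] at hwξ
      have hwτ : infDist w (frontier Ω) < τ :=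
        lt_of_le_of_lt (infDist_le_of_mem_frontier hξ) hwξ.1
      obtain ⟨z, hz, hwz⟩ := hZcov i ⟨w, hw, hwτ⟩
      have hwz' : dist w (z : E d) < t₁ / 2 ^ i := hwz
      have hxz : dist x (z : E d) ≤ 3 * (t₁ / 2 ^ i) := by
        have h1 : dist x (z : E d) ≤ dist x ξ + dist ξ z := dist_triangle _ _ _
        have h2 : dist ξ (z : E d) ≤ dist ξ w + dist w z := dist_triangle _ _ _
        rw [dist_comm ξ w] at h2
        linarith
      have hxp : x ∈ patch Ω (t₁ / 2 ^ i) z := by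
        refine ⟨⟨hx.1, ?_⟩, hxz⟩
        have h1 := hx.2
        rw [pow_succ, ← div_div] at h1
        exact h1
      simp only [mem_iUnion]
      exact ⟨z, Finset.mem_filter.2 ⟨hz, x, hxp⟩, hxp⟩)
  refine hcov.trans ?_
  -- the core
  have hcore' : ∫⁻ x in {x | x ∈ Ω ∧ t₁ / 2 ^ 0 ≤ infDist x (frontier Ω)},
      ENNReal.ofReal (F x) ≤ ENNReal.ofReal (C₁ * v x₀) := by
    have h1 : {x | x ∈ Ω ∧ t₁ / 2 ^ 0 ≤ infDist x (frontier Ω)} =
        {x | x ∈ Ω ∧ t₁ ≤ infDist x (frontier Ω)} := by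
      rw [pow_zero, div_one]
    rw [h1]
    calc ∫⁻ x in {x | x ∈ Ω ∧ t₁ ≤ infDist x (frontier Ω)}, ENNReal.ofReal (F x)
        ≤ ∫⁻ x in {x | x ∈ Ω ∧ t₁ ≤ infDist x (frontier Ω)},
          ENNReal.ofReal (CD * v x₀ * Ck) *
            ENNReal.ofReal ‖fderiv ℝ (fun y => G y x₀) x‖ := by
          refine setLIntegral_mono' (isCompact_deep hN ht₁).measurableSet fun x hx => ?_
          rw [← ENNReal.ofReal_mul (by positivity)]
          apply ENNReal.ofReal_le_ofReal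
          have e1 := hdeep v hv hvpos x hx.1 hx.2
          have e2 := hkcore x hx.1 hx.2 y y.2.1 y.2.2
          have e3 : 0 < k x := kernel_pos hd hN hG hx.1 hx₀ y.2.1
            (by linarith [y.2.2, hx.2, hℓ1 J]) (by linarith [y.2.2, hℓ1 J])
          simp only [hF]
          gcongr
      _ = ENNReal.ofReal (CD * v x₀ * Ck) * ∫⁻ x in {x | x ∈ Ω ∧ t₁ ≤ infDist x (frontier Ω)},
            ENNReal.ofReal ‖fderiv ℝ (fun y => G y x₀) x‖ :=
          lintegral_const_mul' _ _ ENNReal.ofReal_ne_top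
      _ ≤ ENNReal.ofReal (CD * v x₀ * Ck) * ENNReal.ofReal B := by gcongr
      _ = ENNReal.ofReal (C₁ * v x₀) := by
          rw [← ENNReal.ofReal_mul (by positivity)]
          congr 1
          rw [hC₁]; ring
  -- the patches
  have hpatch : ∀ i < J, ∀ z ∈ Z i, ∫⁻ x in patch Ω (t₁ / 2 ^ i) z, ENNReal.ofReal (F x) ≤
      ENNReal.ofReal (C₂ * (a i z * (G (p i z) y / G x₀ y))) := by
    intro i hi z hz
    obtain ⟨h1, h2, h3⟩ := hpp i z hz
    obtain ⟨-, -, -, e1, -⟩ := hkern i hi z _ h1 h2 h3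
    have hkp : 0 < G (p i z) y / G x₀ y := (e1 y).1
    have hc0 : 0 ≤ Co * CH * Cg * Ck * (a i z * (G (p i z) y / G x₀ y)) := by
      have := ha0 i z
      positivity
    have h4 := patch_bound hd (hℓ0 i) hc0 (measurableSet_patch hN (hℓ0 i) (z : E d))
      (fun x hx => hx.2) (F := F) (by
        intro x hx
        have hxΩ : x ∈ Ω := hx.1.1
        have hxδ : t₁ / 2 ^ i / 2 ≤ infDist x (frontier Ω) := hx.1.2
        have hxz : dist x (z : E d) ≤ 3 * (t₁ / 2 ^ i) := hx.2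
        have hℓi := hℓ0 i
        have hJi := hℓJ i hi.le
        have hxδ4 : t₁ / 2 ^ i / 4 ≤ infDist x (frontier Ω) := by linarith
        -- the four estimates
        have f1 := (hq i z (hZmem i z hz).2).2.2 x hxΩ hxδ hxz
        have hxp : dist x (p i z) ≤ 8 * (t₁ / 2 ^ i) := by
          have h5 : dist x (p i z) ≤ dist x z + dist (p i z) z := dist_triangle_right _ _ _
          linarith
        have f2 := hharn (t₁ / 2 ^ i) τ hτ (by linarith) x hxΩ (p i z) h1 hxδ4 h2 hxp y y.2.1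
          y.2.2
        have hxx₀ : t₁ / 2 ^ i / 2 ≤ dist x x₀ := by
          have h5 : infDist x₀ (frontier Ω) ≤ infDist x (frontier Ω) + dist x₀ x :=
            infDist_le_infDist_add_dist
          have h6 : infDist x (frontier Ω) ≤ infDist (z : E d) (frontier Ω) + dist x z :=
            infDist_le_infDist_add_dist
          rw [dist_comm x₀ x] at h5
          have h7 := z.2.2
          have h8 := hℓ1 i
          linarith
        have f3 := hgreen x hxΩ (t₁ / 2 ^ i) (hℓ0 i) hxδ hxx₀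
        have f4 := (hkern i hi z x hxΩ hxδ4 (by linarith)).2.2.2.2.2
        have hyG := hG₀ y
        have f2' : k x ≤ CH * (G (p i z) y / G x₀ y) := by
          simp only [hk]
          rw [← mul_div_assoc]
          exact div_le_div_of_nonneg_right f2 hyG.le
        have hkx : 0 < k x := ((hkern i hi z x hxΩ hxδ4 (by linarith)).2.2.2.1 y).1
        have hG0 : 0 ≤ G x x₀ := by
          have hne : x ≠ x₀ := by
            rintro rfl
            rw [dist_self] at hxx₀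
            linarith
          exact (green_pos hd hN hG hxΩ hx₀ hne).le
        have hmi := hm0 i z
        have hrp : 0 < (t₁ / 2 ^ i) ^ (2 - (d : ℝ)) := Real.rpow_pos_of_pos hℓi _
        calc F x = ‖fderiv ℝ v x‖ * k x * ‖fderiv ℝ (fun y => G y x₀) x‖ := rfl
          _ ≤ (Co * |v (p i z) - v (p' i z)| / (t₁ / 2 ^ i)) * (CH * (G (p i z) y / G x₀ y)) *
              (Cg * (Ck * ((t₁ / 2 ^ i) ^ (2 - (d : ℝ)) * m i z)) / (t₁ / 2 ^ i)) := by
              gcongr
              exact f3.trans (by gcongr)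
          _ = Co * CH * Cg * Ck * (|v (p i z) - v (p' i z)| * m i z * (G (p i z) y / G x₀ y)) *
              ((t₁ / 2 ^ i) ^ (2 - (d : ℝ)) / (t₁ / 2 ^ i) / (t₁ / 2 ^ i)) := by ring
          _ = _ := by rw [rpow_two_sub hℓi])
    refine h4.trans (le_of_eq ?_)
    congr 1
    rw [hC₂]
    ring
  have hsum2 : ∑ i ∈ Finset.range J, ∑ z ∈ Z i,
      ∫⁻ x in patch Ω (t₁ / 2 ^ i) z, ENNReal.ofReal (F x) ≤
      ENNReal.ofReal (C₂ * (C' * (v x₀ / ε))) := by
    calc _ ≤ ∑ i ∈ Finset.range J, ∑ z ∈ Z i,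
          ENNReal.ofReal (C₂ * (a i z * (G (p i z) y / G x₀ y))) := by
          refine Finset.sum_le_sum fun i hi => Finset.sum_le_sum fun z hz => ?_
          exact hpatch i (Finset.mem_range.1 hi) z hz
      _ = ENNReal.ofReal (∑ i ∈ Finset.range J, ∑ z ∈ Z i,
          C₂ * (a i z * (G (p i z) y / G x₀ y))) := by
          have hnn : ∀ i ∈ Finset.range J, ∀ z ∈ Z i,
              0 ≤ C₂ * (a i z * (G (p i z) y / G x₀ y)) := by
            intro i hi z hz
            obtain ⟨h1, h2, h3⟩ := hpp i z hz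
            have hkp := ((hkern i (Finset.mem_range.1 hi) z _ h1 h2 h3).2.2.2.1 y).1
            have := ha0 i z
            positivity
          rw [ENNReal.ofReal_sum_of_nonneg fun i hi => Finset.sum_nonneg fun z hz => hnn i hi z hz]
          refine Finset.sum_congr rfl fun i hi => ?_
          rw [ENNReal.ofReal_sum_of_nonneg fun z hz => hnn i hi z hz]
      _ ≤ _ := by
          apply ENNReal.ofReal_le_ofReal
          calc _ = C₂ * ∑ i ∈ Finset.range J, ∑ z ∈ Z i, a i z * (G (p i z) y / G x₀ y) := by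
                rw [Finset.mul_sum]
                refine Finset.sum_congr rfl fun i _ => ?_
                rw [Finset.mul_sum]
            _ ≤ _ := by gcongr
  calc _ ≤ ENNReal.ofReal (C₁ * v x₀) + ENNReal.ofReal (C₂ * (C' * (v x₀ / ε))) :=
        add_le_add hcore' hsum2
    _ = ENNReal.ofReal ((C₁ + C₂ * (C' / ε)) * v x₀) := by
        rw [← ENNReal.ofReal_add (by positivity) (by positivity)]
        congr 1
        ring

end Pool.Agent.MP_578f25_an
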