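import Pool.Agent.Lib.MP_578f25_an.Kern3

/-!
# Lower bound and doubling for the layer measure
-/

set_option autoImplicit false

namespace Pool.Agent.MP_578f25_an

open MeasureTheory Metric Set Filter Topology InnerProductSpace

variable {d : ℕ} {Ω : Set (E d)} {M r₀ κ : ℝ} {G : E d → E d → ℝ}
variable [HasBhp d]

theorem setIntegral_le_of_mul_le {X : Type*} [MeasurableSpace X] {μ : Measure X}
    [IsFiniteMeasure μ] {A : Set X} (hA : MeasurableSet A) {f : X → ℝ} (hf : Integrable f μ)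
    {B : ℝ} (hB : 0 ≤ B) (h : ∀ᵐ y ∂μ, y ∈ A → f y * μ.real A ≤ B) :
    ∫ y in A, f y ∂μ ≤ B := by
  rcases (measureReal_nonneg (μ := μ) (s := A)).eq_or_lt with h0 | h0
  · have h1 : μ A = 0 := by
      have := h0.symm
      rwa [measureReal_eq_zero_iff] at this
    rw [Measure.restrict_eq_zero.2 h1]
    simpa using hB
  · have h1 : ∫ y in A, f y ∂μ ≤ ∫ y in A, B / μ.real A ∂μ := by
      apply integral_mono_ae hf.integrableOn (integrable_const _)
      rw [Filter.EventuallyLE, ae_restrict_iff' hA]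
      filter_upwards [h] with y hy hyA
      rw [le_div_iff₀ h0]
      exact hy hyA
    rw [setIntegral_const, smul_eq_mul] at h1
    calc _ ≤ _ := h1
      _ = B := by field_simp

theorem geom_sum_le {q : ℝ} (hq : 0 ≤ q) (hq1 : q < 1) (N : ℕ) :
    ∑ n ∈ Finset.range N, q ^ n ≤ 1 / (1 - q) := by
  rw [geom_sum_eq hq1.ne]
  have h1 : 0 < 1 - q := by linarith
  rw [show (q ^ N - 1) / (q - 1) = (1 - q ^ N) / (1 - q) by
    rw [← neg_sub 1 q, ← neg_sub 1 (q ^ N), neg_div_neg_eq]]
  gcongr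
  have := pow_nonneg hq N
  linarith

/-- Lower bound for the layer measure of balls. -/
theorem layer_lower (hd : 2 ≤ d) (hN : IsNTA Ω M r₀) (hG : IsGreen Ω κ G) {x₀ : E d}
    (hx₀ : x₀ ∈ Ω) :
    ∃ C t₁ Cτ : ℝ, 1 ≤ C ∧ 0 < t₁ ∧ 1 ≤ Cτ ∧ ∀ (τ : ℝ) (ω : Measure (E d)), 0 < τ →
      IsLayer Ω G x₀ τ ω → ∀ ξ ∈ frontier Ω, ∀ r : ℝ, r ≤ t₁ → Cτ * τ ≤ r →
      ∀ A, IsCork Ω M ξ r A → G A x₀ ≤ C * (r ^ (2 - (d : ℝ)) * ω.real (ball ξ r)) := by
  have hM := hN.one_lt
  have hM0 : 0 < M := by linarith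
  have he : 2 - (d : ℝ) ≤ 0 := by
    have : (2 : ℝ) ≤ d := by exact_mod_cast hd
    linarith
  obtain ⟨Cs, α, ts, Cτs, hCs, hα, hα1, hts, hCτs, hstar⟩ := kernel_star hd hN hG hx₀ hM.le
  have hCs0 : 0 < Cs := by linarith
  -- the parameter `η`
  set q : ℝ := (2 : ℝ) ^ (-α) with hq
  have hq0 : 0 < q := by positivity
  have hq1 : q < 1 := Real.rpow_lt_one_of_one_lt_of_neg (by norm_num) (by linarith)
  have h1q : 0 < 1 - q := by linarith
  set η : ℝ := min 1 (((1 - q) / (2 * Cs)) ^ (1 / α)) with hη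
  have hη0 : 0 < η := lt_min one_pos (by positivity)
  have hη1 : η ≤ 1 := min_le_left _ _
  have hηα : Cs * η ^ α * (1 / (1 - q)) ≤ 1 / 2 := by
    have h1 : η ^ α ≤ (1 - q) / (2 * Cs) := by
      calc η ^ α ≤ (((1 - q) / (2 * Cs)) ^ (1 / α)) ^ α := by
            apply Real.rpow_le_rpow hη0.le (min_le_right _ _) hα.le
        _ = (1 - q) / (2 * Cs) := by
            rw [← Real.rpow_mul (by positivity), one_div, inv_mul_cancel₀ hα.ne', Real.rpow_one]
    calc Cs * η ^ α * (1 / (1 - q)) ≤ Cs * ((1 - q) / (2 * Cs)) * (1 / (1 - q)) := by gcongr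
      _ = 1 / 2 := by field_simp
  set Λ₃ : ℝ := max 9 (M / η) with hΛ₃
  have hΛ₃9 : 9 ≤ Λ₃ := le_max_left _ _
  have hΛ₃M : M / η ≤ Λ₃ := le_max_right _ _
  have hMη : M ≤ M / η := by
    rw [le_div_iff₀ hη0]
    nlinarith
  obtain ⟨C₂, t₂, hC₂, ht₂, hcomp⟩ := green_compare hd hN hG hx₀ (Λ := Λ₃) (by linarith)
  have hC₂0 : 0 < C₂ := by linarith
  obtain ⟨Cu, αu, T, tu, Cτu, hCu, hαu, hαu1, hT, hTm, hTr, hTδ, htu, htuT, hCτu, hk⟩ :=
    kernel_upper hd hN hG hx₀ hM.le (Tm := t₂) ht₂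
  have hCu0 : 0 < Cu := by linarith
  have hηp : 0 < η ^ (2 - (d : ℝ)) := by positivity
  set t₁ := min (min ts tu) (min (T / 2) t₂) with ht₁
  have ht₁0 : 0 < t₁ := by
    simp only [ht₁, lt_min_iff]
    exact ⟨⟨hts, htu⟩, by positivity, ht₂⟩
  have ht₁s : t₁ ≤ ts := (min_le_left _ _).trans (min_le_left _ _)
  have ht₁u : t₁ ≤ tu := (min_le_left _ _).trans (min_le_right _ _)
  have ht₁T : t₁ ≤ T / 2 := (min_le_right _ _).trans (min_le_left _ _)
  have ht₁2 : t₁ ≤ t₂ := (min_le_right _ _).trans (min_le_right _ _)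
  set C₀ : ℝ := Cτs + Cτu + M with hC₀
  have hC₀1 : 1 ≤ C₀ := by linarith
  refine ⟨max 1 (2 * Cu * C₂ * η ^ (2 - (d : ℝ))), t₁, C₀ / η, le_max_left _ _, ht₁0, ?_, ?_⟩
  · rw [le_div_iff₀ hη0]; linarith
  intro τ ω hτ hω ξ hξ r hrt hτr A hA
  have := hω.prob
  have hτη : C₀ * τ ≤ η * r := by
    rw [div_mul_eq_mul_div, div_le_iff₀ hη0] at hτr
    linarith
  have hr0 : 0 < r := by
    by_contra hcon
    push Not at hcon
    have h1 : η * r ≤ 0 := mul_nonpos_of_nonneg_of_nonpos hη0.le hcon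
    have h2 : 0 < C₀ * τ := by positivity
    linarith
  set ℓ := η * r with hℓ
  have hℓ0 : 0 < ℓ := by positivity
  have hℓr : ℓ ≤ r := by
    calc η * r ≤ 1 * r := by gcongr
      _ = r := one_mul r
  have hs1 : Cτs * τ ≤ ℓ := le_trans (by gcongr; linarith) hτη
  have hs2 : Cτu * τ ≤ ℓ := le_trans (by gcongr; linarith) hτη
  have hs3 : M * τ ≤ ℓ := le_trans (by gcongr; linarith) hτη
  have hτMℓ : τ ≤ M⁻¹ * ℓ := by
    rw [inv_mul_eq_div, le_div_iff₀ hM0]; linarith
  have hMℓ : M⁻¹ * ℓ ≤ ℓ := by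
    have : M⁻¹ ≤ 1 := inv_le_one_of_one_le₀ hM.le
    calc M⁻¹ * ℓ ≤ 1 * ℓ := by gcongr
      _ = ℓ := one_mul _
  -- the corkscrew point at scale `ℓ`
  obtain ⟨x, hx⟩ := exists_cork hN hξ hℓ0 (by linarith)
  have hxδ : ℓ / M ≤ infDist x (frontier Ω) := by
    have := hx.depth
    rw [inv_mul_eq_div] at this
    exact this.le
  have hxξ : dist x ξ ≤ M * ℓ := by
    have h1 := hx.lt
    have h2 : 1 * ℓ ≤ M * ℓ := by gcongr
    linarith
  have hxτ : τ < infDist x (frontier Ω) := lt_of_le_of_lt hτMℓ hx.depth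
  have hxne : x ≠ x₀ := by
    rintro rfl
    have h3 : infDist x (frontier Ω) ≤ dist x ξ := infDist_le_of_mem_frontier hξ
    have := hx.lt
    linarith
  have hAne : A ≠ x₀ := by
    rintro rfl
    have h3 : infDist A (frontier Ω) ≤ dist A ξ := infDist_le_of_mem_frontier hξ
    have := hA.lt
    linarith
  have hGA : 0 < G A x₀ := green_pos hd hN hG hA.mem hx₀ hAne
  obtain ⟨hint, hone⟩ := hω.repr x hx.mem hxne hxτ.le
  have hkpos : ∀ᵐ y ∂ω, 0 < G x y / G x₀ y := by
    filter_upwards [hω.ae] with y hy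
    exact kernel_pos hd hN hG hx.mem hx₀ hy.1 (by linarith [hy.2]) (by linarith [hy.2])
  -- split the integral
  have hsplit : ∫ y in ball ξ r, G x y / G x₀ y ∂ω + ∫ y in (ball ξ r)ᶜ, G x y / G x₀ y ∂ω = 1 := by
    rw [integral_add_compl measurableSet_ball hint, hone]
  -- far part
  obtain ⟨L, hL⟩ := hN.isBounded.subset_ball ξ
  obtain ⟨N, hNL⟩ := pow_unbounded_of_one_lt (L / r) (by norm_num : (1 : ℝ) < 2)
  let An : ℕ → Set (E d) := fun n => {y | 2 ^ n * r ≤ dist y ξ ∧ dist y ξ < 2 ^ (n + 1) * r}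
  have hAn : ∀ n, MeasurableSet (An n) := by
    intro n
    exact (measurableSet_le measurable_const (measurable_id.dist measurable_const)).inter
      (measurableSet_lt (measurable_id.dist measurable_const) measurable_const)
  have hfar : ∫ y in (ball ξ r)ᶜ, G x y / G x₀ y ∂ω ≤ 1 / 2 := by
    have h1 : ∫ y in (ball ξ r)ᶜ, G x y / G x₀ y ∂ω ≤
        ∑ n ∈ Finset.range N, ∫ y in An n, G x y / G x₀ y ∂ω := by
      rw [← integral_indicator measurableSet_ball.compl]
      simp_rw [← integral_indicator (hAn _)]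
      rw [← integral_finsetSum]
      · apply integral_mono_ae
        · exact hint.indicator measurableSet_ball.compl
        · exact integrable_finsetSum _ fun n _ => hint.indicator (hAn n)
        · filter_upwards [hω.ae, hkpos] with y hy hyk
          by_cases hyb : y ∈ (ball ξ r)ᶜ
          · rw [indicator_of_mem hyb]
            have hyr : r ≤ dist y ξ := by
              simpa [mem_ball, not_lt] using hyb
            obtain ⟨n, hn1, hn2⟩ := exists_nat_pow_near (x := dist y ξ / r) (y := 2)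
              (by rw [le_div_iff₀ hr0]; linarith) (by norm_num)
            rw [le_div_iff₀ hr0] at hn1
            rw [div_lt_iff₀ hr0] at hn2
            have hyAn : y ∈ An n := ⟨hn1, hn2⟩
            have hnN : n < N := by
              by_contra hcon
              push Not at hcon
              have h2 : dist y ξ < L := hL hy.1
              have h3 : (2 : ℝ) ^ N ≤ 2 ^ n := pow_le_pow_right₀ (by norm_num) hcon
              rw [div_lt_iff₀ hr0] at hNL
              have h4 : (2 : ℝ) ^ N * r ≤ 2 ^ n * r := by gcongr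
              linarith
            have hnn : ∀ n ∈ Finset.range N,
                0 ≤ (An n).indicator (fun y => G x y / G x₀ y) y := by
              intro n _
              by_cases hyn : y ∈ An n
              · rw [indicator_of_mem hyn]; exact hyk.le
              · rw [indicator_of_notMem hyn]
            have h5 := Finset.single_le_sum hnn (Finset.mem_range.2 hnN)
            rw [indicator_of_mem hyAn] at h5
            exact h5
          · rw [indicator_of_notMem hyb]
            apply Finset.sum_nonneg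
            intro n _
            by_cases hyn : y ∈ An n
            · rw [indicator_of_mem hyn]; exact hyk.le
            · rw [indicator_of_notMem hyn]
      · exact fun n _ => hint.indicator (hAn n)
    have h2 : ∀ n, ∫ y in An n, G x y / G x₀ y ∂ω ≤ Cs * η ^ α * q ^ n := by
      intro n
      apply setIntegral_le_of_mul_le (hAn n) hint (by positivity)
      filter_upwards [hω.ae, hkpos] with y hy hyk hyn
      have h3 := hstar τ ω hτ hω ξ hξ ℓ (by linarith) hs1 x hx.mem hxδ hxξ y hy.1 hy.2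
      set D := ℓ + dist y ξ with hD
      have hyn1 : 2 ^ n * r ≤ dist y ξ := hyn.1
      have hDn : 2 ^ n * r ≤ D := by linarith
      have h4 : ω.real (An n) ≤ ω.real (ball ξ (4 * D)) := by
        refine measureReal_mono ?_ (measure_ne_top _ _)
        intro z hz
        have hz2 : dist z ξ < 2 ^ (n + 1) * r := hz.2
        rw [mem_ball]
        rw [pow_succ] at hz2
        have : 0 < 2 ^ n * r := by positivity
        nlinarith
      have h5 : (ℓ / D) ^ α ≤ η ^ α * q ^ n := by
        have h6 : ℓ / D ≤ η * ((2 : ℝ) ^ n)⁻¹ := by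
          rw [div_le_iff₀ (by linarith [mul_pos (pow_pos (two_pos (α := ℝ)) n) hr0])]
          calc ℓ = η * ((2 : ℝ) ^ n)⁻¹ * (2 ^ n * r) := by rw [hℓ]; field_simp
            _ ≤ η * ((2 : ℝ) ^ n)⁻¹ * D := by gcongr
        have h7 : (ℓ / D) ^ α ≤ (η * ((2 : ℝ) ^ n)⁻¹) ^ α := by
          apply Real.rpow_le_rpow _ h6 hα.le
          apply div_nonneg hℓ0.le
          linarith [mul_pos (pow_pos (two_pos (α := ℝ)) n) hr0]
        rw [Real.mul_rpow hη0.le (by positivity)] at h7
        have h8 : (((2 : ℝ) ^ n)⁻¹) ^ α = q ^ n := by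
          rw [hq, ← Real.rpow_natCast, ← Real.rpow_natCast, ← Real.rpow_mul (by norm_num),
            ← Real.rpow_neg (by norm_num), ← Real.rpow_mul (by norm_num)]
          congr 1
          ring
        rw [h8] at h7
        exact h7
      calc G x y / G x₀ y * ω.real (An n) ≤ G x y / G x₀ y * ω.real (ball ξ (4 * D)) := by
            gcongr
        _ ≤ Cs * (ℓ / D) ^ α := h3
        _ ≤ Cs * (η ^ α * q ^ n) := by gcongr
        _ = _ := by ring
    calc _ ≤ _ := h1
      _ ≤ ∑ n ∈ Finset.range N, Cs * η ^ α * q ^ n := Finset.sum_le_sum fun n _ => h2 n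
      _ = Cs * η ^ α * ∑ n ∈ Finset.range N, q ^ n := by rw [Finset.mul_sum]
      _ ≤ Cs * η ^ α * (1 / (1 - q)) := by
          gcongr
          exact geom_sum_le hq0.le hq1 N
      _ ≤ 1 / 2 := hηα
  -- near part
  set K₁ : ℝ := Cu * (1 * ((η * r) ^ (2 - (d : ℝ)) / (G A x₀ / C₂))) with hK₁
  have hnear : ∫ y in ball ξ r, G x y / G x₀ y ∂ω ≤ ω.real (ball ξ r) * K₁ := by
    have h1 : ∫ y in ball ξ r, G x y / G x₀ y ∂ω ≤ ∫ y in ball ξ r, K₁ ∂ω := by
      apply integral_mono_ae hint.integrableOn (integrable_const _)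
      rw [Filter.EventuallyLE, ae_restrict_iff' measurableSet_ball]
      filter_upwards [hω.ae] with y hy hyb
      rw [mem_ball] at hyb
      have hyδ' : infDist y (frontier Ω) ≤ ℓ / Cτu := by
        rw [le_div_iff₀ (by positivity)]
        have h2 : infDist y (frontier Ω) * Cτu ≤ τ * Cτu := by gcongr; exact hy.2.le
        linarith
      obtain ⟨h2, -⟩ := hk ξ hξ ℓ hℓ0 (by linarith) x hx.mem hxδ hxξ y hy.1 hyδ'
      set D := ℓ + dist y ξ with hD
      have hdn := dist_nonneg (x := y) (y := ξ)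
      have hD0 : 0 < D := by linarith
      have hDT : D ≤ T := by linarith
      obtain ⟨B, hB⟩ := exists_cork hN hξ (r := 4 * D) (by positivity) (by linarith)
      have h3 := h2 hDT B hB
      have hBA : G A x₀ / C₂ ≤ G B x₀ := by
        rw [div_le_iff₀ hC₂0]
        have hdepthA := hA.depth
        have hdepthB := hB.depth
        have e1 : r / Λ₃ ≤ infDist A (frontier Ω) := by
          have : r / Λ₃ ≤ r / M := div_le_div_of_nonneg_left hr0.le hM0 (hMη.trans hΛ₃M)
          rw [inv_mul_eq_div] at hdepthA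
          linarith
        have e2 : r / Λ₃ ≤ infDist B (frontier Ω) := by
          have h5 : r / Λ₃ ≤ r / (M / η) :=
            div_le_div_of_nonneg_left hr0.le (by positivity) hΛ₃M
          have h6 : r / (M / η) = M⁻¹ * ℓ := by rw [hℓ]; field_simp
          have h7 : M⁻¹ * ℓ ≤ M⁻¹ * (4 * D) := by gcongr; linarith
          linarith
        have e3 : infDist A (frontier Ω) ≤ Λ₃ * r := by
          have h5 : infDist A (frontier Ω) ≤ dist A ξ := infDist_le_of_mem_frontier hξ
          have h6 := hA.lt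
          have h7 : 1 * r ≤ Λ₃ * r := by gcongr; linarith
          linarith
        have e4 : dist A B ≤ Λ₃ * r := by
          have h5 : dist A B ≤ dist A ξ + dist B ξ := dist_triangle_right _ _ _
          have h6 := hA.lt
          have h7 := hB.lt
          have h8 : 9 * r ≤ Λ₃ * r := by gcongr
          linarith
        have := (hcomp r A B hr0 (by linarith) hA.mem hB.mem e1 e3 e2 e4).1
        linarith
      have hp1 : (ℓ / D) ^ αu ≤ 1 := by
        apply Real.rpow_le_one (by positivity) _ hαu.le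
        rw [div_le_one hD0]; linarith
      have hp2 : D ^ (2 - (d : ℝ)) ≤ (η * r) ^ (2 - (d : ℝ)) :=
        Real.rpow_le_rpow_of_nonpos hℓ0 (by linarith) he
      have hp3 : 0 < D ^ (2 - (d : ℝ)) := by positivity
      have hGB : 0 < G B x₀ := lt_of_lt_of_le (by positivity) hBA
      calc G x y / G x₀ y ≤ Cu * ((ℓ / D) ^ αu * (D ^ (2 - (d : ℝ)) / G B x₀)) := h3
        _ ≤ K₁ := by
            rw [hK₁]
            gcongr
    rw [setIntegral_const, smul_eq_mul] at h1
    exact h1
  have h9 : 1 / 2 ≤ ω.real (ball ξ r) * K₁ := by linarith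
  have h10 : G A x₀ ≤ 2 * Cu * C₂ * η ^ (2 - (d : ℝ)) * (r ^ (2 - (d : ℝ)) * ω.real (ball ξ r)) := by
    have h11 : ω.real (ball ξ r) * K₁ = (Cu * C₂ * η ^ (2 - (d : ℝ)) * (r ^ (2 - (d : ℝ)) *
        ω.real (ball ξ r))) / G A x₀ := by
      rw [hK₁, Real.mul_rpow hη0.le hr0.le]
      field_simp
    rw [h11, le_div_iff₀ hGA] at h9
    linarith
  calc G A x₀ ≤ _ := h10
    _ ≤ _ := by
        gcongr
        exact le_max_right _ _

end Pool.Agent.MP_578f25_an
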