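import Pool.Agent.Lib.MP_578f25_an.Kern3
import Pool.Agent.Lib.MP_578f25_an.MultiDefs

/-!
# Summary of the kernel estimates
-/

set_option autoImplicit false

namespace Pool.Agent.MP_578f25_an

open MeasureTheory Metric Set Filter Topology InnerProductSpace

variable {d : ℕ} {Ω : Set (E d)} {M r₀ κ : ℝ} {G : E d → E d → ℝ}
variable [HasBhp d] [HasLayerLower d]

/-- The layer measure is doubling. -/
theorem layer_doubling (hd : 2 ≤ d) (hN : IsNTA Ω M r₀) (hG : IsGreen Ω κ G) {x₀ : E d}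
    (hx₀ : x₀ ∈ Ω) :
    ∃ Cd Cτ τ₀ : ℝ, 1 ≤ Cd ∧ 1 ≤ Cτ ∧ 0 < τ₀ ∧ ∀ (τ : ℝ) (ω : Measure (E d)), 0 < τ → τ ≤ τ₀ →
      IsLayer Ω G x₀ τ ω → ∀ y ∈ Ω, infDist y (frontier Ω) < τ → ∀ r : ℝ, Cτ * τ ≤ r →
        0 < ω.real (ball y r) ∧ ω.real (ball y (2 * r)) ≤ Cd * ω.real (ball y r) := by
  have hM := hN.one_lt
  have hM0 : 0 < M := by linarith
  have hr₀ := hN.r₀_pos
  have hδ : 0 < infDist x₀ (frontier Ω) := infDist_frontier_pos hd hN hx₀
  obtain ⟨c, ta, Cτa, hc, hta, hCτa, hup⟩ := layer_upper hd hN hG hx₀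
  obtain ⟨C, tb, Cτb, hC, htb, hCτb, hlow⟩ := HasLayerLower.out hd hN hG hx₀
  have hC0 : 0 < C := by linarith
  set Λ : ℝ := max 4 (2 * M) with hΛ
  have hΛ4 : 4 ≤ Λ := le_max_left _ _
  have hΛM : 2 * M ≤ Λ := le_max_right _ _
  obtain ⟨C₂, t₂, hC₂, ht₂, hcomp⟩ := green_compare hd hN hG hx₀ (Λ := Λ) (by linarith)
  have hC₂0 : 0 < C₂ := by linarith
  set t₃ := min (min (ta / 3) tb) (min (min (r₀ / 6) t₂) (infDist x₀ (frontier Ω) / 6)) with ht₃
  have ht₃0 : 0 < t₃ := by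
    simp only [ht₃, lt_min_iff]
    exact ⟨⟨by positivity, htb⟩, ⟨by positivity, ht₂⟩, by positivity⟩
  have h3a : t₃ ≤ ta / 3 := (min_le_left _ _).trans (min_le_left _ _)
  have h3b : t₃ ≤ tb := (min_le_left _ _).trans (min_le_right _ _)
  have h3c : t₃ ≤ r₀ / 6 := (min_le_right _ _).trans ((min_le_left _ _).trans (min_le_left _ _))
  have h3d : t₃ ≤ t₂ := (min_le_right _ _).trans ((min_le_left _ _).trans (min_le_right _ _))
  have h3e : t₃ ≤ infDist x₀ (frontier Ω) / 6 := (min_le_right _ _).trans (min_le_right _ _)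
  obtain ⟨c', hc', hbelow⟩ := green_bound_below hd hN hG hx₀ (a := M⁻¹ * (t₃ / 2))
    (by positivity)
  -- corkscrew points near the boundary are not `x₀`
  have hne : ∀ ξ ∈ frontier Ω, ∀ r : ℝ, r ≤ 3 * t₃ → ∀ A, IsCork Ω M ξ r A → A ≠ x₀ := by
    intro ξ hξ r hr A hA
    rintro rfl
    have h1 : infDist A (frontier Ω) ≤ dist A ξ := infDist_le_of_mem_frontier hξ
    have := hA.lt
    linarith
  set CA : ℝ := C₂ * C * (1 / 6 : ℝ) ^ (2 - (d : ℝ)) / c with hCA
  have hCA0 : 0 < CA := by positivity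
  set cB : ℝ := c' / (C * (t₃ / 2) ^ (2 - (d : ℝ))) with hcB
  have hcB0 : 0 < cB := by positivity
  set C₀ := 2 * (Cτa + Cτb + 1) with hC₀
  have hC₀0 : 0 < C₀ := by positivity
  refine ⟨max 1 (max CA (1 / cB)), C₀, t₃ / C₀, le_max_left _ _, by linarith, by positivity, ?_⟩
  intro τ ω hτ hττ₀ hω y hy hyδ r hr
  have := hω.prob
  rw [le_div_iff₀ hC₀0] at hττ₀
  have hττ : τ * C₀ = 2 * (Cτa * τ) + 2 * (Cτb * τ) + 2 * τ := by rw [hC₀]; ring
  have hτr : 2 * (Cτa * τ) + 2 * (Cτb * τ) + 2 * τ ≤ r := by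
    rw [← hττ]; linarith
  have hτa0 : 0 < Cτa * τ := by positivity
  have hτb0 : 0 < Cτb * τ := by positivity
  obtain ⟨ξ, hξ, hξd⟩ := exists_nearest hd hN hy
  have hyξ : dist y ξ < τ := by rw [hξd]; exact hyδ
  have hr0 : 0 < r := by linarith
  have hsub1 : ∀ ρ : ℝ, 2 * τ ≤ ρ → ball ξ (ρ / 2) ⊆ ball y ρ := by
    intro ρ hρ z hz
    rw [mem_ball] at hz ⊢
    have h1 : dist z y ≤ dist z ξ + dist y ξ := dist_triangle_right _ _ _
    linarith
  have hmono1 : ∀ ρ : ℝ, 2 * τ ≤ ρ → ω.real (ball ξ (ρ / 2)) ≤ ω.real (ball y ρ) := fun ρ hρ =>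
    measureReal_mono (hsub1 ρ hρ) (measure_ne_top _ _)
  by_cases hrt : r ≤ t₃
  · have hsub2 : ball y (2 * r) ⊆ ball ξ (3 * r) := by
      intro z hz
      rw [mem_ball] at hz ⊢
      have h1 : dist z ξ ≤ dist z y + dist y ξ := dist_triangle _ _ _
      linarith
    have hmono2 : ω.real (ball y (2 * r)) ≤ ω.real (ball ξ (3 * r)) :=
      measureReal_mono hsub2 (measure_ne_top _ _)
    obtain ⟨A₁, hA₁⟩ := exists_cork hN hξ (r := 3 * r) (by positivity) (by linarith)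
    obtain ⟨A₂, hA₂⟩ := exists_cork hN hξ (r := r / 2) (by positivity) (by linarith)
    have hA₁ne := hne ξ hξ (3 * r) (by linarith) A₁ hA₁
    have hA₂ne := hne ξ hξ (r / 2) (by linarith) A₂ hA₂
    have hG₁ : 0 < G A₁ x₀ := green_pos hd hN hG hA₁.mem hx₀ hA₁ne
    have hG₂ : 0 < G A₂ x₀ := green_pos hd hN hG hA₂.mem hx₀ hA₂ne
    have e1 := hup τ ω hτ hω ξ hξ (3 * r) (by linarith) (by linarith) A₁ hA₁
    have e2 := hlow τ ω hτ hω ξ hξ (r / 2) (by linarith) (by linarith) A₂ hA₂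
    have hrM : r / Λ ≤ r / (2 * M) := div_le_div_of_nonneg_left hr0.le (by positivity) hΛM
    have hd1 : r / Λ ≤ infDist A₁ (frontier Ω) := by
      have h1 := hA₁.depth
      have h2 : M⁻¹ * (3 * r) = 6 * (r / (2 * M)) := by field_simp; ring
      have h3 : 0 < r / (2 * M) := by positivity
      linarith
    have hd2 : r / Λ ≤ infDist A₂ (frontier Ω) := by
      have h1 := hA₂.depth
      have h2 : M⁻¹ * (r / 2) = r / (2 * M) := by field_simp
      linarith
    have h4r : 4 * r ≤ Λ * r := by gcongr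
    have hd3 : infDist A₁ (frontier Ω) ≤ Λ * r := by
      have h1 : infDist A₁ (frontier Ω) ≤ dist A₁ ξ := infDist_le_of_mem_frontier hξ
      have h2 := hA₁.lt
      linarith
    have hd4 : dist A₁ A₂ ≤ Λ * r := by
      have h1 : dist A₁ A₂ ≤ dist A₁ ξ + dist A₂ ξ := dist_triangle_right _ _ _
      have h2 := hA₁.lt
      have h3 := hA₂.lt
      linarith
    have e3 := (hcomp r A₁ A₂ hr0 (by linarith) hA₁.mem hA₂.mem hd1 hd3 hd2 hd4).1
    have hlowpos : 0 < ω.real (ball ξ (r / 2)) := by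
      by_contra hcon
      push Not at hcon
      have h1 : C * ((r / 2) ^ (2 - (d : ℝ)) * ω.real (ball ξ (r / 2))) ≤ 0 := by
        apply mul_nonpos_of_nonneg_of_nonpos hC0.le
        exact mul_nonpos_of_nonneg_of_nonpos (by positivity) hcon
      linarith
    have hpos : 0 < ω.real (ball y r) := lt_of_lt_of_le hlowpos (hmono1 r (by linarith))
    refine ⟨hpos, ?_⟩
    have h3r : 0 < (3 * r) ^ (2 - (d : ℝ)) := by positivity
    have e4 : ω.real (ball ξ (3 * r)) ≤ CA * ω.real (ball ξ (r / 2)) := by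
      have h1 : c * (3 * r) ^ (2 - (d : ℝ)) * ω.real (ball ξ (3 * r)) ≤ G A₁ x₀ := by
        have h2 : c * ((3 * r) ^ (2 - (d : ℝ)) / G A₁ x₀) * ω.real (ball ξ (3 * r)) =
            (c * (3 * r) ^ (2 - (d : ℝ)) * ω.real (ball ξ (3 * r))) / G A₁ x₀ := by ring
        rw [h2, div_le_one hG₁] at e1
        exact e1
      have h3 : (r / 2) ^ (2 - (d : ℝ)) = (1 / 6) ^ (2 - (d : ℝ)) * (3 * r) ^ (2 - (d : ℝ)) := by
        rw [← Real.mul_rpow (by norm_num) (by positivity)]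
        congr 1
        ring
      have h4 : c * (3 * r) ^ (2 - (d : ℝ)) * ω.real (ball ξ (3 * r)) ≤
          c * (3 * r) ^ (2 - (d : ℝ)) * (CA * ω.real (ball ξ (r / 2))) := by
        calc _ ≤ G A₁ x₀ := h1
          _ ≤ C₂ * G A₂ x₀ := e3
          _ ≤ C₂ * (C * ((r / 2) ^ (2 - (d : ℝ)) * ω.real (ball ξ (r / 2)))) := by gcongr
          _ = _ := by rw [h3, hCA]; field_simp
      exact le_of_mul_le_mul_left h4 (by positivity)
    calc ω.real (ball y (2 * r)) ≤ ω.real (ball ξ (3 * r)) := hmono2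
      _ ≤ CA * ω.real (ball ξ (r / 2)) := e4
      _ ≤ CA * ω.real (ball y r) :=
          mul_le_mul_of_nonneg_left (hmono1 r (by linarith)) hCA0.le
      _ ≤ _ := by
          gcongr
          exact (le_max_left _ _).trans (le_max_right _ _)
  · push Not at hrt
    obtain ⟨A₂, hA₂⟩ := exists_cork hN hξ (r := t₃ / 2) (by positivity) (by linarith)
    have hA₂ne := hne ξ hξ (t₃ / 2) (by linarith) A₂ hA₂
    have e2 := hlow τ ω hτ hω ξ hξ (t₃ / 2) (by linarith) (by linarith) A₂ hA₂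
    have e3 := hbelow A₂ hA₂.mem hA₂ne hA₂.depth.le
    have hcBle : cB ≤ ω.real (ball ξ (t₃ / 2)) := by
      rw [hcB, div_le_iff₀ (by positivity)]
      calc c' ≤ G A₂ x₀ := e3
        _ ≤ _ := e2
        _ = _ := by ring
    have h1 : ω.real (ball ξ (t₃ / 2)) ≤ ω.real (ball y r) :=
      (hmono1 t₃ (by linarith)).trans
        (measureReal_mono (ball_subset_ball hrt.le) (measure_ne_top _ _))
    have h2 : cB ≤ ω.real (ball y r) := hcBle.trans h1
    refine ⟨by linarith, ?_⟩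
    calc ω.real (ball y (2 * r)) ≤ 1 := measureReal_le_one
      _ = (1 / cB) * cB := by field_simp
      _ ≤ (1 / cB) * ω.real (ball y r) := by gcongr
      _ ≤ _ := by
          gcongr
          exact (le_max_right _ _).trans (le_max_right _ _)

/-- All kernel estimates used in the multi-scale argument. -/
theorem kernel_data (hd : 2 ≤ d) (hN : IsNTA Ω M r₀) (hG : IsGreen Ω κ G) {x₀ : E d}
    (hx₀ : x₀ ∈ Ω) :
    ∃ α Cd Ck ck t₁ Cτ : ℝ, 0 < α ∧ α ≤ 1 ∧ 1 ≤ Cd ∧ 1 ≤ Ck ∧ 0 < ck ∧ ck ≤ 1 ∧ 0 < t₁ ∧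
      1 ≤ Cτ ∧ 8 * t₁ ≤ infDist x₀ (frontier Ω) ∧
      ∀ (τ : ℝ) (ω : Measure (E d)), 0 < τ → Cτ * τ ≤ t₁ → IsLayer Ω G x₀ τ ω →
      (∀ y ∈ Ω, infDist y (frontier Ω) < τ → ∀ r : ℝ, Cτ * τ ≤ r →
        0 < ω.real (ball y r) ∧ ω.real (ball y (2 * r)) ≤ Cd * ω.real (ball y r)) ∧
      (∀ ℓ : ℝ, ℓ ≤ t₁ → Cτ * τ ≤ ℓ → ∀ z ∈ Ω, infDist z (frontier Ω) < τ → ∀ x ∈ Ω,
        ℓ / 4 ≤ infDist x (frontier Ω) → dist x z ≤ 4 * ℓ →
        x ≠ x₀ ∧ Integrable (fun y => G x y / G x₀ y) ω ∧ ∫ y, G x y / G x₀ y ∂ω = 1 ∧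
        (∀ y ∈ Ω, infDist y (frontier Ω) < τ → 0 < G x y / G x₀ y ∧
          G x y / G x₀ y ≤ Ck * Theta ω α ℓ z y) ∧
        (∀ y ∈ Ω, infDist y (frontier Ω) < τ → ∀ y' ∈ Ω, infDist y' (frontier Ω) < τ →
          dist y y' + τ ≤ ck * ℓ → |G x y / G x₀ y - G x y' / G x₀ y'| ≤
            Ck * ((dist y y' + τ) / ℓ) ^ α * Theta ω α ℓ z y) ∧
        G x x₀ ≤ Ck * (ℓ ^ (2 - (d : ℝ)) * ω.real (ball z ℓ))) ∧
      (∀ x ∈ Ω, t₁ ≤ infDist x (frontier Ω) → ∀ y ∈ Ω, infDist y (frontier Ω) < τ →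
        G x y / G x₀ y ≤ Ck) := by
  have hM := hN.one_lt
  have hM0 : 0 < M := by linarith
  have hr₀ := hN.r₀_pos
  have he : 2 - (d : ℝ) ≤ 0 := by
    have : (2 : ℝ) ≤ d := by exact_mod_cast hd
    linarith
  have hδ : 0 < infDist x₀ (frontier Ω) := infDist_frontier_pos hd hN hx₀
  obtain ⟨Cd, Cτd, τ₀, hCd, hCτd, hτ₀, hdoub⟩ := layer_doubling hd hN hG hx₀
  obtain ⟨Cs, αs, ts, Cτs, hCs, hαs, hαs1, hts, hCτs, hstar⟩ :=
    kernel_star hd hN hG hx₀ (Λ := 5) (by norm_num)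
  obtain ⟨CL, tL, CτL, hCL, htL, hCτL, hlow⟩ := HasLayerLower.out hd hN hG hx₀
  obtain ⟨Cb, κ', r₁, αb, hCb, hκ', hr₁, hαb, hαb1, hk⟩ := kernel_bhp hd hN hG
  obtain ⟨Cu, hCu, hgup⟩ := green_upper hd hN hG
  have hκ0 : 0 < κ' := by linarith
  have hCb0 : 0 < Cb := by linarith
  have hCs0 : 0 < Cs := by linarith
  have hCL0 : 0 < CL := by linarith
  set Λ : ℝ := max 6 (2 * M) with hΛ
  have hΛ6 : 6 ≤ Λ := le_max_left _ _
  have hΛM : 2 * M ≤ Λ := le_max_right _ _
  obtain ⟨C₂, t₂, hC₂, ht₂, hcomp⟩ := green_compare hd hN hG hx₀ (Λ := Λ) (by linarith)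
  have hC₂0 : 0 < C₂ := by linarith
  set t₁ := min (min (min ts tL) (min t₂ r₁)) (min (r₀ / 2) (infDist x₀ (frontier Ω) / 8))
    with ht₁
  have ht₁0 : 0 < t₁ := by
    simp only [ht₁, lt_min_iff]
    exact ⟨⟨⟨hts, htL⟩, ht₂, hr₁⟩, by positivity, by positivity⟩
  have h1s : t₁ ≤ ts := (min_le_left _ _).trans ((min_le_left _ _).trans (min_le_left _ _))
  have h1L : t₁ ≤ tL := (min_le_left _ _).trans ((min_le_left _ _).trans (min_le_right _ _))
  have h12 : t₁ ≤ t₂ := (min_le_left _ _).trans ((min_le_right _ _).trans (min_le_left _ _))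
  have h1r : t₁ ≤ r₁ := (min_le_left _ _).trans ((min_le_right _ _).trans (min_le_right _ _))
  have h1r₀ : t₁ ≤ r₀ / 2 := (min_le_right _ _).trans (min_le_left _ _)
  have h1δ : t₁ ≤ infDist x₀ (frontier Ω) / 8 := (min_le_right _ _).trans (min_le_right _ _)
  -- core constants
  set ρ := t₁ / (2 * κ') with hρ
  have hρ0 : 0 < ρ := by positivity
  have hρt : ρ ≤ t₁ / 2 := by
    rw [hρ]
    exact div_le_div_of_nonneg_left ht₁0.le (by norm_num) (by linarith)
  obtain ⟨c', hc', hbelow⟩ := green_bound_below hd hN hG hx₀ (a := M⁻¹ * ρ) (by positivity)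
  set α := min αs αb with hα
  have hα0 : 0 < α := lt_min hαs hαb
  have hα1 : α ≤ 1 := (min_le_left _ _).trans hαs1
  have hααs : α ≤ αs := min_le_left _ _
  have hααb : α ≤ αb := min_le_right _ _
  -- the constants
  set K₁ : ℝ := 2 * Cs with hK₁
  set K₂ : ℝ := Cb * (4 * κ') * (Cb * K₁) with hK₂
  set K₃ : ℝ := C₂ * CL * (1 / 2 : ℝ) ^ (2 - (d : ℝ)) with hK₃
  set K₄ : ℝ := Cb * (Cu * (M⁻¹ * ρ) ^ (2 - (d : ℝ)) / c') with hK₄
  have hK₁0 : 0 < K₁ := by positivity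
  have hK₂0 : 0 < K₂ := by positivity
  have hK₃0 : 0 < K₃ := by positivity
  have hK₄0 : 0 < K₄ := by positivity
  set Ck : ℝ := 1 + K₁ + K₂ + K₃ + K₄ with hCk
  set C₀ : ℝ := Cτd + Cτs + 2 * CτL + 16 * κ' + 4 + t₁ / τ₀ with hC₀
  have hC₀1 : 1 ≤ C₀ := by
    have : 0 < t₁ / τ₀ := by positivity
    linarith
  refine ⟨α, Cd, Ck, 1 / (8 * κ'), t₁, C₀, hα0, hα1, hCd, by linarith, by positivity, ?_, ht₁0,
    hC₀1, by linarith, ?_⟩
  · rw [div_le_one (by positivity)]; linarith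
  intro τ ω hτ hτt₁ hω
  have := hω.prob
  have hsum : C₀ * τ = Cτd * τ + Cτs * τ + 2 * (CτL * τ) + 16 * (κ' * τ) + 4 * τ +
      t₁ / τ₀ * τ := by rw [hC₀]; ring
  have p1 : 0 < Cτd * τ := by positivity
  have p2 : 0 < Cτs * τ := by positivity
  have p3 : 0 < CτL * τ := by positivity
  have p4 : 0 < κ' * τ := by positivity
  have p5 : 0 < t₁ / τ₀ * τ := by positivity
  have hττ₀ : τ ≤ τ₀ := by
    have h1 : t₁ / τ₀ * τ ≤ t₁ := by linarith
    rw [div_mul_eq_mul_div, div_le_iff₀ hτ₀] at h1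
    exact le_of_mul_le_mul_left h1 ht₁0
  refine ⟨fun y hy hyδ r hr => hdoub τ ω hτ hττ₀ hω y hy hyδ r (by linarith), ?_, ?_⟩
  · intro ℓ hℓt hτℓ z hz hzδ x hx hxδ hxz
    have hℓ0 : 0 < ℓ := by linarith
    obtain ⟨ξ, hξ, hξd⟩ := exists_nearest hd hN hz
    have hzξ : dist z ξ < τ := by rw [hξd]; exact hzδ
    have hτℓ4 : 4 * τ ≤ ℓ := by linarith
    have hxξ : dist x ξ ≤ 5 * ℓ := by
      have h1 : dist x ξ ≤ dist x z + dist z ξ := dist_triangle _ _ _
      linarith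
    have hxδup : infDist x (frontier Ω) ≤ 5 * ℓ :=
      (infDist_le_of_mem_frontier hξ).trans hxξ
    have hxne : x ≠ x₀ := by
      rintro rfl
      linarith
    have hxτ : τ ≤ infDist x (frontier Ω) := by linarith
    have hxτ' : ∀ y, infDist y (frontier Ω) < τ → infDist y (frontier Ω) <
        infDist x (frontier Ω) := fun y hy => by linarith
    have hx₀τ : ∀ y, infDist y (frontier Ω) < τ → infDist y (frontier Ω) <
        infDist x₀ (frontier Ω) := fun y hy => by linarith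
    obtain ⟨hint, hone⟩ := hω.repr x hx hxne hxτ
    have hkpos : ∀ y ∈ Ω, infDist y (frontier Ω) < τ → 0 < G x y / G x₀ y := fun y hy hyδ =>
      kernel_pos hd hN hG hx hx₀ hy (hxτ' y hyδ) (hx₀τ y hyδ)
    -- upper bound
    have hupper : ∀ y ∈ Ω, infDist y (frontier Ω) < τ →
        G x y / G x₀ y ≤ K₁ * Theta ω α ℓ z y := by
      intro y hy hyδ
      have h1 := hstar τ ω hτ hω ξ hξ ℓ (by linarith) (by linarith) x hx (by linarith) hxξ y hy hyδ
      set D := ℓ + dist y ξ with hD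
      set Dz := ℓ + dist y z with hDz
      have hyz := dist_nonneg (x := y) (y := z)
      have hDz0 : 0 < Dz := by linarith
      have t1 : dist y z ≤ dist y ξ + dist z ξ := dist_triangle_right _ _ _
      have t2 : dist y ξ ≤ dist y z + dist z ξ := dist_triangle _ _ _
      have hDD : Dz / 2 ≤ D := by linarith
      have hD0 : 0 < D := by linarith
      have hsub : ball z Dz ⊆ ball ξ (4 * D) := by
        intro w hw
        rw [mem_ball] at hw ⊢
        have h2 : dist w ξ ≤ dist w z + dist z ξ := dist_triangle _ _ _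
        linarith
      have h2 : ω.real (ball z Dz) ≤ ω.real (ball ξ (4 * D)) :=
        measureReal_mono hsub (measure_ne_top _ _)
      have h3 := (hdoub τ ω hτ hττ₀ hω z hz hzδ Dz (by linarith)).1
      have h4 : (ℓ / D) ^ αs ≤ 2 * (ℓ / Dz) ^ α := by
        have h5 : ℓ / D ≤ 2 * (ℓ / Dz) := by
          rw [show 2 * (ℓ / Dz) = ℓ / (Dz / 2) by field_simp]
          exact div_le_div_of_nonneg_left hℓ0.le (by positivity) hDD
        have h6 : (ℓ / D) ^ αs ≤ (ℓ / D) ^ α := by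
          apply Real.rpow_le_rpow_of_exponent_ge (by positivity) _ hααs
          rw [div_le_one hD0]
          have := dist_nonneg (x := y) (y := ξ)
          linarith
        have h7 : (ℓ / D) ^ α ≤ (2 * (ℓ / Dz)) ^ α := by gcongr
        rw [Real.mul_rpow (by norm_num) (by positivity)] at h7
        have h8 : (2 : ℝ) ^ α ≤ 2 := by
          conv_rhs => rw [← Real.rpow_one 2]
          exact Real.rpow_le_rpow_of_exponent_le (by norm_num) hα1
        calc _ ≤ _ := h6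
          _ ≤ _ := h7
          _ ≤ _ := by gcongr
      have hkp := hkpos y hy hyδ
      unfold Theta
      rw [← mul_div_assoc, le_div_iff₀ h3]
      calc G x y / G x₀ y * ω.real (ball z Dz) ≤ G x y / G x₀ y * ω.real (ball ξ (4 * D)) := by
            gcongr
        _ ≤ Cs * (ℓ / D) ^ αs := h1
        _ ≤ Cs * (2 * (ℓ / Dz) ^ α) := by gcongr
        _ = _ := by rw [hK₁]; ring
    have hTh : ∀ y, 0 ≤ Theta ω α ℓ z y := by
      intro y
      unfold Theta
      have := dist_nonneg (x := y) (y := z)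
      positivity
    refine ⟨hxne, hint, hone, fun y hy hyδ => ⟨hkpos y hy hyδ, ?_⟩, ?_, ?_⟩
    · refine (hupper y hy hyδ).trans ?_
      have := hTh y
      gcongr
      linarith
    · intro y hy hyδ y' hy' hyδ' hyy'
      obtain ⟨ξy, hξy, hξyd⟩ := exists_nearest hd hN hy
      set t := dist y y' + τ with ht
      have hdn := dist_nonneg (x := y) (y := y')
      have ht0 : 0 < t := by linarith
      set r' := ℓ / (4 * κ') with hr'
      have hr'0 : 0 < r' := by positivity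
      have hr'ℓ : r' ≤ ℓ := div_le_self hℓ0.le (by linarith)
      have hκr : κ' * r' = ℓ / 4 := by rw [hr']; field_simp
      have hckr : 1 / (8 * κ') * ℓ = r' / 2 := by rw [hr']; field_simp; ring
      have hyξy : dist y ξy ≤ t := by rw [hξyd]; linarith
      have hy'ξy : dist y' ξy ≤ t := by
        have h1 : dist y' ξy ≤ dist y' y + dist y ξy := dist_triangle _ _ _
        rw [dist_comm y' y, hξyd] at h1
        linarith
      have htr : t < r' := by linarith
      obtain ⟨A', hA'⟩ := exists_cork hN hξy hr'0 (by linarith)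
      have hx1 : infDist x (frontier Ω) ≤ dist x ξy := infDist_le_of_mem_frontier hξy
      have hx2 : infDist x₀ (frontier Ω) ≤ dist x₀ ξy := infDist_le_of_mem_frontier hξy
      obtain ⟨hb, hh⟩ := hk ξy hξy r' hr'0 (by linarith) A' hA' x hx x₀ hx₀ (by linarith)
        (by linarith)
      have e1 := hh t y ⟨hy, by rw [mem_ball]; linarith⟩ y' ⟨hy', by rw [mem_ball]; linarith⟩
        hyξy hy'ξy
      have e2 := (hb y ⟨hy, by rw [mem_ball]; linarith⟩).2
      have e3 := hupper y hy hyδ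
      have htℓ : t / ℓ ≤ 1 := by rw [div_le_one hℓ0]; linarith
      have e4 : (t / r') ^ αb ≤ (4 * κ') * (t / ℓ) ^ α := by
        have h1 : t / r' = (4 * κ') * (t / ℓ) := by rw [hr']; field_simp
        rw [h1, Real.mul_rpow (by positivity) (by positivity)]
        have h2 : (4 * κ') ^ αb ≤ 4 * κ' := by
          conv_rhs => rw [← Real.rpow_one (4 * κ')]
          exact Real.rpow_le_rpow_of_exponent_le (by linarith) hαb1
        have h3 : (t / ℓ) ^ αb ≤ (t / ℓ) ^ α :=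
          Real.rpow_le_rpow_of_exponent_ge (by positivity) htℓ hααb
        gcongr
      have hA'ne : A' ≠ x := by
        rintro rfl
        have h1 : infDist A' (frontier Ω) ≤ dist A' ξy := infDist_le_of_mem_frontier hξy
        have h2 := hA'.lt
        have h3 : r' ≤ ℓ / 4 := by
          rw [← hκr]; exact le_mul_of_one_le_left hr'0.le hκ'
        linarith
      have hA'ne0 : A' ≠ x₀ := by
        rintro rfl
        have h1 : infDist A' (frontier Ω) ≤ dist A' ξy := infDist_le_of_mem_frontier hξy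
        have h2 := hA'.lt
        linarith
      have hq : 0 < G A' x / G A' x₀ := div_pos (green_pos hd hN hG hA'.mem hx hA'ne)
        (green_pos hd hN hG hA'.mem hx₀ hA'ne0)
      have hT := hTh y
      calc |G x y / G x₀ y - G x y' / G x₀ y'| ≤ Cb * (t / r') ^ αb * (G A' x / G A' x₀) := e1
        _ ≤ Cb * ((4 * κ') * (t / ℓ) ^ α) * (Cb * (K₁ * Theta ω α ℓ z y)) := by
            gcongr
            exact e2.trans (by gcongr)
        _ = K₂ * (t / ℓ) ^ α * Theta ω α ℓ z y := by rw [hK₂]; ring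
        _ ≤ Ck * (t / ℓ) ^ α * Theta ω α ℓ z y := by
            gcongr
            linarith
    · obtain ⟨A, hA⟩ := exists_cork hN hξ (r := ℓ / 2) (by positivity) (by linarith)
      have e1 := hlow τ ω hτ hω ξ hξ (ℓ / 2) (by linarith) (by linarith) A hA
      have hsub : ball ξ (ℓ / 2) ⊆ ball z ℓ := by
        intro w hw
        rw [mem_ball] at hw ⊢
        have h2 : dist w z ≤ dist w ξ + dist z ξ := dist_triangle_right _ _ _
        linarith
      have h2 : ω.real (ball ξ (ℓ / 2)) ≤ ω.real (ball z ℓ) :=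
        measureReal_mono hsub (measure_ne_top _ _)
      have hℓM : ℓ / Λ ≤ ℓ / (2 * M) := div_le_div_of_nonneg_left hℓ0.le (by positivity) hΛM
      have hd1 : ℓ / Λ ≤ infDist x (frontier Ω) := by
        have : ℓ / Λ ≤ ℓ / 6 := div_le_div_of_nonneg_left hℓ0.le (by norm_num) hΛ6
        linarith
      have hd2 : ℓ / Λ ≤ infDist A (frontier Ω) := by
        have h1 := hA.depth
        have h2 : M⁻¹ * (ℓ / 2) = ℓ / (2 * M) := by field_simp
        linarith
      have h6ℓ : 6 * ℓ ≤ Λ * ℓ := by gcongr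
      have hd4 : dist x A ≤ Λ * ℓ := by
        have h1 : dist x A ≤ dist x ξ + dist A ξ := dist_triangle_right _ _ _
        have h3 := hA.lt
        linarith
      have e3 := (hcomp ℓ x A hℓ0 (by linarith) hx hA.mem hd1 (by linarith) hd2 hd4).1
      have h3 : (ℓ / 2) ^ (2 - (d : ℝ)) = (1 / 2) ^ (2 - (d : ℝ)) * ℓ ^ (2 - (d : ℝ)) := by
        rw [← Real.mul_rpow (by norm_num) (by positivity)]
        congr 1
        ring
      have hp : 0 < ℓ ^ (2 - (d : ℝ)) := by positivity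
      calc G x x₀ ≤ C₂ * G A x₀ := e3
        _ ≤ C₂ * (CL * ((ℓ / 2) ^ (2 - (d : ℝ)) * ω.real (ball ξ (ℓ / 2)))) := by gcongr
        _ ≤ C₂ * (CL * ((ℓ / 2) ^ (2 - (d : ℝ)) * ω.real (ball z ℓ))) := by gcongr
        _ = K₃ * (ℓ ^ (2 - (d : ℝ)) * ω.real (ball z ℓ)) := by rw [h3, hK₃]; ring
        _ ≤ Ck * (ℓ ^ (2 - (d : ℝ)) * ω.real (ball z ℓ)) := by
            gcongr
            linarith
  · intro x hx hxt y hy hyδ
    obtain ⟨ξy, hξy, hξyd⟩ := exists_nearest hd hN hy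
    obtain ⟨A', hA'⟩ := exists_cork hN hξy hρ0 (by linarith)
    have hx1 : infDist x (frontier Ω) ≤ dist x ξy := infDist_le_of_mem_frontier hξy
    have hx2 : infDist x₀ (frontier Ω) ≤ dist x₀ ξy := infDist_le_of_mem_frontier hξy
    have hκρ : κ' * ρ = t₁ / 2 := by rw [hρ]; field_simp
    have hτρ : τ < ρ := by
      rw [hρ, lt_div_iff₀ (by positivity)]
      linarith
    obtain ⟨hb, -⟩ := hk ξy hξy ρ hρ0 (by linarith) A' hA' x hx x₀ hx₀ (by linarith)
      (by linarith)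
    have e1 := (hb y ⟨hy, by rw [mem_ball, hξyd]; linarith⟩).1
    have hA'lt := hA'.lt
    have hA'δ : infDist A' (frontier Ω) < ρ :=
      lt_of_le_of_lt (infDist_le_of_mem_frontier hξy) hA'.lt
    have hA'ne : A' ≠ x := by
      rintro rfl
      linarith
    have hA'ne0 : A' ≠ x₀ := by
      rintro rfl
      linarith
    have hxA' : ρ ≤ dist x A' := by
      have h1 : dist x ξy ≤ dist x A' + dist A' ξy := dist_triangle _ _ _
      linarith
    have e2 := hgup x hx A' hA'.mem (by linarith [infDist_nonneg (x := A') (s := frontier Ω)])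
    have e3 := hbelow A' hA'.mem hA'ne0 hA'.depth.le
    have hdepth := hA'.depth
    have e4 : infDist A' (frontier Ω) ^ (2 - (d : ℝ)) ≤ (M⁻¹ * ρ) ^ (2 - (d : ℝ)) :=
      Real.rpow_le_rpow_of_nonpos (by positivity) hdepth.le he
    have hGxA : G A' x ≤ Cu * (M⁻¹ * ρ) ^ (2 - (d : ℝ)) := by
      rw [green_symm hd hN hG hA'.mem hx hA'ne]
      exact e2.trans (by gcongr)
    have hGA0 : 0 < G A' x := green_pos hd hN hG hA'.mem hx hA'ne
    calc G x y / G x₀ y ≤ Cb * (G A' x / G A' x₀) := e1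
      _ ≤ Cb * (Cu * (M⁻¹ * ρ) ^ (2 - (d : ℝ)) / c') := by gcongr
      _ = K₄ := rfl
      _ ≤ Ck := by linarith

end Pool.Agent.MP_578f25_an
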