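import Pool.Agent.Lib.MP_578f25_an.Fin3
import Pool.Agent.Lib.MP_578f25_an.Kern4
import Pool.Agent.Lib.MP_578f25_an.Kern5
import Pool.Agent.Lib.MP_578f25_an.Bdry

/-!
# The limit at the boundary
-/

set_option autoImplicit false

namespace Pool.Agent.MP_578f25_an

open MeasureTheory Metric Set Filter Topology InnerProductSpace

variable {d : ℕ} {Ω : Set (E d)} {M r₀ κ : ℝ} {G : E d → E d → ℝ}

instance : HasBhp d := ⟨fun hd _ _ _ hN => bhp hd hN⟩

instance : HasLayerLower d := ⟨fun hd _ _ _ _ _ hN hG _ hx₀ => layer_lower hd hN hG hx₀⟩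

instance : HasKernelData d := ⟨fun hd _ _ _ _ _ hN hG _ hx₀ => kernel_data hd hN hG hx₀⟩

theorem aemeasurable_green (hd : 2 ≤ d) (hN : IsNTA Ω M r₀) (hG : IsGreen Ω κ G) {y : E d}
    (hy : y ∈ Ω) : AEMeasurable (fun x => G x y) (volume.restrict Ω) := by
  have hfr : Module.finrank ℝ (E d) = d := finrank_euclideanSpace_fin
  have hnt : Nontrivial (E d) := by
    apply Module.nontrivial_of_finrank_pos (R := ℝ)
    rw [hfr]; omega
  have h1 : ContinuousOn (fun x => G x y) (Ω \ {y}) := by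
    intro x hx
    have hne : x ≠ y := fun h => hx.2 h
    exact (green_harmonic hd hN.isOpen hG hx.1 hy hne).1.continuousAt.continuousWithinAt
  have h2 : AEMeasurable (fun x => G x y) (volume.restrict (Ω \ {y})) :=
    h1.aemeasurable (hN.isOpen.measurableSet.diff (measurableSet_singleton y))
  have h3 : (volume : Measure (E d)).restrict Ω = volume.restrict (Ω \ {y}) := by
    apply Measure.restrict_congr_set
    exact (sdiff_null_ae_eq_self (measure_singleton y)).symm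
  rw [h3]
  exact h2

theorem martin_gradient (hd : 2 ≤ d) (hN : IsNTA Ω M r₀) (hG : IsGreen Ω κ G) {x₀ : E d}
    (hx₀ : x₀ ∈ Ω) :
    ∃ C : ℝ, ∀ v : E d → ℝ, HarmonicOnNhd v Ω → (∀ x ∈ Ω, 0 < v x) →
      ∃ ζ ∈ frontier Ω, ∃ K : E d → ℝ,
        (∀ x ∈ Ω, Tendsto (fun y => G x y / G x₀ y) (𝓝[Ω] ζ) (𝓝 (K x))) ∧
        ∫⁻ x in Ω, ENNReal.ofReal (‖fderiv ℝ v x‖ * K x * ‖fderiv ℝ (fun y => G y x₀) x‖) ≤
          ENNReal.ofReal (C * v x₀) := by
  obtain ⟨C, t₁, hC, ht₁, h⟩ := finite_scale hd hN hG hx₀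
  refine ⟨C, fun v hv hvpos => ?_⟩
  choose y hyΩ hyη hyint using fun n : ℕ =>
    h v hv hvpos n (1 / ((n : ℝ) + 1)) (by positivity)
  have hcomp : IsCompact (closure Ω) := hN.isBounded.isCompact_closure
  obtain ⟨ζ, -, φ, hφ, hlim⟩ := hcomp.tendsto_subseq (fun n => subset_closure (hyΩ n))
  have hδ0 : infDist ζ (frontier Ω) = 0 := by
    have h1 : Tendsto (fun n => infDist (y (φ n)) (frontier Ω)) atTop
        (𝓝 (infDist ζ (frontier Ω))) :=
      ((continuous_infDist_pt (frontier Ω)).tendsto ζ).comp hlim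
    have h2 : Tendsto (fun n : ℕ => 1 / ((n : ℝ) + 1)) atTop (𝓝 0) :=
      tendsto_one_div_add_atTop_nhds_zero_nat
    have h3 := h2.comp hφ.tendsto_atTop
    have h4 : Tendsto (fun n => infDist (y (φ n)) (frontier Ω)) atTop (𝓝 0) :=
      squeeze_zero (fun n => infDist_nonneg) (fun n => (hyη (φ n)).le) h3
    exact tendsto_nhds_unique h1 h4
  have hζ : ζ ∈ frontier Ω :=
    (isClosed_frontier.mem_iff_infDist_zero (Chain.frontier_nonempty hd hN hx₀)).2 hδ0
  have hlim' : Tendsto (fun n => y (φ n)) atTop (𝓝[Ω] ζ) :=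
    tendsto_nhdsWithin_iff.2 ⟨hlim, Eventually.of_forall fun n => hyΩ _⟩
  have hKex : ∀ x : E d, ∃ K : ℝ, x ∈ Ω →
      Tendsto (fun y => G x y / G x₀ y) (𝓝[Ω] ζ) (𝓝 K) := by
    intro x
    by_cases hx : x ∈ Ω
    · obtain ⟨K, hK⟩ := martin_limit hd hN hG hx₀ hζ hx
      exact ⟨K, fun _ => hK⟩
    · exact ⟨0, fun h => absurd h hx⟩
  choose K hK using hKex
  refine ⟨ζ, hζ, K, hK, ?_⟩
  set S : ℕ → Set (E d) := fun n => {x | x ∈ Ω ∧ t₁ / 2 ^ n ≤ infDist x (frontier Ω)} with hS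
  set F : ℕ → E d → ℝ := fun n x => ‖fderiv ℝ v x‖ * (G x (y n) / G x₀ (y n)) *
    ‖fderiv ℝ (fun y => G y x₀) x‖ with hF
  set f : ℕ → E d → ENNReal := fun n =>
    (S (φ n)).indicator (fun x => ENNReal.ofReal (F (φ n) x)) with hf
  have hSm : ∀ n, MeasurableSet (S n) := fun n =>
    (isCompact_deep hN (by positivity)).measurableSet
  have hfint : ∀ n, ∫⁻ x in Ω, f n x ≤ ENNReal.ofReal (C * v x₀) := by
    intro n
    rw [hf, lintegral_indicator (hSm _), Measure.restrict_restrict (hSm _)]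
    have h1 : S (φ n) ∩ Ω = S (φ n) := inter_eq_left.2 fun x hx => hx.1
    rw [h1]
    exact hyint (φ n)
  have hmeas : ∀ n, AEMeasurable (f n) (volume.restrict Ω) := by
    intro n
    refine AEMeasurable.indicator ?_ (hSm _)
    refine ENNReal.measurable_ofReal.comp_aemeasurable ?_
    refine AEMeasurable.mul (AEMeasurable.mul ?_ ?_) ?_
    · exact (measurable_fderiv ℝ v).norm.aemeasurable
    · exact (aemeasurable_green hd hN hG (hyΩ _)).div_const _
    · exact (measurable_fderiv ℝ (fun y => G y x₀)).norm.aemeasurable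
  have hlimf : ∀ x ∈ Ω, Tendsto (fun n => f n x) atTop
      (𝓝 (ENNReal.ofReal (‖fderiv ℝ v x‖ * K x * ‖fderiv ℝ (fun y => G y x₀) x‖))) := by
    intro x hx
    have h1 : Tendsto (fun n => F (φ n) x) atTop
        (𝓝 (‖fderiv ℝ v x‖ * K x * ‖fderiv ℝ (fun y => G y x₀) x‖)) := by
      have h2 := (hK x hx).comp hlim'
      exact (h2.const_mul _).mul_const _
    have h3 := (ENNReal.continuous_ofReal.tendsto _).comp h1
    refine h3.congr' ?_
    have hδ := infDist_frontier_pos hd hN hx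
    have h4 : Tendsto (fun n : ℕ => t₁ / 2 ^ (φ n)) atTop (𝓝 0) := by
      have h5 : Tendsto (fun n : ℕ => t₁ * (1 / 2 : ℝ) ^ n) atTop (𝓝 (t₁ * 0)) :=
        (tendsto_pow_atTop_nhds_zero_of_lt_one (by norm_num) (by norm_num)).const_mul _
      rw [mul_zero] at h5
      have h6 := h5.comp hφ.tendsto_atTop
      refine h6.congr fun n => ?_
      simp only [Function.comp, one_div, inv_pow]
      rfl
    filter_upwards [h4.eventually (gt_mem_nhds hδ)] with n hn
    have hxS : x ∈ S (φ n) := ⟨hx, hn.le⟩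
    simp only [hf]
    rw [indicator_of_mem hxS]
    rfl
  calc ∫⁻ x in Ω, ENNReal.ofReal (‖fderiv ℝ v x‖ * K x * ‖fderiv ℝ (fun y => G y x₀) x‖)
      ≤ ∫⁻ x in Ω, liminf (fun n => f n x) atTop := by
        refine setLIntegral_mono' hN.isOpen.measurableSet fun x hx => ?_
        rw [(hlimf x hx).liminf_eq]
    _ ≤ liminf (fun n => ∫⁻ x in Ω, f n x) atTop := lintegral_liminf_le' hmeas
    _ ≤ ENNReal.ofReal (C * v x₀) :=
        liminf_le_of_frequently_le' (Eventually.of_forall hfint).frequently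

end Pool.Agent.MP_578f25_an
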