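import Pool.Agent.Lib.MP_578f25_an.Harm
import Pool.Agent.Lib.MP_578f25_an.Chain

/-!
# Pointwise bounds of the Green function
-/

set_option autoImplicit false

namespace Pool.Agent.MP_578f25_an

open MeasureTheory Metric Set Filter Topology InnerProductSpace Laplacian

variable {d : ℕ} {Ω : Set (E d)} {M r₀ κ : ℝ} {G : E d → E d → ℝ}

namespace Green1

lemma laplacian_zero {w : E d → ℝ} {x : E d} (h : HarmonicAt w x) : (Δ w) x = 0 :=
  h.2.self_of_nhds

/-- The radial profile of the Newtonian kernel. -/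
noncomputable def nw (d : ℕ) (r : ℝ) : ℝ :=
  if d = 2 then -Real.log r else r ^ (2 - (d : ℝ))

lemma newton_eq (x : E d) : newton x = nw d ‖x‖ := rfl

lemma nw_anti (hd : 2 ≤ d) {r s : ℝ} (hr : 0 < r) (hrs : r ≤ s) : nw d s ≤ nw d r := by
  unfold nw
  split_ifs with h
  · exact neg_le_neg (Real.log_le_log hr hrs)
  · apply Real.rpow_le_rpow_of_nonpos hr hrs
    have : (2 : ℝ) ≤ d := by exact_mod_cast hd
    linarith

lemma nw_large (hd : 2 ≤ d) (K : ℝ) : ∃ ε : ℝ, 0 < ε ∧ ∀ r : ℝ, 0 < r → r < ε → K ≤ nw d r := by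
  by_cases h : d = 2
  · refine ⟨Real.exp (-K), Real.exp_pos _, fun r hr hrε => ?_⟩
    have h1 := Real.log_le_log hr hrε.le
    rw [Real.log_exp] at h1
    simp only [nw, h, if_true]
    linarith
  · have hd3 : (3 : ℝ) ≤ d := by
      have : 3 ≤ d := by omega
      exact_mod_cast this
    refine ⟨1 / (|K| + 1), by positivity, fun r hr hrε => ?_⟩
    have hK := abs_nonneg K
    have h1 : r ≤ 1 := by
      apply hrε.le.trans
      rw [div_le_one (by positivity)]
      linarith
    have h2 : r ^ (-1 : ℝ) ≤ r ^ (2 - (d : ℝ)) :=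
      Real.rpow_le_rpow_of_exponent_ge hr h1 (by linarith)
    rw [Real.rpow_neg_one] at h2
    have h3 : |K| + 1 ≤ r⁻¹ := by
      rw [le_inv_comm₀ (by positivity) hr]
      rw [one_div] at hrε
      exact hrε.le
    simp only [nw, h, if_false]
    have := le_abs_self K
    linarith

lemma harm (hd : 2 ≤ d) (hN : IsNTA Ω M r₀) (hG : IsGreen Ω κ G) {y : E d} (hy : y ∈ Ω) :
    HarmonicOnNhd (fun x => G x y) (Ω \ {y}) := by
  obtain ⟨h, hh, hGh⟩ := hG.corrector y hy
  rintro x ⟨hx, hxy⟩
  have hxy' : x ≠ y := hxy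
  have h1 : HarmonicAt (κ • (fun x => newton (x - y)) + h) x :=
    (newton_harmonic hd hxy').const_smul.add (hh x hx)
  refine (harmonicAt_congr_nhds ?_).2 h1
  filter_upwards [hN.isOpen.mem_nhds hx, isOpen_ne.mem_nhds hxy'] with z hz hzy
  rw [hGh z hz hzy]
  simp

lemma nonneg (hd : 2 ≤ d) (hN : IsNTA Ω M r₀) (hG : IsGreen Ω κ G) {x y : E d}
    (hx : x ∈ Ω) (hy : y ∈ Ω) (hxy : x ≠ y) : 0 ≤ G x y := by
  have hopen : IsOpen (Ω \ {y}) := hN.isOpen.sdiff isClosed_singleton
  have hb : Bornology.IsBounded (Ω \ {y}) := hN.isBounded.subset sdiff_subset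
  have hh := harm hd hN hG hy
  have key : ∀ x ∈ Ω \ {y}, (-(fun x => G x y)) x ≤ 0 := by
    apply weak_max (by omega) hopen hb hh.neg.contDiffOn
    · intro x hx
      exact (laplacian_zero (hh.neg x hx)).ge
    · intro ξ hξ ε hε
      have hξU : ξ ∉ Ω \ {y} := by
        have := hξ.2
        rwa [hopen.interior_eq] at this
      by_cases hξΩ : ξ ∈ Ω
      · have hξy : ξ = y := by
          by_contra hne
          exact hξU ⟨hξΩ, hne⟩
        subst hξy
        obtain ⟨h, hhh, hGh⟩ := hG.corrector ξ hy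
        have hcont : ContinuousAt h ξ := (hhh ξ hy).1.continuousAt
        have h1 : ∀ᶠ x in 𝓝 ξ, h ξ - 1 < h x :=
          hcont.eventually (lt_mem_nhds (by linarith))
        obtain ⟨δ, hδ, hnw⟩ := nw_large hd ((1 - h ξ) / κ)
        have h2 : ∀ᶠ x in 𝓝 ξ, dist x ξ < δ := ball_mem_nhds ξ hδ
        filter_upwards [mem_nhdsWithin_of_mem_nhds h1, mem_nhdsWithin_of_mem_nhds h2,
          self_mem_nhdsWithin] with x h1 h2 h3
        simp only [Pi.neg_apply]
        rw [hGh x h3.1 h3.2, newton_eq]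
        have h4 : 0 < ‖x - ξ‖ := norm_pos_iff.2 (sub_ne_zero.2 h3.2)
        have h5 := hnw ‖x - ξ‖ h4 (by rwa [← dist_eq_norm])
        have h6 := mul_le_mul_of_nonneg_left h5 hG.κ_pos.le
        rw [mul_div_cancel₀ _ hG.κ_pos.ne'] at h6
        linarith
      · have hξf : ξ ∈ frontier Ω := by
          refine ⟨closure_mono sdiff_subset hξ.1, ?_⟩
          rwa [hN.isOpen.interior_eq]
        have h1 := (hG.boundary y hy ξ hξf).mono_left (nhdsWithin_mono ξ (sdiff_subset (t := {y})))
        have h2 : ∀ᶠ x in 𝓝[Ω \ {y}] ξ, -ε < G x y := h1.eventually (lt_mem_nhds (by linarith))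
        filter_upwards [h2] with x hx
        simp only [Pi.neg_apply]
        linarith
  have := key x ⟨hx, hxy⟩
  simp only [Pi.neg_apply] at this
  linarith

/-- Comparison: a harmonic function below `G(·, y)` is nonpositive. -/
lemma le_zero (hd : 2 ≤ d) (hN : IsNTA Ω M r₀) (hG : IsGreen Ω κ G) {y : E d} (hy : y ∈ Ω)
    {w : E d → ℝ} (hw : HarmonicOnNhd w Ω) (hle : ∀ x ∈ Ω, x ≠ y → w x ≤ G x y) :
    ∀ x ∈ Ω, w x ≤ 0 := by
  apply weak_max (by omega) hN.isOpen hN.isBounded hw.contDiffOn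
  · intro x hx
    exact (laplacian_zero (hw x hx)).ge
  · intro ξ hξ ε hε
    have hξΩ : ξ ∉ Ω := by
      have := hξ.2
      rwa [hN.isOpen.interior_eq] at this
    have hξy : ξ ≠ y := fun h => hξΩ (h ▸ hy)
    have h1 : ∀ᶠ x in 𝓝[Ω] ξ, G x y < ε :=
      (hG.boundary y hy ξ hξ).eventually (gt_mem_nhds hε)
    filter_upwards [h1, self_mem_nhdsWithin,
      mem_nhdsWithin_of_mem_nhds (isOpen_ne.mem_nhds hξy)] with x h1 h2 h3
    exact (hle x h2 h3).trans_lt h1

lemma ball_sub (hd : 2 ≤ d) (hN : IsNTA Ω M r₀) {x y : E d} {R : ℝ} (hx : x ∈ Ω)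
    (hR : R ≤ infDist x (frontier Ω)) (hy : R ≤ dist x y) : ball x R ⊆ Ω \ {y} := by
  intro z hz
  refine ⟨ball_infDist_subset hd hN hx (ball_subset_ball hR hz), ?_⟩
  rintro rfl
  rw [mem_ball, dist_comm] at hz
  exact absurd hz (not_lt.2 hy)

end Green1

open Green1

theorem green_pos (hd : 2 ≤ d) (hN : IsNTA Ω M r₀) (hG : IsGreen Ω κ G) {x y : E d}
    (hx : x ∈ Ω) (hy : y ∈ Ω) (hxy : x ≠ y) : 0 < G x y := by
  obtain ⟨C, hC, hH⟩ := harnack_ball d
  have hh := harm hd hN hG hy
  have hopenU : IsOpen (Ω \ {y}) := hN.isOpen.sdiff isClosed_singleton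
  set Z : Set (E d) := {z | z ∈ Ω \ {y} ∧ G z y = 0} with hZ
  set V : Set (E d) := {z | z ∈ Ω ∧ (z = y ∨ 0 < G z y)} with hV
  have hZo : IsOpen Z := by
    rw [isOpen_iff_mem_nhds]
    rintro z ⟨hz, hz0⟩
    obtain ⟨R, hR, hRs⟩ := Metric.isOpen_iff.1 hopenU z hz
    have h1 := hH (fun x => G x y) z R hR (hh.mono hRs)
      (fun v hv => nonneg hd hN hG (hRs hv).1 hy (hRs hv).2)
    filter_upwards [ball_mem_nhds z (by positivity : 0 < R / 4)] with v hv
    have hvR : v ∈ ball z R := ball_subset_ball (by linarith) hv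
    have h2 : G v y ≤ C * G z y := (h1 v hv).1
    have h3 := nonneg hd hN hG (hRs hvR).1 hy (hRs hvR).2
    refine ⟨hRs hvR, ?_⟩
    rw [hz0, mul_zero] at h2
    exact le_antisymm h2 h3
  have hVo : IsOpen V := by
    rw [isOpen_iff_mem_nhds]
    rintro z ⟨hz, hz0⟩
    by_cases hzy : z = y
    · subst hzy
      obtain ⟨h, hhh, hGh⟩ := hG.corrector z hy
      have hcont : ContinuousAt h z := (hhh z hy).1.continuousAt
      have h1 : ∀ᶠ x in 𝓝 z, h z - 1 < h x :=
        hcont.eventually (lt_mem_nhds (by linarith))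
      obtain ⟨δ, hδ, hnw⟩ := nw_large hd ((1 - h z) / κ)
      have h2 : ∀ᶠ x in 𝓝 z, dist x z < δ := ball_mem_nhds z hδ
      filter_upwards [h1, h2, hN.isOpen.mem_nhds hy] with v h1 h2 h3
      refine ⟨h3, ?_⟩
      by_cases hvz : v = z
      · left; exact hvz
      · right
        rw [hGh v h3 hvz, newton_eq]
        have h4 : 0 < ‖v - z‖ := norm_pos_iff.2 (sub_ne_zero.2 hvz)
        have h5 := hnw ‖v - z‖ h4 (by rwa [← dist_eq_norm])
        have h6 := mul_le_mul_of_nonneg_left h5 hG.κ_pos.le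
        rw [mul_div_cancel₀ _ hG.κ_pos.ne'] at h6
        linarith
    · have hpos : 0 < G z y := hz0.resolve_left hzy
      have hcont : ContinuousAt (fun x => G x y) z := (hh z ⟨hz, hzy⟩).1.continuousAt
      filter_upwards [hcont.eventually (lt_mem_nhds hpos), hN.isOpen.mem_nhds hz] with v h1 h2
      exact ⟨h2, Or.inr h1⟩
  by_contra hcon
  have hx0 : G x y = 0 := le_antisymm (not_lt.1 hcon) (nonneg hd hN hG hx hy hxy)
  have hcov : Ω ⊆ Z ∪ V := by
    intro v hv
    by_cases hvy : v = y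
    · right; exact ⟨hv, Or.inl hvy⟩
    · rcases (nonneg hd hN hG hv hy hvy).eq_or_lt with h | h
      · left; exact ⟨⟨hv, hvy⟩, h.symm⟩
      · right; exact ⟨hv, Or.inr h⟩
  obtain ⟨v, -, hv1, hv2⟩ := hN.isPreconnected Z V hZo hVo hcov
    ⟨x, hx, ⟨hx, hxy⟩, hx0⟩ ⟨y, hy, hy, Or.inl rfl⟩
  rcases hv2.2 with h | h
  · exact hv1.1.2 h
  · rw [hv1.2] at h
    exact lt_irrefl _ h

theorem green_lower (hd : 2 ≤ d) (hN : IsNTA Ω M r₀) (hG : IsGreen Ω κ G) :
    ∃ c : ℝ, 0 < c ∧ ∀ x ∈ Ω, ∀ y ∈ Ω, x ≠ y → dist x y ≤ infDist y (frontier Ω) / 2 →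
      c * dist x y ^ (2 - (d : ℝ)) ≤ G x y := by
  refine ⟨κ / 3, by have := hG.κ_pos; positivity, fun x hx y hy hxy hle => ?_⟩
  obtain ⟨h, hh, hGh⟩ := hG.corrector y hy
  set δ := infDist y (frontier Ω) with hδ
  have hδ0 : 0 < δ := infDist_frontier_pos hd hN hy
  set ρ := 3 / 4 * δ with hρ
  have hρ0 : 0 < ρ := by positivity
  have hρδ : ρ < δ := by linarith
  have hκ := hG.κ_pos
  have hsub : closedBall y ρ ⊆ Ω :=
    (closedBall_subset_ball hρδ).trans (ball_infDist_subset hd hN hy)
  have hcl : closure (ball y ρ) ⊆ closedBall y ρ := closure_ball_subset_closedBall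
  have hfr : frontier (ball y ρ) ⊆ sphere y ρ := frontier_ball_subset_sphere
  have key : ∀ v ∈ ball y ρ, -h v - κ * nw d ρ ≤ 0 := by
    have hharm : HarmonicOnNhd (-h - fun _ => κ * nw d ρ) Ω :=
      hh.neg.sub (harmonicOnNhd_const _)
    have hb : Bornology.IsBounded (ball y ρ) := isBounded_ball
    have hw := weak_max_cont (by omega : 1 ≤ d) isOpen_ball hb
      (hharm.continuousOn.mono (hcl.trans hsub))
      ((hharm.mono (ball_subset_closedBall.trans hsub)).contDiffOn)
      (fun v hv => (laplacian_zero (hharm v (hsub (ball_subset_closedBall hv)))).ge)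
      (by
        intro v hv
        have hvs := hfr hv
        have hvΩ : v ∈ Ω := hsub (sphere_subset_closedBall hvs)
        have hdist : dist v y = ρ := hvs
        have hvy : v ≠ y := by
          rintro rfl
          rw [dist_self] at hdist
          exact hρ0.ne hdist
        have h1 := nonneg hd hN hG hvΩ hy hvy
        rw [hGh v hvΩ hvy, newton_eq, ← dist_eq_norm, hdist] at h1
        simp only [Pi.sub_apply, Pi.neg_apply]
        linarith)
    intro v hv
    exact hw v hv
  set r := dist x y with hr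
  have hr0 : 0 < r := dist_pos.2 hxy
  have hxb : x ∈ ball y ρ := by
    rw [mem_ball]; linarith
  have h1 := key x hxb
  have h2 := hGh x hx hxy
  rw [newton_eq, ← dist_eq_norm, ← hr] at h2
  have h3 : nw d ρ ≤ nw d (3 / 2 * r) := nw_anti hd (by positivity) (by linarith)
  have h4 : (1 / 3) * r ^ (2 - (d : ℝ)) ≤ nw d r - nw d (3 / 2 * r) := by
    unfold nw
    split_ifs with hd2
    · rw [hd2, Real.log_mul (by norm_num) hr0.ne']
      have h5 : (2 : ℝ) - ((2 : ℕ) : ℝ) = 0 := by norm_num
      rw [h5, Real.rpow_zero]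
      have h6 : 1 / 3 ≤ Real.log (3 / 2) := by
        have := Real.one_sub_inv_le_log_of_pos (by norm_num : (0 : ℝ) < 3 / 2)
        norm_num at this ⊢
        linarith
      linarith
    · have hd3 : (3 : ℝ) ≤ d := by
        have : 3 ≤ d := by omega
        exact_mod_cast this
      rw [Real.mul_rpow (by norm_num) hr0.le]
      have h5 : (3 / 2 : ℝ) ^ (2 - (d : ℝ)) ≤ (3 / 2 : ℝ) ^ (-1 : ℝ) :=
        Real.rpow_le_rpow_of_exponent_le (by norm_num) (by linarith)
      rw [Real.rpow_neg_one] at h5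
      have h6 : 0 ≤ r ^ (2 - (d : ℝ)) := Real.rpow_nonneg hr0.le _
      have h7 := mul_le_mul_of_nonneg_right h5 h6
      norm_num at h7
      linarith
  rw [h2]
  have h5 := mul_le_mul_of_nonneg_left h4 hκ.le
  have h6 := mul_le_mul_of_nonneg_left h3 hκ.le
  nlinarith

theorem green_lower_far (hd : 2 ≤ d) (hN : IsNTA Ω M r₀) (hG : IsGreen Ω κ G) {Λ : ℝ}
    (hΛ : 1 ≤ Λ) :
    ∃ c : ℝ, 0 < c ∧ ∀ (t : ℝ) (x y : E d), 0 < t → x ∈ Ω → y ∈ Ω → x ≠ y →
      t / Λ ≤ infDist x (frontier Ω) → t / Λ ≤ infDist y (frontier Ω) → dist x y ≤ Λ * t →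
      c * t ^ (2 - (d : ℝ)) ≤ G x y := by
  obtain ⟨N, Λ', hΛ', hchain⟩ := chain_points hd hN hΛ
  obtain ⟨C, hC, hH⟩ := harnack_ball d
  obtain ⟨c₁, hc₁, hlow⟩ := green_lower hd hN hG
  have hC0 : 0 < C := by linarith
  have hΛ0 : 0 < Λ := by linarith
  have hΛ'0 : 0 < Λ' := by linarith
  have hexp : 2 - (d : ℝ) ≤ 0 := by
    have : (2 : ℝ) ≤ d := by exact_mod_cast hd
    linarith
  have hS : 0 < Λ' + Λ := by positivity
  refine ⟨(C ^ N)⁻¹ * (c₁ * (Λ' + Λ) ^ (2 - (d : ℝ))), by positivity, ?_⟩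
  intro t x y ht hx hy hxy hxt hyt hdist
  obtain ⟨p, hp0, hpN, hp, hstep⟩ := hchain t x y ht hx hy hxt hyt hdist
  set δ := infDist y (frontier Ω) with hδ
  have hδ0 : 0 < δ := infDist_frontier_pos hd hN hy
  -- the first point of the chain near y
  have hex : ∃ i, dist (p i) y ≤ δ / 2 := ⟨N, by rw [hpN, dist_self]; positivity⟩
  classical
  set j := Nat.find hex with hj
  have hjs : dist (p j) y ≤ δ / 2 := Nat.find_spec hex
  have hjN : j ≤ N := Nat.find_min' hex (by rw [hpN, dist_self]; positivity)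
  have hjm : ∀ i < j, δ / 2 < dist (p i) y := fun i hi => not_le.1 (Nat.find_min hex hi)
  have hgap : t / (16 * Λ') < t / (2 * Λ) := by
    apply div_lt_div_of_pos_left ht (by positivity)
    nlinarith
  have htΛ : t / (2 * Λ) ≤ δ / 2 := by
    have : t / (2 * Λ) = t / Λ / 2 := by field_simp
    rw [this]; linarith
  have hne : p j ≠ y := by
    rcases Nat.eq_zero_or_pos j with h0 | h0
    · rw [h0, hp0]; exact hxy
    · intro heq
      have h1 := hjm (j - 1) (by omega)
      have h2 := hstep (j - 1) (by omega)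
      have h3 : j - 1 + 1 = j := by omega
      rw [h3, heq, dist_comm] at h2
      linarith
  have hjd : dist (p j) y ≤ (Λ' + Λ) * t := by
    have h1 := (hp j hjN).2.1
    have h2 := dist_triangle (p j) x y
    nlinarith
  have hbase : c₁ * ((Λ' + Λ) ^ (2 - (d : ℝ)) * t ^ (2 - (d : ℝ))) ≤ G (p j) y := by
    refine le_trans ?_ (hlow (p j) (hp j hjN).1 y hy hne hjs)
    apply mul_le_mul_of_nonneg_left _ hc₁.le
    rw [← Real.mul_rpow hS.le ht.le]
    exact Real.rpow_le_rpow_of_nonpos (dist_pos.2 hne) hjd hexp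
  -- Harnack steps
  have hsteps : ∀ i < j, G (p (i + 1)) y ≤ C * G (p i) y := by
    intro i hi
    have hiN : i < N := by omega
    have hR : 0 < t / (3 * Λ') := by positivity
    have hsub : ball (p i) (t / (3 * Λ')) ⊆ Ω \ {y} := by
      apply ball_sub hd hN (hp i hiN.le).1
      · refine le_trans ?_ (hp i hiN.le).2.2
        apply div_le_div_of_nonneg_left ht.le hΛ'0
        linarith
      · refine le_trans ?_ (hjm i hi).le
        refine le_trans ?_ htΛ
        apply div_le_div_of_nonneg_left ht.le (by positivity)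
        linarith
    have h1 := hH (fun x => G x y) (p i) (t / (3 * Λ')) hR ((harm hd hN hG hy).mono hsub)
      (fun v hv => nonneg hd hN hG (hsub hv).1 hy (hsub hv).2)
    have h2 : p (i + 1) ∈ ball (p i) (t / (3 * Λ') / 4) := by
      rw [mem_ball]
      refine (hstep i hiN).trans_lt ?_
      have : t / (3 * Λ') / 4 = t / (12 * Λ') := by field_simp; ring
      rw [this]
      apply div_lt_div_of_pos_left ht (by positivity)
      linarith
    exact (h1 _ h2).1
  have hind : ∀ i ≤ j, G (p i) y ≤ C ^ i * G x y := by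
    intro i
    induction i with
    | zero => intro _; rw [hp0]; simp
    | succ i ih =>
      intro hi
      have h1 := hsteps i (by omega)
      have h2 := ih (by omega)
      calc G (p (i + 1)) y ≤ C * G (p i) y := h1
        _ ≤ C * (C ^ i * G x y) := mul_le_mul_of_nonneg_left h2 hC0.le
        _ = C ^ (i + 1) * G x y := by ring
  have hGx := green_pos hd hN hG hx hy hxy
  have h1 : G (p j) y ≤ C ^ N * G x y :=
    (hind j le_rfl).trans (mul_le_mul_of_nonneg_right (pow_le_pow_right₀ hC hjN) hGx.le)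
  have h2 : c₁ * ((Λ' + Λ) ^ (2 - (d : ℝ)) * t ^ (2 - (d : ℝ))) ≤ C ^ N * G x y := hbase.trans h1
  have hCN : 0 < C ^ N := by positivity
  rw [mul_assoc, inv_mul_le_iff₀ hCN, mul_assoc]
  exact h2

theorem green_upper (hd : 2 ≤ d) (hN : IsNTA Ω M r₀) (hG : IsGreen Ω κ G) :
    ∃ C : ℝ, 0 < C ∧ ∀ x ∈ Ω, ∀ y ∈ Ω, infDist y (frontier Ω) / 4 ≤ dist x y →
      G x y ≤ C * infDist y (frontier Ω) ^ (2 - (d : ℝ)) := by
  have hκ := hG.κ_pos
  by_cases hd2 : d = 2
  · subst hd2
    -- dimension two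
    have hM := hN.one_lt
    have hr₀ := hN.r₀_pos
    obtain ⟨D, hD⟩ := hN.isBounded.exists_norm_le
    set Dm : ℝ := 2 * |D| + 2 with hDm
    have hDm0 : 0 < Dm := by positivity
    have hDm1 : ∀ a ∈ Ω, ∀ b ∈ Ω, dist a b ≤ Dm := by
      intro a ha b hb
      have h1 := hD a ha
      have h2 := hD b hb
      have h3 := dist_le_norm_add_norm a b
      have h4 := le_abs_self D
      linarith
    refine ⟨κ * max (Real.log (26 * M)) (|Real.log (4 * Dm / r₀)|) + 1, ?_, ?_⟩
    · have : 0 ≤ max (Real.log (26 * M)) (|Real.log (4 * Dm / r₀)|) :=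
        (abs_nonneg _).trans (le_max_right _ _)
      positivity
    intro x hx y hy hle
    obtain ⟨h, hh, hGh⟩ := hG.corrector y hy
    set r := infDist y (frontier Ω) with hr
    have hr0 : 0 < r := infDist_frontier_pos hd hN hy
    have hdxy : 0 < dist x y := lt_of_lt_of_le (by positivity) hle
    have hxy : x ≠ y := dist_pos.1 hdxy
    have hexp : (2 : ℝ) - ((2 : ℕ) : ℝ) = 0 := by norm_num
    rw [hexp, Real.rpow_zero, mul_one]
    rcases lt_or_ge r r₀ with hrr | hrr
    · obtain ⟨ξ, hξ, hξd⟩ := exists_nearest hd hN hy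
      obtain ⟨z, hzξ, hzd⟩ := exists_exterior_ball hd hN hξ hr0 hrr
      set ρ := M⁻¹ * r with hρ
      have hρ0 : 0 < ρ := by positivity
      have hρr : ρ ≤ r := by
        have : M⁻¹ ≤ 1 := inv_le_one_of_one_le₀ hM.le
        nlinarith
      have hout : ∀ v ∈ Ω, ρ < dist v z := by
        intro v hv
        by_contra hcon
        push Not at hcon
        exact (Set.disjoint_left.1 hzd) (mem_closedBall.2 hcon) (subset_closure hv)
      have hyz := hout y hy
      have hyz2 : dist y z < 2 * r := by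
        have h1 := dist_triangle y ξ z
        rw [hξd, dist_comm ξ z] at h1
        linarith
      set L := dist y z with hL
      have hL0 : 0 < L := hρ0.trans hyz
      have hnL : ‖y - z‖ = L := by rw [hL, dist_eq_norm]
      set ys : E 2 := z + (ρ ^ 2 / L ^ 2) • (y - z) with hys
      have hysz : dist ys z = ρ ^ 2 / L := by
        rw [dist_eq_norm, hys, add_sub_cancel_left, norm_smul, hnL, Real.norm_eq_abs,
          abs_of_pos (by positivity)]
        field_simp
      have hysρ : dist ys z ≤ ρ := by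
        rw [hysz, div_le_iff₀ hL0]
        nlinarith
      have hysΩ : ∀ v ∈ Ω, v ≠ ys := by
        intro v hv heq
        have := hout v hv
        rw [heq] at this
        linarith
      -- inversion inequality
      have hinv : ∀ v ∈ Ω, ρ * dist v y ≤ dist v ys * L := by
        intro v hv
        have hv1 := hout v hv
        set a := v - z with ha
        set b := y - z with hb
        have hna : ‖a‖ = dist v z := by rw [ha, dist_eq_norm]
        have e1 : dist v y = ‖a - b‖ := by rw [dist_eq_norm, ha, hb]; congr 1; abel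
        have e2 : dist v ys = ‖a - (ρ ^ 2 / L ^ 2) • b‖ := by
          rw [dist_eq_norm, ha, hys]; congr 1; abel
        rw [e1, e2]
        have hsq : (ρ * ‖a - b‖) ^ 2 ≤ (‖a - (ρ ^ 2 / L ^ 2) • b‖ * L) ^ 2 := by
          have q1 : ‖a - b‖ ^ 2 = ‖a‖ ^ 2 - 2 * inner ℝ a b + ‖b‖ ^ 2 := norm_sub_sq_real a b
          have q2 : ‖a - (ρ ^ 2 / L ^ 2) • b‖ ^ 2 = ‖a‖ ^ 2 -
              2 * ((ρ ^ 2 / L ^ 2) * inner ℝ a b) + (ρ ^ 2 / L ^ 2) ^ 2 * ‖b‖ ^ 2 := by
            rw [norm_sub_sq_real, norm_smul, inner_smul_right, Real.norm_eq_abs,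
              abs_of_pos (by positivity : 0 < ρ ^ 2 / L ^ 2)]
            ring
          have hA : 0 < dist v z ^ 2 - ρ ^ 2 := by nlinarith
          have hB : 0 < L ^ 2 - ρ ^ 2 := by nlinarith
          have hprod := mul_pos hA hB
          have e3 : (dist v z ^ 2 - 2 * ((ρ ^ 2 / L ^ 2) * inner ℝ a b) +
              (ρ ^ 2 / L ^ 2) ^ 2 * L ^ 2) * L ^ 2 =
              dist v z ^ 2 * L ^ 2 - 2 * ρ ^ 2 * inner ℝ a b + ρ ^ 4 := by
            field_simp
          calc (ρ * ‖a - b‖) ^ 2 = ρ ^ 2 * ‖a - b‖ ^ 2 := by ring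
            _ = ρ ^ 2 * (dist v z ^ 2 - 2 * inner ℝ a b + L ^ 2) := by rw [q1, hna, hnL]
            _ ≤ dist v z ^ 2 * L ^ 2 - 2 * ρ ^ 2 * inner ℝ a b + ρ ^ 4 := by nlinarith
            _ = ‖a - (ρ ^ 2 / L ^ 2) • b‖ ^ 2 * L ^ 2 := by rw [q2, hna, hnL, e3]
            _ = _ := by ring
        exact le_of_sq_le_sq hsq (by positivity)
      have hlog : ∀ v ∈ Ω, v ≠ y → 0 ≤ Real.log (dist v ys) - Real.log (dist v y) +
          Real.log (L / ρ) := by
        intro v hv hvy
        have h1 := hinv v hv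
        have h2 : 0 < dist v y := dist_pos.2 hvy
        have h3 : 0 < dist v ys := dist_pos.2 (hysΩ v hv)
        have h4 := Real.log_le_log (by positivity) h1
        rw [Real.log_mul hρ0.ne' h2.ne', Real.log_mul h3.ne' hL0.ne'] at h4
        rw [Real.log_div hL0.ne' hρ0.ne']
        linarith
      have hcomp : ∀ v ∈ Ω, h v - κ * Real.log (dist v ys) - κ * Real.log (L / ρ) ≤ 0 := by
        have hharm : HarmonicOnNhd ((h + κ • fun v => newton (v - ys)) -
            fun _ => κ * Real.log (L / ρ)) Ω := by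
          apply HarmonicOnNhd.sub _ (harmonicOnNhd_const _)
          intro v hv
          exact (hh v hv).add (newton_harmonic hd (hysΩ v hv)).const_smul
        have h1 := le_zero hd hN hG hy hharm (by
          intro v hv hvy
          have h2 := hlog v hv hvy
          have h3 := mul_nonneg hκ.le h2
          simp only [Pi.sub_apply, Pi.add_apply, Pi.smul_apply, smul_eq_mul]
          rw [hGh v hv hvy, newton_eq, newton_eq, ← dist_eq_norm, ← dist_eq_norm]
          simp only [nw, if_true]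
          nlinarith)
        intro v hv
        have h2 := h1 v hv
        simp only [Pi.sub_apply, Pi.add_apply, Pi.smul_apply, smul_eq_mul] at h2
        rw [newton_eq, ← dist_eq_norm] at h2
        simp only [nw, if_true] at h2
        linarith
      have h1 := hcomp x hx
      have h2 := hGh x hx hxy
      rw [newton_eq, ← dist_eq_norm] at h2
      simp only [nw, if_true] at h2
      have h3 : 0 < dist x ys := dist_pos.2 (hysΩ x hx)
      have h4 : dist x ys ≤ 13 * dist x y := by
        have a1 := dist_triangle x y ys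
        have a2 := dist_triangle y z ys
        rw [dist_comm z ys] at a2
        linarith
      have h5 : L / ρ ≤ 2 * M := by
        rw [div_le_iff₀ hρ0]
        have : 2 * M * ρ = 2 * r := by
          rw [hρ]; field_simp
        rw [this]; exact hyz2.le
      have h6 : Real.log (dist x ys) ≤ Real.log 13 + Real.log (dist x y) := by
        rw [← Real.log_mul (by norm_num) hdxy.ne']
        exact Real.log_le_log h3 h4
      have h7 : Real.log (L / ρ) ≤ Real.log (2 * M) := Real.log_le_log (by positivity) h5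
      have h8 : Real.log (26 * M) = Real.log 13 + Real.log (2 * M) := by
        rw [← Real.log_mul (by norm_num) (by positivity)]
        congr 1; ring
      have h9 : G x y ≤ κ * Real.log (26 * M) := by
        rw [h2, h8]
        have b1 := mul_le_mul_of_nonneg_left h6 hκ.le
        have b2 := mul_le_mul_of_nonneg_left h7 hκ.le
        nlinarith
      have h10 := mul_le_mul_of_nonneg_left
        (le_max_left (Real.log (26 * M)) (|Real.log (4 * Dm / r₀)|)) hκ.le
      linarith
    · have hcomp : ∀ v ∈ Ω, h v - κ * Real.log Dm ≤ 0 := by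
        have hharm : HarmonicOnNhd (h - fun _ => κ * Real.log Dm) Ω :=
          hh.sub (harmonicOnNhd_const _)
        have h1 := le_zero hd hN hG hy hharm (by
          intro v hv hvy
          have h2 := hDm1 v hv y hy
          have h3 : 0 < dist v y := dist_pos.2 hvy
          have h4 := mul_le_mul_of_nonneg_left (Real.log_le_log h3 h2) hκ.le
          simp only [Pi.sub_apply]
          rw [hGh v hv hvy, newton_eq, ← dist_eq_norm]
          simp only [nw, if_true]
          linarith)
        intro v hv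
        exact h1 v hv
      have h1 := hcomp x hx
      have h2 := hGh x hx hxy
      rw [newton_eq, ← dist_eq_norm] at h2
      simp only [nw, if_true] at h2
      have h3 : r₀ / 4 ≤ dist x y := by linarith
      have h4 : Real.log (r₀ / 4) ≤ Real.log (dist x y) :=
        Real.log_le_log (by positivity) h3
      have h5 : Real.log (4 * Dm / r₀) = Real.log Dm - Real.log (r₀ / 4) := by
        rw [← Real.log_div hDm0.ne' (by positivity)]
        congr 1; field_simp
      have h6 : G x y ≤ κ * Real.log (4 * Dm / r₀) := by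
        rw [h2, h5]
        have b1 := mul_le_mul_of_nonneg_left h4 hκ.le
        nlinarith
      have h7 := mul_le_mul_of_nonneg_left ((le_abs_self (Real.log (4 * Dm / r₀))).trans
        (le_max_right (Real.log (26 * M)) (|Real.log (4 * Dm / r₀)|))) hκ.le
      linarith
  · -- dimension at least three
    have hd3 : (3 : ℝ) ≤ d := by
      have : 3 ≤ d := by omega
      exact_mod_cast this
    refine ⟨κ * (1 / 4) ^ (2 - (d : ℝ)), by positivity, ?_⟩
    intro x hx y hy hle
    obtain ⟨h, hh, hGh⟩ := hG.corrector y hy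
    set δ := infDist y (frontier Ω) with hδ
    have hδ0 : 0 < δ := infDist_frontier_pos hd hN hy
    have hdxy : 0 < dist x y := lt_of_lt_of_le (by positivity) hle
    have hxy : x ≠ y := dist_pos.1 hdxy
    have h1 := le_zero hd hN hG hy hh (by
      intro v hv hvy
      rw [hGh v hv hvy, newton_eq]
      simp only [nw, hd2, if_false]
      have : 0 ≤ κ * ‖v - y‖ ^ (2 - (d : ℝ)) := by positivity
      linarith) x hx
    rw [hGh x hx hxy, newton_eq, ← dist_eq_norm]
    simp only [nw, hd2, if_false]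
    have h2 : dist x y ^ (2 - (d : ℝ)) ≤ (1 / 4 * δ) ^ (2 - (d : ℝ)) := by
      apply Real.rpow_le_rpow_of_nonpos (by positivity) (by linarith) (by linarith)
    rw [Real.mul_rpow (by norm_num) hδ0.le] at h2
    have h3 := mul_le_mul_of_nonneg_left h2 hκ.le
    rw [mul_assoc]
    linarith

end Pool.Agent.MP_578f25_an
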