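import Pool.Agent.Lib.MP_578f25_an.Green2e
import Pool.Agent.Lib.MP_578f25_an.Green2f

/-!
# Symmetry of the Green function, the layer measure, the positivity principle

See `Green2a` - `Green2f`: `green_symm`, `green_layer`, `green_positivity`.
-/
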