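import Pool.Agent.Lib.MP_578f25_an.Defs

/-!
# Real variable constructions: ramps and the truncated profile
-/

set_option autoImplicit false

namespace Pool.Agent.MP_578f25_an

open MeasureTheory Metric Set Filter Topology InnerProductSpace Laplacian

namespace Green2

/-- First derivative. -/
noncomputable def D1 (w : ℝ → ℝ) (c s₁ : ℝ) (t : ℝ) : ℝ := s₁ + ∫ u in c..t, w u

/-- The function with second derivative `w`. -/
noncomputable def D2 (w : ℝ → ℝ) (c s₁ s₀ : ℝ) (t : ℝ) : ℝ := s₀ + ∫ x in c..t, D1 w c s₁ x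

variable {w : ℝ → ℝ} {c s₁ s₀ : ℝ}

theorem D1_hasDerivAt (hw : Continuous w) (t : ℝ) : HasDerivAt (D1 w c s₁) (w t) t := by
  have h := (hw.integral_hasStrictDerivAt c t).hasDerivAt
  exact h.const_add s₁

theorem D1_continuous (hw : Continuous w) : Continuous (D1 w c s₁) :=
  continuous_iff_continuousAt.2 fun t => (D1_hasDerivAt hw t).continuousAt

theorem D2_hasDerivAt (hw : Continuous w) (t : ℝ) :
    HasDerivAt (D2 w c s₁ s₀) (D1 w c s₁ t) t := by
  have h := ((D1_continuous (c := c) (s₁ := s₁) hw).integral_hasStrictDerivAt c t).hasDerivAt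
  exact h.const_add s₀

theorem D2_deriv (hw : Continuous w) : deriv (D2 w c s₁ s₀) = D1 w c s₁ :=
  funext fun t => (D2_hasDerivAt hw t).deriv

theorem D1_deriv (hw : Continuous w) : deriv (D1 w c s₁) = w :=
  funext fun t => (D1_hasDerivAt hw t).deriv

theorem D2_contDiff (hw : Continuous w) : ContDiff ℝ 2 (D2 w c s₁ s₀) := by
  have h1 : ContDiff ℝ 1 (D1 w c s₁) := by
    rw [contDiff_one_iff_deriv]
    exact ⟨fun t => (D1_hasDerivAt hw t).differentiableAt, by rw [D1_deriv hw]; exact hw⟩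
  rw [show (2 : WithTop ℕ∞) = 1 + 1 by norm_num, contDiff_succ_iff_deriv]
  refine ⟨fun t => (D2_hasDerivAt hw t).differentiableAt, by simp, ?_⟩
  rw [D2_deriv hw]
  exact h1

/-- The ramps. -/
theorem exists_ramps {s : ℝ} (hs : 0 < s) :
    ∃ (Ψ Θ w : ℝ → ℝ) (c a : ℝ), ContDiff ℝ 2 Ψ ∧ ContDiff ℝ 2 Θ ∧ Continuous w ∧
      (∀ t, 0 ≤ w t) ∧ (∀ t, deriv (deriv Ψ) t = w t) ∧ (∀ t, t * deriv (deriv Θ) t = w t) ∧
      (∀ t, t ≤ s / 2 → Ψ t = 0 ∧ Θ t = 0 ∧ w t = 0 ∧ deriv (deriv Θ) t = 0) ∧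
      (∀ t, s ≤ t → w t = 0 ∧ deriv (deriv Θ) t = 0 ∧ deriv Ψ t = 1 ∧ Ψ t = t - c ∧
        deriv Θ t = a ∧ Θ t = a * t - 1) ∧ c ≤ s := by
  set q : ℝ → ℝ := fun t => max 0 ((t - s / 2) * (s - t)) with hq
  have hqc : Continuous q := by fun_prop
  have hq0 : ∀ t, 0 ≤ q t := fun t => le_max_left _ _
  have hqlow : ∀ t, t ≤ s / 2 → q t = 0 := fun t ht => by
    apply max_eq_left
    exact mul_nonpos_of_nonpos_of_nonneg (by linarith) (by linarith)
  have hqhigh : ∀ t, s ≤ t → q t = 0 := fun t ht => by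
    apply max_eq_left
    exact mul_nonpos_of_nonneg_of_nonpos (by linarith) (by linarith)
  set I₀ := ∫ u in (0 : ℝ)..s, q u with hI₀
  have hI₀pos : 0 < I₀ := by
    apply intervalIntegral.integral_pos hs hqc.continuousOn (fun x _ => hq0 x)
    refine ⟨3 * s / 4, ⟨by positivity, by linarith⟩, ?_⟩
    rw [hq]
    apply lt_max_of_lt_right
    apply mul_pos <;> linarith
  set w : ℝ → ℝ := fun t => q t / I₀ with hw
  have hwc : Continuous w := by fun_prop
  have hw0 : ∀ t, 0 ≤ w t := fun t => div_nonneg (hq0 t) hI₀pos.le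
  have hwlow : ∀ t, t ≤ s / 2 → w t = 0 := fun t ht => by rw [hw]; simp [hqlow t ht]
  have hwhigh : ∀ t, s ≤ t → w t = 0 := fun t ht => by rw [hw]; simp [hqhigh t ht]
  have hwint : ∫ u in (0 : ℝ)..s, w u = 1 := by
    rw [hw, intervalIntegral.integral_div, div_self hI₀pos.ne']
  set w₁ : ℝ → ℝ := fun t => w t / max t (s / 2) with hw₁
  have hmax : ∀ t, max t (s / 2) ≠ 0 := fun t => by
    have : s / 2 ≤ max t (s / 2) := le_max_right _ _
    intro h
    rw [h] at this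
    linarith
  have hw₁c : Continuous w₁ := hwc.div (by fun_prop) hmax
  have hw₁t : ∀ t, t * w₁ t = w t := by
    intro t
    rcases le_total t (s / 2) with h | h
    · simp only [hw₁]
      rw [hwlow t h]
      simp
    · simp only [hw₁]
      rw [max_eq_left h]
      have : t ≠ 0 := by intro h0; rw [h0] at h; linarith
      field_simp
  have hw₁low : ∀ t, t ≤ s / 2 → w₁ t = 0 := fun t ht => by
    simp only [hw₁]; rw [hwlow t ht]; simp
  have hw₁high : ∀ t, s ≤ t → w₁ t = 0 := fun t ht => by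
    simp only [hw₁]; rw [hwhigh t ht]; simp
  -- integrals that vanish
  have hzlow : ∀ g : ℝ → ℝ, (∀ t, t ≤ s / 2 → g t = 0) → ∀ t, t ≤ s / 2 →
      ∫ u in (0 : ℝ)..t, g u = 0 := by
    intro g hg t ht
    rw [intervalIntegral.integral_congr (g := fun _ => (0 : ℝ))]
    · simp
    · intro u hu
      have h1 : u ≤ max 0 t := hu.2
      exact hg u (h1.trans (max_le (by positivity) ht))
  have hzhigh : ∀ g : ℝ → ℝ, Continuous g → (∀ t, s ≤ t → g t = 0) → ∀ t, s ≤ t →
      ∫ u in (0 : ℝ)..t, g u = ∫ u in (0 : ℝ)..s, g u := by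
    intro g hgc hg t ht
    rw [← intervalIntegral.integral_add_adjacent_intervals (hgc.intervalIntegrable 0 s)
      (hgc.intervalIntegrable s t)]
    have h2 : ∫ u in s..t, g u = 0 := by
      rw [intervalIntegral.integral_congr (g := fun _ => (0 : ℝ))]
      · simp
      · intro u hu
        rw [uIcc_of_le ht] at hu
        exact hg u hu.1
    rw [h2, add_zero]
  set Ψ := D2 w 0 0 0 with hΨ
  set Θ := D2 w₁ 0 0 0 with hΘ
  have hΨd : deriv Ψ = D1 w 0 0 := D2_deriv hwc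
  have hΘd : deriv Θ = D1 w₁ 0 0 := D2_deriv hw₁c
  have hΨdd : deriv (deriv Ψ) = w := by rw [hΨd, D1_deriv hwc]
  have hΘdd : deriv (deriv Θ) = w₁ := by rw [hΘd, D1_deriv hw₁c]
  have hD1w : ∀ t, s ≤ t → D1 w 0 0 t = 1 := fun t ht => by
    unfold D1
    rw [hzhigh w hwc hwhigh t ht, hwint, zero_add]
  have hD1w₁ : ∀ t, s ≤ t → D1 w₁ 0 0 t = ∫ u in (0 : ℝ)..s, w₁ u := fun t ht => by
    unfold D1
    rw [hzhigh w₁ hw₁c hw₁high t ht, zero_add]
  have hD1low : ∀ t, t ≤ s / 2 → D1 w 0 0 t = 0 := fun t ht => by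
    unfold D1
    rw [hzlow w hwlow t ht, zero_add]
  have hD1low₁ : ∀ t, t ≤ s / 2 → D1 w₁ 0 0 t = 0 := fun t ht => by
    unfold D1
    rw [hzlow w₁ hw₁low t ht, zero_add]
  have hD1nn : ∀ t, 0 ≤ t → 0 ≤ D1 w 0 0 t := fun t ht => by
    unfold D1
    rw [zero_add]
    exact intervalIntegral.integral_nonneg ht fun u _ => hw0 u
  have hΨhigh : ∀ t, s ≤ t → Ψ t = t - (s - Ψ s) := by
    intro t ht
    have h1 : Ψ t = Ψ s + ∫ x in s..t, D1 w 0 0 x := by
      rw [hΨ]
      unfold D2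
      have hc := D1_continuous (c := 0) (s₁ := 0) hwc
      rw [← intervalIntegral.integral_add_adjacent_intervals (hc.intervalIntegrable 0 s)
        (hc.intervalIntegrable s t)]
      ring
    have h2 : ∫ x in s..t, D1 w 0 0 x = t - s := by
      rw [intervalIntegral.integral_congr (g := fun _ => (1 : ℝ))]
      · simp
      · intro u hu
        rw [uIcc_of_le ht] at hu
        exact hD1w u hu.1
    rw [h1, h2]
    ring
  have hΨs : 0 ≤ Ψ s := by
    rw [hΨ]
    unfold D2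
    rw [zero_add]
    exact intervalIntegral.integral_nonneg hs.le fun u hu => hD1nn u hu.1
  have hH : ∀ t, t * D1 w₁ 0 0 t - Θ t = ∫ u in (0 : ℝ)..t, w u := by
    intro t
    have h1 : ∀ x ∈ uIcc 0 t, HasDerivAt (fun x => x * D1 w₁ 0 0 x - Θ x) (w x) x := by
      intro x _
      have h2 := ((hasDerivAt_id x).mul (D1_hasDerivAt (c := 0) (s₁ := 0) hw₁c x)).sub
        (D2_hasDerivAt (c := 0) (s₁ := 0) (s₀ := 0) hw₁c x)
      have h3 : 1 * D1 w₁ 0 0 x + id x * w₁ x - D1 w₁ 0 0 x = w x := by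
        rw [← hw₁t x]
        simp
      rw [h3] at h2
      exact h2
    rw [intervalIntegral.integral_eq_sub_of_hasDerivAt h1 (hwc.intervalIntegrable 0 t)]
    have h4 : Θ 0 = 0 := by
      rw [hΘ]
      unfold D2
      simp
    rw [h4]
    ring
  refine ⟨Ψ, Θ, w, s - Ψ s, ∫ u in (0 : ℝ)..s, w₁ u, D2_contDiff hwc, D2_contDiff hw₁c, hwc, hw0,
    fun t => by rw [hΨdd], fun t => by rw [hΘdd]; exact hw₁t t, ?_, ?_, by linarith⟩
  · intro t ht
    refine ⟨?_, ?_, hwlow t ht, by rw [hΘdd]; exact hw₁low t ht⟩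
    · rw [hΨ]
      unfold D2
      rw [hzlow _ hD1low t ht, zero_add]
    · rw [hΘ]
      unfold D2
      rw [hzlow _ hD1low₁ t ht, zero_add]
  · intro t ht
    refine ⟨hwhigh t ht, by rw [hΘdd]; exact hw₁high t ht, by rw [hΨd]; exact hD1w t ht,
      hΨhigh t ht, by rw [hΘd]; exact hD1w₁ t ht, ?_⟩
    have h1 := hH t
    rw [hzhigh w hwc hwhigh t ht, hwint, hD1w₁ t ht] at h1
    linarith

end Green2

end Pool.Agent.MP_578f25_an
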