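import Pool.Agent.Lib.MP_578f25_an.Harm2

/-!
# The Newtonian kernel and the barrier
-/

set_option autoImplicit false

namespace Pool.Agent.MP_578f25_an

open MeasureTheory Metric Set Filter Topology InnerProductSpace Laplacian

variable {d : ℕ}

theorem deriv_rpow_pos {p t : ℝ} (ht : 0 < t) :
    ∀ᶠ s in 𝓝 t, deriv (fun s : ℝ => s ^ p) s = p * s ^ (p - 1) := by
  filter_upwards [lt_mem_nhds ht] with s hs
  exact (Real.hasDerivAt_rpow_const (Or.inl hs.ne')).deriv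

theorem deriv_deriv_rpow {p t : ℝ} (ht : 0 < t) :
    deriv (deriv (fun s : ℝ => s ^ p)) t = p * (p - 1) * t ^ (p - 2) := by
  rw [Filter.EventuallyEq.deriv_eq (deriv_rpow_pos ht)]
  have h := (Real.hasDerivAt_rpow_const (x := t) (p := p - 1) (Or.inl ht.ne')).const_mul p
  rw [h.deriv]
  rw [show p - 1 - 1 = p - 2 by ring]
  ring

theorem laplacian_rpow_radial {p : ℝ} {z x : E d} (h : x ≠ z) :
    (Δ (fun y : E d => (‖y - z‖ ^ 2) ^ p)) x =
      (4 * p * (p - 1) + 2 * d * p) * (‖x - z‖ ^ 2) ^ (p - 1) := by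
  have ht : 0 < ‖x - z‖ ^ 2 := by
    have : 0 < ‖x - z‖ := norm_pos_iff.2 (sub_ne_zero.2 h)
    positivity
  have hc : ContDiffAt ℝ 2 (fun s : ℝ => s ^ p) (‖x - z‖ ^ 2) :=
    Real.contDiffAt_rpow_const (Or.inl ht.ne')
  have h1 := laplacian_radial (f := fun s : ℝ => s ^ p) hc
  rw [h1, deriv_deriv_rpow ht, (deriv_rpow_pos ht).self_of_nhds]
  have h2 : (‖x - z‖ ^ 2) ^ (p - 1) = (‖x - z‖ ^ 2) * (‖x - z‖ ^ 2) ^ (p - 2) := by
    rw [show p - 1 = 1 + (p - 2) by ring, Real.rpow_add ht, Real.rpow_one]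
  rw [h2]
  ring

theorem contDiffAt_rpow_radial {p : ℝ} {z x : E d} (h : x ≠ z) {n : WithTop ℕ∞} :
    ContDiffAt ℝ n (fun y : E d => (‖y - z‖ ^ 2) ^ p) x := by
  have ht : ‖x - z‖ ^ 2 ≠ 0 := by
    have : 0 < ‖x - z‖ := norm_pos_iff.2 (sub_ne_zero.2 h)
    positivity
  exact (contDiff_normSq z).contDiffAt.rpow_const_of_ne ht

theorem laplacian_log_radial {z x : E d} (h : x ≠ z) :
    (Δ (fun y : E d => Real.log (‖y - z‖ ^ 2))) x = (2 * d - 4) * (‖x - z‖ ^ 2)⁻¹ := by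
  have ht : 0 < ‖x - z‖ ^ 2 := by
    have : 0 < ‖x - z‖ := norm_pos_iff.2 (sub_ne_zero.2 h)
    positivity
  have h1 := laplacian_radial (f := Real.log) (z := z) (x := x) (Real.contDiffAt_log.2 ht.ne')
  have h2 : deriv (deriv Real.log) (‖x - z‖ ^ 2) = -((‖x - z‖ ^ 2) ^ 2)⁻¹ := by
    rw [Real.deriv_log']
    exact (hasDerivAt_inv ht.ne').deriv
  rw [h1, h2, Real.deriv_log]
  field_simp
  ring

theorem contDiffAt_log_radial {z x : E d} (h : x ≠ z) {n : WithTop ℕ∞} :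
    ContDiffAt ℝ n (fun y : E d => Real.log (‖y - z‖ ^ 2)) x := by
  have ht : ‖x - z‖ ^ 2 ≠ 0 := by
    have : 0 < ‖x - z‖ := norm_pos_iff.2 (sub_ne_zero.2 h)
    positivity
  exact (contDiff_normSq z).contDiffAt.log ht

/-- The profile of the Newtonian kernel. -/
noncomputable def nprof (d : ℕ) (t : ℝ) : ℝ :=
  if d = 2 then -(1 / 2) * Real.log t else t ^ ((2 - (d : ℝ)) / 2)

theorem newton_eq_nprof (w : E d) : newton w = nprof d (‖w‖ ^ 2) := by
  unfold newton nprof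
  split_ifs with h
  · rw [Real.log_pow]
    push_cast
    ring
  · rw [← Real.rpow_natCast ‖w‖ 2, ← Real.rpow_mul (norm_nonneg _)]
    congr 1
    push_cast
    ring

theorem newton_contDiffAt {z x : E d} (h : x ≠ z) : ContDiffAt ℝ 2 (fun y => newton (y - z)) x := by
  have h1 : (fun y : E d => newton (y - z)) = fun y => nprof d (‖y - z‖ ^ 2) := by
    ext y; exact newton_eq_nprof _
  rw [h1]
  unfold nprof
  split_ifs with hd
  · exact contDiffAt_const.mul (contDiffAt_log_radial h)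
  · exact contDiffAt_rpow_radial h

theorem newton_laplacian (hd : 2 ≤ d) {z x : E d} (h : x ≠ z) :
    (Δ (fun y : E d => newton (y - z))) x = 0 := by
  have h1 : (fun y : E d => newton (y - z)) = fun y => nprof d (‖y - z‖ ^ 2) := by
    ext y; exact newton_eq_nprof _
  rw [h1]
  unfold nprof
  split_ifs with hd2
  · have h2 : (fun y : E d => -(1 / 2) * Real.log (‖y - z‖ ^ 2)) =
        (-(1 / 2) : ℝ) • fun y : E d => Real.log (‖y - z‖ ^ 2) := by
      ext y; simp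
    have h3 : (2 * (d : ℝ) - 4) = 0 := by rw [hd2]; norm_num
    rw [h2, laplacian_smul _ (contDiffAt_log_radial h), laplacian_log_radial h, h3]
    simp
  · rw [laplacian_rpow_radial h]
    ring

theorem newton_harmonic (hd : 2 ≤ d) {z x : E d} (h : x ≠ z) :
    HarmonicAt (fun y => newton (y - z)) x := by
  refine ⟨newton_contDiffAt h, ?_⟩
  filter_upwards [isOpen_ne.mem_nhds h] with y hy
  simpa using newton_laplacian hd hy

/-- The barrier `|x - z|^(-d)`. -/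
theorem barrier_laplacian (hd : 1 ≤ d) {z x : E d} (h : x ≠ z) :
    ContDiffAt ℝ 2 (fun y : E d => (‖y - z‖ ^ d)⁻¹) x ∧
      0 ≤ (Δ (fun y : E d => (‖y - z‖ ^ d)⁻¹)) x := by
  have h1 : (fun y : E d => (‖y - z‖ ^ d)⁻¹) = fun y => (‖y - z‖ ^ 2) ^ (-(d : ℝ) / 2) := by
    ext y
    rw [← Real.rpow_natCast ‖y - z‖ 2, ← Real.rpow_mul (norm_nonneg _), ← Real.rpow_natCast,
      ← Real.rpow_neg (norm_nonneg _)]
    congr 1
    push_cast
    ring
  rw [h1]
  refine ⟨contDiffAt_rpow_radial h, ?_⟩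
  rw [laplacian_rpow_radial h]
  have ht : 0 < ‖x - z‖ ^ 2 := by
    have : 0 < ‖x - z‖ := norm_pos_iff.2 (sub_ne_zero.2 h)
    positivity
  have h2 : (4 * (-(d : ℝ) / 2) * (-(d : ℝ) / 2 - 1) + 2 * d * (-(d : ℝ) / 2)) = 2 * d := by ring
  rw [h2]
  positivity

end Pool.Agent.MP_578f25_an
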