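import Pool.Agent.Lib.MP_578f25_an.Green2a
import Pool.Agent.Lib.MP_578f25_an.Harm3
import Pool.Agent.Lib.MP_578f25_an.Harm6

/-!
# The truncated Newtonian kernel
-/

set_option autoImplicit false

namespace Pool.Agent.MP_578f25_an

open MeasureTheory Metric Set Filter Topology InnerProductSpace Laplacian

namespace Green2

/-- The constant in the derivative of the profile. -/
noncomputable def na (d : ℕ) : ℝ := if d = 2 then 1 / 2 else ((d : ℝ) - 2) / 2

theorem na_pos {d : ℕ} (hd : 2 ≤ d) : 0 < na d := by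
  unfold na
  split_ifs with h
  · norm_num
  · have : (3 : ℝ) ≤ d := by exact_mod_cast (by omega : 3 ≤ d)
    linarith

theorem nprof_hasDerivAt {d : ℕ} {t : ℝ} (ht : 0 < t) :
    HasDerivAt (nprof d) (-(na d) * t ^ (-(d : ℝ) / 2)) t := by
  by_cases h : d = 2
  · have h3 : nprof d = fun t => -(1 / 2) * Real.log t := by
      ext t; simp [nprof, h]
    have h4 : t ^ (-(d : ℝ) / 2) = t⁻¹ := by
      rw [h, ← Real.rpow_neg_one]
      congr 1
      norm_num
    rw [h3, h4]
    unfold na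
    rw [if_pos h]
    exact (Real.hasDerivAt_log ht.ne').const_mul _
  · have h3 : nprof d = fun t => t ^ ((2 - (d : ℝ)) / 2) := by
      ext t; simp [nprof, h]
    rw [h3]
    have h4 := Real.hasDerivAt_rpow_const (x := t) (p := (2 - (d : ℝ)) / 2) (Or.inl ht.ne')
    convert h4 using 1
    unfold na
    rw [if_neg h, show -(d : ℝ) / 2 = (2 - (d : ℝ)) / 2 - 1 by ring]
    ring

theorem nprof'_hasDerivAt {d : ℕ} {t : ℝ} (ht : 0 < t) :
    HasDerivAt (fun t => -(na d) * t ^ (-(d : ℝ) / 2))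
      (na d * ((d : ℝ) / 2) * t ^ (-(d : ℝ) / 2 - 1)) t := by
  have h4 := (Real.hasDerivAt_rpow_const (x := t) (p := -(d : ℝ) / 2) (Or.inl ht.ne')).const_mul
    (-(na d))
  exact h4.congr_deriv (by ring)

/-- The mass density of the truncated kernel. -/
noncomputable def bd (d : ℕ) (ε : ℝ) : ℝ := (2 + (d : ℝ)) * d * na d * (ε ^ d)⁻¹

theorem exists_profile {d : ℕ} (hd : 2 ≤ d) {ε : ℝ} (hε : 0 < ε) :
    ∃ g : ℝ → ℝ, ContDiff ℝ 2 g ∧ (∀ t, ε ^ 2 ≤ t → g t = nprof d t) ∧
      (∀ t, 0 ≤ t → 4 * t * deriv (deriv g) t + 2 * d * deriv g t = -(bd d ε) * hat ε t) ∧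
      ∀ t, 0 ≤ t → t ≤ ε ^ 2 → nprof d (ε ^ 2) ≤ g t := by
  have hna := na_pos hd
  have hε2 : 0 < ε ^ 2 := by positivity
  have hd0 : (0 : ℝ) < d := by exact_mod_cast (by omega : 0 < d)
  set f1 : ℝ → ℝ := fun t => -(na d) * t ^ (-(d : ℝ) / 2) with hf1
  set f2 : ℝ → ℝ := fun t => na d * ((d : ℝ) / 2) * t ^ (-(d : ℝ) / 2 - 1) with hf2
  set w : ℝ → ℝ := fun t => f2 (max t (ε ^ 2)) with hw
  have hmax : ∀ t : ℝ, 0 < max t (ε ^ 2) := fun t => lt_max_of_lt_right hε2
  have hwc : Continuous w := by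
    rw [hw, hf2]
    apply Continuous.mul continuous_const
    exact Continuous.rpow_const (by fun_prop) fun t => Or.inl (hmax t).ne'
  set g := D2 w (ε ^ 2) (f1 (ε ^ 2)) (nprof d (ε ^ 2)) with hg
  have hgd : deriv g = D1 w (ε ^ 2) (f1 (ε ^ 2)) := D2_deriv hwc
  have hgdd : deriv (deriv g) = w := by rw [hgd, D1_deriv hwc]
  have hwhigh : ∀ t, ε ^ 2 ≤ t → w t = f2 t := fun t ht => by
    simp only [hw]; rw [max_eq_left ht]
  have hwlow : ∀ t, t ≤ ε ^ 2 → w t = f2 (ε ^ 2) := fun t ht => by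
    simp only [hw]; rw [max_eq_right ht]
  have hD1high : ∀ t, ε ^ 2 ≤ t → D1 w (ε ^ 2) (f1 (ε ^ 2)) t = f1 t := by
    intro t ht
    unfold D1
    rw [intervalIntegral.integral_eq_sub_of_hasDerivAt (f := f1) (f' := w)]
    · ring
    · intro x hx
      rw [uIcc_of_le ht] at hx
      rw [hwhigh x hx.1]
      exact nprof'_hasDerivAt (lt_of_lt_of_le hε2 hx.1)
    · exact hwc.intervalIntegrable _ _
  have hD1low : ∀ t, t ≤ ε ^ 2 → D1 w (ε ^ 2) (f1 (ε ^ 2)) t =
      f1 (ε ^ 2) + f2 (ε ^ 2) * (t - ε ^ 2) := by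
    intro t ht
    unfold D1
    rw [intervalIntegral.integral_congr (g := fun _ => f2 (ε ^ 2))]
    · rw [intervalIntegral.integral_const, smul_eq_mul]
      ring
    · intro x hx
      rw [uIcc_of_ge ht] at hx
      exact hwlow x hx.2
  have hrel : f1 (ε ^ 2) = -(2 / d) * (ε ^ 2 * f2 (ε ^ 2)) := by
    simp only [hf1, hf2]
    rw [Real.rpow_sub hε2, Real.rpow_one]
    field_simp
  have hf2pos : 0 < f2 (ε ^ 2) := by
    simp only [hf2]
    positivity
  refine ⟨g, D2_contDiff hwc, ?_, ?_, ?_⟩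
  · intro t ht
    rw [hg]
    unfold D2
    rw [intervalIntegral.integral_eq_sub_of_hasDerivAt (f := nprof d)]
    · ring
    · intro x hx
      rw [uIcc_of_le ht] at hx
      rw [hD1high x hx.1]
      exact nprof_hasDerivAt (lt_of_lt_of_le hε2 hx.1)
    · exact (D1_continuous hwc).intervalIntegrable _ _
  · intro t ht
    rw [hgdd, hgd]
    rcases le_total t (ε ^ 2) with h | h
    · rw [hD1low t h, hwlow t h, hrel]
      have h1 : hat ε t = 1 - t / ε ^ 2 := by
        unfold hat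
        apply max_eq_right
        have : t / ε ^ 2 ≤ 1 := by rw [div_le_one hε2]; exact h
        linarith
      have h2 : bd d ε = (2 * d + 4) * (f2 (ε ^ 2) * ε ^ 2) := by
        unfold bd
        simp only [hf2]
        rw [Real.rpow_sub hε2, Real.rpow_one]
        have h3 : (ε ^ 2) ^ (-(d : ℝ) / 2) = (ε ^ d)⁻¹ := by
          rw [← Real.rpow_natCast ε 2, ← Real.rpow_mul hε.le, ← Real.rpow_natCast ε d,
            ← Real.rpow_neg hε.le]
          congr 1
          push_cast
          ring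
        rw [h3]
        field_simp
        ring
      rw [h1, h2]
      field_simp
      ring
    · rw [hD1high t h, hwhigh t h, hat_zero hε h]
      have ht0 : 0 < t := lt_of_lt_of_le hε2 h
      simp only [hf1, hf2]
      rw [Real.rpow_sub ht0, Real.rpow_one]
      field_simp
      ring
  · intro t ht htε
    rw [hg]
    unfold D2
    rw [intervalIntegral.integral_symm]
    have h1 : ∫ x in t..ε ^ 2, D1 w (ε ^ 2) (f1 (ε ^ 2)) x ≤ 0 := by
      have h2 : 0 ≤ ∫ x in t..ε ^ 2, -(D1 w (ε ^ 2) (f1 (ε ^ 2)) x) := by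
        apply intervalIntegral.integral_nonneg htε
        intro x hx
        rw [hD1low x hx.2]
        have h3 : f1 (ε ^ 2) ≤ 0 := by
          rw [hrel]
          have : 0 < 2 / (d : ℝ) * (ε ^ 2 * f2 (ε ^ 2)) := by positivity
          linarith
        have h4 : f2 (ε ^ 2) * (x - ε ^ 2) ≤ 0 :=
          mul_nonpos_of_nonneg_of_nonpos hf2pos.le (by linarith [hx.2])
        linarith
      rw [intervalIntegral.integral_neg] at h2
      linarith
    linarith

end Green2

end Pool.Agent.MP_578f25_an
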