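import Pool.Agent.Lib.MP_578f25_an.Green1
import Pool.Agent.Lib.MP_578f25_an.Green2b

/-!
# The truncated Green function
-/

set_option autoImplicit false

namespace Pool.Agent.MP_578f25_an

open MeasureTheory Metric Set Filter Topology InnerProductSpace Laplacian

variable {d : ℕ} {Ω : Set (E d)} {M r₀ κ : ℝ} {G : E d → E d → ℝ}

namespace Green2

/-- The mass of the truncated kernel. -/
noncomputable def mm (d : ℕ) : ℝ := (2 + (d : ℝ)) * d * na d * hatInt d

theorem mm_pos (hd : 2 ≤ d) : 0 < mm d := by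
  have h1 := na_pos hd
  have h2 := hatInt_pos d
  have h3 : (0 : ℝ) < d := by exact_mod_cast (by omega : 0 < d)
  unfold mm
  positivity

theorem bd_pos (hd : 2 ≤ d) {ε : ℝ} (hε : 0 < ε) : 0 < bd d ε := by
  have h1 := na_pos hd
  have h3 : (0 : ℝ) < d := by exact_mod_cast (by omega : 0 < d)
  unfold bd
  positivity

/-- The mollified mass at `y`. -/
noncomputable def rho (ε : ℝ) (y x : E d) : ℝ := bd d ε * hat ε (‖x - y‖ ^ 2)

theorem rho_nonneg (hd : 2 ≤ d) {ε : ℝ} (hε : 0 < ε) (y x : E d) : 0 ≤ rho ε y x :=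
  mul_nonneg (bd_pos hd hε).le (hat_nonneg _ _)

theorem rho_zero {ε : ℝ} (hε : 0 < ε) {y x : E d} (h : ε ≤ dist x y) : rho ε y x = 0 := by
  unfold rho
  rw [hat_zero hε, mul_zero]
  rw [← dist_eq_norm]
  gcongr

theorem rho_continuous {ε : ℝ} (y : E d) : Continuous (rho ε y) := by
  unfold rho
  exact continuous_const.mul ((hat_continuous ε).comp (by fun_prop))

theorem rho_mean {u : E d → ℝ} {y : E d} {R ε : ℝ} (hu : HarmonicOnNhd u (ball y R))
    (hε : 0 < ε) (hεR : ε < R) : ∫ x, u x * rho ε y x = mm d * u y := by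
  unfold rho
  have h1 : (fun x => u x * (bd d ε * hat ε (‖x - y‖ ^ 2))) =
      fun x => bd d ε * (u x * hat ε (‖x - y‖ ^ 2)) := by
    ext x; ring
  rw [h1, integral_const_mul, hat_mean hu hε hεR]
  unfold bd mm
  field_simp

theorem rho_integrable {u : E d → ℝ} {y : E d} {R ε : ℝ} (hu : ContinuousOn u (ball y R))
    (hε : 0 < ε) (hεR : ε < R) : Integrable fun x => u x * rho ε y x := by
  unfold rho
  have h1 : (fun x => u x * (bd d ε * hat ε (‖x - y‖ ^ 2))) =
      fun x => bd d ε * (u x * hat ε (‖x - y‖ ^ 2)) := by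
    ext x; ring
  rw [h1]
  exact (integrable_weight hu (hat_continuous ε) (fun t ht => hat_zero hε ht) hε hεR).const_mul _

theorem nprof_sq {r : ℝ} (hr : 0 < r) : nprof d (r ^ 2) = Green1.nw d r := by
  unfold nprof Green1.nw
  split_ifs with h
  · rw [Real.log_pow]
    push_cast
    ring
  · rw [← Real.rpow_natCast r 2, ← Real.rpow_mul hr.le]
    congr 1
    push_cast
    ring

/-- The truncated Green function. -/
structure IsTrunc (Ω : Set (E d)) (κ : ℝ) (G : E d → E d → ℝ) (y : E d) (L ε : ℝ)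
    (T : E d → ℝ) : Prop where
  smooth : ∀ x ∈ Ω, ContDiffAt ℝ 2 T x
  eq : ∀ x ∈ Ω, ε ≤ dist x y → T x = G x y
  lap : ∀ x ∈ Ω, (Δ T) x = -(κ * rho ε y x)
  ge : ∀ x ∈ Ω, dist x y ≤ ε → L ≤ T x

theorem exists_trunc (hd : 2 ≤ d) (hN : IsNTA Ω M r₀) (hG : IsGreen Ω κ G) {y : E d}
    (hy : y ∈ Ω) (L : ℝ) :
    ∃ ε₀ : ℝ, 0 < ε₀ ∧ ball y ε₀ ⊆ Ω ∧ (∀ x ∈ Ω, x ≠ y → dist x y < ε₀ → L ≤ G x y) ∧
      ∀ ε : ℝ, 0 < ε → ε < ε₀ → ∃ T : E d → ℝ, IsTrunc Ω κ G y L ε T := by
  obtain ⟨h, hh, heq⟩ := hG.corrector y hy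
  have hκ := hG.κ_pos
  obtain ⟨R, hR, hRs⟩ := Metric.isOpen_iff.1 hN.isOpen y hy
  have hcont : ContinuousAt h y := (hh y hy).1.continuousAt
  obtain ⟨δ₁, hδ₁, h1⟩ := Metric.continuousAt_iff.1 hcont 1 one_pos
  obtain ⟨δ₂, hδ₂, h2⟩ := Green1.nw_large hd ((L - h y + 1) / κ)
  have h1' : ∀ x, dist x y < δ₁ → h y - 1 ≤ h x := fun x hx => by
    have := h1 hx
    rw [Real.dist_eq, abs_lt] at this
    linarith
  refine ⟨min R (min δ₁ δ₂), by positivity, (ball_subset_ball (min_le_left _ _)).trans hRs, ?_, ?_⟩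
  · intro x hx hne hd'
    rw [lt_min_iff, lt_min_iff] at hd'
    rw [heq x hx hne, Green1.newton_eq]
    have h4 : 0 < ‖x - y‖ := norm_pos_iff.2 (sub_ne_zero.2 hne)
    have h5 := h2 ‖x - y‖ h4 (by rw [← dist_eq_norm]; exact hd'.2.2)
    rw [div_le_iff₀ hκ] at h5
    have h6 := h1' x hd'.2.1
    linarith
  · intro ε hε hεε
    rw [lt_min_iff, lt_min_iff] at hεε
    obtain ⟨g, g1, g2, g3, g4⟩ := exists_profile hd hε
    have hsm : ∀ x : E d, ContDiffAt ℝ 2 (fun x : E d => g (‖x - y‖ ^ 2)) x := fun x =>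
      (g1.contDiffAt).comp x (contDiff_normSq y).contDiffAt
    refine ⟨fun x => κ * g (‖x - y‖ ^ 2) + h x, ⟨?_, ?_, ?_, ?_⟩⟩
    · intro x hx
      exact (contDiffAt_const.mul (hsm x)).add (hh x hx).1
    · intro x hx hxε
      have hne : x ≠ y := by
        rintro rfl
        rw [dist_self] at hxε
        linarith
      rw [heq x hx hne, newton_eq_nprof, g2]
      rw [← dist_eq_norm]
      gcongr
    · intro x hx
      have e1 : (fun x : E d => κ * g (‖x - y‖ ^ 2) + h x) =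
          κ • (fun x : E d => g (‖x - y‖ ^ 2)) + h := by
        ext x; simp
      have e2 : ContDiffAt ℝ 2 (κ • fun x : E d => g (‖x - y‖ ^ 2)) x := (hsm x).const_smul κ
      rw [e1, e2.laplacian_add (hh x hx).1, laplacian_smul _ (hsm x),
        laplacian_radial g1.contDiffAt,
        Green1.laplacian_zero (hh x hx), g3 _ (by positivity)]
      unfold rho
      simp
    · intro x hx hxε
      have h5 := g4 (‖x - y‖ ^ 2) (by positivity) (by rw [← dist_eq_norm]; gcongr)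
      rw [nprof_sq hε] at h5
      have h6 := h2 ε hε hεε.2.2
      rw [div_le_iff₀ hκ] at h6
      have h7 := h1' x (by linarith [hεε.2.1])
      have h8 := mul_le_mul_of_nonneg_left h5 hκ.le
      linarith

end Green2

end Pool.Agent.MP_578f25_an
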