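import Pool.Agent.Lib.MP_578f25_an.Green2c

/-!
# Symmetry of the Green function
-/

set_option autoImplicit false

namespace Pool.Agent.MP_578f25_an

open MeasureTheory Metric Set Filter Topology InnerProductSpace Laplacian

variable {d : ℕ} {Ω : Set (E d)} {M r₀ κ : ℝ} {G : E d → E d → ℝ}

namespace Green2

theorem support_facts (hN : IsNTA Ω M r₀) {φ : E d → ℝ} (h1 : ∀ x ∈ Ω, ContDiffAt ℝ 2 φ x)
    (h2 : ∀ x, x ∉ Ω → φ x = 0) (h3 : ∀ ζ ∈ frontier Ω, ∀ᶠ x in 𝓝[Ω] ζ, φ x = 0) :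
    ContDiff ℝ 2 φ ∧ HasCompactSupport φ ∧ tsupport φ ⊆ Ω := by
  have hts : tsupport φ ⊆ Ω := by
    intro x hx
    by_contra hxΩ
    have hxc : x ∈ closure Ω := closure_mono (fun y (hy : φ y ≠ 0) => by_contra fun h => hy (h2 y h)) hx
    have hxf : x ∈ frontier Ω := ⟨hxc, by rwa [hN.isOpen.interior_eq]⟩
    have h4 := h3 x hxf
    rw [eventually_nhdsWithin_iff] at h4
    have h5 : φ =ᶠ[𝓝 x] 0 := by
      filter_upwards [h4] with y hy
      by_cases hyΩ : y ∈ Ω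
      · exact hy hyΩ
      · exact h2 y hyΩ
    exact (notMem_tsupport_iff_eventuallyEq.2 h5) hx
  refine ⟨contDiff_of_local fun x hx => h1 x (hts hx), ?_, hts⟩
  exact hN.isBounded.isCompact_closure.of_isClosed_subset (isClosed_tsupport _)
    (hts.trans subset_closure)

theorem laplacian_congr {f g : E d → ℝ} {x : E d} (h : f =ᶠ[𝓝 x] g) : (Δ f) x = (Δ g) x := by
  rw [laplacian_eq_sum, laplacian_eq_sum, h.fderiv.fderiv_eq]

theorem laplacian_notMem {φ : E d → ℝ} {x : E d} (h : x ∉ tsupport φ) : (Δ φ) x = 0 := by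
  rw [laplacian_congr (notMem_tsupport_iff_eventuallyEq.1 h), laplacian_eq_sum]
  simp

theorem laplacian_continuous {φ : E d → ℝ} (h : ContDiff ℝ 2 φ) : Continuous (Δ φ) := by
  have h1 : (Δ φ) = fun x => ∑ i, fderiv ℝ (fderiv ℝ φ) x (ebasis d i) (ebasis d i) :=
    funext fun x => laplacian_eq_sum φ x
  rw [h1]
  have hdφ : ContDiff ℝ 1 (fderiv ℝ φ) := h.fderiv_right (by norm_num)
  exact continuous_finsetSum _ fun i _ =>
    ((hdφ.continuous_fderiv (by norm_num)).clm_apply continuous_const).clm_apply continuous_const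

theorem integrable_mul_laplacian {u φ : E d → ℝ} (hΩ : IsOpen Ω) (hu : ContinuousOn u Ω)
    (hφ : ContDiff ℝ 2 φ) (hc : HasCompactSupport φ) (hs : tsupport φ ⊆ Ω) :
    Integrable (fun x => u x * (Δ φ) x) := by
  have hts : tsupport (fun x => u x * (Δ φ) x) ⊆ tsupport φ := by
    apply closure_minimal _ (isClosed_tsupport _)
    intro x hx
    by_contra hcon
    apply hx
    show u x * (Δ φ) x = 0
    rw [laplacian_notMem hcon, mul_zero]
  have hcs : HasCompactSupport (fun x => u x * (Δ φ) x) :=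
    hc.of_isClosed_subset (isClosed_tsupport _) hts
  have hcont : Continuous (fun x => u x * (Δ φ) x) := by
    apply continuous_of_tsupport
    intro x hx
    have hxΩ : x ∈ Ω := hs (hts hx)
    exact (hu.continuousAt (hΩ.mem_nhds hxΩ)).mul (laplacian_continuous hφ).continuousAt
  exact hcont.integrable_of_hasCompactSupport hcs

theorem IsTrunc.eventually_lt {y : E d} {L ε ε₀ : ℝ} {T : E d → ℝ}
    (hT : IsTrunc Ω κ G y L ε T) (hN : IsNTA Ω M r₀) (hG : IsGreen Ω κ G) (hy : y ∈ Ω)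
    (hεε : ε < ε₀) (hb : ball y ε₀ ⊆ Ω) {s : ℝ} (hs : 0 < s) {ζ : E d} (hζ : ζ ∈ frontier Ω) :
    ∀ᶠ x in 𝓝[Ω] ζ, T x < s ∧ T x = G x y := by
  have h1 : ∀ᶠ x in 𝓝[Ω] ζ, G x y < s := (hG.boundary y hy ζ hζ).eventually (gt_mem_nhds hs)
  have hζΩ : ζ ∉ Ω := by
    have := hζ.2
    rwa [hN.isOpen.interior_eq] at this
  have h2 : ε < dist ζ y := by
    by_contra hcon
    push Not at hcon
    exact hζΩ (hb (lt_of_le_of_lt hcon hεε))
  have h3 : ∀ᶠ x in 𝓝[Ω] ζ, ε < dist x y :=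
    mem_nhdsWithin_of_mem_nhds ((continuous_id.dist continuous_const).continuousAt.eventually
      (lt_mem_nhds h2))
  filter_upwards [h1, h3, self_mem_nhdsWithin] with x h1 h3 h4
  have h5 := hT.eq x h4 h3.le
  exact ⟨by rw [h5]; exact h1, h5⟩

theorem comp_facts {y : E d} {L ε ε₀ : ℝ} {T : E d → ℝ}
    (hT : IsTrunc Ω κ G y L ε T) (hN : IsNTA Ω M r₀) (hG : IsGreen Ω κ G) (hy : y ∈ Ω)
    (hεε : ε < ε₀) (hb : ball y ε₀ ⊆ Ω) {s : ℝ} (hs : 0 < s) {S : ℝ → ℝ} (hS : ContDiff ℝ 2 S)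
    (hS0 : ∀ t, t ≤ s / 2 → S t = 0) :
    ContDiff ℝ 2 (Ω.indicator fun x => S (T x)) ∧
      HasCompactSupport (Ω.indicator fun x => S (T x)) ∧
      tsupport (Ω.indicator fun x => S (T x)) ⊆ Ω ∧
      ∀ x ∈ Ω, (Δ (Ω.indicator fun x => S (T x))) x =
        deriv (deriv S) (T x) * ‖fderiv ℝ T x‖ ^ 2 - κ * (deriv S (T x) * rho ε y x) := by
  have heq : ∀ x ∈ Ω, (Ω.indicator fun x => S (T x)) =ᶠ[𝓝 x] fun x => S (T x) := by
    intro x hx
    filter_upwards [hN.isOpen.mem_nhds hx] with z hz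
    exact indicator_of_mem hz _
  obtain ⟨h1, h2, h3⟩ := support_facts hN (φ := Ω.indicator fun x => S (T x))
    (fun x hx => ((hS.contDiffAt).comp x (hT.smooth x hx)).congr_of_eventuallyEq (heq x hx))
    (fun x hx => indicator_of_notMem hx _)
    (fun ζ hζ => by
      filter_upwards [hT.eventually_lt hN hG hy hεε hb (half_pos hs) hζ,
        self_mem_nhdsWithin] with x hx hxΩ
      rw [indicator_of_mem hxΩ]
      exact hS0 _ hx.1.le)
  refine ⟨h1, h2, h3, fun x hx => ?_⟩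
  rw [laplacian_congr (heq x hx), laplacian_comp (hT.smooth x hx) hS.contDiffAt, hT.lap x hx]
  ring

theorem symm_le (hd : 2 ≤ d) (hN : IsNTA Ω M r₀) (hG : IsGreen Ω κ G) {y₁ y₂ : E d}
    (hy₁ : y₁ ∈ Ω) (hy₂ : y₂ ∈ Ω) (hne : y₁ ≠ y₂) {s : ℝ} (hs : 0 < s) (hsG : s < G y₂ y₁) :
    G y₂ y₁ - s ≤ G y₁ y₂ := by
  have hκ := hG.κ_pos
  have hmm := mm_pos hd
  obtain ⟨Ψ, Θ, w, c, a', hΨ, hΘ, hwc, hw, hΨw, hΘw, hlow, hhigh, hcs⟩ := exists_ramps hs
  obtain ⟨a, ha, hab, -, hat'⟩ := exists_trunc hd hN hG hy₁ s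
  obtain ⟨b, hb, hbb, -, hbt⟩ := exists_trunc hd hN hG hy₂ 0
  have hh₁ := Green1.harm hd hN hG hy₁
  have hh₂ := Green1.harm hd hN hG hy₂
  have hcont : ContinuousAt (fun x => G x y₁) y₂ := (hh₁ y₂ ⟨hy₂, hne.symm⟩).1.continuousAt
  obtain ⟨r, hr, hrs⟩ := Metric.mem_nhds_iff.1 (hcont.eventually (lt_mem_nhds hsG))
  have hdist : 0 < dist y₁ y₂ := dist_pos.2 hne
  set R := min (min a b) (min (dist y₁ y₂ / 2) r) with hR
  have hR0 : 0 < R := by positivity
  have hRa : R ≤ a := (min_le_left _ _).trans (min_le_left _ _)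
  have hRb : R ≤ b := (min_le_left _ _).trans (min_le_right _ _)
  have hRd : R ≤ dist y₁ y₂ / 2 := (min_le_right _ _).trans (min_le_left _ _)
  have hRr : R ≤ r := (min_le_right _ _).trans (min_le_right _ _)
  set ε := R / 2 with hε
  have hε0 : 0 < ε := by positivity
  have hεR : ε < R := by rw [hε]; linarith
  obtain ⟨T₁, hT₁⟩ := hat' ε hε0 (by linarith)
  obtain ⟨T₂, hT₂⟩ := hbt ε hε0 (by linarith)
  have hfar : ∀ x, dist x y₂ < R → R < dist x y₁ := fun x hx => by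
    have h1 : dist y₁ y₂ ≤ dist x y₁ + dist x y₂ := dist_triangle_left _ _ _
    linarith
  have hfar' : ∀ x, dist x y₁ < R → R < dist x y₂ := fun x hx => by
    have h1 : dist y₁ y₂ ≤ dist x y₁ + dist x y₂ := dist_triangle_left _ _ _
    linarith
  obtain ⟨p1, p2, p3, p4⟩ := comp_facts hT₁ hN hG hy₁ (by linarith : ε < a) hab hs hΨ
    (fun t ht => (hlow t ht).1)
  set φ := Ω.indicator fun x => Ψ (T₁ x) with hφ
  have hT₂c : ContDiffOn ℝ 2 T₂ Ω := fun x hx => (hT₂.smooth x hx).contDiffWithinAt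
  have key := green_identity hN.isOpen hT₂c p1 p2 p3
  -- the right-hand side
  have hub₂ : HarmonicOnNhd (fun x => G x y₁ - c) (ball y₂ R) := by
    intro x hx
    rw [mem_ball] at hx
    refine (hh₁ x ⟨hbb (by rw [mem_ball]; linarith), ?_⟩).sub (harmonicAt_const c)
    rintro rfl
    have := hfar x hx
    rw [dist_self] at this
    linarith
  have hrhs : ∫ x, φ x * (Δ T₂) x = -(κ * (mm d * (G y₂ y₁ - c))) := by
    rw [← rho_mean hub₂ hε0 hεR, ← integral_const_mul, ← integral_neg]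
    congr 1
    ext x
    by_cases hx : dist x y₂ < ε
    · have hxΩ : x ∈ Ω := hbb (by rw [mem_ball]; linarith)
      have h1 := hfar x (by linarith)
      have h2 : T₁ x = G x y₁ := hT₁.eq x hxΩ (by linarith)
      have h3 : s < G x y₁ := hrs (by rw [mem_ball]; linarith)
      rw [hT₂.lap x hxΩ, hφ, indicator_of_mem hxΩ, h2, (hhigh _ h3.le).2.2.2.1]
      ring
    · push Not at hx
      by_cases hxΩ : x ∈ Ω
      · rw [hT₂.lap x hxΩ, rho_zero hε0 hx]
        ring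
      · rw [hφ, indicator_of_notMem hxΩ, rho_zero hε0 hx]
        ring
  -- the left-hand side
  have hub₁ : HarmonicOnNhd (fun x => G x y₂) (ball y₁ R) := by
    intro x hx
    rw [mem_ball] at hx
    refine hh₂ x ⟨hab (by rw [mem_ball]; linarith), ?_⟩
    rintro rfl
    have := hfar' x hx
    rw [dist_self] at this
    linarith
  have hT₂0 : ∀ x ∈ Ω, 0 ≤ T₂ x := by
    intro x hx
    rcases le_total (dist x y₂) ε with h | h
    · exact hT₂.ge x hx h
    · rw [hT₂.eq x hx h]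
      have hxy : x ≠ y₂ := by
        rintro rfl
        rw [dist_self] at h
        linarith
      exact Green1.nonneg hd hN hG hx hy₂ hxy
  have hlhs : -(κ * (mm d * G y₁ y₂)) ≤ ∫ x, T₂ x * (Δ φ) x := by
    rw [← rho_mean hub₁ hε0 hεR, ← integral_const_mul, ← integral_neg]
    have hi1 : Integrable (fun x => G x y₂ * rho ε y₁ x) :=
      rho_integrable (R := R) (fun x hx => (hub₁ x hx).1.continuousAt.continuousWithinAt) hε0 hεR
    apply integral_mono (hi1.const_mul κ).neg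
      (integrable_mul_laplacian hN.isOpen hT₂c.continuousOn p1 p2 p3)
    intro x
    show -(κ * (G x y₂ * rho ε y₁ x)) ≤ T₂ x * (Δ φ) x
    by_cases hxΩ : x ∈ Ω
    · rw [p4 x hxΩ, hΨw]
      have h1 : 0 ≤ T₂ x * (w (T₁ x) * ‖fderiv ℝ T₁ x‖ ^ 2) :=
        mul_nonneg (hT₂0 x hxΩ) (mul_nonneg (hw _) (by positivity))
      have h2 : T₂ x * (deriv Ψ (T₁ x) * rho ε y₁ x) = G x y₂ * rho ε y₁ x := by
        rcases lt_or_ge (dist x y₁) ε with h | h
        · have h3 := hfar' x (by linarith)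
          rw [hT₂.eq x hxΩ (by linarith), (hhigh _ (hT₁.ge x hxΩ h.le)).2.2.1]
          ring
        · rw [rho_zero hε0 h]
          ring
      have h3 : T₂ x * (w (T₁ x) * ‖fderiv ℝ T₁ x‖ ^ 2 - κ * (deriv Ψ (T₁ x) * rho ε y₁ x)) =
          T₂ x * (w (T₁ x) * ‖fderiv ℝ T₁ x‖ ^ 2) -
            κ * (T₂ x * (deriv Ψ (T₁ x) * rho ε y₁ x)) := by ring
      rw [h3, h2]
      linarith
    · have h1 : ε ≤ dist x y₁ := by
        by_contra hcon
        push Not at hcon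
        exact hxΩ (hab (by rw [mem_ball]; linarith))
      rw [rho_zero hε0 h1, laplacian_notMem (fun h => hxΩ (p3 h))]
      simp
  rw [key, hrhs] at hlhs
  have h1 : κ * (mm d * (G y₂ y₁ - c)) ≤ κ * (mm d * G y₁ y₂) := by linarith
  have h2 := le_of_mul_le_mul_left (le_of_mul_le_mul_left h1 hκ) hmm
  linarith

theorem symm_le' (hd : 2 ≤ d) (hN : IsNTA Ω M r₀) (hG : IsGreen Ω κ G) {y₁ y₂ : E d}
    (hy₁ : y₁ ∈ Ω) (hy₂ : y₂ ∈ Ω) (hne : y₁ ≠ y₂) : G y₂ y₁ ≤ G y₁ y₂ := by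
  by_contra hcon
  push Not at hcon
  have h1 := green_pos hd hN hG hy₁ hy₂ hne
  have := symm_le hd hN hG hy₁ hy₂ hne (s := (G y₂ y₁ - G y₁ y₂) / 2) (by linarith) (by linarith)
  linarith

end Green2

theorem green_symm (hd : 2 ≤ d) (hN : IsNTA Ω M r₀) (hG : IsGreen Ω κ G) {x y : E d}
    (hx : x ∈ Ω) (hy : y ∈ Ω) (hxy : x ≠ y) : G x y = G y x :=
  le_antisymm (Green2.symm_le' hd hN hG hy hx hxy.symm) (Green2.symm_le' hd hN hG hx hy hxy)

end Pool.Agent.MP_578f25_an
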