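import Pool.Agent.Lib.MP_578f25_an.Green2d

/-!
# The layer measure
-/

set_option autoImplicit false

namespace Pool.Agent.MP_578f25_an

open MeasureTheory Metric Set Filter Topology InnerProductSpace Laplacian

variable {d : ℕ} {Ω : Set (E d)} {M r₀ κ : ℝ} {G : E d → E d → ℝ}

namespace Green2

theorem indicator_eq (hN : IsNTA Ω M r₀) {x₀ : E d} {s ε α : ℝ} (hεα : ε < α)
    (hGs : ∀ x ∈ Ω, x ≠ x₀ → dist x x₀ < α → s ≤ G x x₀) (hε : 0 < ε) {T : E d → ℝ}
    (hT : IsTrunc Ω κ G x₀ s ε T) {q : ℝ → ℝ} (hq : ∀ t, s ≤ t → q t = 0) (x : E d) :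
    (Ω \ {x₀}).indicator
        (fun y => q (G y x₀) * ‖fderiv ℝ (fun y => G y x₀) y‖ ^ 2) x =
      Ω.indicator (fun y => q (T y) * ‖fderiv ℝ T y‖ ^ 2) x := by
  by_cases hx : x ∈ Ω
  · rw [indicator_of_mem hx]
    rcases lt_or_ge ε (dist x x₀) with h | h
    · have hne : x ≠ x₀ := by
        rintro rfl
        rw [dist_self] at h
        linarith
      rw [indicator_of_mem (show x ∈ Ω \ {x₀} from ⟨hx, hne⟩)]
      have h1 : T =ᶠ[𝓝 x] fun y => G y x₀ := by
        have h2 : ∀ᶠ y in 𝓝 x, ε < dist y x₀ :=
          (continuous_id.dist continuous_const).continuousAt.eventually (lt_mem_nhds h)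
        filter_upwards [h2, hN.isOpen.mem_nhds hx] with y hy hyΩ
        exact hT.eq y hyΩ hy.le
      rw [h1.fderiv_eq, h1.self_of_nhds]
    · rw [hq _ (hT.ge x hx h), zero_mul]
      by_cases hne : x = x₀
      · rw [indicator_of_notMem (fun h => h.2 hne)]
      · rw [indicator_of_mem (show x ∈ Ω \ {x₀} from ⟨hx, hne⟩),
          hq _ (hGs x hx hne (by linarith)), zero_mul]
  · rw [indicator_of_notMem hx, indicator_of_notMem (fun h => hx h.1)]

theorem integral_laplacian {φ : E d → ℝ} (hφ : ContDiff ℝ 2 φ) (hc : HasCompactSupport φ) :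
    ∫ x, (Δ φ) x = 0 := by
  have h := green_identity (Ω := univ) isOpen_univ (w := fun _ : E d => (1 : ℝ))
    contDiffOn_const hφ hc (subset_univ _)
  have h1 : ∀ x : E d, (Δ (fun _ : E d => (1 : ℝ))) x = 0 := by
    intro x
    rw [laplacian_eq_sum]
    simp
  simp only [one_mul, h1, mul_zero, integral_zero] at h
  exact h

theorem rho_integral {ε : ℝ} (hε : 0 < ε) (y : E d) :
    Integrable (rho ε y) ∧ ∫ x, rho ε y x = mm d := by
  have h1 : HarmonicOnNhd (fun _ : E d => (1 : ℝ)) (ball y (2 * ε)) := fun x _ =>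
    harmonicAt_const 1
  have h2 := rho_mean h1 hε (by linarith)
  have h3 := rho_integrable (u := fun _ : E d => (1 : ℝ)) (y := y) (R := 2 * ε)
    continuousOn_const hε (by linarith)
  simp only [one_mul, mul_one] at h2 h3
  exact ⟨h3, h2⟩

end Green2

open Green2

/-- A probability measure on the layer `{0 < G(·, x₀) < s}` that reproduces the kernels
`G(z, ·) / G(x₀, ·)`. -/
theorem green_layer (hd : 2 ≤ d) (hN : IsNTA Ω M r₀) (hG : IsGreen Ω κ G) {x₀ : E d}
    (hx₀ : x₀ ∈ Ω) {s : ℝ} (hs : 0 < s) :
    ∃ ω : Measure (E d), IsProbabilityMeasure ω ∧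
      (∀ᵐ y ∂ω, y ∈ Ω ∧ y ≠ x₀ ∧ G y x₀ < s) ∧
      ∀ z ∈ Ω, z ≠ x₀ → s < G z x₀ →
        Integrable (fun y => G z y / G x₀ y) ω ∧ ∫ y, G z y / G x₀ y ∂ω = 1 := by
  have hκ := hG.κ_pos
  have hmm := mm_pos hd
  obtain ⟨Ψ, Θ, w, c, a, hΨ, hΘ, hwc, hw, hΨw, hΘw, hlow, hhigh, hcs⟩ := exists_ramps hs
  obtain ⟨α, hα, hαb, hαG, hαt⟩ := exists_trunc hd hN hG hx₀ s
  have hh₀ := Green1.harm hd hN hG hx₀
  set g : E d → ℝ := fun y => G y x₀ with hg
  set D : E d → ℝ := fun x => (κ * mm d)⁻¹ *
    (Ω \ {x₀}).indicator (fun y => w (g y) * ‖fderiv ℝ g y‖ ^ 2) x with hD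
  have hD0 : ∀ x, 0 ≤ D x := fun x => by
    apply mul_nonneg (by positivity)
    apply indicator_nonneg
    intro y _
    exact mul_nonneg (hw _) (by positivity)
  have hDeq : ∀ ε, 0 < ε → ε < α → ∀ T, IsTrunc Ω κ G x₀ s ε T → ∀ x,
      κ * mm d * D x = Ω.indicator (fun y => w (T y) * ‖fderiv ℝ T y‖ ^ 2) x := by
    intro ε hε hεα T hT x
    rw [← indicator_eq hN hεα hαG hε hT (fun t ht => (hhigh t ht).1) x]
    simp only [hD]
    rw [← mul_assoc, mul_inv_cancel₀ (by positivity), one_mul]
  -- the density is continuous with integral one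
  obtain ⟨T₁, hT₁⟩ := hαt (α / 2) (by positivity) (by linarith)
  obtain ⟨p1, p2, p3, p4⟩ := comp_facts hT₁ hN hG hx₀ (by linarith : α / 2 < α) hαb hs hΨ
    (fun t ht => (hlow t ht).1)
  set φ₁ := Ω.indicator fun x => Ψ (T₁ x) with hφ₁
  have hDφ : ∀ x, D x = (κ * mm d)⁻¹ * ((Δ φ₁) x + κ * rho (α / 2) x₀ x) := by
    intro x
    have h1 : κ * mm d * D x = (Δ φ₁) x + κ * rho (α / 2) x₀ x := by
      rw [hDeq (α / 2) (by positivity) (by linarith) T₁ hT₁ x]
      by_cases hx : x ∈ Ω
      · rw [indicator_of_mem hx, p4 x hx, hΨw]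
        have h2 : deriv Ψ (T₁ x) * rho (α / 2) x₀ x = rho (α / 2) x₀ x := by
          rcases le_total (dist x x₀) (α / 2) with h | h
          · rw [(hhigh _ (hT₁.ge x hx h)).2.2.1, one_mul]
          · rw [rho_zero (by positivity) h, mul_zero]
        rw [h2]
        ring
      · have h2 : α / 2 ≤ dist x x₀ := by
          by_contra hcon
          push Not at hcon
          exact hx (hαb (by rw [mem_ball]; linarith))
        rw [indicator_of_notMem hx, laplacian_notMem (fun h => hx (p3 h)),
          rho_zero (by positivity) h2]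
        ring
    rw [← h1, ← mul_assoc, inv_mul_cancel₀ (by positivity), one_mul]
  have hDc : Continuous D := by
    have h1 : D = fun x => (κ * mm d)⁻¹ * ((Δ φ₁) x + κ * rho (α / 2) x₀ x) := funext hDφ
    rw [h1]
    exact continuous_const.mul ((laplacian_continuous p1).add
      (continuous_const.mul (rho_continuous x₀)))
  obtain ⟨hr1, hr2⟩ := rho_integral (d := d) (by positivity : 0 < α / 2) x₀
  have hΔi : Integrable (Δ φ₁) := by
    have h1 := integrable_mul_laplacian (u := fun _ : E d => (1 : ℝ)) isOpen_univ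
      continuousOn_const p1 p2 (subset_univ _)
    simpa using h1
  have hDi : Integrable D := by
    have h1 : D = fun x => (κ * mm d)⁻¹ * ((Δ φ₁) x + κ * rho (α / 2) x₀ x) := funext hDφ
    rw [h1]
    exact (hΔi.add (hr1.const_mul κ)).const_mul _
  have hD1 : ∫ x, D x = 1 := by
    simp_rw [hDφ]
    rw [integral_const_mul, integral_add hΔi (hr1.const_mul κ), integral_const_mul, hr2,
      integral_laplacian p1 p2, zero_add, inv_mul_cancel₀ (by positivity)]
  have hDm : Measurable (fun x => (D x).toNNReal) := hDc.measurable.real_toNNReal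
  refine ⟨volume.withDensity (fun x => ((D x).toNNReal : ENNReal)), ⟨?_⟩, ?_, ?_⟩
  · rw [withDensity_apply _ MeasurableSet.univ, Measure.restrict_univ]
    have h1 := ofReal_integral_eq_lintegral_ofReal hDi (Eventually.of_forall hD0)
    rw [hD1, ENNReal.ofReal_one] at h1
    exact h1.symm
  · rw [ae_withDensity_iff hDm.coe_nnreal_ennreal]
    refine Eventually.of_forall fun y hy => ?_
    have h1 : D y ≠ 0 := by
      intro h
      rw [h] at hy
      simp at hy
    simp only [hD] at h1
    have h2 := right_ne_zero_of_mul h1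
    have h3 : y ∈ Ω \ {x₀} := by
      by_contra hcon
      exact h2 (indicator_of_notMem hcon _)
    rw [indicator_of_mem h3] at h2
    have h4 := left_ne_zero_of_mul h2
    refine ⟨h3.1, h3.2, ?_⟩
    by_contra hcon
    push Not at hcon
    exact h4 (hhigh _ hcon).1
  · intro z hz hzne hzs
    rw [integrable_withDensity_iff_integrable_smul hDm,
      integral_withDensity_eq_integral_smul hDm]
    have hsm : ∀ y, (D y).toNNReal • (G z y / G x₀ y) = D y * (G z y / G x₀ y) := fun y => by
      rw [NNReal.smul_def, Real.coe_toNNReal _ (hD0 y), smul_eq_mul]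
    simp_rw [hsm]
    obtain ⟨β, hβ, hβb, -, hβt⟩ := exists_trunc hd hN hG hz 0
    have hhz := Green1.harm hd hN hG hz
    have hcont : ContinuousAt g z := (hh₀ z ⟨hz, hzne⟩).1.continuousAt
    obtain ⟨r, hr, hrs⟩ := Metric.mem_nhds_iff.1 (hcont.eventually (lt_mem_nhds hzs))
    have hdist : 0 < dist x₀ z := dist_pos.2 hzne.symm
    set R := min (min α β) (min (dist x₀ z / 2) r) with hR
    have hR0 : 0 < R := by positivity
    have hRa : R ≤ α := (min_le_left _ _).trans (min_le_left _ _)
    have hRb : R ≤ β := (min_le_left _ _).trans (min_le_right _ _)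
    have hRd : R ≤ dist x₀ z / 2 := (min_le_right _ _).trans (min_le_left _ _)
    have hRr : R ≤ r := (min_le_right _ _).trans (min_le_right _ _)
    set ε := R / 2 with hε
    have hε0 : 0 < ε := by positivity
    have hεR : ε < R := by rw [hε]; linarith
    obtain ⟨T₀, hT₀⟩ := hαt ε hε0 (by linarith)
    obtain ⟨Tz, hTz⟩ := hβt ε hε0 (by linarith)
    have hfar : ∀ x, dist x z < R → R < dist x x₀ := fun x hx => by
      have h1 : dist x₀ z ≤ dist x x₀ + dist x z := dist_triangle_left _ _ _
      linarith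
    have hfar' : ∀ x, dist x x₀ < R → R < dist x z := fun x hx => by
      have h1 : dist x₀ z ≤ dist x x₀ + dist x z := dist_triangle_left _ _ _
      linarith
    obtain ⟨q1, q2, q3, q4⟩ := comp_facts hT₀ hN hG hx₀ (by linarith : ε < α) hαb hs hΘ
      (fun t ht => (hlow t ht).2.1)
    set φ := Ω.indicator fun x => Θ (T₀ x) with hφ
    have hTzc : ContDiffOn ℝ 2 Tz Ω := fun x hx => (hTz.smooth x hx).contDiffWithinAt
    have key := green_identity hN.isOpen hTzc q1 q2 q3
    -- the right-hand side
    have hubz : HarmonicOnNhd (fun x => a * G x x₀ - 1) (ball z R) := by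
      intro x hx
      rw [mem_ball] at hx
      have h1 : HarmonicAt (a • fun x => G x x₀) x := by
        refine HarmonicAt.const_smul (hh₀ x ⟨hβb (by rw [mem_ball]; linarith), ?_⟩)
        rintro rfl
        have := hfar x hx
        rw [dist_self] at this
        linarith
      exact h1.sub (harmonicAt_const 1)
    have hrhs : ∫ x, φ x * (Δ Tz) x = -(κ * (mm d * (a * G z x₀ - 1))) := by
      rw [← rho_mean hubz hε0 hεR, ← integral_const_mul, ← integral_neg]
      congr 1
      ext x
      by_cases hx : dist x z < ε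
      · have hxΩ : x ∈ Ω := hβb (by rw [mem_ball]; linarith)
        have h1 := hfar x (by linarith)
        have h2 : T₀ x = G x x₀ := hT₀.eq x hxΩ (by linarith)
        have h3 : s < G x x₀ := hrs (by rw [mem_ball]; linarith)
        rw [hTz.lap x hxΩ, hφ, indicator_of_mem hxΩ, h2, (hhigh _ h3.le).2.2.2.2.2]
        ring
      · push Not at hx
        by_cases hxΩ : x ∈ Ω
        · rw [hTz.lap x hxΩ, rho_zero hε0 hx]
          ring
        · rw [hφ, indicator_of_notMem hxΩ, rho_zero hε0 hx]
          ring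
    -- the left-hand side
    have hub₀ : HarmonicOnNhd (fun x => G x z) (ball x₀ R) := by
      intro x hx
      rw [mem_ball] at hx
      refine hhz x ⟨hαb (by rw [mem_ball]; linarith), ?_⟩
      rintro rfl
      have := hfar' x hx
      rw [dist_self] at this
      linarith
    have hi1 : Integrable (fun x => G x z * rho ε x₀ x) :=
      rho_integrable (R := R) (fun x hx => (hub₀ x hx).1.continuousAt.continuousWithinAt) hε0 hεR
    have hi2 := integrable_mul_laplacian hN.isOpen hTzc.continuousOn q1 q2 q3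
    have hpt : ∀ x, D x * (G z x / G x₀ x) =
        (κ * mm d)⁻¹ * (Tz x * (Δ φ) x + κ * a * (G x z * rho ε x₀ x)) := by
      intro x
      have h0 : κ * mm d * (D x * (G z x / G x₀ x)) =
          Tz x * (Δ φ) x + κ * a * (G x z * rho ε x₀ x) := by
        rw [← mul_assoc, hDeq ε hε0 (by linarith) T₀ hT₀ x]
        by_cases hx : x ∈ Ω
        · rw [indicator_of_mem hx, q4 x hx]
          have h2 : Tz x * (deriv Θ (T₀ x) * rho ε x₀ x) = a * (G x z * rho ε x₀ x) := by
            rcases lt_or_ge (dist x x₀) ε with h | h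
            · have h3 := hfar' x (by linarith)
              rw [hTz.eq x hx (by linarith), (hhigh _ (hT₀.ge x hx h.le)).2.2.2.2.1]
              ring
            · rw [rho_zero hε0 h]
              ring
          have h3 : Tz x * (deriv (deriv Θ) (T₀ x) * ‖fderiv ℝ T₀ x‖ ^ 2 -
              κ * (deriv Θ (T₀ x) * rho ε x₀ x)) + κ * a * (G x z * rho ε x₀ x) =
              Tz x * (deriv (deriv Θ) (T₀ x) * ‖fderiv ℝ T₀ x‖ ^ 2) := by
            have : Tz x * (deriv (deriv Θ) (T₀ x) * ‖fderiv ℝ T₀ x‖ ^ 2 -
              κ * (deriv Θ (T₀ x) * rho ε x₀ x)) =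
              Tz x * (deriv (deriv Θ) (T₀ x) * ‖fderiv ℝ T₀ x‖ ^ 2) -
              κ * (Tz x * (deriv Θ (T₀ x) * rho ε x₀ x)) := by ring
            rw [this, h2]
            ring
          rw [h3]
          rcases le_or_gt (T₀ x) (s / 2) with hl | hl
          · rw [(hlow _ hl).2.2.1, (hlow _ hl).2.2.2]
            ring
          rcases le_or_gt s (T₀ x) with hu | hu
          · rw [(hhigh _ hu).1, (hhigh _ hu).2.1]
            ring
          have hxε : ε < dist x x₀ := by
            by_contra hcon
            push Not at hcon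
            have := hT₀.ge x hx hcon
            linarith
          have hT₀x : T₀ x = G x x₀ := hT₀.eq x hx hxε.le
          have hxz : ε ≤ dist x z := by
            by_contra hcon
            push Not at hcon
            have h5 : s < G x x₀ := hrs (by rw [mem_ball]; linarith)
            linarith
          have hxne : x ≠ x₀ := by
            rintro rfl
            rw [dist_self] at hxε
            linarith
          have hxnez : x ≠ z := by
            rintro rfl
            rw [dist_self] at hxz
            linarith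
          rw [hTz.eq x hx hxz, green_symm hd hN hG hz hx hxnez.symm,
            green_symm hd hN hG hx₀ hx hxne.symm, ← hΘw, hT₀x]
          have h6 : G x x₀ ≠ 0 := by
            rw [← hT₀x]
            intro h
            rw [h] at hl
            linarith
          field_simp
        · have h2 : ε ≤ dist x x₀ := by
            by_contra hcon
            push Not at hcon
            exact hx (hαb (by rw [mem_ball]; linarith))
          rw [indicator_of_notMem hx, laplacian_notMem (fun h => hx (q3 h)), rho_zero hε0 h2]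
          ring
      rw [← h0, ← mul_assoc, inv_mul_cancel₀ (by positivity), one_mul]
    simp_rw [hpt]
    refine ⟨(hi2.add (hi1.const_mul (κ * a))).const_mul _, ?_⟩
    rw [integral_const_mul, integral_add hi2 (hi1.const_mul (κ * a)), integral_const_mul,
      rho_mean hub₀ hε0 hεR, key, hrhs, green_symm hd hN hG hx₀ hz hzne.symm]
    field_simp
    ring

end Pool.Agent.MP_578f25_an
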