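import Pool.Agent.Lib.MP_578f25_an.Defs

/-!
# Green's identity
-/

set_option autoImplicit false

namespace Pool.Agent.MP_578f25_an

open MeasureTheory Metric Set Filter Topology InnerProductSpace Laplacian

variable {d : ℕ}

/-- The standard basis vector. -/
noncomputable def ebasis (d : ℕ) (i : Fin d) : E d := EuclideanSpace.basisFun (Fin d) ℝ i

theorem laplacian_eq_sum (f : E d → ℝ) (x : E d) :
    (Δ f) x = ∑ i, fderiv ℝ (fderiv ℝ f) x (ebasis d i) (ebasis d i) := by
  rw [laplacian_eq_iteratedFDeriv_orthonormalBasis f (EuclideanSpace.basisFun (Fin d) ℝ)]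
  refine Finset.sum_congr rfl fun i _ => ?_
  rw [iteratedFDeriv_two_apply]
  rfl

theorem contDiff_of_local {n : WithTop ℕ∞} {F : Type*} [NormedAddCommGroup F] [NormedSpace ℝ F]
    {f : E d → F} (h : ∀ x ∈ tsupport f, ContDiffAt ℝ n f x) : ContDiff ℝ n f := by
  rw [contDiff_iff_contDiffAt]
  intro x
  by_cases hx : x ∈ tsupport f
  · exact h x hx
  · exact contDiffAt_const.congr_of_eventuallyEq (notMem_tsupport_iff_eventuallyEq.1 hx)

theorem integral_fderiv_eq_zero {F : E d → ℝ} (hF : ContDiff ℝ 1 F) (hc : HasCompactSupport F)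
    (v : E d) : ∫ x, fderiv ℝ F x v = 0 := by
  have h1 : Continuous fun x => fderiv ℝ F x v :=
    (hF.continuous_fderiv (by norm_num)).clm_apply continuous_const
  have hi : Integrable (fun x => fderiv ℝ F x v) :=
    h1.integrable_of_hasCompactSupport (hc.fderiv_apply ℝ v)
  have := integral_mul_fderiv_eq_neg_fderiv_mul_of_integrable (μ := (volume : Measure (E d)))
    (f := fun _ => (1 : ℝ)) (g := F) (v := v) ?_ ?_ ?_ ?_ ?_
  · simpa using this
  · simp
  · simpa using hi
  · simpa using hF.continuous.integrable_of_hasCompactSupport hc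
  · intro x _; fun_prop
  · intro x _; exact hF.differentiable (by norm_num) x

/-- Green's identity. -/
theorem green_identity {Ω : Set (E d)} (hΩ : IsOpen Ω) {w φ : E d → ℝ}
    (hw : ContDiffOn ℝ 2 w Ω) (hφ : ContDiff ℝ 2 φ) (hc : HasCompactSupport φ)
    (hs : tsupport φ ⊆ Ω) :
    ∫ x, w x * (Δ φ) x = ∫ x, φ x * (Δ w) x := by
  have hwat : ∀ x ∈ Ω, ContDiffAt ℝ 2 w x := fun x hx => hw.contDiffAt (hΩ.mem_nhds hx)
  set e := ebasis d with he
  -- first derivatives
  have hdφ : ContDiff ℝ 1 (fderiv ℝ φ) := hφ.fderiv_right (by norm_num)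
  have hdw : ∀ x ∈ Ω, ContDiffAt ℝ 1 (fderiv ℝ w) x := fun x hx =>
    (hwat x hx).fderiv_right (by norm_num)
  have hts1 : tsupport (fderiv ℝ φ) ⊆ tsupport φ := tsupport_fderiv_subset ℝ
  have hts2 : tsupport (fderiv ℝ (fderiv ℝ φ)) ⊆ tsupport φ :=
    (tsupport_fderiv_subset ℝ).trans hts1
  let F : Fin d → E d → ℝ := fun i x => w x * fderiv ℝ φ x (e i) - φ x * fderiv ℝ w x (e i)
  have hzero : ∀ i, ∀ x, x ∉ tsupport φ → F i =ᶠ[𝓝 x] 0 := by
    intro i x hx
    have h1 := notMem_tsupport_iff_eventuallyEq.1 hx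
    have h2 := notMem_tsupport_iff_eventuallyEq.1 (fun h => hx (hts1 h))
    filter_upwards [h1, h2] with y hy1 hy2
    simp [F, hy1, hy2]
  have hFts : ∀ i, tsupport (F i) ⊆ tsupport φ := by
    intro i x hx
    by_contra hcon
    exact (notMem_tsupport_iff_eventuallyEq.2 (hzero i x hcon)) hx
  have hFc : ∀ i, HasCompactSupport (F i) := fun i =>
    hc.of_isClosed_subset (isClosed_tsupport _) (hFts i)
  have hF1 : ∀ i, ContDiff ℝ 1 (F i) := by
    intro i
    apply contDiff_of_local
    intro x hx
    have hxΩ : x ∈ Ω := hs (hFts i hx)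
    have a1 : ContDiffAt ℝ 1 w x := (hwat x hxΩ).of_le (by norm_num)
    have a2 : ContDiffAt ℝ 1 (fun x => fderiv ℝ φ x (e i)) x :=
      (hdφ.contDiffAt).clm_apply contDiffAt_const
    have a3 : ContDiffAt ℝ 1 φ x := (hφ.contDiffAt).of_le (by norm_num)
    have a4 : ContDiffAt ℝ 1 (fun x => fderiv ℝ w x (e i)) x :=
      (hdw x hxΩ).clm_apply contDiffAt_const
    exact (a1.mul a2).sub (a3.mul a4)
  let A : Fin d → E d → ℝ := fun i x => w x * fderiv ℝ (fderiv ℝ φ) x (e i) (e i)
  let B : Fin d → E d → ℝ := fun i x => φ x * fderiv ℝ (fderiv ℝ w) x (e i) (e i)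
  have hAB : ∀ i x, fderiv ℝ (F i) x (e i) = A i x - B i x := by
    intro i x
    by_cases hx : x ∈ tsupport φ
    · have hxΩ : x ∈ Ω := hs hx
      have b1 : DifferentiableAt ℝ w x := (hwat x hxΩ).differentiableAt (by norm_num)
      have b2 : DifferentiableAt ℝ (fun x => fderiv ℝ φ x (e i)) x :=
        ((hdφ.differentiable (by norm_num)) x).clm_apply (differentiableAt_const _)
      have b3 : DifferentiableAt ℝ φ x := (hφ.differentiable (by norm_num)) x
      have b4 : DifferentiableAt ℝ (fun x => fderiv ℝ w x (e i)) x :=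
        ((hdw x hxΩ).differentiableAt (by norm_num)).clm_apply (differentiableAt_const _)
      have c1 : fderiv ℝ (fun x => fderiv ℝ φ x (e i)) x =
          (fderiv ℝ (fderiv ℝ φ) x).flip (e i) := by
        rw [fderiv_clm_apply ((hdφ.differentiable (by norm_num)) x) (differentiableAt_const _)]
        simp
      have c2 : fderiv ℝ (fun x => fderiv ℝ w x (e i)) x =
          (fderiv ℝ (fderiv ℝ w) x).flip (e i) := by
        rw [fderiv_clm_apply ((hdw x hxΩ).differentiableAt (by norm_num))
          (differentiableAt_const _)]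
        simp
      have : fderiv ℝ (F i) x = (w x • fderiv ℝ (fun x => fderiv ℝ φ x (e i)) x +
          (fderiv ℝ φ x (e i)) • fderiv ℝ w x) -
          (φ x • fderiv ℝ (fun x => fderiv ℝ w x (e i)) x +
          (fderiv ℝ w x (e i)) • fderiv ℝ φ x) := by
        have := (b1.hasFDerivAt.mul b2.hasFDerivAt).sub (b3.hasFDerivAt.mul b4.hasFDerivAt)
        exact this.fderiv
      rw [this, c1, c2]
      simp [A, B]
      ring
    · have h1 : fderiv ℝ (F i) x = 0 := by
        rw [(hzero i x hx).fderiv_eq]; simp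
      have h2 : φ x = 0 := image_eq_zero_of_notMem_tsupport hx
      have h3 : fderiv ℝ (fderiv ℝ φ) x = 0 :=
        image_eq_zero_of_notMem_tsupport (fun h => hx (hts2 h))
      simp [A, B, h1, h2, h3]
  have hAc : ∀ i, Continuous (A i) ∧ HasCompactSupport (A i) := by
    intro i
    have hts : tsupport (A i) ⊆ tsupport φ := by
      refine (closure_mono ?_).trans (hts2)
      intro x hx
      simp only [Function.mem_support, A] at hx ⊢
      intro h0
      rw [h0] at hx
      simp at hx
    refine ⟨continuous_of_tsupport fun x hx => ?_, hc.of_isClosed_subset (isClosed_tsupport _) hts⟩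
    have hxΩ : x ∈ Ω := hs (hts hx)
    have a1 : ContinuousAt w x := (hwat x hxΩ).continuousAt
    have a2 : Continuous (fun x => fderiv ℝ (fderiv ℝ φ) x (e i) (e i)) :=
      ((hdφ.continuous_fderiv (by norm_num)).clm_apply continuous_const).clm_apply continuous_const
    exact a1.mul a2.continuousAt
  have hBc : ∀ i, Continuous (B i) ∧ HasCompactSupport (B i) := by
    intro i
    have hts : tsupport (B i) ⊆ tsupport φ := by
      refine closure_mono ?_
      intro x hx
      simp only [Function.mem_support, B] at hx ⊢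
      intro h0
      rw [h0] at hx
      simp at hx
    refine ⟨continuous_of_tsupport fun x hx => ?_, hc.of_isClosed_subset (isClosed_tsupport _) hts⟩
    have hxΩ : x ∈ Ω := hs (hts hx)
    have a1 : ContinuousAt φ x := hφ.continuous.continuousAt
    have a2 : ContinuousAt (fun x => fderiv ℝ (fderiv ℝ w) x) x :=
      (((hdw x hxΩ).fderiv_right (m := 0) (by norm_num))).continuousAt
    exact a1.mul ((a2.clm_apply continuousAt_const).clm_apply continuousAt_const)
  have hAi : ∀ i, Integrable (A i) := fun i => (hAc i).1.integrable_of_hasCompactSupport (hAc i).2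
  have hBi : ∀ i, Integrable (B i) := fun i => (hBc i).1.integrable_of_hasCompactSupport (hBc i).2
  have key : ∀ i, ∫ x, A i x = ∫ x, B i x := by
    intro i
    have h := integral_fderiv_eq_zero (hF1 i) (hFc i) (e i)
    simp_rw [hAB i] at h
    rw [integral_sub (hAi i) (hBi i)] at h
    linarith
  have e1 : ∀ x, w x * (Δ φ) x = ∑ i, A i x := by
    intro x
    rw [laplacian_eq_sum, Finset.mul_sum]
  have e2 : ∀ x, φ x * (Δ w) x = ∑ i, B i x := by
    intro x
    rw [laplacian_eq_sum, Finset.mul_sum]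
  simp_rw [e1, e2]
  rw [integral_finsetSum _ (fun i _ => hAi i), integral_finsetSum _ (fun i _ => hBi i)]
  exact Finset.sum_congr rfl fun i _ => key i

end Pool.Agent.MP_578f25_an
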