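import Pool.Agent.Lib.MP_578f25_an.Harm1

/-!
# Laplacian of compositions and of radial functions
-/

set_option autoImplicit false

namespace Pool.Agent.MP_578f25_an

open MeasureTheory Metric Set Filter Topology InnerProductSpace Laplacian

variable {d : ℕ}

theorem sum_sq_apply_ebasis (L : E d →L[ℝ] ℝ) : ∑ i, L (ebasis d i) ^ 2 = ‖L‖ ^ 2 := by
  have h1 : ∀ i, L (ebasis d i) = inner ℝ ((toDual ℝ (E d)).symm L) (ebasis d i) := by
    intro i
    rw [toDual_symm_apply]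
  have h2 : ‖L‖ = ‖(toDual ℝ (E d)).symm L‖ := by
    rw [LinearIsometryEquiv.norm_map]
  rw [h2]
  simp_rw [h1]
  have := (EuclideanSpace.basisFun (Fin d) ℝ).sum_sq_norm_inner_left ((toDual ℝ (E d)).symm L)
  rw [← this]
  refine Finset.sum_congr rfl fun i _ => ?_
  simp [ebasis]

/-- Chain rule for the Laplacian. -/
theorem laplacian_comp {f : E d → ℝ} {Ψ : ℝ → ℝ} {x : E d} (hf : ContDiffAt ℝ 2 f x)
    (hΨ : ContDiffAt ℝ 2 Ψ (f x)) :
    (Δ (fun y => Ψ (f y))) x =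
      deriv (deriv Ψ) (f x) * ‖fderiv ℝ f x‖ ^ 2 + deriv Ψ (f x) * (Δ f) x := by
  have hd1 : ∀ᶠ y in 𝓝 x, fderiv ℝ (fun y => Ψ (f y)) y = deriv Ψ (f y) • fderiv ℝ f y := by
    have h1 : ∀ᶠ y in 𝓝 x, DifferentiableAt ℝ f y :=
      (hf.eventually (by simp)).mono fun y hy => hy.differentiableAt (by norm_num)
    have h2 : ∀ᶠ y in 𝓝 x, DifferentiableAt ℝ Ψ (f y) :=
      hf.continuousAt.eventually
        ((hΨ.eventually (by simp)).mono fun y hy => hy.differentiableAt (by norm_num))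
    filter_upwards [h1, h2] with y hy1 hy2
    have := (hy2.hasDerivAt.comp_hasFDerivAt y hy1.hasFDerivAt).fderiv
    exact this
  have hfd : DifferentiableAt ℝ f x := hf.differentiableAt (by norm_num)
  have hΨ' : DifferentiableAt ℝ (deriv Ψ) (f x) := by
    have h1 : ContDiffAt ℝ 1 (fderiv ℝ Ψ) (f x) := hΨ.fderiv_right (by norm_num)
    have h2 : DifferentiableAt ℝ (fun y => fderiv ℝ Ψ y 1) (f x) :=
      (h1.differentiableAt (by norm_num)).clm_apply (differentiableAt_const _)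
    exact h2
  have hff : DifferentiableAt ℝ (fderiv ℝ f) x :=
    (hf.fderiv_right (m := 1) (by norm_num)).differentiableAt (by norm_num)
  have hcomp : HasFDerivAt (fun y => deriv Ψ (f y)) (deriv (deriv Ψ) (f x) • fderiv ℝ f x) x :=
    hΨ'.hasDerivAt.comp_hasFDerivAt x hfd.hasFDerivAt
  have key : ∀ i, fderiv ℝ (fderiv ℝ (fun y => Ψ (f y))) x (ebasis d i) (ebasis d i) =
      deriv (deriv Ψ) (f x) * fderiv ℝ f x (ebasis d i) ^ 2 +
        deriv Ψ (f x) * fderiv ℝ (fderiv ℝ f) x (ebasis d i) (ebasis d i) := by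
    intro i
    have h1 : fderiv ℝ (fderiv ℝ (fun y => Ψ (f y))) x =
        fderiv ℝ (fun y => deriv Ψ (f y) • fderiv ℝ f y) x := by
      apply Filter.EventuallyEq.fderiv_eq
      exact hd1
    have h3 := h1.trans (hcomp.smul hff.hasFDerivAt).fderiv
    rw [h3]
    simp
    ring
  rw [laplacian_eq_sum, laplacian_eq_sum]
  simp_rw [key]
  rw [Finset.sum_add_distrib, ← Finset.mul_sum, ← Finset.mul_sum, sum_sq_apply_ebasis]

theorem hasFDerivAt_normSq (z y : E d) :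
    HasFDerivAt (fun y : E d => ‖y - z‖ ^ 2) (2 • (innerSL ℝ (y - z))) y := by
  have h0 : HasFDerivAt (fun w : E d => ‖w‖ ^ 2) (2 • innerSL ℝ (y - z)) (y - z) :=
    (hasStrictFDerivAt_norm_sq (y - z)).hasFDerivAt
  have h1 : HasFDerivAt (fun y : E d => y - z) (ContinuousLinearMap.id ℝ (E d)) y :=
    (hasFDerivAt_id y).sub_const z
  have h := h0.comp y h1
  rw [ContinuousLinearMap.comp_id] at h
  exact h

theorem contDiff_normSq (z : E d) {n : WithTop ℕ∞} : ContDiff ℝ n (fun y : E d => ‖y - z‖ ^ 2) :=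
  (contDiff_norm_sq ℝ).comp (contDiff_id.sub contDiff_const)

theorem fderiv_normSq (z : E d) :
    fderiv ℝ (fun y : E d => ‖y - z‖ ^ 2) = fun y => 2 • (innerSL ℝ (y - z)) := by
  ext1 y
  exact (hasFDerivAt_normSq z y).fderiv

theorem norm_fderiv_normSq (z y : E d) :
    ‖fderiv ℝ (fun y : E d => ‖y - z‖ ^ 2) y‖ ^ 2 = 4 * ‖y - z‖ ^ 2 := by
  rw [fderiv_normSq]
  have h : ‖(2 • (innerSL ℝ (y - z)) : E d →L[ℝ] ℝ)‖ = 2 * ‖y - z‖ := by
    rw [← Nat.cast_smul_eq_nsmul ℝ, norm_smul, innerSL_apply_norm]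
    simp
  rw [h]
  ring

theorem laplacian_normSq (z x : E d) : (Δ (fun y : E d => ‖y - z‖ ^ 2)) x = 2 * (d : ℝ) := by
  rw [laplacian_eq_sum, fderiv_normSq]
  have h : ∀ i, fderiv ℝ (fun y : E d => 2 • (innerSL ℝ (y - z))) x (ebasis d i) (ebasis d i) =
      2 := by
    intro i
    have h1 : HasFDerivAt (fun y : E d => 2 • (innerSL ℝ (y - z)))
        (2 • (innerSL ℝ : E d →L[ℝ] (E d →L[ℝ] ℝ))) x := by
      have h2 : HasFDerivAt (fun y : E d => innerSL ℝ (y - z))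
          (innerSL ℝ : E d →L[ℝ] (E d →L[ℝ] ℝ)) x := by
        have h3 : HasFDerivAt (fun y : E d => y - z) (ContinuousLinearMap.id ℝ (E d)) x :=
          (hasFDerivAt_id x).sub_const z
        have h4 := (innerSL ℝ : E d →L[ℝ] (E d →L[ℝ] ℝ)).hasFDerivAt.comp x h3
        rw [ContinuousLinearMap.comp_id] at h4
        exact h4
      exact h2.const_smul 2
    rw [h1.fderiv]
    have h5 : (inner ℝ (ebasis d i) (ebasis d i) : ℝ) = 1 := by simp [ebasis]
    have h6 : ((innerSL ℝ) (ebasis d i)) (ebasis d i) = (1 : ℝ) := h5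
    have h7 : ((2 • (innerSL ℝ : E d →L[ℝ] (E d →L[ℝ] ℝ))) (ebasis d i)) (ebasis d i) =
        2 • ((innerSL ℝ) (ebasis d i)) (ebasis d i) := rfl
    rw [h7, h6]
    norm_num
  simp_rw [h]
  simp
  ring

/-- Laplacian of radial functions. -/
theorem laplacian_radial {f : ℝ → ℝ} {z x : E d} (hf : ContDiffAt ℝ 2 f (‖x - z‖ ^ 2)) :
    (Δ (fun y => f (‖y - z‖ ^ 2))) x =
      4 * ‖x - z‖ ^ 2 * deriv (deriv f) (‖x - z‖ ^ 2) + 2 * d * deriv f (‖x - z‖ ^ 2) := by
  rw [laplacian_comp (contDiff_normSq z).contDiffAt hf, norm_fderiv_normSq, laplacian_normSq]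
  ring

end Pool.Agent.MP_578f25_an
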