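import Pool.Agent.Lib.MP_578f25_an.Harm2

/-!
# Mean value property
-/

set_option autoImplicit false

namespace Pool.Agent.MP_578f25_an

open MeasureTheory Metric Set Filter Topology InnerProductSpace Laplacian

variable {d : ℕ}

theorem sum_apply_ebasis (L : E d →L[ℝ] ℝ) (y : E d) : ∑ i, y i * L (ebasis d i) = L y := by
  have h : y = ∑ i, y i • ebasis d i := by
    have := (EuclideanSpace.basisFun (Fin d) ℝ).sum_repr y
    simpa [ebasis] using this.symm
  conv_rhs => rw [h]
  simp

section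

variable {u : E d → ℝ} {x : E d} {R ρ : ℝ} {ψ : ℝ → ℝ}

/-- For `|r| ρ < R` and functions `g` continuous on `B(x,R)` the product
`g (x + r y) * ψ (|y|^2)` is continuous. -/
theorem continuous_scaled {g : E d → ℝ} (hg : ContinuousOn g (ball x R)) {k : E d → ℝ}
    (hk : Continuous k) (hk0 : ∀ y, ρ ≤ ‖y‖ → k y = 0) {r : ℝ} (hr : |r| * ρ < R) :
    Continuous fun y => g (x + r • y) * k y := by
  apply continuous_of_tsupport
  intro y hy
  have hts : tsupport (fun y => g (x + r • y) * k y) ⊆ closedBall 0 ρ := by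
    apply closure_minimal _ isClosed_closedBall
    intro y hy
    rw [mem_closedBall, dist_zero_right]
    by_contra hcon
    apply hy
    simp [hk0 y (not_le.1 hcon).le]
  have hy' := hts hy
  rw [mem_closedBall, dist_zero_right] at hy'
  have hxy : x + r • y ∈ ball x R := by
    rw [mem_ball, dist_eq_norm, add_sub_cancel_left, norm_smul, Real.norm_eq_abs]
    calc |r| * ‖y‖ ≤ |r| * ρ := by gcongr
      _ < R := hr
  have h1 : ContinuousAt g (x + r • y) := hg.continuousAt (isOpen_ball.mem_nhds hxy)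
  have h2 : ContinuousAt (fun y => g (x + r • y)) y :=
    ContinuousAt.comp (f := fun y : E d => x + r • y) h1 (by fun_prop)
  exact h2.mul hk.continuousAt

theorem integrable_scaled {g : E d → ℝ} (hg : ContinuousOn g (ball x R)) {k : E d → ℝ}
    (hk : Continuous k) (hk0 : ∀ y, ρ ≤ ‖y‖ → k y = 0) {r : ℝ} (hr : |r| * ρ < R) :
    Integrable fun y => g (x + r • y) * k y := by
  apply (continuous_scaled hg hk hk0 hr).integrable_of_hasCompactSupport
  apply HasCompactSupport.intro (isCompact_closedBall (0 : E d) ρ)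
  intro y hy
  rw [mem_closedBall, dist_zero_right, not_le] at hy
  simp [hk0 y hy.le]

theorem deriv_integral_zero (hu : HarmonicOnNhd u (ball x R)) (hψ : Continuous ψ)
    (hs : ∀ t, ρ ^ 2 ≤ t → ψ t = 0) (hρ : 0 < ρ) {r : ℝ} (hr : |r| * ρ < R) :
    ∫ y, fderiv ℝ u (x + r • y) y * ψ (‖y‖ ^ 2) = 0 := by
  -- the potential of `y ψ(|y|^2)`
  let P : ℝ → ℝ := fun t => ∫ s in (ρ ^ 2)..t, ψ s
  have hPd : ∀ t, HasDerivAt P (ψ t) t := fun t =>
    intervalIntegral.integral_hasDerivAt_right (hψ.intervalIntegrable _ _)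
      (hψ.stronglyMeasurableAtFilter _ _) hψ.continuousAt
  have hP1 : ContDiff ℝ 1 P := by
    rw [contDiff_one_iff_deriv]
    refine ⟨fun t => (hPd t).differentiableAt, ?_⟩
    have : deriv P = ψ := funext fun t => (hPd t).deriv
    rw [this]; exact hψ
  have hP0 : ∀ t, ρ ^ 2 ≤ t → P t = 0 := by
    intro t ht
    have h1 : EqOn ψ (fun _ => 0) (uIcc (ρ ^ 2) t) := by
      intro s hs'
      rw [uIcc_of_le ht] at hs'
      exact hs s hs'.1
    show ∫ s in (ρ ^ 2)..t, ψ s = 0
    rw [intervalIntegral.integral_congr h1]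
    simp
  let Φ : E d → ℝ := fun y => (1 / 2) * P (‖y - 0‖ ^ 2)
  have hΦ1 : ContDiff ℝ 1 Φ := contDiff_const.mul (hP1.comp (contDiff_normSq 0))
  have hΦ0 : ∀ y, ρ ≤ ‖y‖ → Φ y = 0 := by
    intro y hy
    have : ρ ^ 2 ≤ ‖y‖ ^ 2 := by gcongr
    simp [Φ, hP0 _ this]
  have hΦd : ∀ y, HasFDerivAt Φ (ψ (‖y‖ ^ 2) • innerSL ℝ y) y := by
    intro y
    have h1 := (hPd (‖y - 0‖ ^ 2)).comp_hasFDerivAt y (hasFDerivAt_normSq 0 y)
    have h2 := h1.const_mul (1 / 2 : ℝ)
    have h3 : (1 / 2 : ℝ) • ψ (‖y - 0‖ ^ 2) • (2 • innerSL ℝ (y - 0)) =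
        ψ (‖y‖ ^ 2) • innerSL ℝ y := by
      rw [sub_zero, smul_comm, ← Nat.cast_smul_eq_nsmul ℝ, smul_smul (1 / 2 : ℝ)]
      norm_num
    rw [h3] at h2
    exact h2
  have huat : ∀ y ∈ ball x R, ContDiffAt ℝ 2 u y := fun y hy => (hu y hy).1
  have hmem : ∀ y : E d, ‖y‖ ≤ ρ → x + r • y ∈ ball x R := by
    intro y hy
    rw [mem_ball, dist_eq_norm, add_sub_cancel_left, norm_smul, Real.norm_eq_abs]
    calc |r| * ‖y‖ ≤ |r| * ρ := by gcongr
      _ < R := hr
  have hdu : ∀ y : E d, ‖y‖ ≤ ρ → ContDiffAt ℝ 1 (fun y => fderiv ℝ u (x + r • y)) y := by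
    intro y hy
    have h1 : ContDiffAt ℝ 1 (fderiv ℝ u) (x + r • y) :=
      (huat _ (hmem y hy)).fderiv_right (by norm_num)
    exact ContDiffAt.comp (f := fun y : E d => x + r • y) y h1 (by fun_prop)
  let G : Fin d → E d → ℝ := fun i y => fderiv ℝ u (x + r • y) (ebasis d i) * Φ y
  have hGts : ∀ i, tsupport (G i) ⊆ closedBall 0 ρ := by
    intro i
    apply closure_minimal _ isClosed_closedBall
    intro y hy
    rw [mem_closedBall, dist_zero_right]
    by_contra hcon
    apply hy
    simp [G, hΦ0 y (not_le.1 hcon).le]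
  have hGc : ∀ i, HasCompactSupport (G i) := fun i =>
    (isCompact_closedBall (0 : E d) ρ).of_isClosed_subset (isClosed_tsupport _) (hGts i)
  have hG1 : ∀ i, ContDiff ℝ 1 (G i) := by
    intro i
    apply contDiff_of_local
    intro y hy
    have hy' := hGts i hy
    rw [mem_closedBall, dist_zero_right] at hy'
    exact ((hdu y hy').clm_apply contDiffAt_const).mul hΦ1.contDiffAt
  have hGd : ∀ i y, fderiv ℝ (G i) y (ebasis d i) =
      r * (fderiv ℝ (fderiv ℝ u) (x + r • y) (ebasis d i) (ebasis d i)) * Φ y +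
        fderiv ℝ u (x + r • y) (ebasis d i) * (ψ (‖y‖ ^ 2) * y i) := by
    intro i y
    by_cases hy : ‖y‖ ≤ ρ
    · have h1 : DifferentiableAt ℝ (fderiv ℝ u) (x + r • y) :=
        ((huat _ (hmem y hy)).fderiv_right (m := 1) (by norm_num)).differentiableAt (by norm_num)
      have h2 : HasFDerivAt (fun y : E d => x + r • y) (r • ContinuousLinearMap.id ℝ (E d)) y :=
        ((hasFDerivAt_id (𝕜 := ℝ) y).const_smul r).const_add x
      have h3 : HasFDerivAt (fun y => fderiv ℝ u (x + r • y))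
          ((fderiv ℝ (fderiv ℝ u) (x + r • y)).comp (r • ContinuousLinearMap.id ℝ (E d))) y :=
        h1.hasFDerivAt.comp y h2
      have h4 := h3.clm_apply (hasFDerivAt_const (ebasis d i) y)
      have h5 := h4.mul (hΦd y)
      have h6 : fderiv ℝ (G i) y = _ := h5.fderiv
      rw [h6]
      have h7 : (innerSL ℝ y) (ebasis d i) = y i := by
        exact EuclideanSpace.inner_basisFun_real (Fin d) y i
      simp [h7]
      ring
    · have hy2 : ρ < ‖y‖ := not_le.1 hy
      have h1 : fderiv ℝ (G i) y = 0 := by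
        have : y ∉ tsupport (G i) := fun h => by
          have := hGts i h
          rw [mem_closedBall, dist_zero_right] at this
          exact hy this
        rw [(notMem_tsupport_iff_eventuallyEq.1 this).fderiv_eq]; simp
      have h2 : ψ (‖y‖ ^ 2) = 0 := hs _ (by gcongr)
      rw [h1, hΦ0 y hy2.le, h2]
      simp
  have hsum : ∀ y, fderiv ℝ u (x + r • y) y * ψ (‖y‖ ^ 2) =
      ∑ i, fderiv ℝ (G i) y (ebasis d i) := by
    intro y
    simp_rw [hGd]
    rw [Finset.sum_add_distrib]
    have e1 : ∑ i, r * (fderiv ℝ (fderiv ℝ u) (x + r • y) (ebasis d i) (ebasis d i)) * Φ y = 0 := by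
      rw [← Finset.sum_mul, ← Finset.mul_sum, ← laplacian_eq_sum]
      by_cases hy : ‖y‖ ≤ ρ
      · have := (hu _ (hmem y hy)).2.self_of_nhds
        simp only [Pi.zero_apply] at this
        rw [this]; simp
      · rw [hΦ0 y (not_le.1 hy).le]; simp
    rw [e1, zero_add, ← sum_apply_ebasis (fderiv ℝ u (x + r • y)) y, Finset.sum_mul]
    exact Finset.sum_congr rfl fun i _ => by ring
  simp_rw [hsum]
  rw [integral_finsetSum]
  · exact Finset.sum_eq_zero fun i _ => integral_fderiv_eq_zero (hG1 i) (hGc i) _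
  · intro i _
    have h1 : Continuous fun x => fderiv ℝ (G i) x (ebasis d i) :=
      ((hG1 i).continuous_fderiv (by norm_num)).clm_apply continuous_const
    exact h1.integrable_of_hasCompactSupport ((hGc i).fderiv_apply ℝ _)

theorem mean_value_scaled (hu : HarmonicOnNhd u (ball x R)) (hψ : Continuous ψ)
    (hs : ∀ t, ρ ^ 2 ≤ t → ψ t = 0) (hρ : 0 < ρ) (hρR : ρ < R) :
    ∫ y, u (x + (1 : ℝ) • y) * ψ (‖y‖ ^ 2) = u x * ∫ y : E d, ψ (‖y‖ ^ 2) := by
  have hk : Continuous fun y : E d => ψ (‖y‖ ^ 2) := by fun_prop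
  have hk0 : ∀ y : E d, ρ ≤ ‖y‖ → ψ (‖y‖ ^ 2) = 0 := fun y hy => hs _ (by gcongr)
  let A : ℝ → ℝ := fun r => ∫ y, u (x + r • y) * ψ (‖y‖ ^ 2)
  obtain ⟨r', hr1, hr2⟩ : ∃ r', 1 < r' ∧ r' * ρ < R := by
    refine ⟨(1 + R / ρ) / 2, ?_, ?_⟩
    · have : 1 < R / ρ := by rw [lt_div_iff₀ hρ]; linarith
      linarith
    · have h1 : R / ρ * ρ = R := by field_simp
      have : (1 + R / ρ) / 2 * ρ = (ρ + R) / 2 := by
        calc (1 + R / ρ) / 2 * ρ = (ρ + R / ρ * ρ) / 2 := by ring
          _ = _ := by rw [h1]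
      rw [this]; linarith
  have huc : ContinuousOn u (ball x R) := hu.continuousOn
  have huat : ∀ y ∈ ball x R, ContDiffAt ℝ 2 u y := fun y hy => (hu y hy).1
  have hduc : ContinuousOn (fderiv ℝ u) (ball x R) := fun y hy =>
    (((huat y hy).fderiv_right (m := 1) (by norm_num)).continuousAt).continuousWithinAt
  -- bounds
  obtain ⟨C₁, hC₁⟩ : ∃ C, ∀ y ∈ closedBall x (r' * ρ), ‖fderiv ℝ u y‖ ≤ C :=
    (isCompact_closedBall x (r' * ρ)).exists_bound_of_continuousOn
      (hduc.mono (closedBall_subset_ball hr2))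
  have hC₁0 : 0 ≤ C₁ := (norm_nonneg _).trans (hC₁ x (mem_closedBall_self (by positivity)))
  obtain ⟨C₂, hC₂⟩ : ∃ C, ∀ y ∈ closedBall (0 : E d) ρ, ‖ψ (‖y‖ ^ 2)‖ ≤ C :=
    (isCompact_closedBall (0 : E d) ρ).exists_bound_of_continuousOn hk.continuousOn
  have hC₂0 : 0 ≤ C₂ := (norm_nonneg _).trans (hC₂ 0 (mem_closedBall_self hρ.le))
  have hder : ∀ r ∈ Icc (0 : ℝ) 1, HasDerivAt A 0 r := by
    intro r hr
    have hrabs : |r| * ρ < R := by
      rw [abs_of_nonneg hr.1]
      calc r * ρ ≤ 1 * ρ := by gcongr; exact hr.2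
        _ < R := by linarith
    have hrr : r ∈ Ioo (-r') r' := ⟨by linarith [hr.1], by linarith [hr.2]⟩
    have hnear : ∀ s ∈ Ioo (-r') r', |s| * ρ < R := by
      intro s hs'
      have : |s| < r' := abs_lt.2 ⟨hs'.1, hs'.2⟩
      calc |s| * ρ ≤ r' * ρ := by gcongr
        _ < R := hr2
    have h := hasDerivAt_integral_of_dominated_loc_of_deriv_le (μ := (volume : Measure (E d)))
      (F := fun r y => u (x + r • y) * ψ (‖y‖ ^ 2))
      (F' := fun r y => fderiv ℝ u (x + r • y) y * ψ (‖y‖ ^ 2))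
      (x₀ := r) (s := Ioo (-r') r')
      (bound := fun y => (closedBall (0 : E d) ρ).indicator (fun _ => C₁ * ρ * C₂) y)
      (isOpen_Ioo.mem_nhds hrr) ?_ ?_ ?_ ?_ ?_ ?_
    · have h2 := h.2
      rw [deriv_integral_zero hu hψ hs hρ hrabs] at h2
      exact h2
    · filter_upwards [isOpen_Ioo.mem_nhds hrr] with s hs'
      exact (continuous_scaled huc hk hk0 (hnear s hs')).aestronglyMeasurable
    · exact integrable_scaled huc hk hk0 hrabs
    · -- measurability of the derivative
      have hcont : Continuous fun y => fderiv ℝ u (x + r • y) y * ψ (‖y‖ ^ 2) := by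
        apply continuous_of_tsupport
        intro y hy
        have hts : tsupport (fun y => fderiv ℝ u (x + r • y) y * ψ (‖y‖ ^ 2)) ⊆
            closedBall 0 ρ := by
          apply closure_minimal _ isClosed_closedBall
          intro y hy
          rw [mem_closedBall, dist_zero_right]
          by_contra hcon
          apply hy
          simp [hk0 y (not_le.1 hcon).le]
        have hy' := hts hy
        rw [mem_closedBall, dist_zero_right] at hy'
        have hxy : x + r • y ∈ ball x R := by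
          rw [mem_ball, dist_eq_norm, add_sub_cancel_left, norm_smul, Real.norm_eq_abs]
          calc |r| * ‖y‖ ≤ |r| * ρ := by gcongr
            _ < R := hrabs
        have h1 : ContinuousAt (fderiv ℝ u) (x + r • y) :=
          hduc.continuousAt (isOpen_ball.mem_nhds hxy)
        have h2 : ContinuousAt (fun y => fderiv ℝ u (x + r • y)) y :=
          ContinuousAt.comp (f := fun y : E d => x + r • y) h1 (by fun_prop)
        exact (h2.clm_apply continuousAt_id).mul hk.continuousAt
      exact hcont.aestronglyMeasurable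
    · refine Eventually.of_forall fun y s hs' => ?_
      by_cases hy : ‖y‖ ≤ ρ
      · have hyb : y ∈ closedBall (0 : E d) ρ := by rwa [mem_closedBall, dist_zero_right]
        rw [indicator_of_mem hyb, norm_mul]
        have h1 : x + s • y ∈ closedBall x (r' * ρ) := by
          rw [mem_closedBall, dist_eq_norm, add_sub_cancel_left, norm_smul, Real.norm_eq_abs]
          have : |s| < r' := abs_lt.2 ⟨hs'.1, hs'.2⟩
          gcongr
        have h2 : ‖fderiv ℝ u (x + s • y) y‖ ≤ C₁ * ρ :=
          ((fderiv ℝ u (x + s • y)).le_opNorm y).trans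
            (mul_le_mul (hC₁ _ h1) hy (norm_nonneg _) hC₁0)
        exact mul_le_mul h2 (hC₂ y hyb) (norm_nonneg _) (by positivity)
      · have hyb : y ∉ closedBall (0 : E d) ρ := by rwa [mem_closedBall, dist_zero_right]
        rw [indicator_of_notMem hyb, hk0 y (not_le.1 hy).le]
        simp
    · exact (integrable_indicator_iff measurableSet_closedBall).2
        (integrableOn_const (by exact measure_closedBall_lt_top.ne))
    · refine Eventually.of_forall fun y s hs' => ?_
      by_cases hy : ‖y‖ ≤ ρ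
      · have hxy : x + s • y ∈ ball x R := by
          rw [mem_ball, dist_eq_norm, add_sub_cancel_left, norm_smul, Real.norm_eq_abs]
          calc |s| * ‖y‖ ≤ |s| * ρ := by gcongr
            _ < R := hnear s hs'
        have h1 : HasDerivAt (fun s : ℝ => x + s • y) y s := by
          have := ((hasDerivAt_id s).smul_const y).const_add x
          simpa using this
        have h2 : HasFDerivAt u (fderiv ℝ u (x + s • y)) (x + s • y) :=
          ((huat _ hxy).differentiableAt (by norm_num)).hasFDerivAt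
        exact (h2.comp_hasDerivAt s h1).mul_const _
      · rw [hk0 y (not_le.1 hy).le]
        simpa using hasDerivAt_const s (0 : ℝ)
  have hconst := constant_of_has_deriv_right_zero (f := A) (a := 0) (b := 1)
    (fun r hr => (hder r hr).continuousAt.continuousWithinAt)
    (fun r hr => (hder r ⟨hr.1, hr.2.le⟩).hasDerivWithinAt) 1 ⟨by norm_num, le_rfl⟩
  have hA0 : A 0 = u x * ∫ y : E d, ψ (‖y‖ ^ 2) := by
    show ∫ y, u (x + (0 : ℝ) • y) * ψ (‖y‖ ^ 2) = _
    simp [integral_const_mul]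
  rw [← hA0, ← hconst]

/-- Weighted mean value property. -/
theorem mean_value (hu : HarmonicOnNhd u (ball x R))
    (hρ : 0 < ρ) (hρR : ρ < R) (hψ : Continuous ψ) (hs : ∀ t, ρ ^ 2 ≤ t → ψ t = 0) :
    ∫ y, u y * ψ (‖y - x‖ ^ 2) = u x * ∫ y : E d, ψ (‖y‖ ^ 2) := by
  rw [← mean_value_scaled hu hψ hs hρ hρR]
  have h := integral_add_left_eq_self (μ := (volume : Measure (E d)))
    (fun y => u y * ψ (‖y - x‖ ^ 2)) x
  rw [← h]
  simp

end

end Pool.Agent.MP_578f25_an
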