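import Pool.Agent.Lib.MP_578f25_an.Harm
import Pool.Agent.Lib.MP_578f25_an.Chain
import Pool.Agent.Lib.MP_578f25_an.BdryA
import Pool.Agent.Lib.MP_578f25_an.Green1
import Pool.Agent.Lib.MP_578f25_an.Green2d

/-!
# Martin kernels: two-sided bounds and Hölder continuity near the boundary
-/

set_option autoImplicit false

namespace Pool.Agent.MP_578f25_an

open MeasureTheory Metric Set Filter Topology InnerProductSpace

variable {d : ℕ} {Ω : Set (E d)} {M r₀ κ : ℝ} {G : E d → E d → ℝ}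

/-- The Green function is harmonic off the pole. -/
theorem green_harmonic (hd : 2 ≤ d) (hΩ : IsOpen Ω) (hG : IsGreen Ω κ G) {x y : E d}
    (hx : x ∈ Ω) (hy : y ∈ Ω) (hxy : x ≠ y) : HarmonicAt (fun x => G x y) x := by
  obtain ⟨h, hh, heq⟩ := hG.corrector y hy
  have h1 : (fun x => G x y) =ᶠ[𝓝 x] fun x => κ * newton (x - y) + h x := by
    filter_upwards [hΩ.mem_nhds hx, isOpen_ne.mem_nhds hxy] with z hz hzy
    exact heq z hz hzy
  rw [harmonicAt_congr_nhds h1]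
  have h2 : HarmonicAt (κ • fun x => newton (x - y)) x :=
    (newton_harmonic hd hxy).const_smul
  exact h2.add (hh x hx)

/-- The Green function with pole `z`, extended by zero. -/
noncomputable def uG (Ω : Set (E d)) (G : E d → E d → ℝ) (z : E d) : E d → ℝ :=
  Ω.indicator fun y => G y z

theorem uG_of_mem {z y : E d} (hy : y ∈ Ω) : uG Ω G z y = G y z := indicator_of_mem hy _

theorem van_uG (hd : 2 ≤ d) (hN : IsNTA Ω M r₀) (hG : IsGreen Ω κ G) {z ξ : E d} (hz : z ∈ Ω)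
    {R : ℝ} (hR : R ≤ dist z ξ) : Van Ω ξ R (uG Ω G z) := by
  have hne : ∀ y ∈ ball ξ R, y ≠ z := by
    rintro y hy rfl
    rw [mem_ball] at hy
    linarith
  have hopen := hN.isOpen
  have hloc : ∀ y ∈ Ω, uG Ω G z =ᶠ[𝓝 y] fun y => G y z := by
    intro y hy
    filter_upwards [hopen.mem_nhds hy] with w hw
    exact uG_of_mem hw
  have hharm : ∀ y ∈ Ω ∩ ball ξ R, HarmonicAt (uG Ω G z) y := by
    intro y hy
    rw [harmonicAt_congr_nhds (hloc y hy.1)]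
    exact green_harmonic hd hopen hG hy.1 hz (hne y hy.2)
  refine ⟨?_, fun y _ hy => indicator_of_notMem hy _, hharm, ?_⟩
  · intro y hy
    apply ContinuousAt.continuousWithinAt
    by_cases hyΩ : y ∈ Ω
    · exact (hharm y ⟨hyΩ, hy⟩).1.continuousAt
    · have h0 : uG Ω G z y = 0 := indicator_of_notMem hyΩ _
      by_cases hycl : y ∈ closure Ω
      · have hfr : y ∈ frontier Ω := ⟨hycl, fun h => hyΩ (interior_subset h)⟩
        have ht := hG.boundary z hz y hfr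
        rw [ContinuousAt, h0]
        have h1 : Tendsto (uG Ω G z) (𝓝[Ω] y) (𝓝 0) :=
          ht.congr' (by
            filter_upwards [self_mem_nhdsWithin] with w hw
            exact (uG_of_mem hw).symm)
        have h2 : Tendsto (uG Ω G z) (𝓝[Ωᶜ] y) (𝓝 0) := by
          apply tendsto_const_nhds.congr'
          filter_upwards [self_mem_nhdsWithin] with w hw
          exact (indicator_of_notMem hw _).symm
        have h3 := h1.sup h2
        rwa [← nhdsWithin_union, union_compl_self, nhdsWithin_univ] at h3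
      · have h1 : uG Ω G z =ᶠ[𝓝 y] fun _ => 0 := by
          filter_upwards [isClosed_closure.isOpen_compl.mem_nhds hycl] with w hw
          exact indicator_of_notMem (fun h => hw (subset_closure h)) _
        exact continuousAt_const.congr h1.symm
  · intro y hy
    by_cases hyΩ : y ∈ Ω
    · rw [uG_of_mem hyΩ]
      exact (green_pos hd hN hG hyΩ hz (hne y hy)).le
    · rw [uG, indicator_of_notMem hyΩ]

/-- `A` is a corkscrew point at `ξ` of scale `r`. -/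
structure IsCork (Ω : Set (E d)) (M : ℝ) (ξ : E d) (r : ℝ) (A : E d) : Prop where
  mem : A ∈ Ω
  lt : dist A ξ < r
  depth : M⁻¹ * r < infDist A (frontier Ω)

theorem exists_cork (hN : IsNTA Ω M r₀) {ξ : E d} (hξ : ξ ∈ frontier Ω) {r : ℝ} (hr : 0 < r)
    (hr₀ : r < r₀) : ∃ A, IsCork Ω M ξ r A := by
  obtain ⟨A, hA, _, h2, h3⟩ := hN.interior ξ hξ r hr hr₀
  exact ⟨A, hA, h2, h3⟩

/-- The boundary Harnack principle (proved in `Bdry.lean`), as a hypothesis. -/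
class HasBhp (d : ℕ) : Prop where
  out : 2 ≤ d → ∀ {Ω : Set (E d)} {M r₀ : ℝ}, IsNTA Ω M r₀ →
    ∃ C κ r₁ α : ℝ, 1 ≤ C ∧ 1 ≤ κ ∧ 0 < r₁ ∧ 0 < α ∧ α ≤ 1 ∧
      ∀ ξ ∈ frontier Ω, ∀ r : ℝ, 0 < r → r ≤ r₁ →
      ∀ A ∈ Ω, dist A ξ < r → M⁻¹ * r < infDist A (frontier Ω) →
      ∀ u : E d → ℝ, Van Ω ξ (κ * r) u →
        (∀ x ∈ ball ξ r, u x ≤ C * u A) ∧
        ∀ w : E d → ℝ, Van Ω ξ (κ * r) w →
          (∀ x ∈ Ω ∩ ball ξ r, u x * w A ≤ C * (w x * u A)) ∧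
          (0 < w A → (∀ x ∈ Ω ∩ ball ξ r, 0 < w x) ∧
            ∀ t : ℝ, ∀ x ∈ Ω ∩ ball ξ r, ∀ x' ∈ Ω ∩ ball ξ r, dist x ξ ≤ t → dist x' ξ ≤ t →
              |u x / w x - u x' / w x'| ≤ C * (t / r) ^ α * (u A / w A))

/-- Two-sided bounds and Hölder continuity of `G x y / G x₀ y` in `y` near the boundary. -/
theorem kernel_bhp [HasBhp d] (hd : 2 ≤ d) (hN : IsNTA Ω M r₀) (hG : IsGreen Ω κ G) :
    ∃ C κ' r₁ α : ℝ, 1 ≤ C ∧ 1 ≤ κ' ∧ 0 < r₁ ∧ 0 < α ∧ α ≤ 1 ∧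
      ∀ ξ ∈ frontier Ω, ∀ r : ℝ, 0 < r → r ≤ r₁ → ∀ A, IsCork Ω M ξ r A →
      ∀ x ∈ Ω, ∀ x₀ ∈ Ω, κ' * r ≤ dist x ξ → κ' * r ≤ dist x₀ ξ →
        (∀ y ∈ Ω ∩ ball ξ r, G x y / G x₀ y ≤ C * (G A x / G A x₀) ∧
          G A x / G A x₀ ≤ C * (G x y / G x₀ y)) ∧
        ∀ t : ℝ, ∀ y ∈ Ω ∩ ball ξ r, ∀ y' ∈ Ω ∩ ball ξ r, dist y ξ ≤ t → dist y' ξ ≤ t →
          |G x y / G x₀ y - G x y' / G x₀ y'| ≤ C * (t / r) ^ α * (G A x / G A x₀) := by
  obtain ⟨C, κ', r₁, α, hC, hκ', hr₁, hα, hα1, h⟩ := HasBhp.out hd hN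
  refine ⟨C, κ', r₁, α, hC, hκ', hr₁, hα, hα1, ?_⟩
  intro ξ hξ r hr hrr₁ A hA x hx x₀ hx₀ hxd hx₀d
  have hne : ∀ y ∈ ball ξ r, y ≠ x ∧ y ≠ x₀ := by
    intro y hy
    rw [mem_ball] at hy
    have h1 : r ≤ κ' * r := le_mul_of_one_le_left hr.le hκ'
    constructor
    · rintro rfl; linarith
    · rintro rfl; linarith
  have hAne := hne A hA.lt
  have hu := van_uG hd hN hG hx hxd
  have hw := van_uG hd hN hG hx₀ hx₀d
  have hxA : uG Ω G x A = G A x := uG_of_mem hA.mem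
  have hx₀A : uG Ω G x₀ A = G A x₀ := uG_of_mem hA.mem
  have hpx : 0 < G A x := green_pos hd hN hG hA.mem hx hAne.1
  have hpx₀ : 0 < G A x₀ := green_pos hd hN hG hA.mem hx₀ hAne.2
  obtain ⟨-, h1⟩ := h ξ hξ r hr hrr₁ A hA.mem hA.lt hA.depth _ hu
  obtain ⟨h2, h3⟩ := h1 _ hw
  obtain ⟨-, h1'⟩ := h ξ hξ r hr hrr₁ A hA.mem hA.lt hA.depth _ hw
  obtain ⟨h2', -⟩ := h1' _ hu
  obtain ⟨h4, h5⟩ := h3 (by rw [hx₀A]; exact hpx₀)
  have hval : ∀ y ∈ Ω ∩ ball ξ r, uG Ω G x y = G x y ∧ uG Ω G x₀ y = G x₀ y := by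
    intro y hy
    have hy' := hne y hy.2
    rw [uG_of_mem hy.1, uG_of_mem hy.1, green_symm hd hN hG hy.1 hx hy'.1,
      green_symm hd hN hG hy.1 hx₀ hy'.2]
    exact ⟨rfl, rfl⟩
  refine ⟨fun y hy => ?_, fun t y hy y' hy' hyt hyt' => ?_⟩
  · have hy' := hne y hy.2
    have e1 := h2 y hy
    have e2 := h2' y hy
    rw [(hval y hy).1, (hval y hy).2, hxA, hx₀A] at e1 e2
    have hq : 0 < G x₀ y := green_pos hd hN hG hx₀ hy.1 hy'.2.symm
    have hp : 0 < G x y := green_pos hd hN hG hx hy.1 hy'.1.symm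
    constructor
    · rw [div_le_iff₀ hq]
      calc G x y = G x y * G A x₀ / G A x₀ := by field_simp
        _ ≤ C * (G x₀ y * G A x) / G A x₀ := by gcongr
        _ = C * (G A x / G A x₀) * G x₀ y := by ring
    · rw [div_le_iff₀ hpx₀]
      calc G A x = G x₀ y * G A x / G x₀ y := by field_simp
        _ ≤ C * (G x y * G A x₀) / G x₀ y := by gcongr
        _ = C * (G x y / G x₀ y) * G A x₀ := by ring
  · have e1 := h5 t y hy y' hy' hyt hyt'
    rw [(hval y hy).1, (hval y hy).2, (hval y' hy').1, (hval y' hy').2, hxA, hx₀A] at e1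
    exact e1

/-- Comparability of `G(·, x₀)` near the boundary. -/
theorem green_compare (hd : 2 ≤ d) (hN : IsNTA Ω M r₀) (hG : IsGreen Ω κ G) {x₀ : E d}
    (hx₀ : x₀ ∈ Ω) {Λ : ℝ} (hΛ : 1 ≤ Λ) :
    ∃ C t₁ : ℝ, 1 ≤ C ∧ 0 < t₁ ∧ ∀ (t : ℝ) (x y : E d), 0 < t → t ≤ t₁ → x ∈ Ω → y ∈ Ω →
      t / Λ ≤ infDist x (frontier Ω) → infDist x (frontier Ω) ≤ Λ * t →
      t / Λ ≤ infDist y (frontier Ω) → dist x y ≤ Λ * t →
      G x x₀ ≤ C * G y x₀ ∧ G y x₀ ≤ C * G x x₀ := by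
  obtain ⟨C, Λ', hC, hΛ', h⟩ := chain_harnack hd hN hΛ
  have hδ : 0 < infDist x₀ (frontier Ω) := infDist_frontier_pos hd hN hx₀
  refine ⟨C, infDist x₀ (frontier Ω) / (2 * (Λ + Λ')), hC, by positivity, ?_⟩
  intro t x y ht ht₁ hx hy hxt hxt' hyt hxy
  have h1 : (Λ + Λ') * t ≤ infDist x₀ (frontier Ω) / 2 := by
    rw [le_div_iff₀ (by positivity)] at ht₁
    linarith
  have h2 : infDist x₀ (frontier Ω) ≤ infDist x (frontier Ω) + dist x₀ x := infDist_le_infDist_add_dist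
  have h3 : Λ' * t < dist x₀ x := by nlinarith
  refine h t x y ht hx hy hxt hyt hxy (fun z => G z x₀) (fun z hz => ?_) (fun z hz => ?_)
  · have hne : z ≠ x₀ := by
      rintro rfl
      have := hz.2
      rw [mem_ball] at this
      linarith
    exact green_harmonic hd hN.isOpen hG hz.1 hx₀ hne
  · have hne : z ≠ x₀ := by
      rintro rfl
      have := hz.2
      rw [mem_ball] at this
      linarith
    exact (green_pos hd hN hG hz.1 hx₀ hne).le

/-- Lower bound for `G(·, x₀)` away from the boundary. -/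
theorem green_bound_below (hd : 2 ≤ d) (hN : IsNTA Ω M r₀) (hG : IsGreen Ω κ G) {x₀ : E d}
    (hx₀ : x₀ ∈ Ω) {a : ℝ} (ha : 0 < a) :
    ∃ c : ℝ, 0 < c ∧ ∀ x ∈ Ω, x ≠ x₀ → a ≤ infDist x (frontier Ω) → c ≤ G x x₀ := by
  obtain ⟨L, hL⟩ := hN.isBounded.subset_closedBall x₀
  have hδ : 0 < infDist x₀ (frontier Ω) := infDist_frontier_pos hd hN hx₀
  set Λ := max 1 (max (1 / a) (max (1 / infDist x₀ (frontier Ω)) L)) with hΛ
  have h1 : 1 ≤ Λ := le_max_left _ _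
  have h2 : 1 / a ≤ Λ := (le_max_left _ _).trans (le_max_right _ _)
  have h3 : 1 / infDist x₀ (frontier Ω) ≤ Λ :=
    (le_max_left _ _).trans ((le_max_right _ _).trans (le_max_right _ _))
  have h4 : L ≤ Λ := (le_max_right _ _).trans ((le_max_right _ _).trans (le_max_right _ _))
  obtain ⟨c, hc, h⟩ := green_lower_far hd hN hG h1
  refine ⟨c, hc, fun x hx hne hax => ?_⟩
  have h5 : 1 / Λ ≤ a := by
    rw [div_le_iff₀ (by positivity)]
    rw [div_le_iff₀ ha] at h2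
    linarith
  have h6 : 1 / Λ ≤ infDist x₀ (frontier Ω) := by
    rw [div_le_iff₀ (by positivity)]
    rw [div_le_iff₀ hδ] at h3
    linarith
  have h7 := h 1 x x₀ one_pos hx hx₀ hne (h5.trans hax) h6 (by
    have := hL hx
    rw [mem_closedBall] at this
    linarith)
  simpa using h7

end Pool.Agent.MP_578f25_an
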