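import Pool.Agent.Lib.MP_578f25_an.Kern1

/-!
# Pointwise kernel estimates
-/

set_option autoImplicit false

namespace Pool.Agent.MP_578f25_an

open MeasureTheory Metric Set Filter Topology InnerProductSpace

variable {d : ℕ} {Ω : Set (E d)} {M r₀ κ : ℝ} {G : E d → E d → ℝ}
variable [HasBhp d]

theorem infDist_le_of_mem_frontier {x ξ : E d} (hξ : ξ ∈ frontier Ω) :
    infDist x (frontier Ω) ≤ dist x ξ := infDist_le_dist_of_mem hξ

/-- Lower bound of the kernel with pole near the corkscrew point. -/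
theorem kernel_lower (hd : 2 ≤ d) (hN : IsNTA Ω M r₀) (hG : IsGreen Ω κ G) {x₀ : E d}
    (hx₀ : x₀ ∈ Ω) :
    ∃ c t₁ Cτ : ℝ, 0 < c ∧ 0 < t₁ ∧ 1 ≤ Cτ ∧ t₁ < r₀ ∧ t₁ < infDist x₀ (frontier Ω) ∧
      ∀ ξ ∈ frontier Ω, ∀ r : ℝ, 0 < r → r ≤ t₁ → ∀ A, IsCork Ω M ξ r A →
      ∀ y ∈ Ω ∩ ball ξ r, infDist y (frontier Ω) ≤ r / Cτ →
        c * (r ^ (2 - (d : ℝ)) / G A x₀) ≤ G A y / G x₀ y := by
  obtain ⟨C, κ', r₁, α, hC, hκ', hr₁, -, -, hk⟩ := kernel_bhp hd hN hG
  have hM := hN.one_lt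
  have hM0 : 0 < M := by linarith
  have hδ : 0 < infDist x₀ (frontier Ω) := infDist_frontier_pos hd hN hx₀
  set Λ₁ : ℝ := max 4 (2 * M ^ 2 * κ') with hΛ₁
  have h4 : (4 : ℝ) ≤ Λ₁ := le_max_left _ _
  have hΛM : 2 * M ^ 2 * κ' ≤ Λ₁ := le_max_right _ _
  have hΛ1 : 1 ≤ Λ₁ := by linarith
  have hMM : M ≤ 2 * M ^ 2 * κ' := by nlinarith [mul_pos hM0 hM0]
  obtain ⟨c₁, hc₁, hfar⟩ := green_lower_far hd hN hG hΛ1
  obtain ⟨C₂, t₂, hC₂, ht₂, hcomp⟩ := green_compare hd hN hG hx₀ hΛ1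
  set t₁ := min (min r₁ t₂) (min (r₀ / 2) (infDist x₀ (frontier Ω) / 2)) with ht₁
  have hr₀ := hN.r₀_pos
  have ht₁0 : 0 < t₁ := by
    simp only [ht₁, lt_min_iff]
    exact ⟨⟨hr₁, ht₂⟩, by positivity, by positivity⟩
  have ht1 : t₁ ≤ r₁ := (min_le_left _ _).trans (min_le_left _ _)
  have ht2 : t₁ ≤ t₂ := (min_le_left _ _).trans (min_le_right _ _)
  have ht3 : t₁ ≤ r₀ / 2 := (min_le_right _ _).trans (min_le_left _ _)
  have ht4 : t₁ ≤ infDist x₀ (frontier Ω) / 2 := (min_le_right _ _).trans (min_le_right _ _)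
  refine ⟨c₁ / (C * C₂), t₁, 4 * M * κ', by positivity, ht₁0, by nlinarith, by linarith,
    by linarith, ?_⟩
  intro ξ hξ r hr hrt A hA y hy hyδ
  obtain ⟨ξy, hξy, hξyd⟩ := exists_nearest hd hN hy.1
  set r' := r / (2 * M * κ') with hr'
  have hr'0 : 0 < r' := by positivity
  have hMκ : 1 ≤ M * κ' := one_le_mul_of_one_le_of_one_le hM.le hκ'
  have hr'r : r' ≤ r / 2 := by
    rw [hr']
    exact div_le_div_of_nonneg_left hr.le (by norm_num) (by linarith)
  have hκr : κ' * r' = M⁻¹ * r / 2 := by rw [hr']; field_simp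
  have hyr' : dist y ξy < r' := by
    rw [hξyd]
    refine lt_of_le_of_lt hyδ ?_
    rw [hr', div_lt_div_iff_of_pos_left hr (by positivity) (by positivity)]
    linarith
  have hMr : M⁻¹ * r ≤ r := by
    have : M⁻¹ ≤ 1 := inv_le_one_of_one_le₀ hM.le
    nlinarith
  have hMr0 : 0 < M⁻¹ * r := by positivity
  obtain ⟨A', hA'⟩ := exists_cork hN hξy hr'0 (by linarith)
  have hA1 : infDist A (frontier Ω) ≤ dist A ξy := infDist_le_of_mem_frontier hξy
  have hA2 := hA.depth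
  have hx1 : infDist x₀ (frontier Ω) ≤ dist x₀ ξy := infDist_le_of_mem_frontier hξy
  obtain ⟨hb, -⟩ := hk ξy hξy r' hr'0 (by linarith) A' hA' A hA.mem x₀ hx₀
    (by rw [hκr]; linarith) (by rw [hκr]; linarith)
  obtain ⟨-, hb2⟩ := hb y ⟨hy.1, hyr'⟩
  have hA'δ : infDist A' (frontier Ω) < r' :=
    lt_of_le_of_lt (infDist_le_of_mem_frontier hξy) hA'.lt
  have hκr1 : r' ≤ κ' * r' := le_mul_of_one_le_left hr'0.le hκ'
  have hne : A' ≠ A := by
    rintro rfl
    linarith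
  have hne0 : A' ≠ x₀ := by
    rintro rfl
    linarith
  have hneA0 : A ≠ x₀ := by
    rintro rfl
    have h1 : infDist A (frontier Ω) ≤ dist A ξ := infDist_le_of_mem_frontier hξ
    have h2 := hA.lt
    linarith
  have hdist : dist A' A ≤ 4 * r := by
    have h1 : dist A' A ≤ dist A' ξy + dist ξy y + dist y ξ + dist ξ A := by
      calc dist A' A ≤ dist A' ξ + dist ξ A := dist_triangle _ _ _
        _ ≤ (dist A' y + dist y ξ) + dist ξ A := by gcongr; exact dist_triangle _ _ _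
        _ ≤ ((dist A' ξy + dist ξy y) + dist y ξ) + dist ξ A := by
            gcongr; exact dist_triangle _ _ _
        _ = _ := by ring
    have h2 := hA'.lt
    have h3 : dist ξy y < r' := by rw [dist_comm]; exact hyr'
    have h4 : dist y ξ < r := hy.2
    have h5 : dist ξ A < r := by rw [dist_comm]; exact hA.lt
    linarith
  have hrΛ1 : r / Λ₁ ≤ infDist A' (frontier Ω) := by
    have h1 := hA'.depth
    have h2 : r / Λ₁ ≤ M⁻¹ * r' := by
      rw [hr', show M⁻¹ * (r / (2 * M * κ')) = r / (2 * M ^ 2 * κ') by field_simp]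
      exact div_le_div_of_nonneg_left hr.le (by positivity) hΛM
    linarith
  have hrΛ2 : r / Λ₁ ≤ infDist A (frontier Ω) := by
    have h2 : r / Λ₁ ≤ M⁻¹ * r := by
      rw [show M⁻¹ * r = r / M by field_simp]
      exact div_le_div_of_nonneg_left hr.le (by positivity) (hMM.trans hΛM)
    linarith
  have e1 := hfar r A' A hr hA'.mem hA.mem hne hrΛ1 hrΛ2 (hdist.trans (by gcongr))
  have e2 := (hcomp r A' A hr (hrt.trans ht2) hA'.mem hA.mem hrΛ1
    (by nlinarith) hrΛ2 (hdist.trans (by gcongr))).1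
  have hpA'0 : 0 < G A' x₀ := green_pos hd hN hG hA'.mem hx₀ hne0
  have hpA0 : 0 < G A x₀ := green_pos hd hN hG hA.mem hx₀ hneA0
  have hC0 : 0 < C := by linarith
  have hC20 : 0 < C₂ := by linarith
  have hpA'A : 0 < G A' A := green_pos hd hN hG hA'.mem hA.mem hne
  have hpow : 0 < r ^ (2 - (d : ℝ)) := Real.rpow_pos_of_pos hr _
  calc c₁ / (C * C₂) * (r ^ (2 - (d : ℝ)) / G A x₀)
      = (c₁ * r ^ (2 - (d : ℝ)) / (C₂ * G A x₀)) / C := by field_simp
    _ ≤ (G A' A / G A' x₀) / C := by gcongr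
    _ ≤ G A y / G x₀ y := by
        rw [div_le_iff₀ hC0]
        linarith

/-- Upper bound of the kernel. -/
theorem kernel_upper (hd : 2 ≤ d) (hN : IsNTA Ω M r₀) (hG : IsGreen Ω κ G) {x₀ : E d}
    (hx₀ : x₀ ∈ Ω) {Λ : ℝ} (hΛ : 1 ≤ Λ) {Tm : ℝ} (hTm : 0 < Tm) :
    ∃ C α T t₁ Cτ : ℝ, 1 ≤ C ∧ 0 < α ∧ α ≤ 1 ∧ 0 < T ∧ T ≤ Tm ∧ 4 * T < r₀ ∧
      4 * T < infDist x₀ (frontier Ω) ∧ 0 < t₁ ∧ t₁ ≤ T ∧ 1 ≤ Cτ ∧
      ∀ ξ ∈ frontier Ω, ∀ ℓ : ℝ, 0 < ℓ → ℓ ≤ t₁ → ∀ x ∈ Ω, ℓ / Λ ≤ infDist x (frontier Ω) →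
      dist x ξ ≤ Λ * ℓ → ∀ y ∈ Ω, infDist y (frontier Ω) ≤ ℓ / Cτ →
        (ℓ + dist y ξ ≤ T → ∀ B, IsCork Ω M ξ (4 * (ℓ + dist y ξ)) B →
          G x y / G x₀ y ≤ C * ((ℓ / (ℓ + dist y ξ)) ^ α *
            ((ℓ + dist y ξ) ^ (2 - (d : ℝ)) / G B x₀))) ∧
        (T < ℓ + dist y ξ → G x y / G x₀ y ≤ C * (ℓ / (ℓ + dist y ξ)) ^ α) := by
  obtain ⟨Cb, κ', r₁, α', hCb, hκ', hr₁, -, -, hk⟩ := kernel_bhp hd hN hG
  obtain ⟨Cd, α, hCd, hα, hα1, hdec⟩ := decay hd hN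
  obtain ⟨Cu, hCu, hup⟩ := green_upper hd hN hG
  have hM := hN.one_lt
  have hM0 : 0 < M := by linarith
  have hδ : 0 < infDist x₀ (frontier Ω) := infDist_frontier_pos hd hN hx₀
  have hr₀ := hN.r₀_pos
  have he : 2 - (d : ℝ) ≤ 0 := by
    have : (2 : ℝ) ≤ d := by exact_mod_cast hd
    linarith
  set c₃ : ℝ := Λ * (4 * Λ + 8) with hc₃
  have hc₃12 : 12 ≤ c₃ := by nlinarith
  have hΛ0 : 0 < Λ := by linarith
  have hκ0 : 0 < κ' := by linarith
  set Λ₂ : ℝ := max 7 (2 * M * c₃ * κ') with hΛ₂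
  have h7 : (7 : ℝ) ≤ Λ₂ := le_max_left _ _
  have hΛ₂b : 2 * M * c₃ * κ' ≤ Λ₂ := le_max_right _ _
  have hΛ₂1 : 1 ≤ Λ₂ := by linarith
  have hMM : M ≤ 2 * M * c₃ * κ' := by
    have h1 : 1 ≤ c₃ * κ' := one_le_mul_of_one_le_of_one_le (by linarith) hκ'
    have h2 : M * 1 ≤ M * (c₃ * κ') := by gcongr
    have h3 : 0 < M * (c₃ * κ') := by positivity
    linarith
  obtain ⟨C₂, t₂, hC₂, ht₂, hcomp⟩ := green_compare hd hN hG hx₀ hΛ₂1
  set T := min (min r₁ (min t₂ Tm)) (min (r₀ / 8) (infDist x₀ (frontier Ω) / 8)) with hT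
  have hT0 : 0 < T := by
    simp only [hT, lt_min_iff]
    exact ⟨⟨hr₁, ht₂, hTm⟩, by positivity, by positivity⟩
  have hT1 : T ≤ r₁ := (min_le_left _ _).trans (min_le_left _ _)
  have hT2 : T ≤ t₂ := (min_le_left _ _).trans ((min_le_right _ _).trans (min_le_left _ _))
  have hTTm : T ≤ Tm := (min_le_left _ _).trans ((min_le_right _ _).trans (min_le_right _ _))
  have hT3 : T ≤ r₀ / 8 := (min_le_right _ _).trans (min_le_left _ _)
  have hT4 : T ≤ infDist x₀ (frontier Ω) / 8 := (min_le_right _ _).trans (min_le_right _ _)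
  obtain ⟨c₄, hc₄, hbelow⟩ := green_bound_below hd hN hG hx₀
    (a := M⁻¹ * (T / (2 * c₃ * κ'))) (by positivity)
  obtain ⟨L, hL⟩ := hN.isBounded.subset_closedBall x₀
  -- the constants
  set m₀ : ℝ := (M⁻¹ * (1 / (2 * c₃ * κ'))) ^ (2 - (d : ℝ)) with hm₀
  have hm₀0 : 0 < m₀ := Real.rpow_pos_of_pos (by positivity) _
  set C₁ : ℝ := Cu * m₀ * (Cd * (4 * Λ + 8)) with hC₁
  have hC₁0 : 0 < C₁ := by positivity
  have hCb0 : 0 < Cb := by linarith
  have hC₂0 : 0 < C₂ := by linarith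
  set Lm : ℝ := T + 2 * |L| + 1 + dist x₀ x₀ with hLm
  set Cfin : ℝ := max 1 (max (Cb * C₁ * C₂) (Cb * C₁ * T ^ (2 - (d : ℝ)) / c₄ *
    ((T + 2 * |L|) / T) ^ α)) with hCfin
  refine ⟨Cfin, α, T, T / (4 * Λ + 8), 4 * c₃ * κ', le_max_left _ _, hα, hα1, hT0, hTTm,
    by linarith,
    by linarith, by positivity, ?_, ?_, ?_⟩
  rotate_left
  · have h1 : 1 ≤ c₃ * κ' := one_le_mul_of_one_le_of_one_le (by linarith) hκ'
    linarith
  rotate_left
  · exact div_le_self hT0.le (by linarith)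
  intro ξ hξ ℓ hℓ hℓt x hx hxδ hxξ y hy hyδ
  set D := ℓ + dist y ξ with hD
  have hDℓ : ℓ ≤ D := by have := dist_nonneg (x := y) (y := ξ); linarith
  have hD0 : 0 < D := by linarith
  set D₁ := min D T with hD₁
  have hℓT : (4 * Λ + 8) * ℓ ≤ T := by
    rw [le_div_iff₀ (by positivity)] at hℓt
    linarith
  have hℓT' : ℓ ≤ T := by
    have h1 : 1 * ℓ ≤ (4 * Λ + 8) * ℓ := by gcongr; linarith
    linarith
  have hD₁0 : 0 < D₁ := lt_min hD0 hT0
  have hD₁D : D₁ ≤ D := min_le_left _ _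
  have hD₁T : D₁ ≤ T := min_le_right _ _
  have hℓD₁ : ℓ ≤ D₁ := le_min hDℓ hℓT'
  obtain ⟨ξy, hξy, hξyd⟩ := exists_nearest hd hN hy
  have hyδℓ : infDist y (frontier Ω) ≤ ℓ := by
    refine hyδ.trans ?_
    rw [div_le_iff₀ (by positivity)]
    have h1 : 1 ≤ c₃ * κ' := one_le_mul_of_one_le_of_one_le (by linarith) hκ'
    have h2 : ℓ * 1 ≤ ℓ * (4 * c₃ * κ') := by gcongr; linarith
    linarith
  -- distance of x to ξy
  have hxξy : D / c₃ ≤ dist x ξy := by
    by_cases hnear : D ≤ (4 * Λ + 8) * ℓ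
    · have h1 : infDist x (frontier Ω) ≤ dist x ξy := infDist_le_of_mem_frontier hξy
      have h2 : D / c₃ ≤ ℓ / Λ := by
        calc D / c₃ ≤ (4 * Λ + 8) * ℓ / c₃ := by gcongr
          _ = ℓ / Λ := by rw [hc₃]; field_simp
      linarith
    · push Not at hnear
      have h1 : dist y ξ ≤ dist y ξy + dist ξy x + dist x ξ := by
        calc dist y ξ ≤ dist y x + dist x ξ := dist_triangle _ _ _
          _ ≤ (dist y ξy + dist ξy x) + dist x ξ := by gcongr; exact dist_triangle _ _ _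
      rw [dist_comm ξy x] at h1
      have h2 : D / 2 ≤ dist x ξy := by linarith
      have h3 : D / c₃ ≤ D / 2 := by
        apply div_le_div_of_nonneg_left hD0.le (by norm_num) (by linarith)
      linarith
  set r' := D₁ / (2 * c₃ * κ') with hr'
  have hr'0 : 0 < r' := by positivity
  have hκr : κ' * r' = D₁ / (2 * c₃) := by rw [hr']; field_simp
  have h2κr : 2 * (κ' * r') = D₁ / c₃ := by rw [hκr]; field_simp
  have hD₁c : D₁ / c₃ ≤ D / c₃ := by gcongr
  have hκrT : κ' * r' ≤ T := by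
    rw [hκr]
    exact (div_le_self hD₁0.le (by linarith)).trans hD₁T
  have hrκ : r' ≤ κ' * r' := le_mul_of_one_le_left hr'0.le hκ'
  have hr'D : r' ≤ D₁ / 24 := by
    calc r' ≤ κ' * r' := hrκ
      _ = D₁ / (2 * c₃) := hκr
      _ ≤ D₁ / 24 := div_le_div_of_nonneg_left hD₁0.le (by norm_num) (by linarith)
  have hyr' : dist y ξy < r' := by
    rw [hξyd]
    refine lt_of_le_of_lt hyδ ?_
    rw [hr', div_lt_div_iff₀ (by positivity) (by positivity)]
    have h1 : 0 < c₃ * κ' := by positivity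
    have h2 : ℓ * (c₃ * κ') ≤ D₁ * (c₃ * κ') := by gcongr
    have h3 : 0 < D₁ * (c₃ * κ') := by positivity
    linarith
  obtain ⟨A', hA'⟩ := exists_cork hN hξy hr'0 (by linarith)
  have hx1 : infDist x₀ (frontier Ω) ≤ dist x₀ ξy := infDist_le_of_mem_frontier hξy
  have hA'δ : infDist A' (frontier Ω) < r' :=
    lt_of_le_of_lt (infDist_le_of_mem_frontier hξy) hA'.lt
  obtain ⟨hb, -⟩ := hk ξy hξy r' hr'0 (by linarith) A' hA' x hx x₀ hx₀
    (by linarith) (by linarith)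
  obtain ⟨hb1, -⟩ := hb y ⟨hy, hyr'⟩
  -- distances from A'
  have hxA' : r' ≤ dist x A' := by
    have h1 : dist x ξy ≤ dist x A' + dist A' ξy := dist_triangle _ _ _
    have h2 := hA'.lt
    linarith
  have hne : A' ≠ x := by
    rintro rfl
    rw [dist_self] at hxA'
    linarith
  have hne0 : A' ≠ x₀ := by
    rintro rfl
    linarith
  have hpA'0 : 0 < G A' x₀ := green_pos hd hN hG hA'.mem hx₀ hne0
  have hdepth : M⁻¹ * r' < infDist A' (frontier Ω) := hA'.depth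
  have hMr' : (M⁻¹ * r') ^ (2 - (d : ℝ)) = m₀ * D₁ ^ (2 - (d : ℝ)) := by
    rw [hm₀, ← Real.mul_rpow (by positivity) hD₁0.le, hr']
    congr 1
    field_simp
  have hupA : ∀ z ∈ Ω, r' ≤ dist z A' → G z A' ≤ Cu * (m₀ * D₁ ^ (2 - (d : ℝ))) := by
    intro z hz hzd
    have h1 := hup z hz A' hA'.mem (by linarith [infDist_nonneg (x := A') (s := frontier Ω)])
    refine h1.trans ?_
    rw [← hMr']
    gcongr Cu * ?_
    exact Real.rpow_le_rpow_of_nonpos (by positivity) hdepth.le he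
  have hDp : 0 < D₁ ^ (2 - (d : ℝ)) := Real.rpow_pos_of_pos hD₁0 _
  have hGxA' : G A' x ≤ C₁ * ((ℓ / D₁) ^ α * D₁ ^ (2 - (d : ℝ))) := by
    rw [green_symm hd hN hG hA'.mem hx hne]
    by_cases hnear : D ≤ (4 * Λ + 8) * ℓ
    · have h1 := hupA x hx hxA'
      have h2 : 1 ≤ (4 * Λ + 8) * (ℓ / D₁) ^ α := by
        have h3 : 1 / (4 * Λ + 8) ≤ ℓ / D₁ := by
          rw [div_le_div_iff₀ (by positivity) hD₁0]
          linarith
        have h4 : (1 / (4 * Λ + 8)) ^ α ≤ (ℓ / D₁) ^ α := by gcongr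
        have h5 : 1 / (4 * Λ + 8) ≤ (1 / (4 * Λ + 8)) ^ α := by
          conv_lhs => rw [← Real.rpow_one (1 / (4 * Λ + 8))]
          apply Real.rpow_le_rpow_of_exponent_ge (by positivity) _ hα1
          rw [div_le_one (by positivity)]; linarith
        have h6 : 1 / (4 * Λ + 8) ≤ (ℓ / D₁) ^ α := h5.trans h4
        rw [div_le_iff₀ (by positivity)] at h6
        linarith
      have h3 : 1 ≤ Cd * ((4 * Λ + 8) * (ℓ / D₁) ^ α) :=
        one_le_mul_of_one_le_of_one_le hCd h2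
      calc G x A' ≤ Cu * (m₀ * D₁ ^ (2 - (d : ℝ))) := h1
        _ = Cu * (m₀ * D₁ ^ (2 - (d : ℝ))) * 1 := by ring
        _ ≤ Cu * (m₀ * D₁ ^ (2 - (d : ℝ))) * (Cd * ((4 * Λ + 8) * (ℓ / D₁) ^ α)) := by gcongr
        _ = _ := by rw [hC₁]; ring
    · push Not at hnear
      have hA'ξ : D / 2 ≤ dist A' ξ := by
        have h1 : dist y ξ ≤ dist y ξy + dist ξy A' + dist A' ξ := by
          calc dist y ξ ≤ dist y A' + dist A' ξ := dist_triangle _ _ _
            _ ≤ (dist y ξy + dist ξy A') + dist A' ξ := by gcongr; exact dist_triangle _ _ _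
        rw [dist_comm ξy A'] at h1
        have h2 := hA'.lt
        have h3 : 12 * ℓ ≤ D := by
          have h4 : 1 * ℓ ≤ Λ * ℓ := by gcongr
          linarith
        linarith
      have hvan := van_uG hd hN hG hA'.mem (ξ := ξ) (R := D₁ / 4) (by linarith)
      have hS : ∀ z ∈ ball ξ (D₁ / 4), uG Ω G A' z ≤ Cu * (m₀ * D₁ ^ (2 - (d : ℝ))) := by
        intro z hz
        rw [mem_ball] at hz
        by_cases hzΩ : z ∈ Ω
        · rw [uG_of_mem hzΩ]
          apply hupA z hzΩ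
          have h1 : dist A' ξ ≤ dist A' z + dist z ξ := dist_triangle _ _ _
          rw [dist_comm A' z] at h1
          linarith
        · rw [uG, indicator_of_notMem hzΩ]
          positivity
      have hxin : dist x ξ < D₁ / 4 := by
        rw [lt_div_iff₀ (by norm_num)]
        have h1 : dist x ξ * 4 ≤ 4 * Λ * ℓ := by linarith
        have h2 : 4 * Λ * ℓ < D₁ := by
          rw [hD₁, lt_min_iff]
          constructor <;> linarith
        linarith
      have h1 := hdec ξ hξ (D₁ / 4) (by positivity) (by linarith) _ hvan _ hS x hxin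
      rw [uG_of_mem hx] at h1
      have h2 : (dist x ξ / (D₁ / 4)) ^ α ≤ (4 * Λ + 8) * (ℓ / D₁) ^ α := by
        have h3 : dist x ξ / (D₁ / 4) ≤ (4 * Λ + 8) * (ℓ / D₁) := by
          rw [div_le_iff₀ (by positivity)]
          have h9 : (4 * Λ + 8) * (ℓ / D₁) * (D₁ / 4) = (Λ + 2) * ℓ := by field_simp; ring
          rw [h9]
          linarith
        have h4 : (dist x ξ / (D₁ / 4)) ^ α ≤ ((4 * Λ + 8) * (ℓ / D₁)) ^ α := by gcongr
        rw [Real.mul_rpow (by positivity) (by positivity)] at h4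
        have h5 : (4 * Λ + 8) ^ α ≤ 4 * Λ + 8 := by
          conv_rhs => rw [← Real.rpow_one (4 * Λ + 8)]
          exact Real.rpow_le_rpow_of_exponent_le (by linarith) hα1
        calc _ ≤ _ := h4
          _ ≤ _ := by gcongr
      calc G x A' ≤ Cd * (dist x ξ / (D₁ / 4)) ^ α * (Cu * (m₀ * D₁ ^ (2 - (d : ℝ)))) := h1
        _ ≤ Cd * ((4 * Λ + 8) * (ℓ / D₁) ^ α) * (Cu * (m₀ * D₁ ^ (2 - (d : ℝ)))) := by gcongr
        _ = _ := by rw [hC₁]; ring
  have hk1 : G x y / G x₀ y ≤ Cb * (C₁ * ((ℓ / D₁) ^ α * D₁ ^ (2 - (d : ℝ))) / G A' x₀) := by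
    refine hb1.trans ?_
    gcongr
  constructor
  · intro hDT B hB
    have hD₁eq : D₁ = D := min_eq_left hDT
    rw [hD₁eq] at hk1 hr'
    have hdist : dist A' B ≤ 7 * D := by
      have h1 : dist A' B ≤ dist A' ξy + dist ξy y + dist y ξ + dist ξ B := by
        calc dist A' B ≤ dist A' ξ + dist ξ B := dist_triangle _ _ _
          _ ≤ (dist A' y + dist y ξ) + dist ξ B := by gcongr; exact dist_triangle _ _ _
          _ ≤ ((dist A' ξy + dist ξy y) + dist y ξ) + dist ξ B := by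
              gcongr; exact dist_triangle _ _ _
          _ = _ := by ring
      have h2 := hA'.lt
      have h3 : dist ξy y < r' := by rw [dist_comm]; exact hyr'
      have h5 : dist ξ B < 4 * D := by rw [dist_comm]; exact hB.lt
      linarith
    have hΛa : D / Λ₂ ≤ infDist A' (frontier Ω) := by
      have h2 : D / Λ₂ ≤ M⁻¹ * r' := by
        rw [hr', show M⁻¹ * (D / (2 * c₃ * κ')) = D / (2 * M * c₃ * κ') by field_simp]
        exact div_le_div_of_nonneg_left hD0.le (by positivity) hΛ₂b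
      linarith
    have hΛb : D / Λ₂ ≤ infDist B (frontier Ω) := by
      have h2 : D / Λ₂ ≤ M⁻¹ * (4 * D) := by
        have h3 : D / Λ₂ ≤ D / M := div_le_div_of_nonneg_left hD0.le hM0 (hMM.trans hΛ₂b)
        have h4 : M⁻¹ * (4 * D) = 4 * (D / M) := by field_simp
        rw [h4]
        have : 0 < D / M := by positivity
        linarith
      have := hB.depth
      linarith
    have hup' : infDist A' (frontier Ω) ≤ Λ₂ * D := by
      have h1 : 1 * D ≤ Λ₂ * D := by gcongr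
      linarith
    have e2 := (hcomp D A' B hD0 (hDT.trans hT2) hA'.mem hB.mem hΛa hup' hΛb
      (hdist.trans (by gcongr))).2
    have hBx₀ : 0 < G B x₀ := by
      have h2 := (hcomp D A' B hD0 (hDT.trans hT2) hA'.mem hB.mem hΛa hup' hΛb
        (hdist.trans (by gcongr))).1
      by_contra hcon
      push Not at hcon
      have h3 : C₂ * G B x₀ ≤ 0 := mul_nonpos_of_nonneg_of_nonpos hC₂0.le hcon
      linarith
    have hDp' : 0 < D ^ (2 - (d : ℝ)) := Real.rpow_pos_of_pos hD0 _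
    calc G x y / G x₀ y ≤ Cb * (C₁ * ((ℓ / D) ^ α * D ^ (2 - (d : ℝ))) / G A' x₀) := hk1
      _ ≤ Cb * (C₁ * ((ℓ / D) ^ α * D ^ (2 - (d : ℝ))) / (G B x₀ / C₂)) := by
          gcongr
          rw [div_le_iff₀ hC₂0]
          linarith
      _ = (Cb * C₁ * C₂) * ((ℓ / D) ^ α * (D ^ (2 - (d : ℝ)) / G B x₀)) := by
          field_simp
      _ ≤ Cfin * ((ℓ / D) ^ α * (D ^ (2 - (d : ℝ)) / G B x₀)) := by
          gcongr
          exact (le_max_left _ _).trans (le_max_right _ _)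
  · intro hTD
    have hD₁eq : D₁ = T := min_eq_right hTD.le
    rw [hD₁eq] at hk1 hr'
    have hA'a : M⁻¹ * (T / (2 * c₃ * κ')) ≤ infDist A' (frontier Ω) := by
      rw [← hr']; exact hdepth.le
    have h1 := hbelow A' hA'.mem hne0 hA'a
    have hDL : D ≤ T + 2 * |L| := by
      have h2 : dist y ξ ≤ dist y x₀ + dist x₀ ξ := dist_triangle _ _ _
      have h3 : dist y x₀ ≤ L := by
        have := hL hy
        rwa [mem_closedBall] at this
      have h4 : dist ξ x₀ ≤ L := by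
        have h5 : closure Ω ⊆ closedBall x₀ L := closure_minimal hL isClosed_closedBall
        have := h5 hξ.1
        rwa [mem_closedBall] at this
      rw [dist_comm x₀ ξ] at h2
      have := le_abs_self L
      linarith
    have hTp : 0 < T ^ (2 - (d : ℝ)) := Real.rpow_pos_of_pos hT0 _
    have h3 : (ℓ / T) ^ α ≤ ((T + 2 * |L|) / T) ^ α * (ℓ / D) ^ α := by
      rw [← Real.mul_rpow (by positivity) (by positivity)]
      apply Real.rpow_le_rpow (by positivity) _ hα.le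
      rw [div_mul_div_comm, div_le_div_iff₀ hT0 (by positivity)]
      calc ℓ * (T * D) = (D * ℓ) * T := by ring
        _ ≤ ((T + 2 * |L|) * ℓ) * T := by gcongr
    calc G x y / G x₀ y ≤ Cb * (C₁ * ((ℓ / T) ^ α * T ^ (2 - (d : ℝ))) / G A' x₀) := hk1
      _ ≤ Cb * (C₁ * ((((T + 2 * |L|) / T) ^ α * (ℓ / D) ^ α) * T ^ (2 - (d : ℝ))) / c₄) := by
          gcongr
      _ = (Cb * C₁ * T ^ (2 - (d : ℝ)) / c₄ * ((T + 2 * |L|) / T) ^ α) * (ℓ / D) ^ α := by
          ring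
      _ ≤ Cfin * (ℓ / D) ^ α := by
          gcongr
          exact (le_max_right _ _).trans (le_max_right _ _)

end Pool.Agent.MP_578f25_an
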