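import Pool.Agent.Lib.MP_578f25_an.Kern2
import Pool.Agent.Lib.MP_578f25_an.Green2e

/-!
# The layer measure
-/

set_option autoImplicit false

namespace Pool.Agent.MP_578f25_an

open MeasureTheory Metric Set Filter Topology InnerProductSpace

variable {d : ℕ} {Ω : Set (E d)} {M r₀ κ : ℝ} {G : E d → E d → ℝ}

/-- A probability measure near the boundary reproducing the kernels. -/
structure IsLayer (Ω : Set (E d)) (G : E d → E d → ℝ) (x₀ : E d) (τ : ℝ)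
    (ω : Measure (E d)) : Prop where
  prob : IsProbabilityMeasure ω
  ae : ∀ᵐ y ∂ω, y ∈ Ω ∧ infDist y (frontier Ω) < τ
  repr : ∀ z ∈ Ω, z ≠ x₀ → τ ≤ infDist z (frontier Ω) →
    Integrable (fun y => G z y / G x₀ y) ω ∧ ∫ y, G z y / G x₀ y ∂ω = 1

/-- The lower bound for the layer measure (proved in `Kern4.lean`), as a hypothesis. -/
class HasLayerLower (d : ℕ) : Prop where
  out : 2 ≤ d → ∀ {Ω : Set (E d)} {M r₀ κ : ℝ} {G : E d → E d → ℝ}, IsNTA Ω M r₀ →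
    IsGreen Ω κ G → ∀ {x₀ : E d}, x₀ ∈ Ω →
    ∃ C t₁ Cτ : ℝ, 1 ≤ C ∧ 0 < t₁ ∧ 1 ≤ Cτ ∧ ∀ (τ : ℝ) (ω : Measure (E d)), 0 < τ →
      IsLayer Ω G x₀ τ ω → ∀ ξ ∈ frontier Ω, ∀ r : ℝ, r ≤ t₁ → Cτ * τ ≤ r →
      ∀ A, IsCork Ω M ξ r A → G A x₀ ≤ C * (r ^ (2 - (d : ℝ)) * ω.real (ball ξ r))

variable [HasBhp d]

theorem exists_layer (hd : 2 ≤ d) (hN : IsNTA Ω M r₀) (hG : IsGreen Ω κ G) {x₀ : E d}
    (hx₀ : x₀ ∈ Ω) {τ : ℝ} (hτ : 0 < τ) : ∃ ω : Measure (E d), IsLayer Ω G x₀ τ ω := by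
  obtain ⟨c, hc, hb⟩ := green_bound_below hd hN hG hx₀ hτ
  obtain ⟨ω, h1, h2, h3⟩ := green_layer hd hN hG hx₀ (s := c / 2) (by positivity)
  refine ⟨ω, h1, ?_, fun z hz hne hzτ => h3 z hz hne ?_⟩
  · filter_upwards [h2] with y hy
    refine ⟨hy.1, ?_⟩
    by_contra hcon
    push Not at hcon
    have := hb y hy.1 hy.2.1 hcon
    linarith [hy.2.2]
  · have := hb z hz hne hzτ
    linarith

theorem kernel_pos (hd : 2 ≤ d) (hN : IsNTA Ω M r₀) (hG : IsGreen Ω κ G) {x x₀ y : E d}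
    (hx : x ∈ Ω) (hx₀ : x₀ ∈ Ω) (hy : y ∈ Ω)
    (h1 : infDist y (frontier Ω) < infDist x (frontier Ω))
    (h2 : infDist y (frontier Ω) < infDist x₀ (frontier Ω)) : 0 < G x y / G x₀ y := by
  have e1 : x ≠ y := by rintro rfl; linarith
  have e2 : x₀ ≠ y := by rintro rfl; linarith
  exact div_pos (green_pos hd hN hG hx hy e1) (green_pos hd hN hG hx₀ hy e2)

/-- Upper bound for the layer measure of balls. -/
theorem layer_upper (hd : 2 ≤ d) (hN : IsNTA Ω M r₀) (hG : IsGreen Ω κ G) {x₀ : E d}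
    (hx₀ : x₀ ∈ Ω) :
    ∃ c t₁ Cτ : ℝ, 0 < c ∧ 0 < t₁ ∧ 1 ≤ Cτ ∧ ∀ (τ : ℝ) (ω : Measure (E d)), 0 < τ →
      IsLayer Ω G x₀ τ ω → ∀ ξ ∈ frontier Ω, ∀ r : ℝ, r ≤ t₁ → Cτ * τ ≤ r →
      ∀ A, IsCork Ω M ξ r A →
        c * (r ^ (2 - (d : ℝ)) / G A x₀) * ω.real (ball ξ r) ≤ 1 := by
  obtain ⟨c, t₁, Cτ, hc, ht₁, hCτ, ht₁r, ht₁δ, hk⟩ := kernel_lower hd hN hG hx₀
  have hM := hN.one_lt
  have hM0 : 0 < M := by linarith
  refine ⟨c, t₁, max (Cτ) M, hc, ht₁, hCτ.trans (le_max_left _ _), ?_⟩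
  intro τ ω hτ hω ξ hξ r hrt hτr A hA
  have := hω.prob
  have h1 : Cτ * τ ≤ r := le_trans (by gcongr; exact le_max_left _ _) hτr
  have h2 : M * τ ≤ r := le_trans (by gcongr; exact le_max_right _ _) hτr
  have hr : 0 < r := lt_of_lt_of_le (by positivity) h2
  have hτr' : τ ≤ r := by nlinarith
  have hτA : τ ≤ M⁻¹ * r := by
    rw [inv_mul_eq_div, le_div_iff₀ hM0]; linarith
  have hAδ : τ < infDist A (frontier Ω) := lt_of_le_of_lt hτA hA.depth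
  have hτ0 : τ < infDist x₀ (frontier Ω) := by linarith
  have hAne : A ≠ x₀ := by
    rintro rfl
    have h3 : infDist A (frontier Ω) ≤ dist A ξ := infDist_le_of_mem_frontier hξ
    have := hA.lt
    linarith
  obtain ⟨hint, hone⟩ := hω.repr A hA.mem hAne hAδ.le
  set c' := c * (r ^ (2 - (d : ℝ)) / G A x₀) with hc'
  have key : ∫ y, (ball ξ r).indicator (fun _ => c') y ∂ω ≤ ∫ y, G A y / G x₀ y ∂ω := by
    apply integral_mono_ae _ hint
    · filter_upwards [hω.ae] with y hy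
      by_cases hyb : y ∈ ball ξ r
      · rw [indicator_of_mem hyb]
        refine hk ξ hξ r hr hrt A hA y ⟨hy.1, hyb⟩ ?_
        rw [le_div_iff₀ (by positivity)]
        nlinarith [hy.2]
      · rw [indicator_of_notMem hyb]
        exact (kernel_pos hd hN hG hA.mem hx₀ hy.1 (by linarith [hy.2])
          (by linarith [hy.2])).le
    · exact (integrable_const c').indicator measurableSet_ball
  rw [hone, integral_indicator measurableSet_ball, setIntegral_const, smul_eq_mul] at key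
  linarith

/-- Uniform upper bound of the kernels in terms of the layer measure. -/
theorem kernel_star (hd : 2 ≤ d) (hN : IsNTA Ω M r₀) (hG : IsGreen Ω κ G) {x₀ : E d}
    (hx₀ : x₀ ∈ Ω) {Λ : ℝ} (hΛ : 1 ≤ Λ) :
    ∃ C α t₁ Cτ : ℝ, 1 ≤ C ∧ 0 < α ∧ α ≤ 1 ∧ 0 < t₁ ∧ 1 ≤ Cτ ∧
      ∀ (τ : ℝ) (ω : Measure (E d)), 0 < τ → IsLayer Ω G x₀ τ ω →
      ∀ ξ ∈ frontier Ω, ∀ ℓ : ℝ, ℓ ≤ t₁ → Cτ * τ ≤ ℓ → ∀ x ∈ Ω,
        ℓ / Λ ≤ infDist x (frontier Ω) → dist x ξ ≤ Λ * ℓ →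
        ∀ y ∈ Ω, infDist y (frontier Ω) < τ →
          G x y / G x₀ y * ω.real (ball ξ (4 * (ℓ + dist y ξ))) ≤
            C * (ℓ / (ℓ + dist y ξ)) ^ α := by
  obtain ⟨c, t₀, Cτ₀, hc, ht₀, hCτ₀, hup⟩ := layer_upper hd hN hG hx₀
  obtain ⟨C, α, T, t₁, Cτ, hC, hα, hα1, hT, hTm, hTr, hTδ, ht₁, ht₁T, hCτ, hk⟩ :=
    kernel_upper hd hN hG hx₀ hΛ (Tm := t₀ / 4) (by positivity)
  have h4 : 0 < (4 : ℝ) ^ (2 - (d : ℝ)) := by positivity
  refine ⟨max C (C / (c * 4 ^ (2 - (d : ℝ)))), α, t₁, max Cτ Cτ₀, hC.trans (le_max_left _ _),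
    hα, hα1, ht₁, hCτ.trans (le_max_left _ _), ?_⟩
  intro τ ω hτ hω ξ hξ ℓ hℓt hτℓ x hx hxδ hxξ y hy hyδ
  have := hω.prob
  have h1 : Cτ * τ ≤ ℓ := le_trans (by gcongr; exact le_max_left _ _) hτℓ
  have h2 : Cτ₀ * τ ≤ ℓ := le_trans (by gcongr; exact le_max_right _ _) hτℓ
  have hℓ : 0 < ℓ := lt_of_lt_of_le (by positivity) h1
  have hyδ' : infDist y (frontier Ω) ≤ ℓ / Cτ := by
    rw [le_div_iff₀ (by positivity)]
    nlinarith
  obtain ⟨hA, hB⟩ := hk ξ hξ ℓ hℓ hℓt x hx hxδ hxξ y hy hyδ'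
  set D := ℓ + dist y ξ with hD
  have hdn := dist_nonneg (x := y) (y := ξ)
  have hD0 : 0 < D := by linarith
  have hpow0 : 0 ≤ (ℓ / D) ^ α := by positivity
  have hτδ : τ ≤ ℓ := le_trans (by nlinarith) h1
  by_cases hDT : D ≤ T
  · obtain ⟨B, hBc⟩ := exists_cork hN hξ (r := 4 * D) (by positivity) (by linarith)
    have e1 := hA hDT B hBc
    have e2 := hup τ ω hτ hω ξ hξ (4 * D) (by linarith) (by linarith) B hBc
    have hDp : 0 < D ^ (2 - (d : ℝ)) := Real.rpow_pos_of_pos hD0 _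
    have hGB : 0 < G B x₀ := by
      apply green_pos hd hN hG hBc.mem hx₀
      rintro rfl
      have h5 : infDist B (frontier Ω) ≤ dist B ξ := infDist_le_of_mem_frontier hξ
      have h6 := hBc.lt
      linarith
    rw [Real.mul_rpow (by norm_num) hD0.le] at e2
    calc G x y / G x₀ y * ω.real (ball ξ (4 * D))
        ≤ (C * ((ℓ / D) ^ α * (D ^ (2 - (d : ℝ)) / G B x₀))) * ω.real (ball ξ (4 * D)) := by
          gcongr
      _ = (C / (c * 4 ^ (2 - (d : ℝ)))) * (ℓ / D) ^ α *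
            (c * (4 ^ (2 - (d : ℝ)) * D ^ (2 - (d : ℝ)) / G B x₀) * ω.real (ball ξ (4 * D))) := by
          field_simp
      _ ≤ (C / (c * 4 ^ (2 - (d : ℝ)))) * (ℓ / D) ^ α * 1 := by gcongr
      _ ≤ _ := by
          rw [mul_one]
          gcongr
          exact le_max_right _ _
  · push Not at hDT
    have e1 := hB hDT
    have e2 : ω.real (ball ξ (4 * D)) ≤ 1 := measureReal_le_one
    calc G x y / G x₀ y * ω.real (ball ξ (4 * D))
        ≤ (C * (ℓ / D) ^ α) * ω.real (ball ξ (4 * D)) := by gcongr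
      _ ≤ (C * (ℓ / D) ^ α) * 1 := by gcongr
      _ ≤ _ := by
          rw [mul_one]
          gcongr
          exact le_max_left _ _

end Pool.Agent.MP_578f25_an
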