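import Pool.Agent.Lib.MP_578f25_an.MultiTheta

/-!
# Growth of the perturbed densities
-/

set_option autoImplicit false
set_option linter.unusedSectionVars false

namespace Pool.Agent.MP_578f25_an

open MeasureTheory Metric

/-- The modulus of continuity of `log h_i` (up to a constant). -/
noncomputable def Phi (ℓ₀ α : ℝ) (i : ℕ) (t : ℝ) : ℝ :=
  ∑ j ∈ Finset.range i, (min 1 (t / (ℓ₀ / 2 ^ j))) ^ α

theorem Phi_succ (ℓ₀ α : ℝ) (i : ℕ) (t : ℝ) :
    Phi ℓ₀ α (i + 1) t = Phi ℓ₀ α i t + (min 1 (t / (ℓ₀ / 2 ^ i))) ^ α :=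
  Finset.sum_range_succ _ _

theorem Phi_eq (ℓ₀ α : ℝ) (i : ℕ) (t : ℝ) :
    Phi ℓ₀ α i t = ∑ k ∈ Finset.range i, (min 1 (t / (ℓ₀ / 2 ^ i) / 2 ^ (k + 1))) ^ α := by
  unfold Phi
  rw [← Finset.sum_range_reflect]
  refine Finset.sum_congr rfl fun k hk => ?_
  have hk' : k < i := Finset.mem_range.1 hk
  have e : (2 : ℝ) ^ i = 2 ^ (i - 1 - k) * 2 ^ (k + 1) := by
    rw [← pow_add]
    congr 1
    omega
  have e2 : t / (ℓ₀ / 2 ^ (i - 1 - k)) = t / (ℓ₀ / 2 ^ i) / 2 ^ (k + 1) := by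
    rw [e]
    have h1 : (2 : ℝ) ^ (i - 1 - k) ≠ 0 := by positivity
    have h2 : (2 : ℝ) ^ (k + 1) ≠ 0 := by positivity
    rw [div_div_eq_mul_div, div_div_eq_mul_div, div_div, ← mul_assoc,
      mul_div_mul_right _ _ h2]
  rw [e2]

theorem rpow_two_pow_inv {α : ℝ} (k : ℕ) : (((2 : ℝ) ^ k)⁻¹) ^ α = ((2 : ℝ) ^ (-α)) ^ k := by
  rw [← Real.rpow_natCast ((2 : ℝ) ^ (-α)) k, ← Real.rpow_mul two_pos.le,
    ← Real.rpow_natCast 2 k, ← Real.rpow_neg two_pos.le, ← Real.rpow_mul two_pos.le]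
  ring_nf

theorem Phi_le {ℓ₀ α t x : ℝ} (hα : 0 < α) (hℓ : 0 < ℓ₀) (ht : 0 ≤ t) {i n : ℕ}
    (hx : x ≤ 2 ^ (n + 1)) (htx : t ≤ x * (ℓ₀ / 2 ^ i)) :
    Phi ℓ₀ α i t ≤ n + 1 / (1 - (2 : ℝ) ^ (-α)) := by
  have hℓi : 0 < ℓ₀ / 2 ^ i := by positivity
  rw [Phi_eq]
  set s : ℝ := t / (ℓ₀ / 2 ^ i) with hs
  have hs0 : 0 ≤ s := div_nonneg ht hℓi.le
  have hsx : s ≤ x := (div_le_iff₀ hℓi).2 htx
  have hg0 : ∀ k : ℕ, 0 ≤ min 1 (s / 2 ^ (k + 1)) := fun k => le_min zero_le_one (by positivity)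
  have hgnn : ∀ k : ℕ, 0 ≤ (min 1 (s / 2 ^ (k + 1))) ^ α := fun k => Real.rpow_nonneg (hg0 k) _
  calc ∑ k ∈ Finset.range i, (min 1 (s / 2 ^ (k + 1))) ^ α
      ≤ ∑ k ∈ Finset.range (n + i), (min 1 (s / 2 ^ (k + 1))) ^ α :=
        Finset.sum_le_sum_of_subset_of_nonneg
          (Finset.range_mono (by omega)) fun k _ _ => hgnn k
    _ = ∑ k ∈ Finset.range n, (min 1 (s / 2 ^ (k + 1))) ^ α +
          ∑ l ∈ Finset.range i, (min 1 (s / 2 ^ (n + l + 1))) ^ α := Finset.sum_range_add _ _ _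
    _ ≤ ∑ k ∈ Finset.range n, (1 : ℝ) + ∑ l ∈ Finset.range i, ((2 : ℝ) ^ (-α)) ^ l := by
        refine add_le_add (Finset.sum_le_sum fun k _ => ?_) (Finset.sum_le_sum fun l _ => ?_)
        · exact Real.rpow_le_one (hg0 k) (min_le_left _ _) hα.le
        · rw [← rpow_two_pow_inv]
          refine Real.rpow_le_rpow (hg0 _) ((min_le_right _ _).trans ?_) hα.le
          rw [div_le_iff₀ (by positivity)]
          have : ((2 : ℝ) ^ l)⁻¹ * 2 ^ (n + l + 1) = 2 ^ (n + 1) := by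
            have h2 : (2 : ℝ) ^ l ≠ 0 := by positivity
            rw [show n + l + 1 = l + (n + 1) by ring, pow_add, ← mul_assoc, inv_mul_cancel₀ h2,
              one_mul]
          rw [this]
          exact hsx.trans hx
    _ ≤ n + 1 / (1 - (2 : ℝ) ^ (-α)) := by
        refine add_le_add (by simp) (geom_sum_le (two_rpow_neg_pos α).le
          (two_rpow_neg_lt_one hα) _)

theorem Phi_le_small {ℓ₀ α t : ℝ} (hα : 0 < α) (hℓ : 0 < ℓ₀) (ht : 0 ≤ t) (i : ℕ) :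
    Phi ℓ₀ α i t ≤ 1 / (1 - (2 : ℝ) ^ (-α)) * (t / (ℓ₀ / 2 ^ i)) ^ α := by
  have hℓi : 0 < ℓ₀ / 2 ^ i := by positivity
  rw [Phi_eq]
  set s : ℝ := t / (ℓ₀ / 2 ^ i) with hs
  have hs0 : 0 ≤ s := div_nonneg ht hℓi.le
  calc ∑ k ∈ Finset.range i, (min 1 (s / 2 ^ (k + 1))) ^ α
      ≤ ∑ k ∈ Finset.range i, ((2 : ℝ) ^ (-α)) ^ k * s ^ α := by
        refine Finset.sum_le_sum fun k _ => ?_
        rw [← rpow_two_pow_inv, ← Real.mul_rpow (by positivity) hs0]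
        refine Real.rpow_le_rpow (le_min zero_le_one (by positivity))
          ((min_le_right _ _).trans ?_) hα.le
        rw [inv_mul_eq_div]
        exact div_le_div_of_nonneg_left hs0 (by positivity)
          (pow_le_pow_right₀ one_le_two (Nat.le_succ k))
    _ = (∑ k ∈ Finset.range i, ((2 : ℝ) ^ (-α)) ^ k) * s ^ α := by rw [Finset.sum_mul]
    _ ≤ 1 / (1 - (2 : ℝ) ^ (-α)) * s ^ α :=
        mul_le_mul_of_nonneg_right (geom_sum_le (two_rpow_neg_pos α).le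
          (two_rpow_neg_lt_one hα) _) (Real.rpow_nonneg hs0 _)

theorem Phi_nonneg {ℓ₀ α t : ℝ} (hℓ : 0 < ℓ₀) (ht : 0 ≤ t) (i : ℕ) : 0 ≤ Phi ℓ₀ α i t :=
  Finset.sum_nonneg fun j _ => Real.rpow_nonneg (le_min zero_le_one (by positivity)) _

theorem abs_log_sub_le {p q : ℝ} (hp : 3 / 4 ≤ p) (hq : 3 / 4 ≤ q) :
    |Real.log p - Real.log q| ≤ 4 / 3 * |p - q| := by
  have key : ∀ {p q : ℝ}, 3 / 4 ≤ p → 3 / 4 ≤ q → Real.log p - Real.log q ≤ 4 / 3 * |p - q| := by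
    intro p q hp hq
    have hp0 : 0 < p := by linarith
    have hq0 : 0 < q := by linarith
    rw [← Real.log_div hp0.ne' hq0.ne']
    refine (Real.log_le_sub_one_of_pos (div_pos hp0 hq0)).trans ?_
    have e : p / q - 1 = (p - q) / q := by field_simp
    rw [e, div_le_iff₀ hq0]
    have h1 : p - q ≤ |p - q| := le_abs_self _
    have h2 : 0 ≤ |p - q| := abs_nonneg _
    nlinarith
  rw [abs_le]
  constructor
  · have := key hq hp
    rw [abs_sub_comm] at this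
    linarith
  · exact key hp hq

/-- The constant `A₁`. -/
noncomputable def cA (α Cd Ck : ℝ) : ℝ :=
  2 * Ck * (Cd * (Cd ^ 3 / (1 - (2 : ℝ) ^ (-(α - α / 4)))))

/-- The constant `κ`. -/
noncomputable def kap (α Cd Ck ck ε : ℝ) : ℝ := 6 * ε * cA α Cd Ck * ck ^ (-α)

section

variable {X : Type} [MetricSpace X] [MeasurableSpace X] [BorelSpace X] {ω : Measure X}
  [IsProbabilityMeasure ω]

/-- All hypotheses of the multi-scale lemma. -/
structure MS (ω : Measure X) (α Cd Ck ck ε : ℝ) (J : ℕ) (ℓ₀ τ L : ℝ) (Z : ℕ → Finset X)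
    (b : ℕ → X → X → ℝ) (σ : ℕ → X → ℝ) : Prop where
  dbl : Dbl ω Cd (ℓ₀ / 2 ^ J) L
  hα : 0 < α
  hCk : 1 ≤ Ck
  hck : 0 < ck
  hck1 : ck ≤ 1
  hℓ : 0 < ℓ₀
  hτ : 0 ≤ τ
  hτ' : τ ≤ ℓ₀ / 2 ^ J
  sep : ∀ i < J, ∀ z ∈ Z i, ∀ z' ∈ Z i, z ≠ z' → ℓ₀ / 2 ^ i ≤ dist z z'
  meas : ∀ i < J, ∀ z ∈ Z i, Measurable (b i z)
  int0 : ∀ i < J, ∀ z ∈ Z i, ∫ y, b i z y ∂ω = 0
  size : ∀ i < J, ∀ z ∈ Z i, ∀ y, |b i z y| ≤
    Ck * ω.real (ball z (ℓ₀ / 2 ^ i)) * Theta ω α (ℓ₀ / 2 ^ i) z y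
  holder : ∀ i < J, ∀ z ∈ Z i, ∀ y y', dist y y' + τ ≤ ck * (ℓ₀ / 2 ^ i) →
    |b i z y - b i z y'| ≤ Ck * ω.real (ball z (ℓ₀ / 2 ^ i)) *
      ((dist y y' + τ) / (ℓ₀ / 2 ^ i)) ^ α * Theta ω α (ℓ₀ / 2 ^ i) z y
  sigma : ∀ i z, |σ i z| ≤ 1
  hε : 0 < ε
  e1 : ε * cA α Cd Ck ≤ 1 / 4
  e2 : Real.exp (kap α Cd Ck ck ε * (1 / (1 - (2 : ℝ) ^ (-α)))) ≤ 2
  e3 : kap α Cd Ck ck ε ≤ α / 4 * Real.log 2
  e4 : kap α Cd Ck ck ε * (1 / (1 - (2 : ℝ) ^ (-α))) ≤ 1 / 2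
  e5 : 1 + ε * cA α Cd Ck ≤ (2 : ℝ) ^ (α / 4)

namespace MS

variable {α Cd Ck ck ε : ℝ} {J : ℕ} {ℓ₀ τ L : ℝ} {Z : ℕ → Finset X} {b : ℕ → X → X → ℝ}
  {σ : ℕ → X → ℝ}

theorem lpos (H : MS ω α Cd Ck ck ε J ℓ₀ τ L Z b σ) (i : ℕ) : 0 < ℓ₀ / 2 ^ i := by
  have := H.hℓ
  positivity

theorem lmono (H : MS ω α Cd Ck ck ε J ℓ₀ τ L Z b σ) {i j : ℕ} (hij : i ≤ j) :
    ℓ₀ / 2 ^ j ≤ ℓ₀ / 2 ^ i :=
  div_le_div_of_nonneg_left H.hℓ.le (by positivity) (pow_le_pow_right₀ one_le_two hij)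

theorem two_le (H : MS ω α Cd Ck ck ε J ℓ₀ τ L Z b σ) {i : ℕ} (hi : i < J) :
    2 * (ℓ₀ / 2 ^ J) ≤ ℓ₀ / 2 ^ i := by
  have h1 : ℓ₀ / 2 ^ i = 2 * (ℓ₀ / 2 ^ (i + 1)) := by
    rw [pow_succ]
    field_simp
  rw [h1]
  exact mul_le_mul_of_nonneg_left (H.lmono hi) two_pos.le

theorem denom_pos (H : MS ω α Cd Ck ck ε J ℓ₀ τ L Z b σ) : 0 < 1 - (2 : ℝ) ^ (-(α - α / 4)) := by
  have := H.hα
  exact sub_pos.2 (two_rpow_neg_lt_one (by linarith))

theorem cA_nonneg (H : MS ω α Cd Ck ck ε J ℓ₀ τ L Z b σ) : 0 ≤ cA α Cd Ck := by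
  have h1 := H.denom_pos
  have h2 := H.hCk
  have h3 := H.dbl.one_le
  unfold cA
  positivity

theorem kap_nonneg (H : MS ω α Cd Ck ck ε J ℓ₀ τ L Z b σ) : 0 ≤ kap α Cd Ck ck ε := by
  have h1 := H.cA_nonneg
  have h2 := H.hε
  have h3 := H.hck
  unfold kap
  positivity

/-- `(G3)` from `(G2)`. -/
theorem g3 (H : MS ω α Cd Ck ck ε J ℓ₀ τ L Z b σ) {i : ℕ} (hi : i ≤ J) {h : X → ℝ}
    (hpos : ∀ y, 0 < h y)
    (hlog : ∀ y y', |Real.log (h y) - Real.log (h y')| ≤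
      kap α Cd Ck ck ε * Phi ℓ₀ α i (dist y y' + τ)) (y y' : X) :
    h y ≤ 2 * ((ℓ₀ / 2 ^ i + dist y y') / (ℓ₀ / 2 ^ i)) ^ (α / 4) * h y' := by
  have hl := H.lpos i
  have hd : 0 ≤ dist y y' := dist_nonneg
  have hτ := H.hτ
  have hα := H.hα
  have hk := H.kap_nonneg
  set x : ℝ := (ℓ₀ / 2 ^ i + dist y y') / (ℓ₀ / 2 ^ i) with hx
  have hx1 : 1 ≤ x := by
    rw [hx, le_div_iff₀ hl]
    linarith
  obtain ⟨n, hn1, hn2⟩ := exists_nat_pow_near hx1 (one_lt_two (α := ℝ))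
  have ht : dist y y' + τ ≤ x * (ℓ₀ / 2 ^ i) := by
    rw [hx, div_mul_cancel₀ _ hl.ne']
    have := H.hτ'
    have := H.lmono hi
    linarith
  have hPhi := Phi_le (ℓ₀ := ℓ₀) hα H.hℓ (by linarith : 0 ≤ dist y y' + τ) (i := i) hn2.le ht
  have h1 : Real.log (h y) - Real.log (h y') ≤
      kap α Cd Ck ck ε * (n + 1 / (1 - (2 : ℝ) ^ (-α))) :=
    (le_abs_self _).trans ((hlog y y').trans (mul_le_mul_of_nonneg_left hPhi hk))
  have h2 : h y = Real.exp (Real.log (h y) - Real.log (h y')) * h y' := by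
    rw [Real.exp_sub, Real.exp_log (hpos y), Real.exp_log (hpos y'),
      div_mul_cancel₀ _ (hpos y').ne']
  rw [h2]
  refine mul_le_mul_of_nonneg_right ?_ (hpos y').le
  calc Real.exp (Real.log (h y) - Real.log (h y'))
      ≤ Real.exp (kap α Cd Ck ck ε * (n + 1 / (1 - (2 : ℝ) ^ (-α)))) := Real.exp_le_exp.2 h1
    _ = Real.exp (kap α Cd Ck ck ε * (1 / (1 - (2 : ℝ) ^ (-α)))) *
          Real.exp (kap α Cd Ck ck ε * n) := by
        rw [← Real.exp_add]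
        congr 1
        ring
    _ ≤ 2 * x ^ (α / 4) := by
        refine mul_le_mul H.e2 ?_ (Real.exp_pos _).le two_pos.le
        have h3 : kap α Cd Ck ck ε * n ≤ α / 4 * Real.log 2 * n :=
          mul_le_mul_of_nonneg_right H.e3 (Nat.cast_nonneg n)
        calc Real.exp (kap α Cd Ck ck ε * n) ≤ Real.exp (α / 4 * Real.log 2 * n) :=
              Real.exp_le_exp.2 h3
          _ = ((2 : ℝ) ^ n) ^ (α / 4) := by
              rw [Real.rpow_def_of_pos (by positivity), Real.log_pow]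
              congr 1
              ring
          _ ≤ x ^ (α / 4) := Real.rpow_le_rpow (by positivity) hn1 (by linarith)

/-- The basic weighted sum. -/
theorem weighted_sum (H : MS ω α Cd Ck ck ε J ℓ₀ τ L Z b σ) {i : ℕ} (hi : i < J) {h : X → ℝ}
    (hpos : ∀ y, 0 < h y)
    (hg : ∀ y y', h y ≤ 2 * ((ℓ₀ / 2 ^ i + dist y y') / (ℓ₀ / 2 ^ i)) ^ (α / 4) * h y') (y : X) :
    ∑ z ∈ Z i, h z * (Ck * ω.real (ball z (ℓ₀ / 2 ^ i)) * Theta ω α (ℓ₀ / 2 ^ i) z y) ≤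
      cA α Cd Ck * h y := by
  have hα := H.hα
  have hCk : 0 ≤ Ck := zero_le_one.trans H.hCk
  have hsum := H.dbl.sum_Theta_le' (β := α - α / 4) (by linarith) (H.two_le hi) (H.sep i hi) y
  calc ∑ z ∈ Z i, h z * (Ck * ω.real (ball z (ℓ₀ / 2 ^ i)) * Theta ω α (ℓ₀ / 2 ^ i) z y)
      ≤ ∑ z ∈ Z i, 2 * Ck * h y * (ω.real (ball z (ℓ₀ / 2 ^ i)) *
          Theta ω (α - α / 4) (ℓ₀ / 2 ^ i) z y) := by
        refine Finset.sum_le_sum fun z _ => ?_
        rw [← Theta_shift (H.lpos i) z y, dist_comm y z]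
        have h1 := hg z y
        have h2 : 0 ≤ Ck * ω.real (ball z (ℓ₀ / 2 ^ i)) * Theta ω α (ℓ₀ / 2 ^ i) z y :=
          mul_nonneg (mul_nonneg hCk measureReal_nonneg) (Theta_nonneg (H.lpos i) z y)
        calc h z * (Ck * ω.real (ball z (ℓ₀ / 2 ^ i)) * Theta ω α (ℓ₀ / 2 ^ i) z y)
            ≤ (2 * ((ℓ₀ / 2 ^ i + dist z y) / (ℓ₀ / 2 ^ i)) ^ (α / 4) * h y) *
              (Ck * ω.real (ball z (ℓ₀ / 2 ^ i)) * Theta ω α (ℓ₀ / 2 ^ i) z y) :=
              mul_le_mul_of_nonneg_right h1 h2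
          _ = _ := by ring
    _ = 2 * Ck * h y * ∑ z ∈ Z i, (ω.real (ball z (ℓ₀ / 2 ^ i)) *
          Theta ω (α - α / 4) (ℓ₀ / 2 ^ i) z y) := by rw [Finset.mul_sum]
    _ ≤ 2 * Ck * h y * (Cd * (Cd ^ 3 / (1 - (2 : ℝ) ^ (-(α - α / 4))))) := by
        have := hpos y
        exact mul_le_mul_of_nonneg_left hsum (by positivity)
    _ = cA α Cd Ck * h y := by
        unfold cA
        ring

theorem N_bound (H : MS ω α Cd Ck ck ε J ℓ₀ τ L Z b σ) {i : ℕ} (hi : i < J) {h : X → ℝ}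
    (hpos : ∀ y, 0 < h y)
    (hg : ∀ y y', h y ≤ 2 * ((ℓ₀ / 2 ^ i + dist y y') / (ℓ₀ / 2 ^ i)) ^ (α / 4) * h y') (y : X) :
    |ε * ∑ z ∈ Z i, σ i z * h z * b i z y| ≤ ε * cA α Cd Ck * h y := by
  rw [abs_mul, abs_of_pos H.hε, mul_assoc]
  refine mul_le_mul_of_nonneg_left ?_ H.hε.le
  refine (Finset.abs_sum_le_sum_abs _ _).trans (le_trans ?_ (H.weighted_sum hi hpos hg y))
  refine Finset.sum_le_sum fun z hz => ?_
  rw [abs_mul, abs_mul, abs_of_pos (hpos z)]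
  have h1 := H.sigma i z
  have h2 := H.size i hi z hz y
  have h3 := hpos z
  calc |σ i z| * h z * |b i z y| ≤ 1 * h z * |b i z y| := by
        exact mul_le_mul_of_nonneg_right (mul_le_mul_of_nonneg_right h1 h3.le) (abs_nonneg _)
    _ = h z * |b i z y| := by ring
    _ ≤ _ := mul_le_mul_of_nonneg_left h2 h3.le

theorem N_diff (H : MS ω α Cd Ck ck ε J ℓ₀ τ L Z b σ) {i : ℕ} (hi : i < J) {h : X → ℝ}
    (hpos : ∀ y, 0 < h y)
    (hg : ∀ y y', h y ≤ 2 * ((ℓ₀ / 2 ^ i + dist y y') / (ℓ₀ / 2 ^ i)) ^ (α / 4) * h y')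
    (y y' : X) (ht : dist y y' + τ ≤ ck * (ℓ₀ / 2 ^ i)) :
    |ε * ∑ z ∈ Z i, σ i z * h z * b i z y - ε * ∑ z ∈ Z i, σ i z * h z * b i z y'| ≤
      ε * cA α Cd Ck * ((dist y y' + τ) / (ℓ₀ / 2 ^ i)) ^ α * h y := by
  have hd : 0 ≤ dist y y' := dist_nonneg
  have hτ := H.hτ
  have hl := H.lpos i
  have ht0 : 0 ≤ ((dist y y' + τ) / (ℓ₀ / 2 ^ i)) ^ α :=
    Real.rpow_nonneg (div_nonneg (by linarith) hl.le) _
  rw [← mul_sub, ← Finset.sum_sub_distrib, abs_mul, abs_of_pos H.hε]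
  have e : ε * cA α Cd Ck * ((dist y y' + τ) / (ℓ₀ / 2 ^ i)) ^ α * h y =
      ε * (((dist y y' + τ) / (ℓ₀ / 2 ^ i)) ^ α * (cA α Cd Ck * h y)) := by ring
  rw [e]
  refine mul_le_mul_of_nonneg_left ?_ H.hε.le
  refine (Finset.abs_sum_le_sum_abs _ _).trans (le_trans ?_
    (mul_le_mul_of_nonneg_left (H.weighted_sum hi hpos hg y) ht0))
  rw [Finset.mul_sum]
  refine Finset.sum_le_sum fun z hz => ?_
  rw [← mul_sub, abs_mul, abs_mul, abs_of_pos (hpos z)]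
  have h1 := H.sigma i z
  have h2 := H.holder i hi z hz y y' ht
  have h3 := hpos z
  calc |σ i z| * h z * |b i z y - b i z y'| ≤ 1 * h z * |b i z y - b i z y'| := by
        exact mul_le_mul_of_nonneg_right (mul_le_mul_of_nonneg_right h1 h3.le) (abs_nonneg _)
    _ = h z * |b i z y - b i z y'| := by ring
    _ ≤ h z * (Ck * ω.real (ball z (ℓ₀ / 2 ^ i)) *
      ((dist y y' + τ) / (ℓ₀ / 2 ^ i)) ^ α * Theta ω α (ℓ₀ / 2 ^ i) z y) :=
        mul_le_mul_of_nonneg_left h2 h3.le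
    _ = _ := by ring

/-- The growth estimates `(G1)`, `(G2)`. -/
theorem growth (H : MS ω α Cd Ck ck ε J ℓ₀ τ L Z b σ) : ∀ i, i ≤ J →
    (∀ y, 0 < hfun ε Z σ b i y) ∧
    ∀ y y', |Real.log (hfun ε Z σ b i y) - Real.log (hfun ε Z σ b i y')| ≤
      kap α Cd Ck ck ε * Phi ℓ₀ α i (dist y y' + τ) := by
  intro i
  induction i with
  | zero =>
    intro _
    refine ⟨fun y => ?_, fun y y' => ?_⟩
    · change (0 : ℝ) < 1
      exact one_pos
    · change |Real.log (1 : ℝ) - Real.log (1 : ℝ)| ≤ _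
      rw [sub_self, abs_zero]
      exact mul_nonneg H.kap_nonneg (Phi_nonneg H.hℓ (add_nonneg dist_nonneg H.hτ) 0)
  | succ i ih =>
    intro hi
    obtain ⟨hpos, hlog⟩ := ih (by omega)
    have hiJ : i < J := hi
    have hg := H.g3 hiJ.le hpos hlog
    set h : X → ℝ := hfun ε Z σ b i with hh
    set N : X → ℝ := fun y => ε * ∑ z ∈ Z i, σ i z * h z * b i z y with hN
    have hsucc : ∀ y, hfun ε Z σ b (i + 1) y = h y + N y := fun y => rfl
    have hA0 := H.cA_nonneg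
    have hε := H.hε
    have hα := H.hα
    have hNb : ∀ y, |N y| ≤ ε * cA α Cd Ck * h y := H.N_bound hiJ hpos hg
    -- the quotients
    set a : X → ℝ := fun y => N y / h y with ha
    have hab : ∀ y, |a y| ≤ ε * cA α Cd Ck := fun y => by
      rw [ha]
      simp only
      rw [abs_div, abs_of_pos (hpos y), div_le_iff₀ (hpos y)]
      exact hNb y
    have ha4 : ∀ y, |a y| ≤ 1 / 4 := fun y => (hab y).trans H.e1
    have hfac : ∀ y, h y + N y = h y * (1 + a y) := fun y => by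
      rw [ha]
      simp only
      rw [mul_add, mul_one, mul_div_cancel₀ _ (hpos y).ne']
    have h1a : ∀ y, 3 / 4 ≤ 1 + a y := fun y => by
      have := (abs_le.1 (ha4 y)).1
      linarith
    refine ⟨fun y => ?_, fun y y' => ?_⟩
    · rw [hsucc, hfac]
      exact mul_pos (hpos y) (by linarith [h1a y])
    · rw [hsucc, hsucc, hfac, hfac, Real.log_mul (hpos y).ne' (by linarith [h1a y]),
        Real.log_mul (hpos y').ne' (by linarith [h1a y']), Phi_succ, mul_add]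
      have e : Real.log (h y) + Real.log (1 + a y) - (Real.log (h y') + Real.log (1 + a y'))
          = (Real.log (h y) - Real.log (h y')) + (Real.log (1 + a y) - Real.log (1 + a y')) := by
        ring
      rw [e]
      refine (abs_add_le _ _).trans (add_le_add (hlog y y') ?_)
      have hl := H.lpos i
      have hd : 0 ≤ dist y y' := dist_nonneg
      have hτ := H.hτ
      set t : ℝ := dist y y' + τ with ht
      have ht0 : 0 ≤ t := by linarith
      have hlg := abs_log_sub_le (h1a y) (h1a y')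
      rw [add_sub_add_left_eq_sub] at hlg
      have hck := H.hck
      have hck1 := H.hck1
      have hckα : 1 ≤ ck ^ (-α) := by
        rw [Real.rpow_neg hck.le]
        exact (one_le_inv₀ (Real.rpow_pos_of_pos hck _)).2 (Real.rpow_le_one hck.le hck1 hα.le)
      by_cases hcase : t ≤ ck * (ℓ₀ / 2 ^ i)
      · -- close points
        have htl : t / (ℓ₀ / 2 ^ i) ≤ 1 := by
          rw [div_le_one hl]
          nlinarith
        have htl0 : 0 ≤ t / (ℓ₀ / 2 ^ i) := div_nonneg ht0 hl.le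
        set s : ℝ := (t / (ℓ₀ / 2 ^ i)) ^ α with hs
        have hs0 : 0 ≤ s := Real.rpow_nonneg htl0 _
        have hs1 : s ≤ 1 := Real.rpow_le_one htl0 htl hα.le
        have hNd : |N y - N y'| ≤ ε * cA α Cd Ck * s * h y :=
          H.N_diff hiJ hpos hg y y' hcase
        have hPs := Phi_le_small (ℓ₀ := ℓ₀) hα H.hℓ ht0 i
        have hkP : kap α Cd Ck ck ε * Phi ℓ₀ α i t ≤ 1 / 2 * s := by
          calc kap α Cd Ck ck ε * Phi ℓ₀ α i t
              ≤ kap α Cd Ck ck ε * (1 / (1 - (2 : ℝ) ^ (-α)) * s) :=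
                mul_le_mul_of_nonneg_left hPs H.kap_nonneg
            _ = kap α Cd Ck ck ε * (1 / (1 - (2 : ℝ) ^ (-α))) * s := by ring
            _ ≤ 1 / 2 * s := mul_le_mul_of_nonneg_right H.e4 hs0
        have hquot : |h y' / h y - 1| ≤ s := by
          have e1 : h y' / h y = Real.exp (Real.log (h y') - Real.log (h y)) := by
            rw [Real.exp_sub, Real.exp_log (hpos y), Real.exp_log (hpos y')]
          have e2 : |Real.log (h y') - Real.log (h y)| ≤ 1 / 2 * s := by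
            rw [abs_sub_comm]
            exact (hlog y y').trans hkP
          rw [e1]
          refine (Real.abs_exp_sub_one_le (e2.trans (by linarith))).trans ?_
          linarith
        have haa : |a y - a y'| ≤ 2 * (ε * cA α Cd Ck) * s := by
          have e3 : a y - a y' = (N y - N y') / h y + a y' * (h y' / h y - 1) := by
            have h1 := (hpos y).ne'
            have h2 := (hpos y').ne'
            rw [ha]
            simp only
            field_simp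
            ring
          rw [e3]
          refine (abs_add_le _ _).trans ?_
          rw [abs_div, abs_of_pos (hpos y), abs_mul]
          have h4 : |N y - N y'| / h y ≤ ε * cA α Cd Ck * s := by
            rw [div_le_iff₀ (hpos y)]
            exact hNd
          have h5 : |a y'| * |h y' / h y - 1| ≤ ε * cA α Cd Ck * s :=
            mul_le_mul (hab y') hquot (abs_nonneg _) (by positivity)
          linarith
        have hmin : min 1 (t / (ℓ₀ / 2 ^ i)) = t / (ℓ₀ / 2 ^ i) := min_eq_right htl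
        rw [hmin, ← hs]
        have hpos' : 0 ≤ ε * cA α Cd Ck * s := by positivity
        calc |Real.log (1 + a y) - Real.log (1 + a y')| ≤ 4 / 3 * |a y - a y'| := hlg
          _ ≤ 4 / 3 * (2 * (ε * cA α Cd Ck) * s) := mul_le_mul_of_nonneg_left haa (by norm_num)
          _ ≤ 6 * (ε * cA α Cd Ck * s) * 1 := by linarith
          _ ≤ 6 * (ε * cA α Cd Ck * s) * ck ^ (-α) :=
              mul_le_mul_of_nonneg_left hckα (by positivity)
          _ = kap α Cd Ck ck ε * s := by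
              unfold kap
              ring
      · -- far points
        rw [not_le] at hcase
        have h6 : ck ≤ min 1 (t / (ℓ₀ / 2 ^ i)) :=
          le_min hck1 ((le_div_iff₀ hl).2 hcase.le)
        have h7 : ck ^ α ≤ (min 1 (t / (ℓ₀ / 2 ^ i))) ^ α := Real.rpow_le_rpow hck.le h6 hα.le
        have h8 : ck ^ (-α) * ck ^ α = 1 := by
          rw [← Real.rpow_add hck, neg_add_cancel, Real.rpow_zero]
        have haa : |a y - a y'| ≤ 2 * (ε * cA α Cd Ck) := by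
          refine (abs_sub _ _).trans ?_
          linarith [hab y, hab y']
        have hckpos : 0 < ck ^ (-α) := Real.rpow_pos_of_pos hck _
        have hpos' : 0 ≤ ε * cA α Cd Ck := by positivity
        calc |Real.log (1 + a y) - Real.log (1 + a y')| ≤ 4 / 3 * |a y - a y'| := hlg
          _ ≤ 4 / 3 * (2 * (ε * cA α Cd Ck)) := mul_le_mul_of_nonneg_left haa (by norm_num)
          _ ≤ 6 * (ε * cA α Cd Ck) * 1 := by linarith
          _ = 6 * (ε * cA α Cd Ck) * (ck ^ (-α) * ck ^ α) := by rw [h8]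
          _ ≤ 6 * (ε * cA α Cd Ck) * (ck ^ (-α) * (min 1 (t / (ℓ₀ / 2 ^ i))) ^ α) := by
              refine mul_le_mul_of_nonneg_left ?_ (by positivity)
              exact mul_le_mul_of_nonneg_left h7 hckpos.le
          _ = kap α Cd Ck ck ε * (min 1 (t / (ℓ₀ / 2 ^ i))) ^ α := by
              unfold kap
              ring

theorem hpos (H : MS ω α Cd Ck ck ε J ℓ₀ τ L Z b σ) {i : ℕ} (hi : i ≤ J) (y : X) :
    0 < hfun ε Z σ b i y := (H.growth i hi).1 y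

theorem hg (H : MS ω α Cd Ck ck ε J ℓ₀ τ L Z b σ) {i : ℕ} (hi : i ≤ J) (y y' : X) :
    hfun ε Z σ b i y ≤ 2 * ((ℓ₀ / 2 ^ i + dist y y') / (ℓ₀ / 2 ^ i)) ^ (α / 4) *
      hfun ε Z σ b i y' :=
  H.g3 hi (H.growth i hi).1 (H.growth i hi).2 y y'

theorem N_le (H : MS ω α Cd Ck ck ε J ℓ₀ τ L Z b σ) {i : ℕ} (hi : i < J) (y : X) :
    |ε * ∑ z ∈ Z i, σ i z * hfun ε Z σ b i z * b i z y| ≤
      ε * cA α Cd Ck * hfun ε Z σ b i y :=
  H.N_bound hi (fun y => H.hpos hi.le y) (fun y y' => H.hg hi.le y y') y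

theorem h_succ_le (H : MS ω α Cd Ck ck ε J ℓ₀ τ L Z b σ) {i : ℕ} (hi : i < J) (y : X) :
    hfun ε Z σ b (i + 1) y ≤ (1 + ε * cA α Cd Ck) * hfun ε Z σ b i y := by
  have h1 : hfun ε Z σ b (i + 1) y = hfun ε Z σ b i y +
    ε * ∑ z ∈ Z i, σ i z * hfun ε Z σ b i z * b i z y := rfl
  have h2 := (abs_le.1 (H.N_le hi y)).2
  rw [h1]
  linarith

theorem h_add_le (H : MS ω α Cd Ck ck ε J ℓ₀ τ L Z b σ) {i : ℕ} (l : ℕ) (hi : i + l ≤ J) (y : X) :
    hfun ε Z σ b (i + l) y ≤ (1 + ε * cA α Cd Ck) ^ l * hfun ε Z σ b i y := by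
  have hε := H.hε
  have hA0 := H.cA_nonneg
  induction l with
  | zero => simp
  | succ l ih =>
    have h1 := H.h_succ_le (i := i + l) (by omega) y
    have h2 := ih (by omega)
    calc hfun ε Z σ b (i + (l + 1)) y ≤ (1 + ε * cA α Cd Ck) * hfun ε Z σ b (i + l) y := h1
      _ ≤ (1 + ε * cA α Cd Ck) * ((1 + ε * cA α Cd Ck) ^ l * hfun ε Z σ b i y) :=
          mul_le_mul_of_nonneg_left h2 (by positivity)
      _ = _ := by ring

theorem h_bdd (H : MS ω α Cd Ck ck ε J ℓ₀ τ L Z b σ) {i : ℕ} (hi : i ≤ J) (y : X) :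
    hfun ε Z σ b i y ≤ (1 + ε * cA α Cd Ck) ^ i := by
  have := H.h_add_le (i := 0) i (by omega) y
  rw [zero_add] at this
  have h1 : hfun ε Z σ b 0 y = 1 := rfl
  rwa [h1, mul_one] at this

theorem h_meas (H : MS ω α Cd Ck ck ε J ℓ₀ τ L Z b σ) {i : ℕ} (hi : i ≤ J) :
    Measurable (hfun ε Z σ b i) := by
  induction i with
  | zero => exact measurable_const
  | succ i ih =>
    have h1 : hfun ε Z σ b (i + 1) = fun y => hfun ε Z σ b i y +
      ε * ∑ z ∈ Z i, σ i z * hfun ε Z σ b i z * b i z y := rfl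
    rw [h1]
    refine (ih (by omega)).add (measurable_const.mul ?_)
    exact Finset.measurable_sum _ fun z hz => measurable_const.mul (H.meas i hi z hz)

theorem b_bdd (H : MS ω α Cd Ck ck ε J ℓ₀ τ L Z b σ) {i : ℕ} (hi : i < J) {z : X}
    (hz : z ∈ Z i) (y : X) : |b i z y| ≤ Ck := by
  refine (H.size i hi z hz y).trans ?_
  have h1 := H.dbl.mul_Theta_le_one H.hα.le (H.lmono hi.le) z y
  have h2 : 0 ≤ Ck := zero_le_one.trans H.hCk
  nlinarith

theorem h_int (H : MS ω α Cd Ck ck ε J ℓ₀ τ L Z b σ) {i : ℕ} (hi : i ≤ J) :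
    Integrable (hfun ε Z σ b i) ω := by
  refine Integrable.of_bound (H.h_meas hi).aestronglyMeasurable
    ((1 + ε * cA α Cd Ck) ^ i) (Filter.Eventually.of_forall fun y => ?_)
  rw [Real.norm_eq_abs, abs_of_pos (H.hpos hi y)]
  exact H.h_bdd hi y

theorem b_int (H : MS ω α Cd Ck ck ε J ℓ₀ τ L Z b σ) {i : ℕ} (hi : i < J) {z : X}
    (hz : z ∈ Z i) : Integrable (b i z) ω :=
  Integrable.of_bound (H.meas i hi z hz).aestronglyMeasurable Ck
    (Filter.Eventually.of_forall fun y => by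
      rw [Real.norm_eq_abs]
      exact H.b_bdd hi hz y)

theorem h_integral (H : MS ω α Cd Ck ck ε J ℓ₀ τ L Z b σ) {i : ℕ} (hi : i ≤ J) :
    ∫ y, hfun ε Z σ b i y ∂ω = 1 := by
  induction i with
  | zero =>
    have h1 : hfun ε Z σ b 0 = fun _ => 1 := rfl
    rw [h1]
    simp
  | succ i ih =>
    have h1 : hfun ε Z σ b (i + 1) = fun y => hfun ε Z σ b i y +
      ε * ∑ z ∈ Z i, σ i z * hfun ε Z σ b i z * b i z y := rfl
    have hint : ∀ z ∈ Z i, Integrable (fun y => σ i z * hfun ε Z σ b i z * b i z y) ω :=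
      fun z hz => (H.b_int hi hz).const_mul _
    rw [h1, integral_add (H.h_int (by omega)) ((integrable_finsetSum _ hint).const_mul _),
      ih (by omega), integral_const_mul, integral_finsetSum _ hint]
    have : ∑ z ∈ Z i, ∫ y, σ i z * hfun ε Z σ b i z * b i z y ∂ω = 0 := by
      refine Finset.sum_eq_zero fun z hz => ?_
      rw [integral_const_mul, H.int0 i hi z hz, mul_zero]
    rw [this, mul_zero, add_zero]

end MS

end

end Pool.Agent.MP_578f25_an
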