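import Pool.Agent.Lib.MP_578f25_an.MultiDefs

/-!
# The kernels `Theta`: integral and sum bounds
-/

set_option autoImplicit false
set_option linter.unusedSectionVars false

namespace Pool.Agent.MP_578f25_an

open MeasureTheory Metric

theorem geom_sum_le {r : ℝ} (h0 : 0 ≤ r) (h1 : r < 1) (N : ℕ) :
    ∑ n ∈ Finset.range N, r ^ n ≤ 1 / (1 - r) := by
  have h2 : 0 < 1 - r := by linarith
  rw [le_div_iff₀ h2, geom_sum_mul_neg]
  linarith [pow_nonneg h0 N]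

theorem two_rpow_neg_lt_one {β : ℝ} (hβ : 0 < β) : (2 : ℝ) ^ (-β) < 1 :=
  Real.rpow_lt_one_of_one_lt_of_neg one_lt_two (by linarith)

theorem two_rpow_neg_pos (β : ℝ) : 0 < (2 : ℝ) ^ (-β) := Real.rpow_pos_of_pos two_pos _

section

variable {X : Type} [MetricSpace X] [MeasurableSpace X] [BorelSpace X] {ω : Measure X}
  [IsProbabilityMeasure ω]

/-- The measure `ω` is doubling above the scale `ρ`. -/
structure Dbl (ω : Measure X) (Cd ρ L : ℝ) : Prop where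
  one_le : 1 ≤ Cd
  pos : 0 < ρ
  bdd : ∀ y y' : X, dist y y' ≤ L
  mpos : ∀ (y : X) (r : ℝ), ρ ≤ r → 0 < ω.real (ball y r)
  dbl : ∀ (y : X) (r : ℝ), ρ ≤ r → ω.real (ball y (2 * r)) ≤ Cd * ω.real (ball y r)

theorem m_mono (z : X) {r r' : ℝ} (h : r ≤ r') : ω.real (ball z r) ≤ ω.real (ball z r') :=
  measureReal_mono (ball_subset_ball h)

theorem Dbl.swap {Cd ρ L : ℝ} (h : Dbl ω Cd ρ L) {y z : X} {D : ℝ} (hD : ρ ≤ D)
    (hd : dist y z ≤ D) : ω.real (ball y D) ≤ Cd * ω.real (ball z D) := by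
  have : ball y D ⊆ ball z (2 * D) := ball_subset_ball' (by linarith)
  exact (measureReal_mono this).trans (h.dbl z D hD)

theorem Theta_nonneg {β ℓ : ℝ} (hℓ : 0 < ℓ) (z y : X) : 0 ≤ Theta ω β ℓ z y := by
  unfold Theta
  have : 0 ≤ dist y z := dist_nonneg
  exact div_nonneg (Real.rpow_nonneg (div_nonneg hℓ.le (by linarith)) _) measureReal_nonneg

theorem Theta_measurable (β ℓ : ℝ) (z : X) : Measurable fun y => Theta ω β ℓ z y := by
  unfold Theta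
  have h1 : Measurable fun y : X => dist y z := by fun_prop
  have h2 : Measurable fun r : ℝ => ω.real (ball z r) :=
    Monotone.measurable fun r r' h => m_mono z h
  have h3 : Measurable fun y : X => ω.real (ball z (ℓ + dist y z)) := h2.comp (h1.const_add ℓ)
  refine Measurable.div ?_ h3
  exact (measurable_const.div (h1.const_add ℓ)).pow_const _

theorem ratio_nonneg {ℓ s : ℝ} (hℓ : 0 < ℓ) (hs : 0 ≤ s) : 0 ≤ ℓ / (ℓ + s) :=
  div_nonneg hℓ.le (by linarith)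

theorem ratio_le_one {ℓ s : ℝ} (hℓ : 0 < ℓ) (hs : 0 ≤ s) : ℓ / (ℓ + s) ≤ 1 := by
  rw [div_le_one (by linarith)]
  linarith

theorem Dbl.mul_Theta_le_one {Cd ρ L : ℝ} (h : Dbl ω Cd ρ L) {β ℓ : ℝ} (hβ : 0 ≤ β)
    (hℓ : ρ ≤ ℓ) (z y : X) : ω.real (ball z ℓ) * Theta ω β ℓ z y ≤ 1 := by
  have hℓ0 : 0 < ℓ := h.pos.trans_le hℓ
  have hd : 0 ≤ dist y z := dist_nonneg
  unfold Theta
  have h1 : 0 < ω.real (ball z (ℓ + dist y z)) := h.mpos z _ (by linarith)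
  have h2 : (ℓ / (ℓ + dist y z)) ^ β ≤ 1 :=
    Real.rpow_le_one (ratio_nonneg hℓ0 hd) (ratio_le_one hℓ0 hd) hβ
  have h3 : ω.real (ball z ℓ) ≤ ω.real (ball z (ℓ + dist y z)) := m_mono z (by linarith)
  have h4 : 0 ≤ (ℓ / (ℓ + dist y z)) ^ β := Real.rpow_nonneg (ratio_nonneg hℓ0 hd) _
  rw [← mul_div_assoc, div_le_one h1]
  calc ω.real (ball z ℓ) * (ℓ / (ℓ + dist y z)) ^ β
      ≤ ω.real (ball z (ℓ + dist y z)) * 1 :=
        mul_le_mul h3 h2 h4 measureReal_nonneg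
    _ = _ := mul_one _

theorem Dbl.Theta_le {Cd ρ L : ℝ} (h : Dbl ω Cd ρ L) {β ℓ : ℝ} (hβ : 0 ≤ β) (hℓ : ρ ≤ ℓ)
    (z y : X) : Theta ω β ℓ z y ≤ 1 / ω.real (ball z ℓ) := by
  rw [le_div_iff₀ (h.mpos z ℓ hℓ), mul_comm]
  exact h.mul_Theta_le_one hβ hℓ z y

theorem Dbl.Theta_integrable {Cd ρ L : ℝ} (h : Dbl ω Cd ρ L) {β ℓ : ℝ} (hβ : 0 ≤ β)
    (hℓ : ρ ≤ ℓ) (z : X) : Integrable (fun y => Theta ω β ℓ z y) ω := by
  refine Integrable.of_bound (Theta_measurable β ℓ z).aestronglyMeasurable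
    (1 / ω.real (ball z ℓ)) (Filter.Eventually.of_forall fun y => ?_)
  rw [Real.norm_eq_abs, abs_of_nonneg (Theta_nonneg (h.pos.trans_le hℓ) z y)]
  exact h.Theta_le hβ hℓ z y

theorem Theta_shift {β γ ℓ : ℝ} (hℓ : 0 < ℓ) (z y : X) :
    ((ℓ + dist y z) / ℓ) ^ γ * Theta ω β ℓ z y = Theta ω (β - γ) ℓ z y := by
  unfold Theta
  have hd : 0 ≤ dist y z := dist_nonneg
  have h1 : 0 < ℓ / (ℓ + dist y z) := div_pos hℓ (by linarith)
  have h2 : (ℓ + dist y z) / ℓ = (ℓ / (ℓ + dist y z))⁻¹ := by rw [inv_div]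
  rw [h2, Real.inv_rpow h1.le, ← mul_div_assoc, Real.rpow_sub h1, div_eq_inv_mul (_ ^ β)]

theorem Dbl.Theta_swap {Cd ρ L : ℝ} (h : Dbl ω Cd ρ L) {β ℓ : ℝ} (hℓ : ρ ≤ ℓ) (z y : X) :
    Theta ω β ℓ z y ≤ Cd * Theta ω β ℓ y z := by
  have hℓ0 : 0 < ℓ := h.pos.trans_le hℓ
  have hd : 0 ≤ dist y z := dist_nonneg
  unfold Theta
  rw [dist_comm z y]
  have h1 : 0 < ω.real (ball z (ℓ + dist y z)) := h.mpos z _ (by linarith)
  have h1' : 0 < ω.real (ball y (ℓ + dist y z)) := h.mpos y _ (by linarith)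
  have h2 : ω.real (ball y (ℓ + dist y z)) ≤ Cd * ω.real (ball z (ℓ + dist y z)) :=
    h.swap (by linarith) (by linarith)
  rw [← mul_div_assoc, div_le_div_iff₀ h1 h1']
  have h4 : 0 ≤ (ℓ / (ℓ + dist y z)) ^ β := Real.rpow_nonneg (ratio_nonneg hℓ0 hd) _
  nlinarith [mul_le_mul_of_nonneg_left h2 h4]

theorem exists_K (L : ℝ) {ℓ : ℝ} (hℓ : 0 < ℓ) : ∃ K : ℕ, ℓ + L < 2 ^ (K + 1) * ℓ := by
  obtain ⟨K, hK⟩ := pow_unbounded_of_one_lt ((ℓ + L) / ℓ) (one_lt_two (α := ℝ))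
  refine ⟨K, ?_⟩
  rw [div_lt_iff₀ hℓ] at hK
  refine hK.trans_le ?_
  rw [pow_succ]
  have : (0 : ℝ) ≤ 2 ^ K * ℓ := by positivity
  linarith

theorem Dbl.Theta_le_sum {Cd ρ L : ℝ} (h : Dbl ω Cd ρ L) {β ℓ : ℝ} (hβ : 0 ≤ β) (hℓ : ρ ≤ ℓ)
    {K : ℕ} (hK : ℓ + L < 2 ^ (K + 1) * ℓ) (z y : X) :
    Theta ω β ℓ z y ≤ ∑ n ∈ Finset.range (K + 1),
      ((2 : ℝ) ^ (-β)) ^ n / ω.real (ball z (2 ^ n * ℓ)) *
        (if dist y z < 2 ^ (n + 1) * ℓ then 1 else 0) := by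
  have hℓ0 : 0 < ℓ := h.pos.trans_le hℓ
  have hd : 0 ≤ dist y z := dist_nonneg
  have hD : 1 ≤ (ℓ + dist y z) / ℓ := by
    rw [le_div_iff₀ hℓ0]
    linarith
  obtain ⟨n, hn1, hn2⟩ := exists_nat_pow_near hD (one_lt_two (α := ℝ))
  rw [le_div_iff₀ hℓ0] at hn1
  rw [div_lt_iff₀ hℓ0] at hn2
  have hnK : n < K + 1 := by
    have h1 : (2 : ℝ) ^ n * ℓ < 2 ^ (K + 1) * ℓ :=
      lt_of_le_of_lt (hn1.trans (by linarith [h.bdd y z])) hK
    have h2 : (2 : ℝ) ^ n < 2 ^ (K + 1) := lt_of_mul_lt_mul_right h1 hℓ0.le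
    exact (pow_lt_pow_iff_right₀ one_lt_two).1 h2
  have hscale : ∀ n : ℕ, ρ ≤ 2 ^ n * ℓ := by
    intro n
    have : (1 : ℝ) ≤ 2 ^ n := one_le_pow₀ one_le_two
    nlinarith
  have hterm : ∀ n : ℕ, 0 ≤ ((2 : ℝ) ^ (-β)) ^ n / ω.real (ball z (2 ^ n * ℓ)) *
      (if dist y z < 2 ^ (n + 1) * ℓ then 1 else 0) := by
    intro n
    refine mul_nonneg (div_nonneg (pow_nonneg (two_rpow_neg_pos β).le _) measureReal_nonneg) ?_
    split_ifs <;> norm_num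
  refine le_trans ?_ (Finset.single_le_sum (fun n _ => hterm n) (Finset.mem_range.2 hnK))
  rw [if_pos (by linarith), mul_one]
  unfold Theta
  refine div_le_div₀ (pow_nonneg (two_rpow_neg_pos β).le _) ?_ (h.mpos z _ (hscale n))
    (m_mono z hn1)
  have h3 : ℓ / (ℓ + dist y z) ≤ ((2 : ℝ) ^ n)⁻¹ := by
    rw [div_le_iff₀ (by linarith), inv_mul_eq_div, le_div_iff₀ (by positivity)]
    linarith
  calc (ℓ / (ℓ + dist y z)) ^ β ≤ (((2 : ℝ) ^ n)⁻¹) ^ β :=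
        Real.rpow_le_rpow (ratio_nonneg hℓ0 hd) h3 hβ
    _ = ((2 : ℝ) ^ (-β)) ^ n := by
        rw [← Real.rpow_natCast ((2 : ℝ) ^ (-β)) n, ← Real.rpow_mul two_pos.le,
          ← Real.rpow_natCast 2 n, ← Real.rpow_neg two_pos.le, ← Real.rpow_mul two_pos.le]
        ring_nf

/-- LEMMA A. -/
theorem Dbl.integral_Theta_le {Cd ρ L : ℝ} (h : Dbl ω Cd ρ L) {β ℓ : ℝ} (hβ : 0 < β)
    (hℓ : ρ ≤ ℓ) (z : X) :
    ∫ y, Theta ω β ℓ z y ∂ω ≤ Cd / (1 - (2 : ℝ) ^ (-β)) := by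
  have hℓ0 : 0 < ℓ := h.pos.trans_le hℓ
  obtain ⟨K, hK⟩ := exists_K L hℓ0
  have hscale : ∀ n : ℕ, ρ ≤ 2 ^ n * ℓ := by
    intro n
    have : (1 : ℝ) ≤ 2 ^ n := one_le_pow₀ one_le_two
    nlinarith
  have hind : ∀ n : ℕ, (fun y : X => ((2 : ℝ) ^ (-β)) ^ n / ω.real (ball z (2 ^ n * ℓ)) *
      (if dist y z < 2 ^ (n + 1) * ℓ then 1 else 0)) =
      (ball z (2 ^ (n + 1) * ℓ)).indicator
        (fun _ => ((2 : ℝ) ^ (-β)) ^ n / ω.real (ball z (2 ^ n * ℓ))) := by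
    intro n
    ext y
    by_cases hy : dist y z < 2 ^ (n + 1) * ℓ
    · rw [if_pos hy, mul_one, Set.indicator_of_mem (mem_ball.2 hy)]
    · rw [if_neg hy, mul_zero, Set.indicator_of_notMem (fun h' => hy (mem_ball.1 h'))]
  have hint : ∀ n : ℕ, Integrable (fun y : X => ((2 : ℝ) ^ (-β)) ^ n /
      ω.real (ball z (2 ^ n * ℓ)) * (if dist y z < 2 ^ (n + 1) * ℓ then 1 else 0)) ω := by
    intro n
    rw [hind n]
    exact (integrable_const _).indicator measurableSet_ball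
  calc ∫ y, Theta ω β ℓ z y ∂ω
      ≤ ∫ y, ∑ n ∈ Finset.range (K + 1), ((2 : ℝ) ^ (-β)) ^ n /
          ω.real (ball z (2 ^ n * ℓ)) * (if dist y z < 2 ^ (n + 1) * ℓ then 1 else 0) ∂ω := by
        refine integral_mono (h.Theta_integrable hβ.le hℓ z)
          (integrable_finsetSum _ fun n _ => hint n) fun y => h.Theta_le_sum hβ.le hℓ hK z y
    _ = ∑ n ∈ Finset.range (K + 1), ((2 : ℝ) ^ (-β)) ^ n /
          ω.real (ball z (2 ^ n * ℓ)) * ω.real (ball z (2 ^ (n + 1) * ℓ)) := by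
        rw [integral_finsetSum _ fun n _ => hint n]
        refine Finset.sum_congr rfl fun n _ => ?_
        rw [hind n, integral_indicator_const _ measurableSet_ball, smul_eq_mul, mul_comm]
    _ ≤ ∑ n ∈ Finset.range (K + 1), ((2 : ℝ) ^ (-β)) ^ n * Cd := by
        refine Finset.sum_le_sum fun n _ => ?_
        have h1 := h.mpos z _ (hscale n)
        have h2 := h.dbl z _ (hscale n)
        rw [div_mul_eq_mul_div, div_le_iff₀ h1, mul_assoc]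
        refine mul_le_mul_of_nonneg_left ?_ (pow_nonneg (two_rpow_neg_pos β).le _)
        have e : (2 : ℝ) ^ (n + 1) * ℓ = 2 * (2 ^ n * ℓ) := by ring
        rw [e]
        exact h2
    _ = (∑ n ∈ Finset.range (K + 1), ((2 : ℝ) ^ (-β)) ^ n) * Cd := by rw [Finset.sum_mul]
    _ ≤ 1 / (1 - (2 : ℝ) ^ (-β)) * Cd :=
        mul_le_mul_of_nonneg_right (geom_sum_le (two_rpow_neg_pos β).le
          (two_rpow_neg_lt_one hβ) _) (zero_le_one.trans h.one_le)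
    _ = Cd / (1 - (2 : ℝ) ^ (-β)) := by ring

/-- The mass of a separated set. -/
theorem Dbl.sum_mass_le {Cd ρ L : ℝ} (h : Dbl ω Cd ρ L) {ℓ : ℝ} (hℓ : 2 * ρ ≤ ℓ) {Z : Finset X}
    (hZ : ∀ z ∈ Z, ∀ z' ∈ Z, z ≠ z' → ℓ ≤ dist z z') (y : X) {R : ℝ} (hR : ℓ ≤ R) :
    ∑ z ∈ Z.filter (fun z => dist z y < 2 * R), ω.real (ball z ℓ) ≤
      Cd ^ 3 * ω.real (ball y R) := by
  have hCd : 0 ≤ Cd := zero_le_one.trans h.one_le
  have hρ := h.pos
  have h1 : ∑ z ∈ Z.filter (fun z => dist z y < 2 * R), ω.real (ball z (ℓ / 2)) ≤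
      ω.real (ball y (2 * (2 * R))) := by
    rw [← measureReal_biUnion_finset]
    · refine measureReal_mono ?_
      intro x hx
      simp only [Set.mem_iUnion, Finset.mem_filter, exists_prop] at hx
      obtain ⟨z, ⟨-, hz⟩, hxz⟩ := hx
      rw [mem_ball] at hxz ⊢
      have := dist_triangle x z y
      linarith
    · intro z hz z' hz' hne
      simp only [Finset.coe_filter, Set.mem_ofPred_eq] at hz hz'
      refine ball_disjoint_ball ?_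
      have := hZ z hz.1 z' hz'.1 hne
      linarith
    · intro z _
      exact measurableSet_ball
  calc ∑ z ∈ Z.filter (fun z => dist z y < 2 * R), ω.real (ball z ℓ)
      ≤ ∑ z ∈ Z.filter (fun z => dist z y < 2 * R), Cd * ω.real (ball z (ℓ / 2)) := by
        refine Finset.sum_le_sum fun z _ => ?_
        have := h.dbl z (ℓ / 2) (by linarith)
        rwa [mul_div_cancel₀ ℓ (two_ne_zero)] at this
    _ = Cd * ∑ z ∈ Z.filter (fun z => dist z y < 2 * R), ω.real (ball z (ℓ / 2)) := by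
        rw [Finset.mul_sum]
    _ ≤ Cd * ω.real (ball y (2 * (2 * R))) := mul_le_mul_of_nonneg_left h1 hCd
    _ ≤ Cd * (Cd * (Cd * ω.real (ball y R))) := by
        refine mul_le_mul_of_nonneg_left ?_ hCd
        refine (h.dbl y _ (by linarith)).trans ?_
        exact mul_le_mul_of_nonneg_left (h.dbl y _ (by linarith)) hCd
    _ = Cd ^ 3 * ω.real (ball y R) := by ring

/-- LEMMA B. -/
theorem Dbl.sum_Theta_le {Cd ρ L : ℝ} (h : Dbl ω Cd ρ L) {β ℓ ℓ' : ℝ} (hβ : 0 < β)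
    (hℓ : 2 * ρ ≤ ℓ) (hℓ' : ℓ ≤ ℓ') {Z : Finset X}
    (hZ : ∀ z ∈ Z, ∀ z' ∈ Z, z ≠ z' → ℓ ≤ dist z z') (y : X) :
    ∑ z ∈ Z, ω.real (ball z ℓ) * Theta ω β ℓ' y z ≤ Cd ^ 3 / (1 - (2 : ℝ) ^ (-β)) := by
  have hρ := h.pos
  have hCd : 0 ≤ Cd := zero_le_one.trans h.one_le
  have hℓ0 : 0 < ℓ' := by linarith
  obtain ⟨K, hK⟩ := exists_K L hℓ0
  have hscale : ∀ n : ℕ, ℓ' ≤ 2 ^ n * ℓ' := by
    intro n
    have : (1 : ℝ) ≤ 2 ^ n := one_le_pow₀ one_le_two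
    nlinarith
  calc ∑ z ∈ Z, ω.real (ball z ℓ) * Theta ω β ℓ' y z
      ≤ ∑ z ∈ Z, ω.real (ball z ℓ) * ∑ n ∈ Finset.range (K + 1),
        ((2 : ℝ) ^ (-β)) ^ n / ω.real (ball y (2 ^ n * ℓ')) *
          (if dist z y < 2 ^ (n + 1) * ℓ' then 1 else 0) := by
        refine Finset.sum_le_sum fun z _ => mul_le_mul_of_nonneg_left ?_ measureReal_nonneg
        exact h.Theta_le_sum hβ.le (by linarith) hK y z
    _ = ∑ n ∈ Finset.range (K + 1), ((2 : ℝ) ^ (-β)) ^ n / ω.real (ball y (2 ^ n * ℓ')) *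
          ∑ z ∈ Z.filter (fun z => dist z y < 2 * (2 ^ n * ℓ')), ω.real (ball z ℓ) := by
        simp_rw [Finset.mul_sum]
        rw [Finset.sum_comm]
        refine Finset.sum_congr rfl fun n _ => ?_
        rw [Finset.sum_filter]
        refine Finset.sum_congr rfl fun z _ => ?_
        have e : (2 : ℝ) ^ (n + 1) * ℓ' = 2 * (2 ^ n * ℓ') := by ring
        rw [e]
        split_ifs <;> ring
    _ ≤ ∑ n ∈ Finset.range (K + 1), ((2 : ℝ) ^ (-β)) ^ n * Cd ^ 3 := by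
        refine Finset.sum_le_sum fun n _ => ?_
        have h1 := h.mpos y (2 ^ n * ℓ') (by linarith [hscale n])
        have h2 := h.sum_mass_le hℓ hZ y (R := 2 ^ n * ℓ') (by linarith [hscale n])
        rw [div_mul_eq_mul_div, div_le_iff₀ h1, mul_assoc]
        exact mul_le_mul_of_nonneg_left h2 (pow_nonneg (two_rpow_neg_pos β).le _)
    _ = (∑ n ∈ Finset.range (K + 1), ((2 : ℝ) ^ (-β)) ^ n) * Cd ^ 3 := by rw [Finset.sum_mul]
    _ ≤ 1 / (1 - (2 : ℝ) ^ (-β)) * Cd ^ 3 :=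
        mul_le_mul_of_nonneg_right (geom_sum_le (two_rpow_neg_pos β).le
          (two_rpow_neg_lt_one hβ) _) (pow_nonneg hCd 3)
    _ = Cd ^ 3 / (1 - (2 : ℝ) ^ (-β)) := by ring

/-- LEMMA B with the roles of the two points exchanged. -/
theorem Dbl.sum_Theta_le' {Cd ρ L : ℝ} (h : Dbl ω Cd ρ L) {β ℓ : ℝ} (hβ : 0 < β)
    (hℓ : 2 * ρ ≤ ℓ) {Z : Finset X}
    (hZ : ∀ z ∈ Z, ∀ z' ∈ Z, z ≠ z' → ℓ ≤ dist z z') (y : X) :
    ∑ z ∈ Z, ω.real (ball z ℓ) * Theta ω β ℓ z y ≤ Cd * (Cd ^ 3 / (1 - (2 : ℝ) ^ (-β))) := by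
  have hρ := h.pos
  have hCd : 0 ≤ Cd := zero_le_one.trans h.one_le
  refine le_trans ?_ (mul_le_mul_of_nonneg_left (h.sum_Theta_le hβ hℓ le_rfl hZ y) hCd)
  rw [Finset.mul_sum]
  refine Finset.sum_le_sum fun z _ => ?_
  have := mul_le_mul_of_nonneg_left (h.Theta_swap (β := β) (ℓ := ℓ) (by linarith) z y)
    (measureReal_nonneg (μ := ω) (s := ball z ℓ))
  linarith

end

end Pool.Agent.MP_578f25_an
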